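import Pool.Agent.Lib.MP_6f5d36_co.L6.T5
import Pool.Agent.Lib.MP_6f5d36_co.L6.Tab0
import Pool.Agent.Lib.MP_6f5d36_co.L6.Tab1
import Pool.Agent.Lib.MP_6f5d36_co.L6.Tab2
import Pool.Agent.Lib.MP_6f5d36_co.L6.Tab3

set_option autoImplicit false

/-!
# MP_6f5d36_co : the table `E6` of the patterns of six points which are left
-/

noncomputable section

namespace CR.L6

set_option maxRecDepth 100000

/-- the tree of the tables `E6_j` -/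
def EE : BT :=
(.nd (.nd (.nd (.nd (.nd (.nd (.nd (.nd (.nd (.nd (.nd (.lf 0) (.lf E6_1024)) (.lf 0)) (.nd (.lf
0) (.nd (.lf E6_768) (.lf 0)))) (.nd (.nd (.nd (.lf 0) (.lf E6_1152)) (.nd (.lf E6_640) (.lf
0))) (.nd (.lf 0) (.nd (.lf E6_896) (.lf 0))))) (.nd (.nd (.nd (.nd (.lf 0) (.lf E6_1088)) (.nd
(.lf E6_576) (.lf 0))) (.nd (.lf 0) (.nd (.lf E6_832) (.lf 0)))) (.nd (.nd (.lf 0) (.nd (.lf
E6_704) (.lf 0))) (.nd (.lf 0) (.nd (.lf E6_960) (.lf 0)))))) (.nd (.nd (.nd (.nd (.nd (.lf 0)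
(.lf E6_1056)) (.nd (.lf E6_544) (.lf 0))) (.nd (.lf 0) (.nd (.lf E6_800) (.lf 0)))) (.nd (.nd
(.nd (.lf 0) (.lf E6_1184)) (.nd (.lf E6_672) (.lf 0))) (.nd (.lf 0) (.nd (.lf E6_928) (.lf
0))))) (.nd (.nd (.nd (.nd (.lf 0) (.lf E6_1120)) (.nd (.lf E6_608) (.lf 0))) (.nd (.lf 0) (.nd
(.lf E6_864) (.lf 0)))) (.nd (.nd (.lf 0) (.nd (.lf E6_736) (.lf 0))) (.nd (.lf 0) (.nd (.lf
E6_992) (.lf 0))))))) (.nd (.nd (.nd (.nd (.nd (.nd (.lf 0) (.lf E6_1040)) (.lf 0)) (.nd (.lf 0)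
(.nd (.lf E6_784) (.lf 0)))) (.nd (.nd (.nd (.lf 0) (.lf E6_1168)) (.nd (.lf E6_656) (.lf 0)))
(.nd (.lf 0) (.nd (.lf E6_912) (.lf 0))))) (.nd (.nd (.nd (.nd (.lf 0) (.lf E6_1104)) (.nd (.lf
E6_592) (.lf 0))) (.nd (.lf 0) (.nd (.lf E6_848) (.lf 0)))) (.nd (.nd (.lf 0) (.nd (.lf E6_720)
(.lf 0))) (.nd (.lf 0) (.nd (.lf E6_976) (.lf 0)))))) (.nd (.nd (.nd (.nd (.nd (.lf 0) (.lf
E6_1072)) (.nd (.lf E6_560) (.lf 0))) (.nd (.lf 0) (.nd (.lf E6_816) (.lf 0)))) (.nd (.nd (.nd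
(.lf 0) (.lf E6_1200)) (.nd (.lf E6_688) (.lf 0))) (.nd (.lf 0) (.nd (.lf E6_944) (.lf 0)))))
(.nd (.nd (.nd (.nd (.lf 0) (.lf E6_1136)) (.nd (.lf E6_624) (.lf 0))) (.nd (.lf 0) (.nd (.lf
E6_880) (.lf 0)))) (.nd (.nd (.lf 0) (.nd (.lf E6_752) (.lf 0))) (.nd (.lf 0) (.nd (.lf E6_1008)
(.lf 0)))))))) (.nd (.nd (.nd (.nd (.nd (.nd (.nd (.lf 0) (.lf E6_1032)) (.lf 0)) (.nd (.lf 0)
(.nd (.lf E6_776) (.lf 0)))) (.nd (.nd (.nd (.lf 0) (.lf E6_1160)) (.nd (.lf E6_648) (.lf 0)))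
(.nd (.lf 0) (.nd (.lf E6_904) (.lf 0))))) (.nd (.nd (.nd (.nd (.lf 0) (.lf E6_1096)) (.nd (.lf
E6_584) (.lf 0))) (.nd (.lf 0) (.nd (.lf E6_840) (.lf 0)))) (.nd (.nd (.lf 0) (.nd (.lf E6_712)
(.lf 0))) (.nd (.lf 0) (.nd (.lf E6_968) (.lf 0)))))) (.nd (.nd (.nd (.nd (.nd (.lf 0) (.lf
E6_1064)) (.nd (.lf E6_552) (.lf 0))) (.nd (.lf 0) (.nd (.lf E6_808) (.lf 0)))) (.nd (.nd (.nd
(.lf 0) (.lf E6_1192)) (.nd (.lf E6_680) (.lf 0))) (.nd (.lf 0) (.nd (.lf E6_936) (.lf 0)))))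
(.nd (.nd (.nd (.nd (.lf 0) (.lf E6_1128)) (.nd (.lf E6_616) (.lf 0))) (.nd (.lf 0) (.nd (.lf
E6_872) (.lf 0)))) (.nd (.nd (.lf 0) (.nd (.lf E6_744) (.lf 0))) (.nd (.lf 0) (.nd (.lf E6_1000)
(.lf 0))))))) (.nd (.nd (.nd (.nd (.nd (.nd (.lf 0) (.lf E6_1048)) (.nd (.lf E6_536) (.lf 0)))
(.nd (.lf 0) (.nd (.lf E6_792) (.lf 0)))) (.nd (.nd (.nd (.lf 0) (.lf E6_1176)) (.nd (.lf
E6_664) (.lf 0))) (.nd (.lf 0) (.nd (.lf E6_920) (.lf 0))))) (.nd (.nd (.nd (.nd (.lf 0) (.lf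
E6_1112)) (.nd (.lf E6_600) (.lf 0))) (.nd (.lf 0) (.nd (.lf E6_856) (.lf 0)))) (.nd (.nd (.lf
0) (.nd (.lf E6_728) (.lf 0))) (.nd (.lf 0) (.nd (.lf E6_984) (.lf 0)))))) (.nd (.nd (.nd (.nd
(.nd (.lf 0) (.lf E6_1080)) (.nd (.lf E6_568) (.lf 0))) (.nd (.lf 0) (.nd (.lf E6_824) (.lf
0)))) (.nd (.nd (.lf 0) (.nd (.lf E6_696) (.lf 0))) (.nd (.lf 0) (.nd (.lf E6_952) (.lf 0)))))
(.nd (.nd (.nd (.nd (.lf 0) (.lf E6_1144)) (.nd (.lf E6_632) (.lf 0))) (.nd (.lf 0) (.nd (.lf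
E6_888) (.lf 0)))) (.nd (.nd (.lf 0) (.nd (.lf E6_760) (.lf 0))) (.nd (.lf 0) (.nd (.lf E6_1016)
(.lf 0))))))))) (.nd (.nd (.nd (.nd (.nd (.nd (.nd (.nd (.lf 0) (.lf E6_1028)) (.lf 0)) (.nd
(.lf 0) (.nd (.lf E6_772) (.lf 0)))) (.nd (.nd (.nd (.lf 0) (.lf E6_1156)) (.nd (.lf E6_644)
(.lf 0))) (.nd (.lf 0) (.nd (.lf E6_900) (.lf 0))))) (.nd (.nd (.nd (.nd (.lf 0) (.lf E6_1092))
(.nd (.lf E6_580) (.lf 0))) (.nd (.lf 0) (.nd (.lf E6_836) (.lf 0)))) (.nd (.nd (.lf 0) (.nd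
(.lf E6_708) (.lf 0))) (.nd (.lf 0) (.nd (.lf E6_964) (.lf 0)))))) (.nd (.nd (.nd (.nd (.nd (.lf
0) (.lf E6_1060)) (.nd (.lf E6_548) (.lf 0))) (.nd (.lf 0) (.nd (.lf E6_804) (.lf 0)))) (.nd
(.nd (.nd (.lf 0) (.lf E6_1188)) (.nd (.lf E6_676) (.lf 0))) (.nd (.lf 0) (.nd (.lf E6_932) (.lf
0))))) (.nd (.nd (.nd (.nd (.lf 0) (.lf E6_1124)) (.nd (.lf E6_612) (.lf 0))) (.nd (.lf 0) (.nd
(.lf E6_868) (.lf 0)))) (.nd (.nd (.lf 0) (.nd (.lf E6_740) (.lf 0))) (.nd (.lf 0) (.nd (.lf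
E6_996) (.lf 0))))))) (.nd (.nd (.nd (.nd (.nd (.nd (.lf 0) (.lf E6_1044)) (.nd (.lf E6_532)
(.lf 0))) (.nd (.lf 0) (.nd (.lf E6_788) (.lf 0)))) (.nd (.nd (.nd (.lf 0) (.lf E6_1172)) (.nd
(.lf E6_660) (.lf 0))) (.nd (.lf 0) (.nd (.lf E6_916) (.lf 0))))) (.nd (.nd (.nd (.nd (.lf 0)
(.lf E6_1108)) (.nd (.lf E6_596) (.lf 0))) (.nd (.lf 0) (.nd (.lf E6_852) (.lf 0)))) (.nd (.nd
(.lf 0) (.nd (.lf E6_724) (.lf 0))) (.nd (.lf 0) (.nd (.lf E6_980) (.lf 0)))))) (.nd (.nd (.nd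
(.nd (.nd (.lf 0) (.lf E6_1076)) (.nd (.lf E6_564) (.lf 0))) (.nd (.lf 0) (.nd (.lf E6_820) (.lf
0)))) (.nd (.nd (.nd (.lf 0) (.lf E6_1204)) (.nd (.lf E6_692) (.lf 0))) (.nd (.lf 0) (.nd (.lf
E6_948) (.lf 0))))) (.nd (.nd (.nd (.nd (.lf 0) (.lf E6_1140)) (.nd (.lf E6_628) (.lf 0))) (.nd
(.lf 0) (.nd (.lf E6_884) (.lf 0)))) (.nd (.nd (.lf 0) (.nd (.lf E6_756) (.lf 0))) (.nd (.lf 0)
(.nd (.lf E6_1012) (.lf 0)))))))) (.nd (.nd (.nd (.nd (.nd (.nd (.nd (.lf 0) (.lf E6_1036)) (.lf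
0)) (.nd (.lf 0) (.nd (.lf E6_780) (.lf 0)))) (.nd (.nd (.nd (.lf 0) (.lf E6_1164)) (.nd (.lf
E6_652) (.lf 0))) (.nd (.lf 0) (.nd (.lf E6_908) (.lf 0))))) (.nd (.nd (.nd (.nd (.lf 0) (.lf
E6_1100)) (.nd (.lf E6_588) (.lf 0))) (.nd (.lf 0) (.nd (.lf E6_844) (.lf 0)))) (.nd (.nd (.lf
0) (.nd (.lf E6_716) (.lf 0))) (.nd (.lf 0) (.nd (.lf E6_972) (.lf 0)))))) (.nd (.nd (.nd (.nd
(.nd (.lf 0) (.lf E6_1068)) (.nd (.lf E6_556) (.lf 0))) (.nd (.lf 0) (.nd (.lf E6_812) (.lf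
0)))) (.nd (.nd (.nd (.lf 0) (.lf E6_1196)) (.nd (.lf E6_684) (.lf 0))) (.nd (.lf 0) (.nd (.lf
E6_940) (.lf 0))))) (.nd (.nd (.nd (.nd (.lf 0) (.lf E6_1132)) (.nd (.lf E6_620) (.lf 0))) (.nd
(.lf 0) (.nd (.lf E6_876) (.lf 0)))) (.nd (.nd (.lf 0) (.nd (.lf E6_748) (.lf 0))) (.nd (.lf 0)
(.nd (.lf E6_1004) (.lf 0))))))) (.nd (.nd (.nd (.nd (.nd (.nd (.lf 0) (.lf E6_1052)) (.nd (.lf
E6_540) (.lf 0))) (.nd (.lf 0) (.nd (.lf E6_796) (.lf 0)))) (.nd (.nd (.nd (.lf 0) (.lf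
E6_1180)) (.nd (.lf E6_668) (.lf 0))) (.nd (.lf 0) (.nd (.lf E6_924) (.lf 0))))) (.nd (.nd (.nd
(.nd (.lf 0) (.lf E6_1116)) (.nd (.lf E6_604) (.lf 0))) (.nd (.lf 0) (.nd (.lf E6_860) (.lf
0)))) (.nd (.nd (.lf 0) (.nd (.lf E6_732) (.lf 0))) (.nd (.lf 0) (.nd (.lf E6_988) (.lf 0))))))
(.nd (.nd (.nd (.nd (.nd (.lf 0) (.lf E6_1084)) (.nd (.lf E6_572) (.lf 0))) (.nd (.lf 0) (.nd
(.lf E6_828) (.lf 0)))) (.nd (.nd (.lf 0) (.nd (.lf E6_700) (.lf 0))) (.nd (.lf 0) (.nd (.lf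
E6_956) (.lf 0))))) (.nd (.nd (.nd (.nd (.lf 0) (.lf E6_1148)) (.nd (.lf E6_636) (.lf 0))) (.nd
(.lf 0) (.nd (.lf E6_892) (.lf 0)))) (.nd (.nd (.lf 0) (.nd (.lf E6_764) (.lf 0))) (.nd (.lf 0)
(.nd (.lf E6_1020) (.lf 0)))))))))) (.nd (.nd (.nd (.nd (.nd (.nd (.nd (.nd (.nd (.lf 0) (.lf
E6_1026)) (.lf 0)) (.nd (.lf 0) (.nd (.lf E6_770) (.lf 0)))) (.nd (.nd (.nd (.lf 0) (.lf
E6_1154)) (.nd (.lf E6_642) (.lf 0))) (.nd (.lf 0) (.nd (.lf E6_898) (.lf 0))))) (.nd (.nd (.nd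
(.nd (.lf 0) (.lf E6_1090)) (.nd (.lf E6_578) (.lf 0))) (.nd (.lf 0) (.nd (.lf E6_834) (.lf
0)))) (.nd (.nd (.lf 0) (.nd (.lf E6_706) (.lf 0))) (.nd (.lf 0) (.nd (.lf E6_962) (.lf 0))))))
(.nd (.nd (.nd (.nd (.nd (.lf 0) (.lf E6_1058)) (.nd (.lf E6_546) (.lf 0))) (.nd (.lf 0) (.nd
(.lf E6_802) (.lf 0)))) (.nd (.nd (.nd (.lf 0) (.lf E6_1186)) (.nd (.lf E6_674) (.lf 0))) (.nd
(.lf 0) (.nd (.lf E6_930) (.lf 0))))) (.nd (.nd (.nd (.nd (.lf 0) (.lf E6_1122)) (.nd (.lf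
E6_610) (.lf 0))) (.nd (.lf 0) (.nd (.lf E6_866) (.lf 0)))) (.nd (.nd (.lf 0) (.nd (.lf E6_738)
(.lf 0))) (.nd (.lf 0) (.nd (.lf E6_994) (.lf 0))))))) (.nd (.nd (.nd (.nd (.nd (.nd (.lf 0)
(.lf E6_1042)) (.nd (.lf E6_530) (.lf 0))) (.nd (.lf 0) (.nd (.lf E6_786) (.lf 0)))) (.nd (.nd
(.nd (.lf 0) (.lf E6_1170)) (.nd (.lf E6_658) (.lf 0))) (.nd (.lf 0) (.nd (.lf E6_914) (.lf
0))))) (.nd (.nd (.nd (.nd (.lf 0) (.lf E6_1106)) (.nd (.lf E6_594) (.lf 0))) (.nd (.lf 0) (.nd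
(.lf E6_850) (.lf 0)))) (.nd (.nd (.lf 0) (.nd (.lf E6_722) (.lf 0))) (.nd (.lf 0) (.nd (.lf
E6_978) (.lf 0)))))) (.nd (.nd (.nd (.nd (.nd (.lf 0) (.lf E6_1074)) (.nd (.lf E6_562) (.lf 0)))
(.nd (.lf 0) (.nd (.lf E6_818) (.lf 0)))) (.nd (.nd (.nd (.lf 0) (.lf E6_1202)) (.nd (.lf
E6_690) (.lf 0))) (.nd (.lf 0) (.nd (.lf E6_946) (.lf 0))))) (.nd (.nd (.nd (.nd (.lf 0) (.lf
E6_1138)) (.nd (.lf E6_626) (.lf 0))) (.nd (.lf 0) (.nd (.lf E6_882) (.lf 0)))) (.nd (.nd (.lf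
0) (.nd (.lf E6_754) (.lf 0))) (.nd (.lf 0) (.nd (.lf E6_1010) (.lf 0)))))))) (.nd (.nd (.nd
(.nd (.nd (.nd (.nd (.lf 0) (.lf E6_1034)) (.lf 0)) (.nd (.lf 0) (.nd (.lf E6_778) (.lf 0))))
(.nd (.nd (.nd (.lf 0) (.lf E6_1162)) (.nd (.lf E6_650) (.lf 0))) (.nd (.lf 0) (.nd (.lf E6_906)
(.lf 0))))) (.nd (.nd (.nd (.nd (.lf 0) (.lf E6_1098)) (.nd (.lf E6_586) (.lf 0))) (.nd (.lf 0)
(.nd (.lf E6_842) (.lf 0)))) (.nd (.nd (.lf 0) (.nd (.lf E6_714) (.lf 0))) (.nd (.lf 0) (.nd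
(.lf E6_970) (.lf 0)))))) (.nd (.nd (.nd (.nd (.nd (.lf 0) (.lf E6_1066)) (.nd (.lf E6_554) (.lf
0))) (.nd (.lf 0) (.nd (.lf E6_810) (.lf 0)))) (.nd (.nd (.nd (.lf 0) (.lf E6_1194)) (.nd (.lf
E6_682) (.lf 0))) (.nd (.lf 0) (.nd (.lf E6_938) (.lf 0))))) (.nd (.nd (.nd (.nd (.lf 0) (.lf
E6_1130)) (.nd (.lf E6_618) (.lf 0))) (.nd (.lf 0) (.nd (.lf E6_874) (.lf 0)))) (.nd (.nd (.lf
0) (.nd (.lf E6_746) (.lf 0))) (.nd (.lf 0) (.nd (.lf E6_1002) (.lf 0))))))) (.nd (.nd (.nd (.nd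
(.nd (.nd (.lf 0) (.lf E6_1050)) (.nd (.lf E6_538) (.lf 0))) (.nd (.lf 0) (.nd (.lf E6_794) (.lf
0)))) (.nd (.nd (.nd (.lf 0) (.lf E6_1178)) (.nd (.lf E6_666) (.lf 0))) (.nd (.lf 0) (.nd (.lf
E6_922) (.lf 0))))) (.nd (.nd (.nd (.nd (.lf 0) (.lf E6_1114)) (.nd (.lf E6_602) (.lf 0))) (.nd
(.lf 0) (.nd (.lf E6_858) (.lf 0)))) (.nd (.nd (.lf 0) (.nd (.lf E6_730) (.lf 0))) (.nd (.lf 0)
(.nd (.lf E6_986) (.lf 0)))))) (.nd (.nd (.nd (.nd (.nd (.lf 0) (.lf E6_1082)) (.nd (.lf E6_570)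
(.lf 0))) (.nd (.lf 0) (.nd (.lf E6_826) (.lf 0)))) (.nd (.nd (.lf 0) (.nd (.lf E6_698) (.lf
0))) (.nd (.lf 0) (.nd (.lf E6_954) (.lf 0))))) (.nd (.nd (.nd (.nd (.lf 0) (.lf E6_1146)) (.nd
(.lf E6_634) (.lf 0))) (.nd (.lf 0) (.nd (.lf E6_890) (.lf 0)))) (.nd (.nd (.lf 0) (.nd (.lf
E6_762) (.lf 0))) (.nd (.lf 0) (.nd (.lf E6_1018) (.lf 0))))))))) (.nd (.nd (.nd (.nd (.nd (.nd
(.nd (.nd (.lf 0) (.lf E6_1030)) (.lf 0)) (.nd (.lf 0) (.nd (.lf E6_774) (.lf 0)))) (.nd (.nd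
(.nd (.lf 0) (.lf E6_1158)) (.nd (.lf E6_646) (.lf 0))) (.nd (.lf 0) (.nd (.lf E6_902) (.lf
0))))) (.nd (.nd (.nd (.nd (.lf 0) (.lf E6_1094)) (.nd (.lf E6_582) (.lf 0))) (.nd (.lf 0) (.nd
(.lf E6_838) (.lf 0)))) (.nd (.nd (.lf 0) (.nd (.lf E6_710) (.lf 0))) (.nd (.lf 0) (.nd (.lf
E6_966) (.lf 0)))))) (.nd (.nd (.nd (.nd (.nd (.lf 0) (.lf E6_1062)) (.nd (.lf E6_550) (.lf 0)))
(.nd (.lf 0) (.nd (.lf E6_806) (.lf 0)))) (.nd (.nd (.nd (.lf 0) (.lf E6_1190)) (.nd (.lf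
E6_678) (.lf 0))) (.nd (.lf 0) (.nd (.lf E6_934) (.lf 0))))) (.nd (.nd (.nd (.nd (.lf 0) (.lf
E6_1126)) (.nd (.lf E6_614) (.lf 0))) (.nd (.lf 0) (.nd (.lf E6_870) (.lf 0)))) (.nd (.nd (.lf
0) (.nd (.lf E6_742) (.lf 0))) (.nd (.lf 0) (.nd (.lf E6_998) (.lf 0))))))) (.nd (.nd (.nd (.nd
(.nd (.nd (.lf 0) (.lf E6_1046)) (.nd (.lf E6_534) (.lf 0))) (.nd (.lf 0) (.nd (.lf E6_790) (.lf
0)))) (.nd (.nd (.nd (.lf 0) (.lf E6_1174)) (.nd (.lf E6_662) (.lf 0))) (.nd (.lf 0) (.nd (.lf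
E6_918) (.lf 0))))) (.nd (.nd (.nd (.nd (.lf 0) (.lf E6_1110)) (.nd (.lf E6_598) (.lf 0))) (.nd
(.lf 0) (.nd (.lf E6_854) (.lf 0)))) (.nd (.nd (.lf 0) (.nd (.lf E6_726) (.lf 0))) (.nd (.lf 0)
(.nd (.lf E6_982) (.lf 0)))))) (.nd (.nd (.nd (.nd (.nd (.lf 0) (.lf E6_1078)) (.nd (.lf E6_566)
(.lf 0))) (.nd (.lf 0) (.nd (.lf E6_822) (.lf 0)))) (.nd (.nd (.lf 0) (.nd (.lf E6_694) (.lf
0))) (.nd (.lf 0) (.nd (.lf E6_950) (.lf 0))))) (.nd (.nd (.nd (.nd (.lf 0) (.lf E6_1142)) (.nd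
(.lf E6_630) (.lf 0))) (.nd (.lf 0) (.nd (.lf E6_886) (.lf 0)))) (.nd (.nd (.lf 0) (.nd (.lf
E6_758) (.lf 0))) (.nd (.lf 0) (.nd (.lf E6_1014) (.lf 0)))))))) (.nd (.nd (.nd (.nd (.nd (.nd
(.nd (.lf 0) (.lf E6_1038)) (.nd (.lf E6_526) (.lf 0))) (.nd (.lf 0) (.nd (.lf E6_782) (.lf
0)))) (.nd (.nd (.nd (.lf 0) (.lf E6_1166)) (.nd (.lf E6_654) (.lf 0))) (.nd (.lf 0) (.nd (.lf
E6_910) (.lf 0))))) (.nd (.nd (.nd (.nd (.lf 0) (.lf E6_1102)) (.nd (.lf E6_590) (.lf 0))) (.nd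
(.lf 0) (.nd (.lf E6_846) (.lf 0)))) (.nd (.nd (.lf 0) (.nd (.lf E6_718) (.lf 0))) (.nd (.lf 0)
(.nd (.lf E6_974) (.lf 0)))))) (.nd (.nd (.nd (.nd (.nd (.lf 0) (.lf E6_1070)) (.nd (.lf E6_558)
(.lf 0))) (.nd (.lf 0) (.nd (.lf E6_814) (.lf 0)))) (.nd (.nd (.nd (.lf 0) (.lf E6_1198)) (.nd
(.lf E6_686) (.lf 0))) (.nd (.lf 0) (.nd (.lf E6_942) (.lf 0))))) (.nd (.nd (.nd (.nd (.lf 0)
(.lf E6_1134)) (.nd (.lf E6_622) (.lf 0))) (.nd (.lf 0) (.nd (.lf E6_878) (.lf 0)))) (.nd (.nd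
(.lf 0) (.nd (.lf E6_750) (.lf 0))) (.nd (.lf 0) (.nd (.lf E6_1006) (.lf 0))))))) (.nd (.nd (.nd
(.nd (.nd (.nd (.lf 0) (.lf E6_1054)) (.nd (.lf E6_542) (.lf 0))) (.nd (.lf 0) (.nd (.lf E6_798)
(.lf 0)))) (.nd (.nd (.nd (.lf 0) (.lf E6_1182)) (.nd (.lf E6_670) (.lf 0))) (.nd (.lf 0) (.nd
(.lf E6_926) (.lf 0))))) (.nd (.nd (.nd (.nd (.lf 0) (.lf E6_1118)) (.nd (.lf E6_606) (.lf 0)))
(.nd (.lf 0) (.nd (.lf E6_862) (.lf 0)))) (.nd (.nd (.lf 0) (.nd (.lf E6_734) (.lf 0))) (.nd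
(.lf 0) (.nd (.lf E6_990) (.lf 0)))))) (.nd (.nd (.nd (.nd (.nd (.lf 0) (.lf E6_1086)) (.nd (.lf
E6_574) (.lf 0))) (.nd (.lf 0) (.nd (.lf E6_830) (.lf 0)))) (.nd (.nd (.lf 0) (.nd (.lf E6_702)
(.lf 0))) (.nd (.lf 0) (.nd (.lf E6_958) (.lf 0))))) (.nd (.nd (.nd (.nd (.lf 0) (.lf E6_1150))
(.nd (.lf E6_638) (.lf 0))) (.nd (.lf 0) (.nd (.lf E6_894) (.lf 0)))) (.nd (.nd (.lf 0) (.nd
(.lf E6_766) (.lf 0))) (.nd (.lf 0) (.nd (.lf E6_1022) (.lf 0))))))))))) (.nd (.nd (.nd (.nd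
(.nd (.nd (.nd (.nd (.nd (.nd (.lf 0) (.lf E6_1025)) (.lf 0)) (.nd (.lf 0) (.nd (.lf E6_769)
(.lf 0)))) (.nd (.nd (.nd (.lf 0) (.lf E6_1153)) (.nd (.lf E6_641) (.lf 0))) (.nd (.lf 0) (.nd
(.lf E6_897) (.lf 0))))) (.nd (.nd (.nd (.nd (.lf 0) (.lf E6_1089)) (.nd (.lf E6_577) (.lf 0)))
(.nd (.lf 0) (.nd (.lf E6_833) (.lf 0)))) (.nd (.nd (.lf 0) (.nd (.lf E6_705) (.lf 0))) (.nd
(.lf 0) (.nd (.lf E6_961) (.lf 0)))))) (.nd (.nd (.nd (.nd (.nd (.lf 0) (.lf E6_1057)) (.nd (.lf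
E6_545) (.lf 0))) (.nd (.lf 0) (.nd (.lf E6_801) (.lf 0)))) (.nd (.nd (.nd (.lf 0) (.lf
E6_1185)) (.nd (.lf E6_673) (.lf 0))) (.nd (.lf 0) (.nd (.lf E6_929) (.lf 0))))) (.nd (.nd (.nd
(.nd (.lf 0) (.lf E6_1121)) (.nd (.lf E6_609) (.lf 0))) (.nd (.lf 0) (.nd (.lf E6_865) (.lf
0)))) (.nd (.nd (.lf 0) (.nd (.lf E6_737) (.lf 0))) (.nd (.lf 0) (.nd (.lf E6_993) (.lf 0)))))))
(.nd (.nd (.nd (.nd (.nd (.nd (.lf 0) (.lf E6_1041)) (.lf 0)) (.nd (.lf 0) (.nd (.lf E6_785)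
(.lf 0)))) (.nd (.nd (.nd (.lf 0) (.lf E6_1169)) (.nd (.lf E6_657) (.lf 0))) (.nd (.lf 0) (.nd
(.lf E6_913) (.lf 0))))) (.nd (.nd (.nd (.nd (.lf 0) (.lf E6_1105)) (.nd (.lf E6_593) (.lf 0)))
(.nd (.lf 0) (.nd (.lf E6_849) (.lf 0)))) (.nd (.nd (.lf 0) (.nd (.lf E6_721) (.lf 0))) (.nd
(.lf 0) (.nd (.lf E6_977) (.lf 0)))))) (.nd (.nd (.nd (.nd (.nd (.lf 0) (.lf E6_1073)) (.nd (.lf
E6_561) (.lf 0))) (.nd (.lf 0) (.nd (.lf E6_817) (.lf 0)))) (.nd (.nd (.nd (.lf 0) (.lf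
E6_1201)) (.nd (.lf E6_689) (.lf 0))) (.nd (.lf 0) (.nd (.lf E6_945) (.lf 0))))) (.nd (.nd (.nd
(.nd (.lf 0) (.lf E6_1137)) (.nd (.lf E6_625) (.lf 0))) (.nd (.lf 0) (.nd (.lf E6_881) (.lf
0)))) (.nd (.nd (.lf 0) (.nd (.lf E6_753) (.lf 0))) (.nd (.lf 0) (.nd (.lf E6_1009) (.lf
0)))))))) (.nd (.nd (.nd (.nd (.nd (.nd (.nd (.lf 0) (.lf E6_1033)) (.lf 0)) (.nd (.lf 0) (.nd
(.lf E6_777) (.lf 0)))) (.nd (.nd (.nd (.lf 0) (.lf E6_1161)) (.nd (.lf E6_649) (.lf 0))) (.nd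
(.lf 0) (.nd (.lf E6_905) (.lf 0))))) (.nd (.nd (.nd (.nd (.lf 0) (.lf E6_1097)) (.nd (.lf
E6_585) (.lf 0))) (.nd (.lf 0) (.nd (.lf E6_841) (.lf 0)))) (.nd (.nd (.lf 0) (.nd (.lf E6_713)
(.lf 0))) (.nd (.lf 0) (.nd (.lf E6_969) (.lf 0)))))) (.nd (.nd (.nd (.nd (.nd (.lf 0) (.lf
E6_1065)) (.nd (.lf E6_553) (.lf 0))) (.nd (.lf 0) (.nd (.lf E6_809) (.lf 0)))) (.nd (.nd (.nd
(.lf 0) (.lf E6_1193)) (.nd (.lf E6_681) (.lf 0))) (.nd (.lf 0) (.nd (.lf E6_937) (.lf 0)))))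
(.nd (.nd (.nd (.nd (.lf 0) (.lf E6_1129)) (.nd (.lf E6_617) (.lf 0))) (.nd (.lf 0) (.nd (.lf
E6_873) (.lf 0)))) (.nd (.nd (.lf 0) (.nd (.lf E6_745) (.lf 0))) (.nd (.lf 0) (.nd (.lf E6_1001)
(.lf 0))))))) (.nd (.nd (.nd (.nd (.nd (.nd (.lf 0) (.lf E6_1049)) (.nd (.lf E6_537) (.lf 0)))
(.nd (.lf 0) (.nd (.lf E6_793) (.lf 0)))) (.nd (.nd (.nd (.lf 0) (.lf E6_1177)) (.nd (.lf
E6_665) (.lf 0))) (.nd (.lf 0) (.nd (.lf E6_921) (.lf 0))))) (.nd (.nd (.nd (.nd (.lf 0) (.lf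
E6_1113)) (.nd (.lf E6_601) (.lf 0))) (.nd (.lf 0) (.nd (.lf E6_857) (.lf 0)))) (.nd (.nd (.lf
0) (.nd (.lf E6_729) (.lf 0))) (.nd (.lf 0) (.nd (.lf E6_985) (.lf 0)))))) (.nd (.nd (.nd (.nd
(.nd (.lf 0) (.lf E6_1081)) (.nd (.lf E6_569) (.lf 0))) (.nd (.lf 0) (.nd (.lf E6_825) (.lf
0)))) (.nd (.nd (.lf 0) (.nd (.lf E6_697) (.lf 0))) (.nd (.lf 0) (.nd (.lf E6_953) (.lf 0)))))
(.nd (.nd (.nd (.nd (.lf 0) (.lf E6_1145)) (.nd (.lf E6_633) (.lf 0))) (.nd (.lf 0) (.nd (.lf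
E6_889) (.lf 0)))) (.nd (.nd (.lf 0) (.nd (.lf E6_761) (.lf 0))) (.nd (.lf 0) (.nd (.lf E6_1017)
(.lf 0))))))))) (.nd (.nd (.nd (.nd (.nd (.nd (.nd (.nd (.lf 0) (.lf E6_1029)) (.lf 0)) (.nd
(.lf 0) (.nd (.lf E6_773) (.lf 0)))) (.nd (.nd (.nd (.lf 0) (.lf E6_1157)) (.nd (.lf E6_645)
(.lf 0))) (.nd (.lf 0) (.nd (.lf E6_901) (.lf 0))))) (.nd (.nd (.nd (.nd (.lf 0) (.lf E6_1093))
(.nd (.lf E6_581) (.lf 0))) (.nd (.lf 0) (.nd (.lf E6_837) (.lf 0)))) (.nd (.nd (.lf 0) (.nd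
(.lf E6_709) (.lf 0))) (.nd (.lf 0) (.nd (.lf E6_965) (.lf 0)))))) (.nd (.nd (.nd (.nd (.nd (.lf
0) (.lf E6_1061)) (.nd (.lf E6_549) (.lf 0))) (.nd (.lf 0) (.nd (.lf E6_805) (.lf 0)))) (.nd
(.nd (.nd (.lf 0) (.lf E6_1189)) (.nd (.lf E6_677) (.lf 0))) (.nd (.lf 0) (.nd (.lf E6_933) (.lf
0))))) (.nd (.nd (.nd (.nd (.lf 0) (.lf E6_1125)) (.nd (.lf E6_613) (.lf 0))) (.nd (.lf 0) (.nd
(.lf E6_869) (.lf 0)))) (.nd (.nd (.lf 0) (.nd (.lf E6_741) (.lf 0))) (.nd (.lf 0) (.nd (.lf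
E6_997) (.lf 0))))))) (.nd (.nd (.nd (.nd (.nd (.nd (.lf 0) (.lf E6_1045)) (.nd (.lf E6_533)
(.lf 0))) (.nd (.lf 0) (.nd (.lf E6_789) (.lf 0)))) (.nd (.nd (.nd (.lf 0) (.lf E6_1173)) (.nd
(.lf E6_661) (.lf 0))) (.nd (.lf 0) (.nd (.lf E6_917) (.lf 0))))) (.nd (.nd (.nd (.nd (.lf 0)
(.lf E6_1109)) (.nd (.lf E6_597) (.lf 0))) (.nd (.lf 0) (.nd (.lf E6_853) (.lf 0)))) (.nd (.nd
(.lf 0) (.nd (.lf E6_725) (.lf 0))) (.nd (.lf 0) (.nd (.lf E6_981) (.lf 0)))))) (.nd (.nd (.nd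
(.nd (.nd (.lf 0) (.lf E6_1077)) (.nd (.lf E6_565) (.lf 0))) (.nd (.lf 0) (.nd (.lf E6_821) (.lf
0)))) (.nd (.nd (.lf 0) (.nd (.lf E6_693) (.lf 0))) (.nd (.lf 0) (.nd (.lf E6_949) (.lf 0)))))
(.nd (.nd (.nd (.nd (.lf 0) (.lf E6_1141)) (.nd (.lf E6_629) (.lf 0))) (.nd (.lf 0) (.nd (.lf
E6_885) (.lf 0)))) (.nd (.nd (.lf 0) (.nd (.lf E6_757) (.lf 0))) (.nd (.lf 0) (.nd (.lf E6_1013)
(.lf 0)))))))) (.nd (.nd (.nd (.nd (.nd (.nd (.nd (.lf 0) (.lf E6_1037)) (.lf 0)) (.nd (.lf 0)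
(.nd (.lf E6_781) (.lf 0)))) (.nd (.nd (.nd (.lf 0) (.lf E6_1165)) (.nd (.lf E6_653) (.lf 0)))
(.nd (.lf 0) (.nd (.lf E6_909) (.lf 0))))) (.nd (.nd (.nd (.nd (.lf 0) (.lf E6_1101)) (.nd (.lf
E6_589) (.lf 0))) (.nd (.lf 0) (.nd (.lf E6_845) (.lf 0)))) (.nd (.nd (.lf 0) (.nd (.lf E6_717)
(.lf 0))) (.nd (.lf 0) (.nd (.lf E6_973) (.lf 0)))))) (.nd (.nd (.nd (.nd (.nd (.lf 0) (.lf
E6_1069)) (.nd (.lf E6_557) (.lf 0))) (.nd (.lf 0) (.nd (.lf E6_813) (.lf 0)))) (.nd (.nd (.nd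
(.lf 0) (.lf E6_1197)) (.nd (.lf E6_685) (.lf 0))) (.nd (.lf 0) (.nd (.lf E6_941) (.lf 0)))))
(.nd (.nd (.nd (.nd (.lf 0) (.lf E6_1133)) (.nd (.lf E6_621) (.lf 0))) (.nd (.lf 0) (.nd (.lf
E6_877) (.lf 0)))) (.nd (.nd (.lf 0) (.nd (.lf E6_749) (.lf 0))) (.nd (.lf 0) (.nd (.lf E6_1005)
(.lf 0))))))) (.nd (.nd (.nd (.nd (.nd (.nd (.lf 0) (.lf E6_1053)) (.nd (.lf E6_541) (.lf 0)))
(.nd (.lf 0) (.nd (.lf E6_797) (.lf 0)))) (.nd (.nd (.nd (.lf 0) (.lf E6_1181)) (.nd (.lf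
E6_669) (.lf 0))) (.nd (.lf 0) (.nd (.lf E6_925) (.lf 0))))) (.nd (.nd (.nd (.nd (.lf 0) (.lf
E6_1117)) (.nd (.lf E6_605) (.lf 0))) (.nd (.lf 0) (.nd (.lf E6_861) (.lf 0)))) (.nd (.nd (.lf
0) (.nd (.lf E6_733) (.lf 0))) (.nd (.lf 0) (.nd (.lf E6_989) (.lf 0)))))) (.nd (.nd (.nd (.nd
(.nd (.lf 0) (.lf E6_1085)) (.nd (.lf E6_573) (.lf 0))) (.nd (.lf 0) (.nd (.lf E6_829) (.lf
0)))) (.nd (.nd (.lf 0) (.nd (.lf E6_701) (.lf 0))) (.nd (.lf 0) (.nd (.lf E6_957) (.lf 0)))))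
(.nd (.nd (.nd (.nd (.lf 0) (.lf E6_1149)) (.nd (.lf E6_637) (.lf 0))) (.nd (.lf 0) (.nd (.lf
E6_893) (.lf 0)))) (.nd (.nd (.lf 0) (.nd (.lf E6_765) (.lf 0))) (.nd (.lf 0) (.nd (.lf E6_1021)
(.lf 0)))))))))) (.nd (.nd (.nd (.nd (.nd (.nd (.nd (.nd (.nd (.lf 0) (.lf E6_1027)) (.lf 0))
(.nd (.lf 0) (.nd (.lf E6_771) (.lf 0)))) (.nd (.nd (.nd (.lf 0) (.lf E6_1155)) (.nd (.lf
E6_643) (.lf 0))) (.nd (.lf 0) (.nd (.lf E6_899) (.lf 0))))) (.nd (.nd (.nd (.nd (.lf 0) (.lf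
E6_1091)) (.nd (.lf E6_579) (.lf 0))) (.nd (.lf 0) (.nd (.lf E6_835) (.lf 0)))) (.nd (.nd (.lf
0) (.nd (.lf E6_707) (.lf 0))) (.nd (.lf 0) (.nd (.lf E6_963) (.lf 0)))))) (.nd (.nd (.nd (.nd
(.nd (.lf 0) (.lf E6_1059)) (.nd (.lf E6_547) (.lf 0))) (.nd (.lf 0) (.nd (.lf E6_803) (.lf
0)))) (.nd (.nd (.nd (.lf 0) (.lf E6_1187)) (.nd (.lf E6_675) (.lf 0))) (.nd (.lf 0) (.nd (.lf
E6_931) (.lf 0))))) (.nd (.nd (.nd (.nd (.lf 0) (.lf E6_1123)) (.nd (.lf E6_611) (.lf 0))) (.nd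
(.lf 0) (.nd (.lf E6_867) (.lf 0)))) (.nd (.nd (.lf 0) (.nd (.lf E6_739) (.lf 0))) (.nd (.lf 0)
(.nd (.lf E6_995) (.lf 0))))))) (.nd (.nd (.nd (.nd (.nd (.nd (.lf 0) (.lf E6_1043)) (.nd (.lf
E6_531) (.lf 0))) (.nd (.lf 0) (.nd (.lf E6_787) (.lf 0)))) (.nd (.nd (.nd (.lf 0) (.lf
E6_1171)) (.nd (.lf E6_659) (.lf 0))) (.nd (.lf 0) (.nd (.lf E6_915) (.lf 0))))) (.nd (.nd (.nd
(.nd (.lf 0) (.lf E6_1107)) (.nd (.lf E6_595) (.lf 0))) (.nd (.lf 0) (.nd (.lf E6_851) (.lf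
0)))) (.nd (.nd (.lf 0) (.nd (.lf E6_723) (.lf 0))) (.nd (.lf 0) (.nd (.lf E6_979) (.lf 0))))))
(.nd (.nd (.nd (.nd (.nd (.lf 0) (.lf E6_1075)) (.nd (.lf E6_563) (.lf 0))) (.nd (.lf 0) (.nd
(.lf E6_819) (.lf 0)))) (.nd (.nd (.nd (.lf 0) (.lf E6_1203)) (.nd (.lf E6_691) (.lf 0))) (.nd
(.lf 0) (.nd (.lf E6_947) (.lf 0))))) (.nd (.nd (.nd (.nd (.lf 0) (.lf E6_1139)) (.nd (.lf
E6_627) (.lf 0))) (.nd (.lf 0) (.nd (.lf E6_883) (.lf 0)))) (.nd (.nd (.lf 0) (.nd (.lf E6_755)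
(.lf 0))) (.nd (.lf 0) (.nd (.lf E6_1011) (.lf 0)))))))) (.nd (.nd (.nd (.nd (.nd (.nd (.nd (.lf
0) (.lf E6_1035)) (.lf 0)) (.nd (.lf 0) (.nd (.lf E6_779) (.lf 0)))) (.nd (.nd (.nd (.lf 0) (.lf
E6_1163)) (.nd (.lf E6_651) (.lf 0))) (.nd (.lf 0) (.nd (.lf E6_907) (.lf 0))))) (.nd (.nd (.nd
(.nd (.lf 0) (.lf E6_1099)) (.nd (.lf E6_587) (.lf 0))) (.nd (.lf 0) (.nd (.lf E6_843) (.lf
0)))) (.nd (.nd (.lf 0) (.nd (.lf E6_715) (.lf 0))) (.nd (.lf 0) (.nd (.lf E6_971) (.lf 0))))))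
(.nd (.nd (.nd (.nd (.nd (.lf 0) (.lf E6_1067)) (.nd (.lf E6_555) (.lf 0))) (.nd (.lf 0) (.nd
(.lf E6_811) (.lf 0)))) (.nd (.nd (.nd (.lf 0) (.lf E6_1195)) (.nd (.lf E6_683) (.lf 0))) (.nd
(.lf 0) (.nd (.lf E6_939) (.lf 0))))) (.nd (.nd (.nd (.nd (.lf 0) (.lf E6_1131)) (.nd (.lf
E6_619) (.lf 0))) (.nd (.lf 0) (.nd (.lf E6_875) (.lf 0)))) (.nd (.nd (.lf 0) (.nd (.lf E6_747)
(.lf 0))) (.nd (.lf 0) (.nd (.lf E6_1003) (.lf 0))))))) (.nd (.nd (.nd (.nd (.nd (.nd (.lf 0)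
(.lf E6_1051)) (.nd (.lf E6_539) (.lf 0))) (.nd (.lf 0) (.nd (.lf E6_795) (.lf 0)))) (.nd (.nd
(.nd (.lf 0) (.lf E6_1179)) (.nd (.lf E6_667) (.lf 0))) (.nd (.lf 0) (.nd (.lf E6_923) (.lf
0))))) (.nd (.nd (.nd (.nd (.lf 0) (.lf E6_1115)) (.nd (.lf E6_603) (.lf 0))) (.nd (.lf 0) (.nd
(.lf E6_859) (.lf 0)))) (.nd (.nd (.lf 0) (.nd (.lf E6_731) (.lf 0))) (.nd (.lf 0) (.nd (.lf
E6_987) (.lf 0)))))) (.nd (.nd (.nd (.nd (.nd (.lf 0) (.lf E6_1083)) (.nd (.lf E6_571) (.lf 0)))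
(.nd (.lf 0) (.nd (.lf E6_827) (.lf 0)))) (.nd (.nd (.lf 0) (.nd (.lf E6_699) (.lf 0))) (.nd
(.lf 0) (.nd (.lf E6_955) (.lf 0))))) (.nd (.nd (.nd (.nd (.lf 0) (.lf E6_1147)) (.nd (.lf
E6_635) (.lf 0))) (.nd (.lf 0) (.nd (.lf E6_891) (.lf 0)))) (.nd (.nd (.lf 0) (.nd (.lf E6_763)
(.lf 0))) (.nd (.lf 0) (.nd (.lf E6_1019) (.lf 0))))))))) (.nd (.nd (.nd (.nd (.nd (.nd (.nd
(.nd (.lf 0) (.lf E6_1031)) (.lf 0)) (.nd (.lf 0) (.nd (.lf E6_775) (.lf 0)))) (.nd (.nd (.nd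
(.lf 0) (.lf E6_1159)) (.nd (.lf E6_647) (.lf 0))) (.nd (.lf 0) (.nd (.lf E6_903) (.lf 0)))))
(.nd (.nd (.nd (.nd (.lf 0) (.lf E6_1095)) (.nd (.lf E6_583) (.lf 0))) (.nd (.lf 0) (.nd (.lf
E6_839) (.lf 0)))) (.nd (.nd (.lf 0) (.nd (.lf E6_711) (.lf 0))) (.nd (.lf 0) (.nd (.lf E6_967)
(.lf 0)))))) (.nd (.nd (.nd (.nd (.nd (.lf 0) (.lf E6_1063)) (.nd (.lf E6_551) (.lf 0))) (.nd
(.lf 0) (.nd (.lf E6_807) (.lf 0)))) (.nd (.nd (.nd (.lf 0) (.lf E6_1191)) (.nd (.lf E6_679)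
(.lf 0))) (.nd (.lf 0) (.nd (.lf E6_935) (.lf 0))))) (.nd (.nd (.nd (.nd (.lf 0) (.lf E6_1127))
(.nd (.lf E6_615) (.lf 0))) (.nd (.lf 0) (.nd (.lf E6_871) (.lf 0)))) (.nd (.nd (.lf 0) (.nd
(.lf E6_743) (.lf 0))) (.nd (.lf 0) (.nd (.lf E6_999) (.lf 0))))))) (.nd (.nd (.nd (.nd (.nd
(.nd (.lf 0) (.lf E6_1047)) (.nd (.lf E6_535) (.lf 0))) (.nd (.lf 0) (.nd (.lf E6_791) (.lf
0)))) (.nd (.nd (.nd (.lf 0) (.lf E6_1175)) (.nd (.lf E6_663) (.lf 0))) (.nd (.lf 0) (.nd (.lf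
E6_919) (.lf 0))))) (.nd (.nd (.nd (.nd (.lf 0) (.lf E6_1111)) (.nd (.lf E6_599) (.lf 0))) (.nd
(.lf 0) (.nd (.lf E6_855) (.lf 0)))) (.nd (.nd (.lf 0) (.nd (.lf E6_727) (.lf 0))) (.nd (.lf 0)
(.nd (.lf E6_983) (.lf 0)))))) (.nd (.nd (.nd (.nd (.nd (.lf 0) (.lf E6_1079)) (.nd (.lf E6_567)
(.lf 0))) (.nd (.lf 0) (.nd (.lf E6_823) (.lf 0)))) (.nd (.nd (.lf 0) (.nd (.lf E6_695) (.lf
0))) (.nd (.lf 0) (.nd (.lf E6_951) (.lf 0))))) (.nd (.nd (.nd (.nd (.lf 0) (.lf E6_1143)) (.nd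
(.lf E6_631) (.lf 0))) (.nd (.lf 0) (.nd (.lf E6_887) (.lf 0)))) (.nd (.nd (.lf 0) (.nd (.lf
E6_759) (.lf 0))) (.nd (.lf 0) (.nd (.lf E6_1015) (.lf 0)))))))) (.nd (.nd (.nd (.nd (.nd (.nd
(.nd (.lf 0) (.lf E6_1039)) (.lf 0)) (.nd (.lf 0) (.nd (.lf E6_783) (.lf 0)))) (.nd (.nd (.nd
(.lf 0) (.lf E6_1167)) (.nd (.lf E6_655) (.lf 0))) (.nd (.lf 0) (.nd (.lf E6_911) (.lf 0)))))
(.nd (.nd (.nd (.nd (.lf 0) (.lf E6_1103)) (.nd (.lf E6_591) (.lf 0))) (.nd (.lf 0) (.nd (.lf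
E6_847) (.lf 0)))) (.nd (.nd (.lf 0) (.nd (.lf E6_719) (.lf 0))) (.nd (.lf 0) (.nd (.lf E6_975)
(.lf 0)))))) (.nd (.nd (.nd (.nd (.nd (.lf 0) (.lf E6_1071)) (.nd (.lf E6_559) (.lf 0))) (.nd
(.lf 0) (.nd (.lf E6_815) (.lf 0)))) (.nd (.nd (.nd (.lf 0) (.lf E6_1199)) (.nd (.lf E6_687)
(.lf 0))) (.nd (.lf 0) (.nd (.lf E6_943) (.lf 0))))) (.nd (.nd (.nd (.nd (.lf 0) (.lf E6_1135))
(.nd (.lf E6_623) (.lf 0))) (.nd (.lf 0) (.nd (.lf E6_879) (.lf 0)))) (.nd (.nd (.lf 0) (.nd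
(.lf E6_751) (.lf 0))) (.nd (.lf 0) (.nd (.lf E6_1007) (.lf 0))))))) (.nd (.nd (.nd (.nd (.nd
(.nd (.lf 0) (.lf E6_1055)) (.nd (.lf E6_543) (.lf 0))) (.nd (.lf 0) (.nd (.lf E6_799) (.lf
0)))) (.nd (.nd (.nd (.lf 0) (.lf E6_1183)) (.nd (.lf E6_671) (.lf 0))) (.nd (.lf 0) (.nd (.lf
E6_927) (.lf 0))))) (.nd (.nd (.nd (.nd (.lf 0) (.lf E6_1119)) (.nd (.lf E6_607) (.lf 0))) (.nd
(.lf 0) (.nd (.lf E6_863) (.lf 0)))) (.nd (.nd (.lf 0) (.nd (.lf E6_735) (.lf 0))) (.nd (.lf 0)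
(.nd (.lf E6_991) (.lf 0)))))) (.nd (.nd (.nd (.nd (.nd (.lf 0) (.lf E6_1087)) (.nd (.lf E6_575)
(.lf 0))) (.nd (.lf 0) (.nd (.lf E6_831) (.lf 0)))) (.nd (.nd (.lf 0) (.nd (.lf E6_703) (.lf
0))) (.nd (.lf 0) (.nd (.lf E6_959) (.lf 0))))) (.nd (.nd (.nd (.nd (.lf 0) (.lf E6_1151)) (.nd
(.lf E6_639) (.lf 0))) (.nd (.lf 0) (.nd (.lf E6_895) (.lf 0)))) (.nd (.nd (.lf 0) (.nd (.lf
E6_767) (.lf 0))) (.nd (.lf 0) (.nd (.lf E6_1023) (.lf 0))))))))))))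

/-- the vectors left for the type `j` (zero for `j < 526` and `1205 ≤ j`) -/
def E6 (j : ℕ) : ℕ := BT.get EE j

/-- `2 ^ 32768 - 1` -/
def ONES : ℕ := 0xffffffffffffffffffffffffffffffffffffffffffffffffffffffffffffffffffffffffffffffffffffffffffffffffffffffffffffffffffffffffffffffffffffffffffffffffffffffffffffffffffffffffffffffffffffffffffffffffffffffffffffffffffffffffffffffffffffffffffffffffffffffffffffffffffffffffffffffffffffffffffffffffffffffffffffffffffffffffffffffffffffffffffffffffffffffffffffffffffffffffffffffffffffffffffffffffffffffffffffffffffffffffffffffffffffffffffffffffffffffffffffffffffffffffffffffffffffffffffffffffffffffffffffffffffffffffffffffffffffffffffffffffffffffffffffffffffffffffffffffffffffffffffffffffffffffffffffffffffffffffffffffffffffffffffffffffffffffffffffffffffffffffffffffffffffffffffffffffffffffffff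fffffffffffffffffffffffffffffffffffffffffffffffffffffffffffffffffffffffffffffffffffffffffffffffffffffffffffffffffffffffffffffffffffffffffffffffffffffffffffffffffffffffffffffffffffffffffffffffffffffffffffffffffffffffffffffffffffffffffffffffffffffffffffffffffffffffffffffffffffffffffffffffffffffffffffffffffffffffffffffffffffffffffffffffffffffffffffffffffffffffffffffffffffffffffffffffffffffffffffffffffffffffffffffffffffffffffffffffffffffffffffffffffffffffffffffffffffffffffffffffffffffffffffffffffffffffffffffffffffffffffffffffffffffffffffffffffffffffffffffffffffffffffffffffffffffffffffffffffffffffffffffffffffffffffffffffffffffffffffffffffffffffffffffffffffffffffffffffffffffffffffffffffffffffffffffffffffffffffffffffffffffffffffffffffffffffffffffffffffffffffffffffffffffffffffffffffffffffffffffffffffffffffffffffffffffffffffffffffffff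fffffffffffffffffffffffffffffffffffffffffffffffffffffffffffffffffffffffffffffffffffffffffffffffffffffffffffffffffffffffffffffffffffffffffffffffffffffffffffffffffffffffffffffffffffffffffffffffffffffffffffffffffffffffffffffffffffffffffffffffffffffffffffffffffffffffffffffffffffffffffffffffffffffffffffffffffffffffffffffffffffffffffffffffffffffffffffffffffffffffffffffffffffffffffffffffffffffffffffffffffffffffffffffffffffffffffffffffffffffffffffffffffffffffffffffffffffffffffffffffffffffffffffffffffffffffffffffffffffffffffffffffffffffffffffffffffffffffffffffffffffffffffffffffffffffffffffffffffffffffffffffffffffffffffffffffffffffffffffffffffffffffffffffffffffffffffffffffffffffffffffffffffffffffffffffffffffffffffffffffffffffffffffffffffffffffffffffffffffffffffffffffffffffffffffffffffffffffffffffffffffffffffffffffffffffffffffffffffffff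fffffffffffffffffffffffffffffffffffffffffffffffffffffffffffffffffffffffffffffffffffffffffffffffffffffffffffffffffffffffffffffffffffffffffffffffffffffffffffffffffffffffffffffffffffffffffffffffffffffffffffffffffffffffffffffffffffffffffffffffffffffffffffffffffffffffffffffffffffffffffffffffffffffffffffffffffffffffffffffffffffffffffffffffffffffffffffffffffffffffffffffffffffffffffffffffffffffffffffffffffffffffffffffffffffffffffffffffffffffffffffffffffffffffffffffffffffffffffffffffffffffffffffffffffffffffffffffffffffffffffffffffffffffffffffffffffffffffffffffffffffffffffffffffffffffffffffffffffffffffffffffffffffffffffffffffffffffffffffffffffffffffffffffffffffffffffffffffffffffffffffffffffffffffffffffffffffffffffffffffffffffffffffffffffffffffffffffffffffffffffffffffffffffffffffffffffffffffffffffffffffffffffffffffffffffffffffffffffffff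fffffffffffffffffffffffffffffffffffffffffffffffffffffffffffffffffffffffffffffffffffffffffffffffffffffffffffffffffffffffffffffffffffffffffffffffffffffffffffffffffffffffffffffffffffffffffffffffffffffffffffffffffffffffffffffffffffffffffffffffffffffffffffffffffffffffffffffffffffffffffffffffffffffffffffffffffffffffffffffffffffffffffffffffffffffffffffffffffffffffffffffffffffffffffffffffffffffffffffffffffffffffffffffffffffffffffffffffffffffffffffffffffffffffffffffffffffffffffffffffffffffffffffffffffffffffffffffffffffffffffffffffffffffffffffffffffffffffffffffffffffffffffffffffffffffffffffffffffffffffffffffffffffffffffffffffffffffffffffffffffffffffffffffffffffffffffffffffffffffffffffffffffffffffffffffffffffffffffffffffffffffffffffffffffffffffffffffffffffffffffffffffffffffffffffffffffffffffffffffffffffffffffffffffffffffffffffffffffffff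fffffffffffffffffffffffffffffffffffffffffffffffffffffffffffffffffffffffffffffffffffffffffffffffffffffffffffffffffffffffffffffffffffffffffffffffffffffffffffffffffffffffffffffffffffffffffffffffffffffffffffffffffffffffffffffffffffffffffffffffffffffffffffffffffffffffffffffffffffffffffffffffffffffffffffffffffffffffffffffffffffffffffffffffffffffffffffffffffffffffffffffffffffffffffffffffffffffffffffffffffffffffffffffffffffffffffffffffffffffffffffffffffffffffffffffffffffffffffffffffffffffffffffffffffffffffffffffffffffffffffffffffffffffffffffffffffffffffffffffffffffffffffffffffffffffffffffffffffffffffffffffffffffffffffffffffffffffffffffffffffffffffffffffffffffffffffffffffffffffffffffffffffffffffffffffffffffffffffffffffffffffffffffffffffffffffffffffffffffffffffffffffffffffffffffffffffffffffffffffffffffffffffffffffffffffffffffffffffffff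fffffffffffffffffffffffffffffffffffffffffffffffffffffffffffffffffffffffffffffffffffffffffffffffffffffffffffffffffffffffffffffffffffffffffffffffffffffffffffffffffffffffffffffffffffffffffffffffffffffffffffffffffffffffffffffffffffffffffffffffffffffffffffffffffffffffffffffffffffffffffffffffffffffffffffffffffffffffffffffffffffffffffffffffffffffffffffffffffffffffffffffffffffffffffffffffffffffffffffffffffffffffffffffffffffffffffffffffffffffffffffffffffffffffffffffffffffffffffffffffffffffffffffffffffffffffffffffffffffffffffffffffffffffffffffffffffffffffffffffffffffffffffffffffffffffffffffffffffffffffffffffffffffffffffffffffffffffffffffffffffffffffffffffffffffffffffffffffffffffffffffffffffffffffffffffffffffffffffffffffffffffffffffffffffffffffffffffffffffffffffffffffffffffffffffffffffffffffffffffffffffffffffffffffffffffffffffffffffffff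fffffffffffffffffffffffffffffffffffffffffffffffffffffffffffffffffffffffffffffffffffffffffffffffffffffffffffffffffffffffffffffffffffffffffffffffffffffffffffffffffffffffffffffffffffffffffffffffffffffffffffffffffffffffffffffffffffffffffffffffffffffffffffffffffffffffffffffffffffffffffffffffffffffffffffffffffffffffffffffffffffffffffffffffffffffffffffffffffffffffffffffffffffffffffffffffffffffffffffffffffffffffffffffffffffffffffffffffffffffffffffffffffffffffffffffffffffffffffffffffffffffffffffffffffffffffffffffffffffffffffffffffffffffffffffffffffffffffffffffffffffffffffffffffffffffffffffffffffffffffffffffffffffffffffffffffffffffffffffffffffffffffffffffffffffffffffffffffffffffffffffffffffffffffffffffffffffffffffffffffffffffffffffffffffffffffffffffffffffffffffffffffffffffffffffffffffffffffffffffffffffffffffffffffffffffffffffffffffffff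fffffffffffffffffffffffffffffffffffffffffffffffffffffffffffffffffffffffffffffffffffffffffffffffffffffffffffffffffffffffffffffffffffffffffffffffffffffffffffffffffffffffffffffffffffffffffffffffffffffffffffffffffffffffffffffffffffffffffffffffffffffffffffffffffffffffffffffffffffffffffffffffffffffffffffffffffffffffffffffffffffffffffffffffffffffffffffffffffffffffffffffffffffffffffffffffffffffffffffffffffffffffffffffffffffffffffffffffffffffffffffffffffffffffffffffffffffffffffffffffffffffffffffffffffffffffffffffffffffffffffffffffffffffffffffffffffffffffffffffffffffffffffffffffffffffffffffffffffffffffffffffffffffffffffffffffffffffffffffffffffffffffffffffffffffffffffffffffffffffffffffffffffffffffffffffffffffffffffffffffffffffffffffffffffffffffffffffffffffffffffffffffffffffffffffffffffffffffffffffffffffffffffffffffffffffffffffffffffffff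ffffffffffffffffffffffffffffffffffffffffffffffffffffffffffffffffffffffffffffffffffffffffffffffffffffffffffffffffffffffffffffffffffffffffffffffffffffffffffffffffffffffffffffffffffffffffffffffffffffffffffffffffffffffffffffffffffffffffffffffffffffffffffffffffffffffffffffffffffffffffffffffffffffffffffffffffffffffffffffffffffffffffffffffffffffffffffffffffffffffffffffffffffffffffffffffffffffffffffffffffffffffffffffffffffffffffffffffffffffffffffffffffffffffffffffffffffffffffffffffffffffffffffffffffffffffffffffffffffffffffffffffffffffffffffffffffffffffffffffffffffffffffffffffffffffffffffffffffffffffffffffffffffffffffffffffffffffffffffffffffffffffffffffffffffffffffffffffffffffffffffffffffffffffffffffffffffffffffffffffffffffffffffffffffffffffffffffffffffffffffffffffffffffffffffffffffffffffffffffffffffffffffffffff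

/-- the growth vectors which are killed -/
def NN (j : ℕ) : ℕ := Nat.land (GG j) (Nat.xor (BT.get EE j) ONES)

end CR.L6
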