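import Pool.Agent.Lib.MP_6f5d36_co.L6.Walk
import Pool.Agent.Lib.MP_6f5d36_co.L6.E6
import Pool.Agent.Lib.MP_6f5d36_co.K5.All

set_option autoImplicit false

/-!
# MP_6f5d36_co : facts about the tables of level 6
-/

namespace CR.L6

/-! ### masks of growth vectors -/

/-- all `x < n` -/
def orx (f : ℕ → ℕ) (n : ℕ) : ℕ := Nat.rec 0 (fun x r => Nat.lor (f x) r) n

/-- growth vectors as a mask -/
def gm : ℕ → ℕ → ℕ → ℕ → ℕ
  | 0, _, c, _ => 2 ^ c
  | n + 1, K, c, s => orx (fun x => gm n (nxt K x) (c + x * s) (8 * s)) K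

theorem orx_spec (f : ℕ → ℕ) (n v : ℕ) (h : (orx f n).testBit v = true) :
    ∃ x, x < n ∧ (f x).testBit v = true := by
  induction n with
  | zero =>
    have h1 : (0 : ℕ).testBit v = true := h
    simp at h1
  | succ n ih =>
    have h1 : (f n ||| orx f n).testBit v = true := h
    rw [Nat.testBit_or, Bool.or_eq_true] at h1
    rcases h1 with h1 | h1
    · exact ⟨n, by omega, h1⟩
    · obtain ⟨x, hx, h2⟩ := ih h1
      exact ⟨x, by omega, h2⟩

theorem gm_spec : ∀ (n K c s v : ℕ), K ≤ 6 → (gm n K c s).testBit v = true →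
    ∃ w, gro n K w ∧ v = c + w * s
  | 0, K, c, s, v, _, h => by
    have h1 : (2 ^ c).testBit v = true := h
    rw [Nat.testBit_two_pow, decide_eq_true_iff] at h1
    exact ⟨0, rfl, by omega⟩
  | n + 1, K, c, s, v, hK, h => by
    obtain ⟨x, hx, h1⟩ := orx_spec _ _ _ h
    obtain ⟨w, hw, hv⟩ := gm_spec n (nxt K x) (c + x * s) (8 * s) v (nxt_le K x hK) h1
    refine ⟨x + 8 * w, ⟨?_, ?_⟩, ?_⟩
    · omega
    · have e1 : (x + 8 * w) % 8 = x := by omega
      have e2 : (x + 8 * w) / 8 = w := by omega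
      rw [e1, e2]
      exact hw
    · rw [hv]; ring

theorem GM4_eq : GM4 = gm 5 4 0 1 := by decide +kernel

theorem GM5_eq : GM5 = gm 5 5 0 1 := by decide +kernel

theorem GM6_eq : GM6 = gm 5 6 0 1 := by decide +kernel

/-- the number of admissible labels of the first new edge for the type `j` -/
def KK (j : ℕ) : ℕ := if j < 527 then 4 else if j < 643 then 5 else 6

theorem KK_le (j : ℕ) : KK j ≤ 6 := by
  unfold KK
  split_ifs <;> omega

theorem GG_spec (j u : ℕ) (h : (GG j).testBit u = true) : gro 5 (KK j) u := by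
  unfold KK
  unfold GG at h
  by_cases h1 : 643 ≤ j
  · rw [if_neg (by omega), if_neg (by omega)]
    rw [ble_iff.2 h1] at h
    have h2 : GM6.testBit u = true := h
    rw [GM6_eq] at h2
    obtain ⟨w, hw, hv⟩ := gm_spec 5 6 0 1 u le_rfl h2
    have : u = w := by omega
    rw [this]; exact hw
  · have h2 : Nat.ble 643 j = false := by
      rw [Bool.eq_false_iff]; intro h3; exact h1 (ble_iff.1 h3)
    rw [h2] at h
    by_cases h4 : 527 ≤ j
    · rw [if_neg (by omega), if_pos (by omega)]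
      rw [ble_iff.2 h4] at h
      have h2 : GM5.testBit u = true := h
      rw [GM5_eq] at h2
      obtain ⟨w, hw, hv⟩ := gm_spec 5 5 0 1 u (by norm_num) h2
      have : u = w := by omega
      rw [this]; exact hw
    · rw [if_pos (by omega)]
      have h5 : Nat.ble 527 j = false := by
        rw [Bool.eq_false_iff]; intro h3; exact h4 (ble_iff.1 h3)
      rw [h5] at h
      have h2 : GM4.testBit u = true := h
      rw [GM4_eq] at h2
      obtain ⟨w, hw, hv⟩ := gm_spec 5 4 0 1 u (by norm_num) h2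
      have : u = w := by omega
      rw [this]; exact hw

/-- `2 ^ n` -/
def p2 (n : ℕ) : ℕ := 2 ^ n

theorem ONES_aux : Nat.beq (Nat.add ONES 1) (p2 32768) = true := by decide +kernel

theorem ONES_spec (u n : ℕ) (hn : n = 32768) : ONES.testBit u = decide (u < n) := by
  have h := beq_iff.1 ONES_aux
  rw [← hn] at h
  have h1 : ONES + 1 = 2 ^ n := h
  have h2 : ONES = 2 ^ n - 1 := by omega
  rw [h2, Nat.testBit_two_pow_sub_one]

theorem NN_spec (j u : ℕ) (h : (NN j).testBit u = true) :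
    gro 5 (KK j) u ∧ (E6 j).testBit u = false := by
  have h1 : (GG j &&& (E6 j ^^^ ONES)).testBit u = true := h
  rw [Nat.testBit_and, Nat.testBit_xor, ONES_spec u 32768 rfl, Bool.and_eq_true] at h1
  obtain ⟨h2, h3⟩ := h1
  have h4 := GG_spec j u h2
  have h5 := gro_lt _ _ _ h4
  refine ⟨h4, ?_⟩
  have h6 : decide (u < 32768) = true := decide_eq_true (by norm_num at h5; exact h5)
  rw [h6, Bool.xor_true, Bool.not_eq_true'] at h3
  exact h3

/-! ### the digits of the types -/

theorem T5_dig (j e : ℕ) (hj : j < 2048) (he : e < 10) : od (tj TT j) e < 6 := by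
  have h : ∀ j, j < 2048 → ∀ e, e < 10 → od (tj TT j) e < 6 := by decide +kernel
  exact h j hj e he

theorem T5_lt (j : ℕ) : T5 j < 8 ^ 10 := land_lt _ 30 _ rfl

/-- growth strings as a Boolean test -/
def grb : ℕ → ℕ → ℕ → Bool
  | 0, _, u => Nat.beq u 0
  | n + 1, K, u => Nat.ble (u % 8 + 1) K && grb n (nxt K (u % 8)) (u / 8)

theorem grb_spec : ∀ (n K u : ℕ), grb n K u = true ↔ gro n K u
  | 0, K, u => by
    show Nat.beq u 0 = true ↔ u = 0
    exact beq_iff
  | n + 1, K, u => by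
    show (Nat.ble (u % 8 + 1) K && grb n (nxt K (u % 8)) (u / 8)) = true ↔ _
    rw [Bool.and_eq_true, ble_iff, grb_spec n]
    rfl

theorem T5_gro (j : ℕ) (hj : j < 1205) : gro 10 1 (T5 j) := by
  have h : ∀ j, j < 1205 → grb 10 1 (T5 j) = true := by decide +kernel
  exact (grb_spec _ _ _).1 (h j hj)

theorem T5_groK (j : ℕ) (h1 : 526 ≤ j) (hj : j < 1205) : groK 10 1 (T5 j) = KK j := by
  have h : ∀ j, j < 1205 → 526 ≤ j → groK 10 1 (T5 j) = KK j := by decide +kernel
  exact h j hj h1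

theorem T5_dead (j : ℕ) (hj : j < 526) : Kill 5 (T5 j) := by
  have h : ∀ j, j < 526 → T5dead.contains (T5 j) = true := by decide +kernel
  intro F f g ho
  exact t5dead_occ (List.contains_iff_mem.1 (h j hj)) ho

/-! ### the statement -/

/-- level six for the type `j` -/
def Q (j : ℕ) : Prop := ∀ u, gro 5 (KK j) u → (E6 j).testBit u = false → Kill 6 (T5 j + u * 8 ^ 10)

/-- the induction step -/
def St (i : ℕ) : Prop := (∀ j, 526 ≤ j → j < i → Q j) → Q i

theorem St_of {i B E C K : ℕ} {Hs : List ℕ} (hw : wl (leaf TT NN i B E C) Hs K 0 = true)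
    (hc : Nat.beq (KK i) K = true ∧ Nat.ble i 2047 = true ∧ Nat.beq (T5 i) B = true ∧
      Nat.beq (E6 i) E = true)
    (hC : ∀ u, C.testBit u = true → Kill 6 (B + u * 8 ^ 10)) : St i := by
  obtain ⟨hK, hi, hB, hE⟩ := hc
  rw [beq_iff] at hK hB hE
  rw [ble_iff] at hi
  subst hK hB hE
  intro hQ
  refine step hw (KK_le i) (T5_lt i) (fun e he => T5_dig i e (by omega) he) rfl
    (fun j e hj he => T5_dig j e hj he) T5_dead ?_ hC
  intro j h1 h2 u hu
  obtain ⟨h3, h4⟩ := NN_spec j u hu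
  exact hQ j h1 h2 u h3 h4

theorem Q_all (h : ∀ i, 526 ≤ i → i < 1205 → St i) : ∀ i, 526 ≤ i → i < 1205 → Q i := by
  intro i
  induction i using Nat.strong_induction_on with
  | _ i ih =>
    intro h1 h2
    exact h i h1 h2 (fun j h3 h4 => ih j h4 h3 (by omega))

end CR.L6
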