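import Pool.Agent.Lib.MP_6f5d36_co.L6.V
import Pool.Agent.Lib.MP_6f5d36_co.L6.Types
import Pool.Agent.Lib.MP_6f5d36_co.Struct

set_option autoImplicit false

/-!
# MP_6f5d36_co : the theorems of levels five and six (from `Q`)
-/

namespace CR.L6

theorem T5_fx (j : ℕ) (h1 : 526 ≤ j) (hj : j < 1205) (e : ℕ) (he : e < 10) :
    od (T5 j) e < fx (KK j) := by
  have h : ∀ j, j < 1205 → 526 ≤ j → ∀ e, e < 10 → od (T5 j) e < fx (KK j) := by decide +kernel
  exact h j hj h1 e he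

theorem KK_pos (j : ℕ) : 1 ≤ KK j := by
  unfold KK
  split_ifs <;> omega

/-- a pattern whose first five points are of a dead type -/
theorem kill_dead (j : ℕ) (hj : j < 526) (P : ℕ) (hP : P % 8 ^ 10 = T5 j) : Kill 6 P := by
  intro F f g ho
  have h1 : Occ F 5 f g (T5 j) := by
    apply (ho.mono (m' := 5) (by norm_num)).congr
    intro a b hab hb
    have he : eo a b < 10 := by
      have key : ∀ b, b < 5 → ∀ a, a < b → eo a b < 10 := by decide
      exact key b hb a hab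
    rw [lab_eq_od, lab_eq_od, ← hP, od_mod _ _ _ he]
  exact T5_dead j hj _ _ _ h1

/-- **the table of six points** -/
theorem e6_of (hQ : ∀ i, 526 ≤ i → i < 1205 → Q i) (F : Conf 9) : ∀ f g P j, j < 1205 →
    gro 15 1 P → Occ F 6 f g P → P % 8 ^ 10 = T5 j → (E6 j).testBit (P / 8 ^ 10) = true := by
  intro f g P j hj hg ho hP
  rcases Nat.lt_or_ge j 526 with h1 | h1
  · exact absurd ho (kill_dead j h1 P hP _ _ _)
  · by_contra h2
    rw [Bool.not_eq_true] at h2
    have h3 := (gro_split 10 5 1 (P % 8 ^ 10) (P / 8 ^ 10) (Nat.mod_lt _ (by norm_num))).1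
      (by rw [Nat.mod_add_div']; exact hg)
    rw [hP, T5_groK j h1 hj] at h3
    have h4 := hQ j h1 hj _ h3.2 h2
    have e : T5 j + P / 8 ^ 10 * 8 ^ 10 = P := by
      rw [← hP, Nat.mod_add_div']
    rw [e] at h4
    exact h4 _ _ _ ho

/-- the same without the growth string of the first five points -/
theorem e6_of' (hQ : ∀ i, 526 ≤ i → i < 1205 → Q i) {F : Conf 9} {f : ℕ → Fin 9} {g : ℕ → Fin 8}
    {j u : ℕ} (hj : j < 1205) (hu : 526 ≤ j → gro 5 (KK j) u)
    (ho : Occ F 6 f g (T5 j + u * 8 ^ 10)) : (E6 j).testBit u = true := by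
  rcases Nat.lt_or_ge j 526 with h1 | h1
  · refine absurd ho (kill_dead j h1 _ ?_ _ _ _)
    rw [Nat.add_mul_mod_self_right, Nat.mod_eq_of_lt (T5_lt j)]
  · by_contra h2
    rw [Bool.not_eq_true] at h2
    exact hQ j h1 hj u (hu h1) h2 _ _ _ ho

theorem good_qm {g : ℕ → Fin 8} (hg : GoodG g) {w : ℕ} (hw : w < 1024) :
    GoodG (fun a => g (qm w a)) := by
  intro a ha
  apply hg
  unfold qm
  rw [if_pos ha]
  exact ((tok w hw).1 a ha).1

/-- **level five**: five points without bad edges have an allowed type -/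
theorem L5 {F : Conf 9} {f : ℕ → Fin 9} (hf : ∀ i j, i < 5 → j < 5 → f i = f j → i = j)
    (hb : ∀ i j, i < j → j < 5 → 2 ≤ (F.c (f i) (f j)).val) :
    ∃ j v g, 526 ≤ j ∧ j < 1205 ∧ v < 1024 ∧ od (pc v) 5 = 5 ∧ GoodG g ∧
      Occ F 5 (fun i => f (od (pc v) i)) g (T5 j) := by
  obtain ⟨g, P, h1, h2, h3⟩ := occ5 hf hb
  obtain ⟨j, v, w, a1, a2, a3, a4, a5⟩ := (all5 P h1).occ h3
  refine ⟨j, v, _, ?_, a1, a2, a4, good_qm h2 a3, a5⟩
  by_contra h4
  exact T5_dead j (by omega) _ _ _ a5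

/-- **level six**: six points without bad edges have, in some order, an allowed pattern -/
theorem L6_of (hQ : ∀ i, 526 ≤ i → i < 1205 → Q i) {F : Conf 9} {f : ℕ → Fin 9} (hf : Big6 F f) :
    ∃ (j u : ℕ) (p : ℕ → ℕ) (g : ℕ → Fin 8), 526 ≤ j ∧ j < 1205 ∧ (∀ i, i < 6 → p i < 6) ∧
      (∀ i k, i < 6 → k < 6 → p i = p k → i = k) ∧ GoodG g ∧ gro 5 (KK j) u ∧
      (E6 j).testBit u = true ∧ Occ F 6 (fun i => f (p i)) g (T5 j + u * 8 ^ 10) := by
  obtain ⟨hf1, hf2⟩ := hf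
  obtain ⟨j, v, g, h1, h2, h3, h4, h5, h6⟩ := L5 (f := f) (fun i k hi hk => hf1 i k (by omega) (by omega))
    (fun i k hik hk => hf2 i k hik (by omega))
  have hp : ∀ i, i < 6 → od (pc v) i < 6 := fun i hi => ((tok v h3).1 i hi).1
  have hb : ∀ i, i < 5 → 2 ≤ (F.c (f (od (pc v) i)) (f (od (pc v) 5))).val := by
    intro i hi
    have a1 := hp i (by omega)
    have a2 : od (pc v) i ≠ 5 := by
      intro h7
      have := pc_inj v h3 i 5 (by omega) (by norm_num) (by rw [h7, h4])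
      omega
    rw [h4]
    exact hf2 _ _ (by omega) (by norm_num)
  obtain ⟨g', u, b1, b2, b3⟩ := occ6 (f := fun i => f (od (pc v) i)) (K := KK j)
    (fun i k hi hk hik => pc_inj v h3 i k hi hk (hf1 _ _ (hp i hi) (hp k hk) hik)) hb h6 h5
    (T5_lt j) (KK_pos j) (KK_le j) (T5_fx j h1 h2)
  exact ⟨j, u, fun i => od (pc v) i, g', h1, h2, hp, fun i k hi hk hik => pc_inj v h3 i k hi hk hik,
    b2, b1, e6_of' hQ h2 (fun _ => b1) b3, b3⟩

end CR.L6
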