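import Pool.Agent.Lib.MP_6f5d36_co.L6.Walk
import Pool.Agent.Lib.MP_6f5d36_co.D6.Ck

set_option autoImplicit false

/-!
# MP_6f5d36_co : soundness of the lists of certificates of six points
-/

namespace CR.L6

theorem frc6_eq (n : ℕ) (f : ℕ → Bool) : D6.frc n f = f n := rfl

/-- the list checker for any certificate function -/
noncomputable def ckg (cert : ℕ → ℕ → Bool) (B : ℕ) (L : List ℕ) : ℕ → Bool :=
  List.rec (motive := fun _ => ℕ → Bool) (fun M => Nat.beq M 0)
    (fun x _ ih M =>
      D6.frc (Nat.land x 32767) fun u =>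
      D6.frc (Nat.shiftRight x 15) fun C =>
      D6.frc (Nat.add B (Nat.mul u 1073741824)) fun P =>
      Bool.rec (motive := fun _ => Bool) false (ih (Nat.xor M (Nat.shiftLeft 1 u))) (cert P C)) L

theorem ckg_cons (cert : ℕ → ℕ → Bool) (B x : ℕ) (L : List ℕ) (M : ℕ) :
    ckg cert B (x :: L) M = Bool.rec (motive := fun _ => Bool) false
      (ckg cert B L (Nat.xor M (Nat.shiftLeft 1 (Nat.land x 32767))))
      (cert (Nat.add B (Nat.mul (Nat.land x 32767) 1073741824)) (Nat.shiftRight x 15)) := by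
  have h1 : ckg cert B (x :: L) M = D6.frc (Nat.land x 32767) (fun u =>
      D6.frc (Nat.shiftRight x 15) fun C =>
      D6.frc (Nat.add B (Nat.mul u 1073741824)) fun P =>
      Bool.rec (motive := fun _ => Bool) false (ckg cert B L (Nat.xor M (Nat.shiftLeft 1 u)))
        (cert P C)) := rfl
  rw [h1, frc6_eq, frc6_eq, frc6_eq]

theorem ckg_sound (cert : ℕ → ℕ → Bool) (hs : ∀ P C, cert P C = true → Kill 6 P) (B : ℕ) :
    ∀ (L : List ℕ) (M : ℕ), ckg cert B L M = true →
    ∀ u, M.testBit u = true → Kill 6 (B + u * 8 ^ 10)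
  | [], M, h, u, hu => by
    have h1 : Nat.beq M 0 = true := h
    rw [beq_iff] at h1
    rw [h1, Nat.zero_testBit] at hu
    exact absurd hu (by decide)
  | x :: L, M, h, u, hu => by
    rw [ckg_cons] at h
    rcases bool_rec_true h with ⟨-, h2⟩ | ⟨h2, h3⟩
    · exact absurd h2 (by decide)
    · by_cases hx : u = Nat.land x 32767
      · rw [hx]
        have h4 := hs _ _ h2
        have e : Nat.add B (Nat.mul (Nat.land x 32767) 1073741824) =
            B + Nat.land x 32767 * 8 ^ 10 := by
          generalize Nat.land x 32767 = y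
          simp only [Nat.add_eq, Nat.mul_eq]
          norm_num
        rw [← e]
        exact h4
      · refine ckg_sound cert hs B L _ h3 u ?_
        generalize Nat.land x 32767 = y at hx
        show (M ^^^ (1 <<< y)).testBit u = true
        rw [Nat.testBit_xor, hu, Nat.one_shiftLeft, Nat.testBit_two_pow,
          decide_eq_false (fun h => hx h.symm)]
        rfl

/-- the certificates of six points are right -/
def Sound6 : Prop := ∀ P C, Ker.cert6 P C = true → Kill 6 P

theorem ck6_eq (B : ℕ) (L : List ℕ) (M : ℕ) : D6.ck6 B L M = ckg Ker.cert6 B L M := rfl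

theorem ck6_sound' (hs : Sound6) {B M : ℕ} (h : ∃ L, D6.ck6 B L M = true) :
    ∀ u, M.testBit u = true → Kill 6 (B + u * 8 ^ 10) := by
  obtain ⟨L, hL⟩ := h
  rw [ck6_eq] at hL
  exact ckg_sound _ hs B L M hL

/-- two masks -/
theorem kill_or {B M N : ℕ} (h1 : ∀ u, M.testBit u = true → Kill 6 (B + u * 8 ^ 10))
    (h2 : ∀ u, N.testBit u = true → Kill 6 (B + u * 8 ^ 10)) :
    ∀ u, (Nat.lor M N).testBit u = true → Kill 6 (B + u * 8 ^ 10) := by
  intro u hu
  have h3 : (M ||| N).testBit u = true := hu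
  rw [Nat.testBit_or, Bool.or_eq_true] at h3
  exact h3.elim (h1 u) (h2 u)

theorem kill_eq {B M N : ℕ} (h1 : ∀ u, M.testBit u = true → Kill 6 (B + u * 8 ^ 10))
    (h : Nat.beq N M = true) : ∀ u, N.testBit u = true → Kill 6 (B + u * 8 ^ 10) := by
  rw [beq_iff] at h
  rw [h]
  exact h1

theorem kill_zero {B N : ℕ} (h : Nat.beq N 0 = true) :
    ∀ u, N.testBit u = true → Kill 6 (B + u * 8 ^ 10) := by
  rw [beq_iff] at h
  intro u hu
  rw [h, Nat.zero_testBit] at hu
  exact absurd hu (by decide)

end CR.L6
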