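import Pool.Agent.Lib.MP_6f5d36_co.L6.W001
import Pool.Agent.Lib.MP_6f5d36_co.L6.CkS
import Pool.Agent.Lib.MP_6f5d36_co.D6.X003
import Pool.Agent.Lib.MP_6f5d36_co.D6.Y000
import Pool.Agent.Lib.MP_6f5d36_co.D6.X004
import Pool.Agent.Lib.MP_6f5d36_co.D6.X005
import Pool.Agent.Lib.MP_6f5d36_co.D6.X006

set_option autoImplicit false

/-!
# MP_6f5d36_co : level 6 for the types 536 to 545
-/

namespace CR.L6

theorem c6_536 (hs : Sound6) : ∀ u, C6_536.testBit u = true → Kill 6 (426315840 + u * 8 ^ 10) :=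
  kill_eq (kill_or (ck6_sound' hs D6.x_536_0)
    (kill_or (ck6_sound' hs D6.x_536_1)
    (ck6_sound' hs D6.x_536_2)))
    (by decide +kernel : Nat.beq C6_536 (Nat.lor D6.m_536_0 (Nat.lor D6.m_536_1 D6.m_536_2)) = true)

theorem c6_537 (hs : Sound6) : ∀ u, C6_537.testBit u = true → Kill 6 (304455744 + u * 8 ^ 10) :=
  kill_eq (kill_or (ck6_sound' hs D6.x_537_0)
    (kill_or (ck6_sound' hs D6.x_537_1)
    (kill_or (ck6_sound' hs D6.x_537_2)
    (ck6_sound' hs D6.xs_537_0))))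
    (by decide +kernel : Nat.beq C6_537 (Nat.lor D6.m_537_0 (Nat.lor D6.m_537_1 (Nat.lor D6.m_537_2 D6.ms_537_0))) = true)

theorem c6_538 (hs : Sound6) : ∀ u, C6_538.testBit u = true → Kill 6 (457773632 + u * 8 ^ 10) :=
  kill_eq (kill_or (ck6_sound' hs D6.x_538_0)
    (kill_or (ck6_sound' hs D6.x_538_1)
    (kill_or (ck6_sound' hs D6.x_538_2)
    (ck6_sound' hs D6.xs_538_0))))
    (by decide +kernel : Nat.beq C6_538 (Nat.lor D6.m_538_0 (Nat.lor D6.m_538_1 (Nat.lor D6.m_538_2 D6.ms_538_0))) = true)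

theorem c6_539 (hs : Sound6) : ∀ u, C6_539.testBit u = true → Kill 6 (442830912 + u * 8 ^ 10) :=
  kill_eq (kill_or (ck6_sound' hs D6.x_539_0)
    (kill_or (ck6_sound' hs D6.x_539_1)
    (kill_or (ck6_sound' hs D6.x_539_2)
    (ck6_sound' hs D6.xs_539_0))))
    (by decide +kernel : Nat.beq C6_539 (Nat.lor D6.m_539_0 (Nat.lor D6.m_539_1 (Nat.lor D6.m_539_2 D6.ms_539_0))) = true)

theorem c6_540 (hs : Sound6) : ∀ u, C6_540.testBit u = true → Kill 6 (292098112 + u * 8 ^ 10) :=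
  kill_eq (kill_or (ck6_sound' hs D6.x_540_0)
    (kill_or (ck6_sound' hs D6.x_540_1)
    (kill_or (ck6_sound' hs D6.x_540_2)
    (ck6_sound' hs D6.xs_540_0))))
    (by decide +kernel : Nat.beq C6_540 (Nat.lor D6.m_540_0 (Nat.lor D6.m_540_1 (Nat.lor D6.m_540_2 D6.ms_540_0))) = true)

theorem c6_541 (hs : Sound6) : ∀ u, C6_541.testBit u = true → Kill 6 (286068800 + u * 8 ^ 10) :=
  kill_eq (kill_or (ck6_sound' hs D6.x_541_0)
    (kill_or (ck6_sound' hs D6.x_541_1)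
    (kill_or (ck6_sound' hs D6.x_541_2)
    (ck6_sound' hs D6.xs_541_0))))
    (by decide +kernel : Nat.beq C6_541 (Nat.lor D6.m_541_0 (Nat.lor D6.m_541_1 (Nat.lor D6.m_541_2 D6.ms_541_0))) = true)

theorem c6_542 (hs : Sound6) : ∀ u, C6_542.testBit u = true → Kill 6 (156045312 + u * 8 ^ 10) :=
  kill_eq (kill_or (ck6_sound' hs D6.x_542_0)
    (kill_or (ck6_sound' hs D6.x_542_1)
    (ck6_sound' hs D6.xs_542_0)))
    (by decide +kernel : Nat.beq C6_542 (Nat.lor D6.m_542_0 (Nat.lor D6.m_542_1 D6.ms_542_0)) = true)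

theorem c6_543 (hs : Sound6) : ∀ u, C6_543.testBit u = true → Kill 6 (457740288 + u * 8 ^ 10) :=
  kill_eq (kill_or (ck6_sound' hs D6.x_543_0)
    (kill_or (ck6_sound' hs D6.x_543_1)
    (ck6_sound' hs D6.xs_543_0)))
    (by decide +kernel : Nat.beq C6_543 (Nat.lor D6.m_543_0 (Nat.lor D6.m_543_1 D6.ms_543_0)) = true)

theorem c6_544 (hs : Sound6) : ∀ u, C6_544.testBit u = true → Kill 6 (458035200 + u * 8 ^ 10) :=
  kill_eq (kill_or (ck6_sound' hs D6.x_544_0)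
    (kill_or (ck6_sound' hs D6.x_544_1)
    (ck6_sound' hs D6.xs_544_0)))
    (by decide +kernel : Nat.beq C6_544 (Nat.lor D6.m_544_0 (Nat.lor D6.m_544_1 D6.ms_544_0)) = true)

theorem c6_545 (hs : Sound6) : ∀ u, C6_545.testBit u = true → Kill 6 (440733760 + u * 8 ^ 10) :=
  kill_eq (kill_or (ck6_sound' hs D6.x_545_0)
    (kill_or (ck6_sound' hs D6.x_545_1)
    (kill_or (ck6_sound' hs D6.x_545_2)
    (ck6_sound' hs D6.xs_545_0))))
    (by decide +kernel : Nat.beq C6_545 (Nat.lor D6.m_545_0 (Nat.lor D6.m_545_1 (Nat.lor D6.m_545_2 D6.ms_545_0))) = true)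

theorem st_1 (hs : Sound6) : ∀ i, 536 ≤ i → i < 546 → St i := by
  intro i h1 h2
  interval_cases i
  · exact s_536 (c6_536 hs)
  · exact s_537 (c6_537 hs)
  · exact s_538 (c6_538 hs)
  · exact s_539 (c6_539 hs)
  · exact s_540 (c6_540 hs)
  · exact s_541 (c6_541 hs)
  · exact s_542 (c6_542 hs)
  · exact s_543 (c6_543 hs)
  · exact s_544 (c6_544 hs)
  · exact s_545 (c6_545 hs)

end CR.L6
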