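import Pool.Agent.Lib.MP_6f5d36_co.L6.W002
import Pool.Agent.Lib.MP_6f5d36_co.L6.CkS
import Pool.Agent.Lib.MP_6f5d36_co.D6.X006
import Pool.Agent.Lib.MP_6f5d36_co.D6.Y000
import Pool.Agent.Lib.MP_6f5d36_co.D6.X007
import Pool.Agent.Lib.MP_6f5d36_co.D6.X008
import Pool.Agent.Lib.MP_6f5d36_co.D6.X009

set_option autoImplicit false

/-!
# MP_6f5d36_co : level 6 for the types 546 to 555
-/

namespace CR.L6

theorem c6_546 (hs : Sound6) : ∀ u, C6_546.testBit u = true → Kill 6 (405606464 + u * 8 ^ 10) :=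
  kill_eq (kill_or (ck6_sound' hs D6.x_546_0)
    (kill_or (ck6_sound' hs D6.x_546_1)
    (ck6_sound' hs D6.xs_546_0)))
    (by decide +kernel : Nat.beq C6_546 (Nat.lor D6.m_546_0 (Nat.lor D6.m_546_1 D6.ms_546_0)) = true)

theorem c6_547 (hs : Sound6) : ∀ u, C6_547.testBit u = true → Kill 6 (440730176 + u * 8 ^ 10) :=
  kill_eq (kill_or (ck6_sound' hs D6.x_547_0)
    (kill_or (ck6_sound' hs D6.x_547_1)
    (ck6_sound' hs D6.xs_547_0)))
    (by decide +kernel : Nat.beq C6_547 (Nat.lor D6.m_547_0 (Nat.lor D6.m_547_1 D6.ms_547_0)) = true)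

theorem c6_548 (hs : Sound6) : ∀ u, C6_548.testBit u = true → Kill 6 (323289664 + u * 8 ^ 10) :=
  kill_eq (kill_or (ck6_sound' hs D6.x_548_0)
    (kill_or (ck6_sound' hs D6.x_548_1)
    (kill_or (ck6_sound' hs D6.x_548_2)
    (ck6_sound' hs D6.xs_548_0))))
    (by decide +kernel : Nat.beq C6_548 (Nat.lor D6.m_548_0 (Nat.lor D6.m_548_1 (Nat.lor D6.m_548_2 D6.ms_548_0))) = true)

theorem c6_549 (hs : Sound6) : ∀ u, C6_549.testBit u = true → Kill 6 (440734272 + u * 8 ^ 10) :=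
  kill_eq (kill_or (ck6_sound' hs D6.x_549_0)
    (kill_or (ck6_sound' hs D6.x_549_1)
    (ck6_sound' hs D6.x_549_2)))
    (by decide +kernel : Nat.beq C6_549 (Nat.lor D6.m_549_0 (Nat.lor D6.m_549_1 D6.m_549_2)) = true)

theorem c6_550 (hs : Sound6) : ∀ u, C6_550.testBit u = true → Kill 6 (421859328 + u * 8 ^ 10) :=
  kill_eq (ck6_sound' hs D6.x_550_0)
    (by decide +kernel : Nat.beq C6_550 D6.m_550_0 = true)

theorem c6_551 (hs : Sound6) : ∀ u, C6_551.testBit u = true → Kill 6 (455413760 + u * 8 ^ 10) :=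
  kill_eq (kill_or (ck6_sound' hs D6.x_551_0)
    (kill_or (ck6_sound' hs D6.x_551_1)
    (ck6_sound' hs D6.xs_551_0)))
    (by decide +kernel : Nat.beq C6_551 (Nat.lor D6.m_551_0 (Nat.lor D6.m_551_1 D6.ms_551_0)) = true)

theorem c6_552 (hs : Sound6) : ∀ u, C6_552.testBit u = true → Kill 6 (453583424 + u * 8 ^ 10) :=
  kill_eq (kill_or (ck6_sound' hs D6.x_552_0)
    (kill_or (ck6_sound' hs D6.x_552_1)
    (kill_or (ck6_sound' hs D6.x_552_2)
    (ck6_sound' hs D6.xs_552_0))))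
    (by decide +kernel : Nat.beq C6_552 (Nat.lor D6.m_552_0 (Nat.lor D6.m_552_1 (Nat.lor D6.m_552_2 D6.ms_552_0))) = true)

theorem c6_553 (hs : Sound6) : ∀ u, C6_553.testBit u = true → Kill 6 (141140544 + u * 8 ^ 10) :=
  kill_eq (kill_or (ck6_sound' hs D6.x_553_0)
    (kill_or (ck6_sound' hs D6.x_553_1)
    (kill_or (ck6_sound' hs D6.x_553_2)
    (ck6_sound' hs D6.xs_553_0))))
    (by decide +kernel : Nat.beq C6_553 (Nat.lor D6.m_553_0 (Nat.lor D6.m_553_1 (Nat.lor D6.m_553_2 D6.ms_553_0))) = true)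

theorem c6_554 (hs : Sound6) : ∀ u, C6_554.testBit u = true → Kill 6 (50892800 + u * 8 ^ 10) :=
  kill_eq (kill_or (ck6_sound' hs D6.x_554_0)
    (ck6_sound' hs D6.xs_554_0))
    (by decide +kernel : Nat.beq C6_554 (Nat.lor D6.m_554_0 D6.ms_554_0) = true)

theorem c6_555 (hs : Sound6) : ∀ u, C6_555.testBit u = true → Kill 6 (325390336 + u * 8 ^ 10) :=
  kill_eq (kill_or (ck6_sound' hs D6.x_555_0)
    (kill_or (ck6_sound' hs D6.x_555_1)
    (ck6_sound' hs D6.xs_555_0)))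
    (by decide +kernel : Nat.beq C6_555 (Nat.lor D6.m_555_0 (Nat.lor D6.m_555_1 D6.ms_555_0)) = true)

theorem st_2 (hs : Sound6) : ∀ i, 546 ≤ i → i < 556 → St i := by
  intro i h1 h2
  interval_cases i
  · exact s_546 (c6_546 hs)
  · exact s_547 (c6_547 hs)
  · exact s_548 (c6_548 hs)
  · exact s_549 (c6_549 hs)
  · exact s_550 (c6_550 hs)
  · exact s_551 (c6_551 hs)
  · exact s_552 (c6_552 hs)
  · exact s_553 (c6_553 hs)
  · exact s_554 (c6_554 hs)
  · exact s_555 (c6_555 hs)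

end CR.L6
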