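import Pool.Agent.Lib.MP_6f5d36_co.L6.W003
import Pool.Agent.Lib.MP_6f5d36_co.L6.CkS
import Pool.Agent.Lib.MP_6f5d36_co.D6.X009
import Pool.Agent.Lib.MP_6f5d36_co.D6.Y000
import Pool.Agent.Lib.MP_6f5d36_co.D6.X010
import Pool.Agent.Lib.MP_6f5d36_co.D6.X011

set_option autoImplicit false

/-!
# MP_6f5d36_co : level 6 for the types 556 to 565
-/

namespace CR.L6

theorem c6_556 (hs : Sound6) : ∀ u, C6_556.testBit u = true → Kill 6 (437063744 + u * 8 ^ 10) :=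
  kill_eq (kill_or (ck6_sound' hs D6.x_556_0)
    (kill_or (ck6_sound' hs D6.x_556_1)
    (kill_or (ck6_sound' hs D6.x_556_2)
    (ck6_sound' hs D6.xs_556_0))))
    (by decide +kernel : Nat.beq C6_556 (Nat.lor D6.m_556_0 (Nat.lor D6.m_556_1 (Nat.lor D6.m_556_2 D6.ms_556_0))) = true)

theorem c6_557 (hs : Sound6) : ∀ u, C6_557.testBit u = true → Kill 6 (40702528 + u * 8 ^ 10) :=
  kill_eq (kill_or (ck6_sound' hs D6.x_557_0)
    (kill_or (ck6_sound' hs D6.x_557_1)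
    (kill_or (ck6_sound' hs D6.x_557_2)
    (ck6_sound' hs D6.xs_557_0))))
    (by decide +kernel : Nat.beq C6_557 (Nat.lor D6.m_557_0 (Nat.lor D6.m_557_1 (Nat.lor D6.m_557_2 D6.ms_557_0))) = true)

theorem c6_558 (hs : Sound6) : ∀ u, C6_558.testBit u = true → Kill 6 (455938048 + u * 8 ^ 10) :=
  kill_eq (kill_or (ck6_sound' hs D6.x_558_0)
    (ck6_sound' hs D6.xs_558_0))
    (by decide +kernel : Nat.beq C6_558 (Nat.lor D6.m_558_0 D6.ms_558_0) = true)

theorem c6_559 (hs : Sound6) : ∀ u, C6_559.testBit u = true → Kill 6 (273485888 + u * 8 ^ 10) :=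
  kill_eq (kill_or (ck6_sound' hs D6.x_559_0)
    (kill_or (ck6_sound' hs D6.x_559_1)
    (ck6_sound' hs D6.xs_559_0)))
    (by decide +kernel : Nat.beq C6_559 (Nat.lor D6.m_559_0 (Nat.lor D6.m_559_1 D6.ms_559_0)) = true)

theorem c6_560 (hs : Sound6) : ∀ u, C6_560.testBit u = true → Kill 6 (275583040 + u * 8 ^ 10) :=
  kill_eq (kill_or (ck6_sound' hs D6.x_560_0)
    (kill_or (ck6_sound' hs D6.x_560_1)
    (ck6_sound' hs D6.xs_560_0)))
    (by decide +kernel : Nat.beq C6_560 (Nat.lor D6.m_560_0 (Nat.lor D6.m_560_1 D6.ms_560_0)) = true)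

theorem c6_561 (hs : Sound6) : ∀ u, C6_561.testBit u = true → Kill 6 (275579456 + u * 8 ^ 10) :=
  kill_eq (kill_or (ck6_sound' hs D6.x_561_0)
    (kill_or (ck6_sound' hs D6.x_561_1)
    (kill_or (ck6_sound' hs D6.x_561_2)
    (ck6_sound' hs D6.xs_561_0))))
    (by decide +kernel : Nat.beq C6_561 (Nat.lor D6.m_561_0 (Nat.lor D6.m_561_1 (Nat.lor D6.m_561_2 D6.ms_561_0))) = true)

theorem c6_562 (hs : Sound6) : ∀ u, C6_562.testBit u = true → Kill 6 (403247680 + u * 8 ^ 10) :=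
  kill_eq (kill_or (ck6_sound' hs D6.x_562_0)
    (kill_or (ck6_sound' hs D6.x_562_1)
    (ck6_sound' hs D6.xs_562_0)))
    (by decide +kernel : Nat.beq C6_562 (Nat.lor D6.m_562_0 (Nat.lor D6.m_562_1 D6.ms_562_0)) = true)

theorem c6_563 (hs : Sound6) : ∀ u, C6_563.testBit u = true → Kill 6 (405344320 + u * 8 ^ 10) :=
  kill_eq (kill_or (ck6_sound' hs D6.x_563_0)
    (kill_or (ck6_sound' hs D6.x_563_1)
    (ck6_sound' hs D6.xs_563_0)))
    (by decide +kernel : Nat.beq C6_563 (Nat.lor D6.m_563_0 (Nat.lor D6.m_563_1 D6.ms_563_0)) = true)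

theorem c6_564 (hs : Sound6) : ∀ u, C6_564.testBit u = true → Kill 6 (189112384 + u * 8 ^ 10) :=
  kill_eq (kill_or (ck6_sound' hs D6.x_564_0)
    (ck6_sound' hs D6.x_564_1))
    (by decide +kernel : Nat.beq C6_564 (Nat.lor D6.m_564_0 D6.m_564_1) = true)

theorem c6_565 (hs : Sound6) : ∀ u, C6_565.testBit u = true → Kill 6 (40174144 + u * 8 ^ 10) :=
  kill_eq (kill_or (ck6_sound' hs D6.x_565_0)
    (kill_or (ck6_sound' hs D6.x_565_1)
    (ck6_sound' hs D6.xs_565_0)))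
    (by decide +kernel : Nat.beq C6_565 (Nat.lor D6.m_565_0 (Nat.lor D6.m_565_1 D6.ms_565_0)) = true)

theorem st_3 (hs : Sound6) : ∀ i, 556 ≤ i → i < 566 → St i := by
  intro i h1 h2
  interval_cases i
  · exact s_556 (c6_556 hs)
  · exact s_557 (c6_557 hs)
  · exact s_558 (c6_558 hs)
  · exact s_559 (c6_559 hs)
  · exact s_560 (c6_560 hs)
  · exact s_561 (c6_561 hs)
  · exact s_562 (c6_562 hs)
  · exact s_563 (c6_563 hs)
  · exact s_564 (c6_564 hs)
  · exact s_565 (c6_565 hs)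

end CR.L6
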