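import Pool.Agent.Lib.MP_6f5d36_co.L6.W004
import Pool.Agent.Lib.MP_6f5d36_co.L6.CkS
import Pool.Agent.Lib.MP_6f5d36_co.D6.X012
import Pool.Agent.Lib.MP_6f5d36_co.D6.Y000
import Pool.Agent.Lib.MP_6f5d36_co.D6.X013

set_option autoImplicit false

/-!
# MP_6f5d36_co : level 6 for the types 566 to 575
-/

namespace CR.L6

theorem c6_566 (hs : Sound6) : ∀ u, C6_566.testBit u = true → Kill 6 (275317312 + u * 8 ^ 10) :=
  kill_eq (kill_or (ck6_sound' hs D6.x_566_0)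
    (kill_or (ck6_sound' hs D6.x_566_1)
    (ck6_sound' hs D6.xs_566_0)))
    (by decide +kernel : Nat.beq C6_566 (Nat.lor D6.m_566_0 (Nat.lor D6.m_566_1 D6.ms_566_0)) = true)

theorem c6_567 (hs : Sound6) : ∀ u, C6_567.testBit u = true → Kill 6 (437064256 + u * 8 ^ 10) :=
  kill_eq (kill_or (ck6_sound' hs D6.x_567_0)
    (kill_or (ck6_sound' hs D6.x_567_1)
    (kill_or (ck6_sound' hs D6.x_567_2)
    (ck6_sound' hs D6.xs_567_0))))
    (by decide +kernel : Nat.beq C6_567 (Nat.lor D6.m_567_0 (Nat.lor D6.m_567_1 (Nat.lor D6.m_567_2 D6.ms_567_0))) = true)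

theorem c6_568 (hs : Sound6) : ∀ u, C6_568.testBit u = true → Kill 6 (141066240 + u * 8 ^ 10) :=
  kill_eq (ck6_sound' hs D6.x_568_0)
    (by decide +kernel : Nat.beq C6_568 D6.m_568_0 = true)

theorem c6_569 (hs : Sound6) : ∀ u, C6_569.testBit u = true → Kill 6 (436506624 + u * 8 ^ 10) :=
  kill_eq (kill_or (ck6_sound' hs D6.x_569_0)
    (kill_or (ck6_sound' hs D6.x_569_1)
    (ck6_sound' hs D6.xs_569_0)))
    (by decide +kernel : Nat.beq C6_569 (Nat.lor D6.m_569_0 (Nat.lor D6.m_569_1 D6.ms_569_0)) = true)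

theorem c6_570 (hs : Sound6) : ∀ u, C6_570.testBit u = true → Kill 6 (323260416 + u * 8 ^ 10) :=
  kill_eq (kill_or (ck6_sound' hs D6.x_570_0)
    (kill_or (ck6_sound' hs D6.x_570_1)
    (ck6_sound' hs D6.xs_570_0)))
    (by decide +kernel : Nat.beq C6_570 (Nat.lor D6.m_570_0 (Nat.lor D6.m_570_1 D6.ms_570_0)) = true)

theorem c6_571 (hs : Sound6) : ∀ u, C6_571.testBit u = true → Kill 6 (438865920 + u * 8 ^ 10) :=
  kill_eq (kill_or (ck6_sound' hs D6.x_571_0)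
    (kill_or (ck6_sound' hs D6.x_571_1)
    (ck6_sound' hs D6.xs_571_0)))
    (by decide +kernel : Nat.beq C6_571 (Nat.lor D6.m_571_0 (Nat.lor D6.m_571_1 D6.ms_571_0)) = true)

theorem c6_572 (hs : Sound6) : ∀ u, C6_572.testBit u = true → Kill 6 (455643136 + u * 8 ^ 10) :=
  kill_eq (kill_or (ck6_sound' hs D6.x_572_0)
    (ck6_sound' hs D6.x_572_1))
    (by decide +kernel : Nat.beq C6_572 (Nat.lor D6.m_572_0 D6.m_572_1) = true)

theorem c6_573 (hs : Sound6) : ∀ u, C6_573.testBit u = true → Kill 6 (55087104 + u * 8 ^ 10) :=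
  kill_eq (kill_or (ck6_sound' hs D6.x_573_0)
    (ck6_sound' hs D6.xs_573_0))
    (by decide +kernel : Nat.beq C6_573 (Nat.lor D6.m_573_0 D6.ms_573_0) = true)

theorem c6_574 (hs : Sound6) : ∀ u, C6_574.testBit u = true → Kill 6 (291835904 + u * 8 ^ 10) :=
  kill_eq (kill_or (ck6_sound' hs D6.x_574_0)
    (kill_or (ck6_sound' hs D6.x_574_1)
    (ck6_sound' hs D6.xs_574_0)))
    (by decide +kernel : Nat.beq C6_574 (Nat.lor D6.m_574_0 (Nat.lor D6.m_574_1 D6.ms_574_0)) = true)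

theorem c6_575 (hs : Sound6) : ∀ u, C6_575.testBit u = true → Kill 6 (438636608 + u * 8 ^ 10) :=
  kill_eq (kill_or (ck6_sound' hs D6.x_575_0)
    (kill_or (ck6_sound' hs D6.x_575_1)
    (ck6_sound' hs D6.xs_575_0)))
    (by decide +kernel : Nat.beq C6_575 (Nat.lor D6.m_575_0 (Nat.lor D6.m_575_1 D6.ms_575_0)) = true)

theorem st_4 (hs : Sound6) : ∀ i, 566 ≤ i → i < 576 → St i := by
  intro i h1 h2
  interval_cases i
  · exact s_566 (c6_566 hs)
  · exact s_567 (c6_567 hs)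
  · exact s_568 (c6_568 hs)
  · exact s_569 (c6_569 hs)
  · exact s_570 (c6_570 hs)
  · exact s_571 (c6_571 hs)
  · exact s_572 (c6_572 hs)
  · exact s_573 (c6_573 hs)
  · exact s_574 (c6_574 hs)
  · exact s_575 (c6_575 hs)

end CR.L6
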