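import Pool.Agent.Lib.MP_6f5d36_co.L6.W005
import Pool.Agent.Lib.MP_6f5d36_co.L6.CkS
import Pool.Agent.Lib.MP_6f5d36_co.D6.X014
import Pool.Agent.Lib.MP_6f5d36_co.D6.Y000
import Pool.Agent.Lib.MP_6f5d36_co.D6.X015
import Pool.Agent.Lib.MP_6f5d36_co.D6.X016
import Pool.Agent.Lib.MP_6f5d36_co.D6.Y001

set_option autoImplicit false

/-!
# MP_6f5d36_co : level 6 for the types 576 to 585
-/

namespace CR.L6

theorem c6_576 (hs : Sound6) : ∀ u, C6_576.testBit u = true → Kill 6 (423956544 + u * 8 ^ 10) :=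
  kill_eq (kill_or (ck6_sound' hs D6.x_576_0)
    (kill_or (ck6_sound' hs D6.x_576_1)
    (ck6_sound' hs D6.xs_576_0)))
    (by decide +kernel : Nat.beq C6_576 (Nat.lor D6.m_576_0 (Nat.lor D6.m_576_1 D6.ms_576_0)) = true)

theorem c6_577 (hs : Sound6) : ∀ u, C6_577.testBit u = true → Kill 6 (403509312 + u * 8 ^ 10) :=
  kill_eq (kill_or (ck6_sound' hs D6.x_577_0)
    (kill_or (ck6_sound' hs D6.x_577_1)
    (ck6_sound' hs D6.xs_577_0)))
    (by decide +kernel : Nat.beq C6_577 (Nat.lor D6.m_577_0 (Nat.lor D6.m_577_1 D6.ms_577_0)) = true)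

theorem c6_578 (hs : Sound6) : ∀ u, C6_578.testBit u = true → Kill 6 (439160896 + u * 8 ^ 10) :=
  kill_eq (kill_or (ck6_sound' hs D6.x_578_0)
    (kill_or (ck6_sound' hs D6.x_578_1)
    (ck6_sound' hs D6.xs_578_0)))
    (by decide +kernel : Nat.beq C6_578 (Nat.lor D6.m_578_0 (Nat.lor D6.m_578_1 D6.ms_578_0)) = true)

theorem c6_579 (hs : Sound6) : ∀ u, C6_579.testBit u = true → Kill 6 (292360256 + u * 8 ^ 10) :=
  kill_eq (kill_or (ck6_sound' hs D6.x_579_0)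
    (kill_or (ck6_sound' hs D6.x_579_1)
    (ck6_sound' hs D6.xs_579_0)))
    (by decide +kernel : Nat.beq C6_579 (Nat.lor D6.m_579_0 (Nat.lor D6.m_579_1 D6.ms_579_0)) = true)

theorem c6_580 (hs : Sound6) : ∀ u, C6_580.testBit u = true → Kill 6 (436576320 + u * 8 ^ 10) :=
  kill_eq (kill_or (ck6_sound' hs D6.x_580_0)
    (kill_or (ck6_sound' hs D6.x_580_1)
    (kill_or (ck6_sound' hs D6.x_580_2)
    (ck6_sound' hs D6.xs_580_0))))
    (by decide +kernel : Nat.beq C6_580 (Nat.lor D6.m_580_0 (Nat.lor D6.m_580_1 (Nat.lor D6.m_580_2 D6.ms_580_0))) = true)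

theorem c6_581 (hs : Sound6) : ∀ u, C6_581.testBit u = true → Kill 6 (438673472 + u * 8 ^ 10) :=
  kill_eq (kill_or (ck6_sound' hs D6.x_581_0)
    (kill_or (ck6_sound' hs D6.x_581_1)
    (ck6_sound' hs D6.xs_581_0)))
    (by decide +kernel : Nat.beq C6_581 (Nat.lor D6.m_581_0 (Nat.lor D6.m_581_1 D6.ms_581_0)) = true)

theorem c6_582 (hs : Sound6) : ∀ u, C6_582.testBit u = true → Kill 6 (172335168 + u * 8 ^ 10) :=
  kill_eq (kill_or (ck6_sound' hs D6.x_582_0)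
    (kill_or (ck6_sound' hs D6.x_582_1)
    (ck6_sound' hs D6.xs_582_0)))
    (by decide +kernel : Nat.beq C6_582 (Nat.lor D6.m_582_0 (Nat.lor D6.m_582_1 D6.ms_582_0)) = true)

theorem c6_583 (hs : Sound6) : ∀ u, C6_583.testBit u = true → Kill 6 (308650048 + u * 8 ^ 10) :=
  kill_eq (kill_or (ck6_sound' hs D6.x_583_0)
    (kill_or (ck6_sound' hs D6.x_583_1)
    (ck6_sound' hs D6.xs_583_0)))
    (by decide +kernel : Nat.beq C6_583 (Nat.lor D6.m_583_0 (Nat.lor D6.m_583_1 D6.ms_583_0)) = true)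

theorem c6_584 (hs : Sound6) : ∀ u, C6_584.testBit u = true → Kill 6 (457507392 + u * 8 ^ 10) :=
  kill_eq (kill_or (ck6_sound' hs D6.x_584_0)
    (kill_or (ck6_sound' hs D6.x_584_1)
    (kill_or (ck6_sound' hs D6.x_584_2)
    (ck6_sound' hs D6.xs_584_0))))
    (by decide +kernel : Nat.beq C6_584 (Nat.lor D6.m_584_0 (Nat.lor D6.m_584_1 (Nat.lor D6.m_584_2 D6.ms_584_0))) = true)

theorem c6_585 (hs : Sound6) : ∀ u, C6_585.testBit u = true → Kill 6 (292356672 + u * 8 ^ 10) :=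
  kill_eq (kill_or (ck6_sound' hs D6.x_585_0)
    (kill_or (ck6_sound' hs D6.x_585_1)
    (ck6_sound' hs D6.xs_585_0)))
    (by decide +kernel : Nat.beq C6_585 (Nat.lor D6.m_585_0 (Nat.lor D6.m_585_1 D6.ms_585_0)) = true)

theorem st_5 (hs : Sound6) : ∀ i, 576 ≤ i → i < 586 → St i := by
  intro i h1 h2
  interval_cases i
  · exact s_576 (c6_576 hs)
  · exact s_577 (c6_577 hs)
  · exact s_578 (c6_578 hs)
  · exact s_579 (c6_579 hs)
  · exact s_580 (c6_580 hs)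
  · exact s_581 (c6_581 hs)
  · exact s_582 (c6_582 hs)
  · exact s_583 (c6_583 hs)
  · exact s_584 (c6_584 hs)
  · exact s_585 (c6_585 hs)

end CR.L6
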