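import Pool.Agent.Lib.MP_6f5d36_co.L6.W006
import Pool.Agent.Lib.MP_6f5d36_co.L6.CkS
import Pool.Agent.Lib.MP_6f5d36_co.D6.X016
import Pool.Agent.Lib.MP_6f5d36_co.D6.Y001
import Pool.Agent.Lib.MP_6f5d36_co.D6.X017
import Pool.Agent.Lib.MP_6f5d36_co.D6.X018

set_option autoImplicit false

/-!
# MP_6f5d36_co : level 6 for the types 586 to 595
-/

namespace CR.L6

theorem c6_586 (hs : Sound6) : ∀ u, C6_586.testBit u = true → Kill 6 (191172608 + u * 8 ^ 10) :=
  kill_eq (kill_or (ck6_sound' hs D6.x_586_0)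
    (kill_or (ck6_sound' hs D6.x_586_1)
    (ck6_sound' hs D6.xs_586_0)))
    (by decide +kernel : Nat.beq C6_586 (Nat.lor D6.m_586_0 (Nat.lor D6.m_586_1 D6.ms_586_0)) = true)

theorem c6_587 (hs : Sound6) : ∀ u, C6_587.testBit u = true → Kill 6 (288165888 + u * 8 ^ 10) :=
  kill_eq (kill_or (ck6_sound' hs D6.x_587_0)
    (kill_or (ck6_sound' hs D6.x_587_1)
    (ck6_sound' hs D6.xs_587_0)))
    (by decide +kernel : Nat.beq C6_587 (Nat.lor D6.m_587_0 (Nat.lor D6.m_587_1 D6.ms_587_0)) = true)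

theorem c6_588 (hs : Sound6) : ∀ u, C6_588.testBit u = true → Kill 6 (53284864 + u * 8 ^ 10) :=
  kill_eq (kill_or (ck6_sound' hs D6.x_588_0)
    (kill_or (ck6_sound' hs D6.x_588_1)
    (ck6_sound' hs D6.xs_588_0)))
    (by decide +kernel : Nat.beq C6_588 (Nat.lor D6.m_588_0 (Nat.lor D6.m_588_1 D6.ms_588_0)) = true)

theorem c6_589 (hs : Sound6) : ∀ u, C6_589.testBit u = true → Kill 6 (321720320 + u * 8 ^ 10) :=
  kill_eq (kill_or (ck6_sound' hs D6.x_589_0)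
    (kill_or (ck6_sound' hs D6.x_589_1)
    (ck6_sound' hs D6.xs_589_0)))
    (by decide +kernel : Nat.beq C6_589 (Nat.lor D6.m_589_0 (Nat.lor D6.m_589_1 D6.ms_589_0)) = true)

theorem c6_590 (hs : Sound6) : ∀ u, C6_590.testBit u = true → Kill 6 (323817472 + u * 8 ^ 10) :=
  kill_eq (kill_or (ck6_sound' hs D6.x_590_0)
    (kill_or (ck6_sound' hs D6.x_590_1)
    (ck6_sound' hs D6.xs_590_0)))
    (by decide +kernel : Nat.beq C6_590 (Nat.lor D6.m_590_0 (Nat.lor D6.m_590_1 D6.ms_590_0)) = true)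

theorem c6_591 (hs : Sound6) : ∀ u, C6_591.testBit u = true → Kill 6 (57479168 + u * 8 ^ 10) :=
  kill_eq (ck6_sound' hs D6.x_591_0)
    (by decide +kernel : Nat.beq C6_591 D6.m_591_0 = true)

theorem c6_592 (hs : Sound6) : ∀ u, C6_592.testBit u = true → Kill 6 (440995904 + u * 8 ^ 10) :=
  kill_eq (kill_or (ck6_sound' hs D6.x_592_0)
    (kill_or (ck6_sound' hs D6.x_592_1)
    (ck6_sound' hs D6.xs_592_0)))
    (by decide +kernel : Nat.beq C6_592 (Nat.lor D6.m_592_0 (Nat.lor D6.m_592_1 D6.ms_592_0)) = true)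

theorem c6_593 (hs : Sound6) : ∀ u, C6_593.testBit u = true → Kill 6 (139268160 + u * 8 ^ 10) :=
  kill_eq (kill_or (ck6_sound' hs D6.x_593_0)
    (kill_or (ck6_sound' hs D6.x_593_1)
    (ck6_sound' hs D6.xs_593_0)))
    (by decide +kernel : Nat.beq C6_593 (Nat.lor D6.m_593_0 (Nat.lor D6.m_593_1 D6.ms_593_0)) = true)

theorem c6_594 (hs : Sound6) : ∀ u, C6_594.testBit u = true → Kill 6 (5050944 + u * 8 ^ 10) :=
  kill_eq (kill_or (ck6_sound' hs D6.x_594_0)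
    (kill_or (ck6_sound' hs D6.x_594_1)
    (kill_or (ck6_sound' hs D6.x_594_2)
    (ck6_sound' hs D6.xs_594_0))))
    (by decide +kernel : Nat.beq C6_594 (Nat.lor D6.m_594_0 (Nat.lor D6.m_594_1 (Nat.lor D6.m_594_2 D6.ms_594_0))) = true)

theorem c6_595 (hs : Sound6) : ∀ u, C6_595.testBit u = true → Kill 6 (52989952 + u * 8 ^ 10) :=
  kill_eq (kill_or (ck6_sound' hs D6.x_595_0)
    (ck6_sound' hs D6.xs_595_0))
    (by decide +kernel : Nat.beq C6_595 (Nat.lor D6.m_595_0 D6.ms_595_0) = true)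

theorem st_6 (hs : Sound6) : ∀ i, 586 ≤ i → i < 596 → St i := by
  intro i h1 h2
  interval_cases i
  · exact s_586 (c6_586 hs)
  · exact s_587 (c6_587 hs)
  · exact s_588 (c6_588 hs)
  · exact s_589 (c6_589 hs)
  · exact s_590 (c6_590 hs)
  · exact s_591 (c6_591 hs)
  · exact s_592 (c6_592 hs)
  · exact s_593 (c6_593 hs)
  · exact s_594 (c6_594 hs)
  · exact s_595 (c6_595 hs)

end CR.L6
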