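import Pool.Agent.Lib.MP_6f5d36_co.L6.W007
import Pool.Agent.Lib.MP_6f5d36_co.L6.CkS
import Pool.Agent.Lib.MP_6f5d36_co.D6.X018
import Pool.Agent.Lib.MP_6f5d36_co.D6.Y001
import Pool.Agent.Lib.MP_6f5d36_co.D6.X019
import Pool.Agent.Lib.MP_6f5d36_co.D6.X020
import Pool.Agent.Lib.MP_6f5d36_co.D6.X021

set_option autoImplicit false

/-!
# MP_6f5d36_co : level 6 for the types 596 to 605
-/

namespace CR.L6

theorem c6_596 (hs : Sound6) : ∀ u, C6_596.testBit u = true → Kill 6 (426053632 + u * 8 ^ 10) :=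
  kill_eq (kill_or (ck6_sound' hs D6.x_596_0)
    (kill_or (ck6_sound' hs D6.x_596_1)
    (ck6_sound' hs D6.xs_596_0)))
    (by decide +kernel : Nat.beq C6_596 (Nat.lor D6.m_596_0 (Nat.lor D6.m_596_1 D6.ms_596_0)) = true)

theorem c6_597 (hs : Sound6) : ∀ u, C6_597.testBit u = true → Kill 6 (424480832 + u * 8 ^ 10) :=
  kill_eq (kill_or (ck6_sound' hs D6.x_597_0)
    (kill_or (ck6_sound' hs D6.x_597_1)
    (ck6_sound' hs D6.xs_597_0)))
    (by decide +kernel : Nat.beq C6_597 (Nat.lor D6.m_597_0 (Nat.lor D6.m_597_1 D6.ms_597_0)) = true)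

theorem c6_598 (hs : Sound6) : ∀ u, C6_598.testBit u = true → Kill 6 (457511488 + u * 8 ^ 10) :=
  kill_eq (kill_or (ck6_sound' hs D6.x_598_0)
    (kill_or (ck6_sound' hs D6.x_598_1)
    (kill_or (ck6_sound' hs D6.x_598_2)
    (ck6_sound' hs D6.xs_598_0))))
    (by decide +kernel : Nat.beq C6_598 (Nat.lor D6.m_598_0 (Nat.lor D6.m_598_1 (Nat.lor D6.m_598_2 D6.ms_598_0))) = true)

theorem c6_599 (hs : Sound6) : ∀ u, C6_599.testBit u = true → Kill 6 (319361600 + u * 8 ^ 10) :=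
  kill_eq (kill_or (ck6_sound' hs D6.x_599_0)
    (kill_or (ck6_sound' hs D6.x_599_1)
    (kill_or (ck6_sound' hs D6.x_599_2)
    (ck6_sound' hs D6.xs_599_0))))
    (by decide +kernel : Nat.beq C6_599 (Nat.lor D6.m_599_0 (Nat.lor D6.m_599_1 (Nat.lor D6.m_599_2 D6.ms_599_0))) = true)

theorem c6_600 (hs : Sound6) : ∀ u, C6_600.testBit u = true → Kill 6 (423919616 + u * 8 ^ 10) :=
  kill_eq (kill_or (ck6_sound' hs D6.x_600_0)
    (ck6_sound' hs D6.xs_600_0))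
    (by decide +kernel : Nat.beq C6_600 (Nat.lor D6.m_600_0 D6.ms_600_0) = true)

theorem c6_601 (hs : Sound6) : ∀ u, C6_601.testBit u = true → Kill 6 (141103168 + u * 8 ^ 10) :=
  kill_eq (kill_or (ck6_sound' hs D6.x_601_0)
    (kill_or (ck6_sound' hs D6.x_601_1)
    (ck6_sound' hs D6.xs_601_0)))
    (by decide +kernel : Nat.beq C6_601 (Nat.lor D6.m_601_0 (Nat.lor D6.m_601_1 D6.ms_601_0)) = true)

theorem c6_602 (hs : Sound6) : ∀ u, C6_602.testBit u = true → Kill 6 (135073856 + u * 8 ^ 10) :=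
  kill_eq (kill_or (ck6_sound' hs D6.x_602_0)
    (kill_or (ck6_sound' hs D6.x_602_1)
    (ck6_sound' hs D6.xs_602_0)))
    (by decide +kernel : Nat.beq C6_602 (Nat.lor D6.m_602_0 (Nat.lor D6.m_602_1 D6.ms_602_0)) = true)

theorem c6_603 (hs : Sound6) : ∀ u, C6_603.testBit u = true → Kill 6 (141365312 + u * 8 ^ 10) :=
  kill_eq (kill_or (ck6_sound' hs D6.x_603_0)
    (kill_or (ck6_sound' hs D6.x_603_1)
    (ck6_sound' hs D6.xs_603_0)))
    (by decide +kernel : Nat.beq C6_603 (Nat.lor D6.m_603_0 (Nat.lor D6.m_603_1 D6.ms_603_0)) = true)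

theorem c6_604 (hs : Sound6) : ∀ u, C6_604.testBit u = true → Kill 6 (403509824 + u * 8 ^ 10) :=
  kill_eq (kill_or (ck6_sound' hs D6.x_604_0)
    (kill_or (ck6_sound' hs D6.x_604_1)
    (ck6_sound' hs D6.xs_604_0)))
    (by decide +kernel : Nat.beq C6_604 (Nat.lor D6.m_604_0 (Nat.lor D6.m_604_1 D6.ms_604_0)) = true)

theorem c6_605 (hs : Sound6) : ∀ u, C6_605.testBit u = true → Kill 6 (275358272 + u * 8 ^ 10) :=
  kill_eq (kill_or (ck6_sound' hs D6.x_605_0)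
    (kill_or (ck6_sound' hs D6.x_605_1)
    (kill_or (ck6_sound' hs D6.x_605_2)
    (kill_or (ck6_sound' hs D6.x_605_3)
    (ck6_sound' hs D6.xs_605_0)))))
    (by decide +kernel : Nat.beq C6_605 (Nat.lor D6.m_605_0 (Nat.lor D6.m_605_1 (Nat.lor D6.m_605_2 (Nat.lor D6.m_605_3 D6.ms_605_0)))) = true)

theorem st_7 (hs : Sound6) : ∀ i, 596 ≤ i → i < 606 → St i := by
  intro i h1 h2
  interval_cases i
  · exact s_596 (c6_596 hs)
  · exact s_597 (c6_597 hs)
  · exact s_598 (c6_598 hs)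
  · exact s_599 (c6_599 hs)
  · exact s_600 (c6_600 hs)
  · exact s_601 (c6_601 hs)
  · exact s_602 (c6_602 hs)
  · exact s_603 (c6_603 hs)
  · exact s_604 (c6_604 hs)
  · exact s_605 (c6_605 hs)

end CR.L6
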