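import Pool.Agent.Lib.MP_6f5d36_co.L6.W008
import Pool.Agent.Lib.MP_6f5d36_co.L6.CkS
import Pool.Agent.Lib.MP_6f5d36_co.D6.X021
import Pool.Agent.Lib.MP_6f5d36_co.D6.Y001
import Pool.Agent.Lib.MP_6f5d36_co.D6.X022

set_option autoImplicit false

/-!
# MP_6f5d36_co : level 6 for the types 606 to 615
-/

namespace CR.L6

theorem c6_606 (hs : Sound6) : ∀ u, C6_606.testBit u = true → Kill 6 (422383616 + u * 8 ^ 10) :=
  kill_eq (kill_or (ck6_sound' hs D6.x_606_0)
    (kill_or (ck6_sound' hs D6.x_606_1)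
    (ck6_sound' hs D6.xs_606_0)))
    (by decide +kernel : Nat.beq C6_606 (Nat.lor D6.m_606_0 (Nat.lor D6.m_606_1 D6.ms_606_0)) = true)

theorem c6_607 (hs : Sound6) : ∀ u, C6_607.testBit u = true → Kill 6 (191696896 + u * 8 ^ 10) :=
  kill_eq (ck6_sound' hs D6.x_607_0)
    (by decide +kernel : Nat.beq C6_607 D6.m_607_0 = true)

theorem c6_608 (hs : Sound6) : ∀ u, C6_608.testBit u = true → Kill 6 (436801600 + u * 8 ^ 10) :=
  kill_eq (kill_or (ck6_sound' hs D6.x_608_0)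
    (kill_or (ck6_sound' hs D6.x_608_1)
    (ck6_sound' hs D6.xs_608_0)))
    (by decide +kernel : Nat.beq C6_608 (Nat.lor D6.m_608_0 (Nat.lor D6.m_608_1 D6.ms_608_0)) = true)

theorem c6_609 (hs : Sound6) : ∀ u, C6_609.testBit u = true → Kill 6 (184918080 + u * 8 ^ 10) :=
  kill_eq (kill_or (ck6_sound' hs D6.x_609_0)
    (kill_or (ck6_sound' hs D6.x_609_1)
    (ck6_sound' hs D6.xs_609_0)))
    (by decide +kernel : Nat.beq C6_609 (Nat.lor D6.m_609_0 (Nat.lor D6.m_609_1 D6.ms_609_0)) = true)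

theorem c6_610 (hs : Sound6) : ∀ u, C6_610.testBit u = true → Kill 6 (292061184 + u * 8 ^ 10) :=
  kill_eq (kill_or (ck6_sound' hs D6.x_610_0)
    (ck6_sound' hs D6.xs_610_0))
    (by decide +kernel : Nat.beq C6_610 (Nat.lor D6.m_610_0 D6.ms_610_0) = true)

theorem c6_611 (hs : Sound6) : ∀ u, C6_611.testBit u = true → Kill 6 (319328256 + u * 8 ^ 10) :=
  kill_eq (ck6_sound' hs D6.x_611_0)
    (by decide +kernel : Nat.beq C6_611 D6.m_611_0 = true)

theorem c6_612 (hs : Sound6) : ∀ u, C6_612.testBit u = true → Kill 6 (36507648 + u * 8 ^ 10) :=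
  kill_eq (kill_or (ck6_sound' hs D6.x_612_0)
    (ck6_sound' hs D6.xs_612_0))
    (by decide +kernel : Nat.beq C6_612 (Nat.lor D6.m_612_0 D6.ms_612_0) = true)

theorem c6_613 (hs : Sound6) : ∀ u, C6_613.testBit u = true → Kill 6 (140841024 + u * 8 ^ 10) :=
  kill_eq (kill_or (ck6_sound' hs D6.x_613_0)
    (kill_or (ck6_sound' hs D6.x_613_1)
    (ck6_sound' hs D6.xs_613_0)))
    (by decide +kernel : Nat.beq C6_613 (Nat.lor D6.m_613_0 (Nat.lor D6.m_613_1 D6.ms_613_0)) = true)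

theorem c6_614 (hs : Sound6) : ∀ u, C6_614.testBit u = true → Kill 6 (23925312 + u * 8 ^ 10) :=
  kill_eq (kill_or (ck6_sound' hs D6.x_614_0)
    (kill_or (ck6_sound' hs D6.x_614_1)
    (ck6_sound' hs D6.xs_614_0)))
    (by decide +kernel : Nat.beq C6_614 (Nat.lor D6.m_614_0 (Nat.lor D6.m_614_1 D6.ms_614_0)) = true)

theorem c6_615 (hs : Sound6) : ∀ u, C6_615.testBit u = true → Kill 6 (440770624 + u * 8 ^ 10) :=
  kill_eq (kill_or (ck6_sound' hs D6.x_615_0)
    (kill_or (ck6_sound' hs D6.x_615_1)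
    (ck6_sound' hs D6.xs_615_0)))
    (by decide +kernel : Nat.beq C6_615 (Nat.lor D6.m_615_0 (Nat.lor D6.m_615_1 D6.ms_615_0)) = true)

theorem st_8 (hs : Sound6) : ∀ i, 606 ≤ i → i < 616 → St i := by
  intro i h1 h2
  interval_cases i
  · exact s_606 (c6_606 hs)
  · exact s_607 (c6_607 hs)
  · exact s_608 (c6_608 hs)
  · exact s_609 (c6_609 hs)
  · exact s_610 (c6_610 hs)
  · exact s_611 (c6_611 hs)
  · exact s_612 (c6_612 hs)
  · exact s_613 (c6_613 hs)
  · exact s_614 (c6_614 hs)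
  · exact s_615 (c6_615 hs)

end CR.L6
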