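import Pool.Agent.Lib.MP_6f5d36_co.L6.W009
import Pool.Agent.Lib.MP_6f5d36_co.L6.CkS
import Pool.Agent.Lib.MP_6f5d36_co.D6.X022
import Pool.Agent.Lib.MP_6f5d36_co.D6.X023
import Pool.Agent.Lib.MP_6f5d36_co.D6.Y001
import Pool.Agent.Lib.MP_6f5d36_co.D6.X024
import Pool.Agent.Lib.MP_6f5d36_co.D6.X025

set_option autoImplicit false

/-!
# MP_6f5d36_co : level 6 for the types 616 to 625
-/

namespace CR.L6

theorem c6_616 (hs : Sound6) : ∀ u, C6_616.testBit u = true → Kill 6 (423952960 + u * 8 ^ 10) :=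
  kill_eq (kill_or (ck6_sound' hs D6.x_616_0)
    (kill_or (ck6_sound' hs D6.x_616_1)
    (ck6_sound' hs D6.xs_616_0)))
    (by decide +kernel : Nat.beq C6_616 (Nat.lor D6.m_616_0 (Nat.lor D6.m_616_1 D6.ms_616_0)) = true)

theorem c6_617 (hs : Sound6) : ∀ u, C6_617.testBit u = true → Kill 6 (439160832 + u * 8 ^ 10) :=
  kill_eq (kill_or (ck6_sound' hs D6.x_617_0)
    (ck6_sound' hs D6.xs_617_0))
    (by decide +kernel : Nat.beq C6_617 (Nat.lor D6.m_617_0 D6.ms_617_0) = true)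

theorem c6_618 (hs : Sound6) : ∀ u, C6_618.testBit u = true → Kill 6 (38117440 + u * 8 ^ 10) :=
  kill_eq (kill_or (ck6_sound' hs D6.x_618_0)
    (kill_or (ck6_sound' hs D6.x_618_1)
    (ck6_sound' hs D6.xs_618_0)))
    (by decide +kernel : Nat.beq C6_618 (Nat.lor D6.m_618_0 (Nat.lor D6.m_618_1 D6.ms_618_0)) = true)

theorem c6_619 (hs : Sound6) : ∀ u, C6_619.testBit u = true → Kill 6 (409539136 + u * 8 ^ 10) :=
  kill_eq (kill_or (ck6_sound' hs D6.x_619_0)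
    (kill_or (ck6_sound' hs D6.x_619_1)
    (kill_or (ck6_sound' hs D6.x_619_2)
    (ck6_sound' hs D6.xs_619_0))))
    (by decide +kernel : Nat.beq C6_619 (Nat.lor D6.m_619_0 (Nat.lor D6.m_619_1 (Nat.lor D6.m_619_2 D6.ms_619_0))) = true)

theorem c6_620 (hs : Sound6) : ∀ u, C6_620.testBit u = true → Kill 6 (420024384 + u * 8 ^ 10) :=
  kill_eq (kill_or (ck6_sound' hs D6.x_620_0)
    (kill_or (ck6_sound' hs D6.x_620_1)
    (ck6_sound' hs D6.xs_620_0)))
    (by decide +kernel : Nat.beq C6_620 (Nat.lor D6.m_620_0 (Nat.lor D6.m_620_1 D6.ms_620_0)) = true)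

theorem c6_621 (hs : Sound6) : ∀ u, C6_621.testBit u = true → Kill 6 (321232960 + u * 8 ^ 10) :=
  kill_eq (kill_or (ck6_sound' hs D6.x_621_0)
    (kill_or (ck6_sound' hs D6.x_621_1)
    (ck6_sound' hs D6.xs_621_0)))
    (by decide +kernel : Nat.beq C6_621 (Nat.lor D6.m_621_0 (Nat.lor D6.m_621_1 D6.ms_621_0)) = true)

theorem c6_622 (hs : Sound6) : ∀ u, C6_622.testBit u = true → Kill 6 (189599744 + u * 8 ^ 10) :=
  kill_eq (kill_or (ck6_sound' hs D6.x_622_0)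
    (kill_or (ck6_sound' hs D6.x_622_1)
    (ck6_sound' hs D6.xs_622_0)))
    (by decide +kernel : Nat.beq C6_622 (Nat.lor D6.m_622_0 (Nat.lor D6.m_622_1 D6.ms_622_0)) = true)

theorem c6_623 (hs : Sound6) : ∀ u, C6_623.testBit u = true → Kill 6 (438633024 + u * 8 ^ 10) :=
  kill_eq (kill_or (ck6_sound' hs D6.x_623_0)
    (kill_or (ck6_sound' hs D6.x_623_1)
    (ck6_sound' hs D6.xs_623_0)))
    (by decide +kernel : Nat.beq C6_623 (Nat.lor D6.m_623_0 (Nat.lor D6.m_623_1 D6.ms_623_0)) = true)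

theorem c6_624 (hs : Sound6) : ∀ u, C6_624.testBit u = true → Kill 6 (407441984 + u * 8 ^ 10) :=
  kill_eq (kill_or (ck6_sound' hs D6.x_624_0)
    (kill_or (ck6_sound' hs D6.x_624_1)
    (kill_or (ck6_sound' hs D6.x_624_2)
    (ck6_sound' hs D6.xs_624_0))))
    (by decide +kernel : Nat.beq C6_624 (Nat.lor D6.m_624_0 (Nat.lor D6.m_624_1 (Nat.lor D6.m_624_2 D6.ms_624_0))) = true)

theorem c6_625 (hs : Sound6) : ∀ u, C6_625.testBit u = true → Kill 6 (443093568 + u * 8 ^ 10) :=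
  kill_eq (kill_or (ck6_sound' hs D6.x_625_0)
    (kill_or (ck6_sound' hs D6.x_625_1)
    (kill_or (ck6_sound' hs D6.x_625_2)
    (ck6_sound' hs D6.xs_625_0))))
    (by decide +kernel : Nat.beq C6_625 (Nat.lor D6.m_625_0 (Nat.lor D6.m_625_1 (Nat.lor D6.m_625_2 D6.ms_625_0))) = true)

theorem st_9 (hs : Sound6) : ∀ i, 616 ≤ i → i < 626 → St i := by
  intro i h1 h2
  interval_cases i
  · exact s_616 (c6_616 hs)
  · exact s_617 (c6_617 hs)
  · exact s_618 (c6_618 hs)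
  · exact s_619 (c6_619 hs)
  · exact s_620 (c6_620 hs)
  · exact s_621 (c6_621 hs)
  · exact s_622 (c6_622 hs)
  · exact s_623 (c6_623 hs)
  · exact s_624 (c6_624 hs)
  · exact s_625 (c6_625 hs)

end CR.L6
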