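import Pool.Agent.Lib.MP_6f5d36_co.L6.W010
import Pool.Agent.Lib.MP_6f5d36_co.L6.CkS
import Pool.Agent.Lib.MP_6f5d36_co.D6.X025
import Pool.Agent.Lib.MP_6f5d36_co.D6.Y001
import Pool.Agent.Lib.MP_6f5d36_co.D6.X026
import Pool.Agent.Lib.MP_6f5d36_co.D6.X027
import Pool.Agent.Lib.MP_6f5d36_co.D6.Y002

set_option autoImplicit false

/-!
# MP_6f5d36_co : level 6 for the types 626 to 635
-/

namespace CR.L6

theorem c6_626 (hs : Sound6) : ∀ u, C6_626.testBit u = true → Kill 6 (455680576 + u * 8 ^ 10) :=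
  kill_eq (kill_or (ck6_sound' hs D6.x_626_0)
    (kill_or (ck6_sound' hs D6.x_626_1)
    (ck6_sound' hs D6.xs_626_0)))
    (by decide +kernel : Nat.beq C6_626 (Nat.lor D6.m_626_0 (Nat.lor D6.m_626_1 D6.ms_626_0)) = true)

theorem c6_627 (hs : Sound6) : ∀ u, C6_627.testBit u = true → Kill 6 (407703616 + u * 8 ^ 10) :=
  kill_eq (kill_or (ck6_sound' hs D6.x_627_0)
    (kill_or (ck6_sound' hs D6.x_627_1)
    (ck6_sound' hs D6.xs_627_0)))
    (by decide +kernel : Nat.beq C6_627 (Nat.lor D6.m_627_0 (Nat.lor D6.m_627_1 D6.ms_627_0)) = true)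

theorem c6_628 (hs : Sound6) : ∀ u, C6_628.testBit u = true → Kill 6 (325390912 + u * 8 ^ 10) :=
  kill_eq (kill_or (ck6_sound' hs D6.x_628_0)
    (kill_or (ck6_sound' hs D6.x_628_1)
    (ck6_sound' hs D6.xs_628_0)))
    (by decide +kernel : Nat.beq C6_628 (Nat.lor D6.m_628_0 (Nat.lor D6.m_628_1 D6.ms_628_0)) = true)

theorem c6_629 (hs : Sound6) : ∀ u, C6_629.testBit u = true → Kill 6 (55120448 + u * 8 ^ 10) :=
  kill_eq (kill_or (ck6_sound' hs D6.x_629_0)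
    (kill_or (ck6_sound' hs D6.x_629_1)
    (ck6_sound' hs D6.xs_629_0)))
    (by decide +kernel : Nat.beq C6_629 (Nat.lor D6.m_629_0 (Nat.lor D6.m_629_1 D6.ms_629_0)) = true)

theorem c6_630 (hs : Sound6) : ∀ u, C6_630.testBit u = true → Kill 6 (56951360 + u * 8 ^ 10) :=
  kill_eq (kill_or (ck6_sound' hs D6.x_630_0)
    (kill_or (ck6_sound' hs D6.x_630_1)
    (ck6_sound' hs D6.xs_630_0)))
    (by decide +kernel : Nat.beq C6_630 (Nat.lor D6.m_630_0 (Nat.lor D6.m_630_1 D6.ms_630_0)) = true)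

theorem c6_631 (hs : Sound6) : ∀ u, C6_631.testBit u = true → Kill 6 (291832384 + u * 8 ^ 10) :=
  kill_eq (kill_or (ck6_sound' hs D6.x_631_0)
    (kill_or (ck6_sound' hs D6.x_631_1)
    (ck6_sound' hs D6.xs_631_0)))
    (by decide +kernel : Nat.beq C6_631 (Nat.lor D6.m_631_0 (Nat.lor D6.m_631_1 D6.ms_631_0)) = true)

theorem c6_632 (hs : Sound6) : ∀ u, C6_632.testBit u = true → Kill 6 (420287040 + u * 8 ^ 10) :=
  kill_eq (kill_or (ck6_sound' hs D6.x_632_0)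
    (kill_or (ck6_sound' hs D6.x_632_1)
    (ck6_sound' hs D6.xs_632_0)))
    (by decide +kernel : Nat.beq C6_632 (Nat.lor D6.m_632_0 (Nat.lor D6.m_632_1 D6.ms_632_0)) = true)

theorem c6_633 (hs : Sound6) : ∀ u, C6_633.testBit u = true → Kill 6 (36020288 + u * 8 ^ 10) :=
  kill_eq (kill_or (ck6_sound' hs D6.x_633_0)
    (kill_or (ck6_sound' hs D6.x_633_1)
    (ck6_sound' hs D6.xs_633_0)))
    (by decide +kernel : Nat.beq C6_633 (Nat.lor D6.m_633_0 (Nat.lor D6.m_633_1 D6.ms_633_0)) = true)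

theorem c6_634 (hs : Sound6) : ∀ u, C6_634.testBit u = true → Kill 6 (54894656 + u * 8 ^ 10) :=
  kill_eq (kill_or (ck6_sound' hs D6.x_634_0)
    (ck6_sound' hs D6.xs_634_0))
    (by decide +kernel : Nat.beq C6_634 (Nat.lor D6.m_634_0 D6.ms_634_0) = true)

theorem c6_635 (hs : Sound6) : ∀ u, C6_635.testBit u = true → Kill 6 (52797504 + u * 8 ^ 10) :=
  kill_eq (kill_or (ck6_sound' hs D6.x_635_0)
    (kill_or (ck6_sound' hs D6.x_635_1)
    (ck6_sound' hs D6.xs_635_0)))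
    (by decide +kernel : Nat.beq C6_635 (Nat.lor D6.m_635_0 (Nat.lor D6.m_635_1 D6.ms_635_0)) = true)

theorem st_10 (hs : Sound6) : ∀ i, 626 ≤ i → i < 636 → St i := by
  intro i h1 h2
  interval_cases i
  · exact s_626 (c6_626 hs)
  · exact s_627 (c6_627 hs)
  · exact s_628 (c6_628 hs)
  · exact s_629 (c6_629 hs)
  · exact s_630 (c6_630 hs)
  · exact s_631 (c6_631 hs)
  · exact s_632 (c6_632 hs)
  · exact s_633 (c6_633 hs)
  · exact s_634 (c6_634 hs)
  · exact s_635 (c6_635 hs)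

end CR.L6
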