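import Pool.Agent.Lib.MP_6f5d36_co.L6.W012
import Pool.Agent.Lib.MP_6f5d36_co.L6.CkS
import Pool.Agent.Lib.MP_6f5d36_co.D6.X029
import Pool.Agent.Lib.MP_6f5d36_co.D6.X030
import Pool.Agent.Lib.MP_6f5d36_co.D6.Y002
import Pool.Agent.Lib.MP_6f5d36_co.D6.Y003
import Pool.Agent.Lib.MP_6f5d36_co.D6.X031
import Pool.Agent.Lib.MP_6f5d36_co.D6.X032
import Pool.Agent.Lib.MP_6f5d36_co.D6.X033
import Pool.Agent.Lib.MP_6f5d36_co.D6.X034
import Pool.Agent.Lib.MP_6f5d36_co.D6.Y004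
import Pool.Agent.Lib.MP_6f5d36_co.D6.X035

set_option autoImplicit false

/-!
# MP_6f5d36_co : level 6 for the types 646 to 655
-/

namespace CR.L6

theorem c6_646 (hs : Sound6) : ∀ u, C6_646.testBit u = true → Kill 6 (575476288 + u * 8 ^ 10) :=
  kill_eq (kill_or (ck6_sound' hs D6.x_646_0)
    (kill_or (ck6_sound' hs D6.x_646_1)
    (kill_or (ck6_sound' hs D6.x_646_2)
    (kill_or (ck6_sound' hs D6.x_646_3)
    (ck6_sound' hs D6.xs_646_0)))))
    (by decide +kernel : Nat.beq C6_646 (Nat.lor D6.m_646_0 (Nat.lor D6.m_646_1 (Nat.lor D6.m_646_2 (Nat.lor D6.m_646_3 D6.ms_646_0)))) = true)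

theorem c6_647 (hs : Sound6) : ∀ u, C6_647.testBit u = true → Kill 6 (474812992 + u * 8 ^ 10) :=
  kill_eq (kill_or (ck6_sound' hs D6.x_647_0)
    (kill_or (ck6_sound' hs D6.x_647_1)
    (kill_or (ck6_sound' hs D6.x_647_2)
    (kill_or (ck6_sound' hs D6.x_647_3)
    (kill_or (ck6_sound' hs D6.x_647_4)
    (ck6_sound' hs D6.xs_647_0))))))
    (by decide +kernel : Nat.beq C6_647 (Nat.lor D6.m_647_0 (Nat.lor D6.m_647_1 (Nat.lor D6.m_647_2 (Nat.lor D6.m_647_3 (Nat.lor D6.m_647_4 D6.ms_647_0))))) = true)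

theorem c6_648 (hs : Sound6) : ∀ u, C6_648.testBit u = true → Kill 6 (546116160 + u * 8 ^ 10) :=
  kill_eq (kill_or (ck6_sound' hs D6.x_648_0)
    (kill_or (ck6_sound' hs D6.x_648_1)
    (kill_or (ck6_sound' hs D6.x_648_2)
    (kill_or (ck6_sound' hs D6.x_648_3)
    (ck6_sound' hs D6.xs_648_0)))))
    (by decide +kernel : Nat.beq C6_648 (Nat.lor D6.m_648_0 (Nat.lor D6.m_648_1 (Nat.lor D6.m_648_2 (Nat.lor D6.m_648_3 D6.ms_648_0)))) = true)

theorem c6_649 (hs : Sound6) : ∀ u, C6_649.testBit u = true → Kill 6 (328012352 + u * 8 ^ 10) :=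
  kill_eq (kill_or (ck6_sound' hs D6.x_649_0)
    (kill_or (ck6_sound' hs D6.x_649_1)
    (kill_or (ck6_sound' hs D6.x_649_2)
    (kill_or (ck6_sound' hs D6.x_649_3)
    (ck6_sound' hs D6.xs_649_0)))))
    (by decide +kernel : Nat.beq C6_649 (Nat.lor D6.m_649_0 (Nat.lor D6.m_649_1 (Nat.lor D6.m_649_2 (Nat.lor D6.m_649_3 D6.ms_649_0)))) = true)

theorem c6_650 (hs : Sound6) : ∀ u, C6_650.testBit u = true → Kill 6 (342204480 + u * 8 ^ 10) :=
  kill_eq (kill_or (ck6_sound' hs D6.x_650_0)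
    (kill_or (ck6_sound' hs D6.x_650_1)
    (kill_or (ck6_sound' hs D6.x_650_2)
    (kill_or (ck6_sound' hs D6.x_650_3)
    (kill_or (ck6_sound' hs D6.x_650_4)
    (kill_or (ck6_sound' hs D6.xs_650_0)
    (ck6_sound' hs D6.xs_650_1)))))))
    (by decide +kernel : Nat.beq C6_650 (Nat.lor D6.m_650_0 (Nat.lor D6.m_650_1 (Nat.lor D6.m_650_2 (Nat.lor D6.m_650_3 (Nat.lor D6.m_650_4 (Nat.lor D6.ms_650_0 D6.ms_650_1)))))) = true)

theorem c6_651 (hs : Sound6) : ∀ u, C6_651.testBit u = true → Kill 6 (573677632 + u * 8 ^ 10) :=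
  kill_eq (kill_or (ck6_sound' hs D6.x_651_0)
    (kill_or (ck6_sound' hs D6.x_651_1)
    (kill_or (ck6_sound' hs D6.x_651_2)
    (kill_or (ck6_sound' hs D6.x_651_3)
    (ck6_sound' hs D6.xs_651_0)))))
    (by decide +kernel : Nat.beq C6_651 (Nat.lor D6.m_651_0 (Nat.lor D6.m_651_1 (Nat.lor D6.m_651_2 (Nat.lor D6.m_651_3 D6.ms_651_0)))) = true)

theorem c6_652 (hs : Sound6) : ∀ u, C6_652.testBit u = true → Kill 6 (342430272 + u * 8 ^ 10) :=
  kill_eq (kill_or (ck6_sound' hs D6.x_652_0)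
    (kill_or (ck6_sound' hs D6.x_652_1)
    (kill_or (ck6_sound' hs D6.x_652_2)
    (kill_or (ck6_sound' hs D6.x_652_3)
    (ck6_sound' hs D6.xs_652_0)))))
    (by decide +kernel : Nat.beq C6_652 (Nat.lor D6.m_652_0 (Nat.lor D6.m_652_1 (Nat.lor D6.m_652_2 (Nat.lor D6.m_652_3 D6.ms_652_0)))) = true)

theorem c6_653 (hs : Sound6) : ∀ u, C6_653.testBit u = true → Kill 6 (590160448 + u * 8 ^ 10) :=
  kill_eq (kill_or (ck6_sound' hs D6.x_653_0)
    (kill_or (ck6_sound' hs D6.x_653_1)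
    (kill_or (ck6_sound' hs D6.x_653_2)
    (ck6_sound' hs D6.xs_653_0))))
    (by decide +kernel : Nat.beq C6_653 (Nat.lor D6.m_653_0 (Nat.lor D6.m_653_1 (Nat.lor D6.m_653_2 D6.ms_653_0))) = true)

theorem c6_654 (hs : Sound6) : ∀ u, C6_654.testBit u = true → Kill 6 (327787072 + u * 8 ^ 10) :=
  kill_eq (kill_or (ck6_sound' hs D6.x_654_0)
    (kill_or (ck6_sound' hs D6.x_654_1)
    (kill_or (ck6_sound' hs D6.x_654_2)
    (kill_or (ck6_sound' hs D6.x_654_3)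
    (kill_or (ck6_sound' hs D6.x_654_4)
    (kill_or (ck6_sound' hs D6.xs_654_0)
    (ck6_sound' hs D6.xs_654_1)))))))
    (by decide +kernel : Nat.beq C6_654 (Nat.lor D6.m_654_0 (Nat.lor D6.m_654_1 (Nat.lor D6.m_654_2 (Nat.lor D6.m_654_3 (Nat.lor D6.m_654_4 (Nat.lor D6.ms_654_0 D6.ms_654_1)))))) = true)

theorem c6_655 (hs : Sound6) : ∀ u, C6_655.testBit u = true → Kill 6 (476422208 + u * 8 ^ 10) :=
  kill_eq (kill_or (ck6_sound' hs D6.x_655_0)
    (kill_or (ck6_sound' hs D6.x_655_1)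
    (kill_or (ck6_sound' hs D6.x_655_2)
    (kill_or (ck6_sound' hs D6.x_655_3)
    (ck6_sound' hs D6.xs_655_0)))))
    (by decide +kernel : Nat.beq C6_655 (Nat.lor D6.m_655_0 (Nat.lor D6.m_655_1 (Nat.lor D6.m_655_2 (Nat.lor D6.m_655_3 D6.ms_655_0)))) = true)

theorem st_12 (hs : Sound6) : ∀ i, 646 ≤ i → i < 656 → St i := by
  intro i h1 h2
  interval_cases i
  · exact s_646 (c6_646 hs)
  · exact s_647 (c6_647 hs)
  · exact s_648 (c6_648 hs)
  · exact s_649 (c6_649 hs)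
  · exact s_650 (c6_650 hs)
  · exact s_651 (c6_651 hs)
  · exact s_652 (c6_652 hs)
  · exact s_653 (c6_653 hs)
  · exact s_654 (c6_654 hs)
  · exact s_655 (c6_655 hs)

end CR.L6
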