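import Pool.Agent.Lib.MP_6f5d36_co.L6.W013
import Pool.Agent.Lib.MP_6f5d36_co.L6.CkS
import Pool.Agent.Lib.MP_6f5d36_co.D6.X035
import Pool.Agent.Lib.MP_6f5d36_co.D6.Y004
import Pool.Agent.Lib.MP_6f5d36_co.D6.X036
import Pool.Agent.Lib.MP_6f5d36_co.D6.X037
import Pool.Agent.Lib.MP_6f5d36_co.D6.Y005
import Pool.Agent.Lib.MP_6f5d36_co.D6.X038
import Pool.Agent.Lib.MP_6f5d36_co.D6.X039
import Pool.Agent.Lib.MP_6f5d36_co.D6.X040

set_option autoImplicit false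

/-!
# MP_6f5d36_co : level 6 for the types 656 to 665
-/

namespace CR.L6

theorem c6_656 (hs : Sound6) : ∀ u, C6_656.testBit u = true → Kill 6 (577311296 + u * 8 ^ 10) :=
  kill_eq (kill_or (ck6_sound' hs D6.x_656_0)
    (kill_or (ck6_sound' hs D6.x_656_1)
    (kill_or (ck6_sound' hs D6.x_656_2)
    (kill_or (ck6_sound' hs D6.x_656_3)
    (ck6_sound' hs D6.xs_656_0)))))
    (by decide +kernel : Nat.beq C6_656 (Nat.lor D6.m_656_0 (Nat.lor D6.m_656_1 (Nat.lor D6.m_656_2 (Nat.lor D6.m_656_3 D6.ms_656_0)))) = true)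

theorem c6_657 (hs : Sound6) : ∀ u, C6_657.testBit u = true → Kill 6 (610639936 + u * 8 ^ 10) :=
  kill_eq (kill_or (ck6_sound' hs D6.x_657_0)
    (kill_or (ck6_sound' hs D6.x_657_1)
    (kill_or (ck6_sound' hs D6.x_657_2)
    (kill_or (ck6_sound' hs D6.x_657_3)
    (ck6_sound' hs D6.xs_657_0)))))
    (by decide +kernel : Nat.beq C6_657 (Nat.lor D6.m_657_0 (Nat.lor D6.m_657_1 (Nat.lor D6.m_657_2 (Nat.lor D6.m_657_3 D6.ms_657_0)))) = true)

theorem c6_658 (hs : Sound6) : ∀ u, C6_658.testBit u = true → Kill 6 (554803264 + u * 8 ^ 10) :=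
  kill_eq (kill_or (ck6_sound' hs D6.x_658_0)
    (kill_or (ck6_sound' hs D6.x_658_1)
    (ck6_sound' hs D6.xs_658_0)))
    (by decide +kernel : Nat.beq C6_658 (Nat.lor D6.m_658_0 (Nat.lor D6.m_658_1 D6.ms_658_0)) = true)

theorem c6_659 (hs : Sound6) : ∀ u, C6_659.testBit u = true → Kill 6 (591995456 + u * 8 ^ 10) :=
  kill_eq (kill_or (ck6_sound' hs D6.x_659_0)
    (kill_or (ck6_sound' hs D6.x_659_1)
    (kill_or (ck6_sound' hs D6.x_659_2)
    (kill_or (ck6_sound' hs D6.x_659_3)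
    (kill_or (ck6_sound' hs D6.xs_659_0)
    (ck6_sound' hs D6.xs_659_1))))))
    (by decide +kernel : Nat.beq C6_659 (Nat.lor D6.m_659_0 (Nat.lor D6.m_659_1 (Nat.lor D6.m_659_2 (Nat.lor D6.m_659_3 (Nat.lor D6.ms_659_0 D6.ms_659_1))))) = true)

theorem c6_660 (hs : Sound6) : ∀ u, C6_660.testBit u = true → Kill 6 (342467136 + u * 8 ^ 10) :=
  kill_eq (kill_or (ck6_sound' hs D6.x_660_0)
    (kill_or (ck6_sound' hs D6.x_660_1)
    (kill_or (ck6_sound' hs D6.x_660_2)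
    (kill_or (ck6_sound' hs D6.x_660_3)
    (kill_or (ck6_sound' hs D6.x_660_4)
    (kill_or (ck6_sound' hs D6.x_660_5)
    (kill_or (ck6_sound' hs D6.xs_660_0)
    (kill_or (ck6_sound' hs D6.xs_660_1)
    (ck6_sound' hs D6.xs_660_2)))))))))
    (by decide +kernel : Nat.beq C6_660 (Nat.lor D6.m_660_0 (Nat.lor D6.m_660_1 (Nat.lor D6.m_660_2 (Nat.lor D6.m_660_3 (Nat.lor D6.m_660_4 (Nat.lor D6.m_660_5 (Nat.lor D6.ms_660_0 (Nat.lor D6.ms_660_1 D6.ms_660_2)))))))) = true)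

theorem c6_661 (hs : Sound6) : ∀ u, C6_661.testBit u = true → Kill 6 (428442688 + u * 8 ^ 10) :=
  kill_eq (kill_or (ck6_sound' hs D6.x_661_0)
    (kill_or (ck6_sound' hs D6.x_661_1)
    (kill_or (ck6_sound' hs D6.x_661_2)
    (kill_or (ck6_sound' hs D6.x_661_3)
    (ck6_sound' hs D6.xs_661_0)))))
    (by decide +kernel : Nat.beq C6_661 (Nat.lor D6.m_661_0 (Nat.lor D6.m_661_1 (Nat.lor D6.m_661_2 (Nat.lor D6.m_661_3 D6.ms_661_0)))) = true)

theorem c6_662 (hs : Sound6) : ∀ u, C6_662.testBit u = true → Kill 6 (606445632 + u * 8 ^ 10) :=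
  kill_eq (kill_or (ck6_sound' hs D6.x_662_0)
    (kill_or (ck6_sound' hs D6.x_662_1)
    (kill_or (ck6_sound' hs D6.x_662_2)
    (ck6_sound' hs D6.xs_662_0))))
    (by decide +kernel : Nat.beq C6_662 (Nat.lor D6.m_662_0 (Nat.lor D6.m_662_1 (Nat.lor D6.m_662_2 D6.ms_662_0))) = true)

theorem c6_663 (hs : Sound6) : ∀ u, C6_663.testBit u = true → Kill 6 (590454848 + u * 8 ^ 10) :=
  kill_eq (kill_or (ck6_sound' hs D6.x_663_0)
    (kill_or (ck6_sound' hs D6.x_663_1)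
    (kill_or (ck6_sound' hs D6.x_663_2)
    (ck6_sound' hs D6.xs_663_0))))
    (by decide +kernel : Nat.beq C6_663 (Nat.lor D6.m_663_0 (Nat.lor D6.m_663_1 (Nat.lor D6.m_663_2 D6.ms_663_0))) = true)

theorem c6_664 (hs : Sound6) : ∀ u, C6_664.testBit u = true → Kill 6 (604836416 + u * 8 ^ 10) :=
  kill_eq (kill_or (ck6_sound' hs D6.x_664_0)
    (kill_or (ck6_sound' hs D6.x_664_1)
    (kill_or (ck6_sound' hs D6.x_664_2)
    (ck6_sound' hs D6.xs_664_0))))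
    (by decide +kernel : Nat.beq C6_664 (Nat.lor D6.m_664_0 (Nat.lor D6.m_664_1 (Nat.lor D6.m_664_2 D6.ms_664_0))) = true)

theorem c6_665 (hs : Sound6) : ∀ u, C6_665.testBit u = true → Kill 6 (596222528 + u * 8 ^ 10) :=
  kill_eq (kill_or (ck6_sound' hs D6.x_665_0)
    (kill_or (ck6_sound' hs D6.x_665_1)
    (kill_or (ck6_sound' hs D6.x_665_2)
    (kill_or (ck6_sound' hs D6.x_665_3)
    (kill_or (ck6_sound' hs D6.x_665_4)
    (kill_or (ck6_sound' hs D6.xs_665_0)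
    (ck6_sound' hs D6.xs_665_1)))))))
    (by decide +kernel : Nat.beq C6_665 (Nat.lor D6.m_665_0 (Nat.lor D6.m_665_1 (Nat.lor D6.m_665_2 (Nat.lor D6.m_665_3 (Nat.lor D6.m_665_4 (Nat.lor D6.ms_665_0 D6.ms_665_1)))))) = true)

theorem st_13 (hs : Sound6) : ∀ i, 656 ≤ i → i < 666 → St i := by
  intro i h1 h2
  interval_cases i
  · exact s_656 (c6_656 hs)
  · exact s_657 (c6_657 hs)
  · exact s_658 (c6_658 hs)
  · exact s_659 (c6_659 hs)
  · exact s_660 (c6_660 hs)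
  · exact s_661 (c6_661 hs)
  · exact s_662 (c6_662 hs)
  · exact s_663 (c6_663 hs)
  · exact s_664 (c6_664 hs)
  · exact s_665 (c6_665 hs)

end CR.L6
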