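import Pool.Agent.Lib.MP_6f5d36_co.L6.W014
import Pool.Agent.Lib.MP_6f5d36_co.L6.CkS
import Pool.Agent.Lib.MP_6f5d36_co.D6.X040
import Pool.Agent.Lib.MP_6f5d36_co.D6.X041
import Pool.Agent.Lib.MP_6f5d36_co.D6.Y006
import Pool.Agent.Lib.MP_6f5d36_co.D6.X042
import Pool.Agent.Lib.MP_6f5d36_co.D6.X043

set_option autoImplicit false

/-!
# MP_6f5d36_co : level 6 for the types 666 to 675
-/

namespace CR.L6

theorem c6_666 (hs : Sound6) : ∀ u, C6_666.testBit u = true → Kill 6 (428966976 + u * 8 ^ 10) :=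
  kill_eq (kill_or (ck6_sound' hs D6.x_666_0)
    (kill_or (ck6_sound' hs D6.x_666_1)
    (kill_or (ck6_sound' hs D6.x_666_2)
    (ck6_sound' hs D6.xs_666_0))))
    (by decide +kernel : Nat.beq C6_666 (Nat.lor D6.m_666_0 (Nat.lor D6.m_666_1 (Nat.lor D6.m_666_2 D6.ms_666_0))) = true)

theorem c6_667 (hs : Sound6) : ∀ u, C6_667.testBit u = true → Kill 6 (342397440 + u * 8 ^ 10) :=
  kill_eq (kill_or (ck6_sound' hs D6.x_667_0)
    (ck6_sound' hs D6.xs_667_0))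
    (by decide +kernel : Nat.beq C6_667 (Nat.lor D6.m_667_0 D6.ms_667_0) = true)

theorem c6_668 (hs : Sound6) : ∀ u, C6_668.testBit u = true → Kill 6 (572891200 + u * 8 ^ 10) :=
  kill_eq (kill_or (ck6_sound' hs D6.x_668_0)
    (kill_or (ck6_sound' hs D6.x_668_1)
    (kill_or (ck6_sound' hs D6.x_668_2)
    (ck6_sound' hs D6.xs_668_0))))
    (by decide +kernel : Nat.beq C6_668 (Nat.lor D6.m_668_0 (Nat.lor D6.m_668_1 (Nat.lor D6.m_668_2 D6.ms_668_0))) = true)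

theorem c6_669 (hs : Sound6) : ∀ u, C6_669.testBit u = true → Kill 6 (589668416 + u * 8 ^ 10) :=
  kill_eq (kill_or (ck6_sound' hs D6.x_669_0)
    (kill_or (ck6_sound' hs D6.x_669_1)
    (kill_or (ck6_sound' hs D6.x_669_2)
    (ck6_sound' hs D6.xs_669_0))))
    (by decide +kernel : Nat.beq C6_669 (Nat.lor D6.m_669_0 (Nat.lor D6.m_669_1 (Nat.lor D6.m_669_2 D6.ms_669_0))) = true)

theorem c6_670 (hs : Sound6) : ∀ u, C6_670.testBit u = true → Kill 6 (610865728 + u * 8 ^ 10) :=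
  kill_eq (kill_or (ck6_sound' hs D6.x_670_0)
    (kill_or (ck6_sound' hs D6.x_670_1)
    (kill_or (ck6_sound' hs D6.x_670_2)
    (ck6_sound' hs D6.xs_670_0))))
    (by decide +kernel : Nat.beq C6_670 (Nat.lor D6.m_670_0 (Nat.lor D6.m_670_1 (Nat.lor D6.m_670_2 D6.ms_670_0))) = true)

theorem c6_671 (hs : Sound6) : ∀ u, C6_671.testBit u = true → Kill 6 (611128384 + u * 8 ^ 10) :=
  kill_eq (kill_or (ck6_sound' hs D6.x_671_0)
    (kill_or (ck6_sound' hs D6.x_671_1)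
    (kill_or (ck6_sound' hs D6.x_671_2)
    (ck6_sound' hs D6.xs_671_0))))
    (by decide +kernel : Nat.beq C6_671 (Nat.lor D6.m_671_0 (Nat.lor D6.m_671_1 (Nat.lor D6.m_671_2 D6.ms_671_0))) = true)

theorem c6_672 (hs : Sound6) : ∀ u, C6_672.testBit u = true → Kill 6 (475108416 + u * 8 ^ 10) :=
  kill_eq (kill_or (ck6_sound' hs D6.x_672_0)
    (ck6_sound' hs D6.xs_672_0))
    (by decide +kernel : Nat.beq C6_672 (Nat.lor D6.m_672_0 D6.ms_672_0) = true)

theorem c6_673 (hs : Sound6) : ∀ u, C6_673.testBit u = true → Kill 6 (594088000 + u * 8 ^ 10) :=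
  kill_eq (kill_or (ck6_sound' hs D6.x_673_0)
    (kill_or (ck6_sound' hs D6.x_673_1)
    (kill_or (ck6_sound' hs D6.x_673_2)
    (ck6_sound' hs D6.xs_673_0))))
    (by decide +kernel : Nat.beq C6_673 (Nat.lor D6.m_673_0 (Nat.lor D6.m_673_1 (Nat.lor D6.m_673_2 D6.ms_673_0))) = true)

theorem c6_674 (hs : Sound6) : ∀ u, C6_674.testBit u = true → Kill 6 (588059200 + u * 8 ^ 10) :=
  kill_eq (kill_or (ck6_sound' hs D6.x_674_0)
    (kill_or (ck6_sound' hs D6.x_674_1)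
    (kill_or (ck6_sound' hs D6.x_674_2)
    (ck6_sound' hs D6.xs_674_0))))
    (by decide +kernel : Nat.beq C6_674 (Nat.lor D6.m_674_0 (Nat.lor D6.m_674_1 (Nat.lor D6.m_674_2 D6.ms_674_0))) = true)

theorem c6_675 (hs : Sound6) : ∀ u, C6_675.testBit u = true → Kill 6 (342692416 + u * 8 ^ 10) :=
  kill_eq (kill_or (ck6_sound' hs D6.x_675_0)
    (kill_or (ck6_sound' hs D6.x_675_1)
    (kill_or (ck6_sound' hs D6.x_675_2)
    (ck6_sound' hs D6.xs_675_0))))
    (by decide +kernel : Nat.beq C6_675 (Nat.lor D6.m_675_0 (Nat.lor D6.m_675_1 (Nat.lor D6.m_675_2 D6.ms_675_0))) = true)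

theorem st_14 (hs : Sound6) : ∀ i, 666 ≤ i → i < 676 → St i := by
  intro i h1 h2
  interval_cases i
  · exact s_666 (c6_666 hs)
  · exact s_667 (c6_667 hs)
  · exact s_668 (c6_668 hs)
  · exact s_669 (c6_669 hs)
  · exact s_670 (c6_670 hs)
  · exact s_671 (c6_671 hs)
  · exact s_672 (c6_672 hs)
  · exact s_673 (c6_673 hs)
  · exact s_674 (c6_674 hs)
  · exact s_675 (c6_675 hs)

end CR.L6
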