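import Pool.Agent.Lib.MP_6f5d36_co.L6.W015
import Pool.Agent.Lib.MP_6f5d36_co.L6.CkS
import Pool.Agent.Lib.MP_6f5d36_co.D6.X044
import Pool.Agent.Lib.MP_6f5d36_co.D6.Y006
import Pool.Agent.Lib.MP_6f5d36_co.D6.X045
import Pool.Agent.Lib.MP_6f5d36_co.D6.X046
import Pool.Agent.Lib.MP_6f5d36_co.D6.Y007

set_option autoImplicit false

/-!
# MP_6f5d36_co : level 6 for the types 676 to 685
-/

namespace CR.L6

theorem c6_676 (hs : Sound6) : ∀ u, C6_676.testBit u = true → Kill 6 (9245248 + u * 8 ^ 10) :=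
  kill_eq (kill_or (ck6_sound' hs D6.x_676_0)
    (kill_or (ck6_sound' hs D6.x_676_1)
    (kill_or (ck6_sound' hs D6.x_676_2)
    (ck6_sound' hs D6.xs_676_0))))
    (by decide +kernel : Nat.beq C6_676 (Nat.lor D6.m_676_0 (Nat.lor D6.m_676_1 (Nat.lor D6.m_676_2 D6.ms_676_0))) = true)

theorem c6_677 (hs : Sound6) : ∀ u, C6_677.testBit u = true → Kill 6 (579670592 + u * 8 ^ 10) :=
  kill_eq (kill_or (ck6_sound' hs D6.x_677_0)
    (kill_or (ck6_sound' hs D6.x_677_1)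
    (ck6_sound' hs D6.xs_677_0)))
    (by decide +kernel : Nat.beq C6_677 (Nat.lor D6.m_677_0 (Nat.lor D6.m_677_1 D6.ms_677_0)) = true)

theorem c6_678 (hs : Sound6) : ∀ u, C6_678.testBit u = true → Kill 6 (589923392 + u * 8 ^ 10) :=
  kill_eq (kill_or (ck6_sound' hs D6.x_678_0)
    (kill_or (ck6_sound' hs D6.x_678_1)
    (kill_or (ck6_sound' hs D6.x_678_2)
    (ck6_sound' hs D6.xs_678_0))))
    (by decide +kernel : Nat.beq C6_678 (Nat.lor D6.m_678_0 (Nat.lor D6.m_678_1 (Nat.lor D6.m_678_2 D6.ms_678_0))) = true)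

theorem c6_679 (hs : Sound6) : ∀ u, C6_679.testBit u = true → Kill 6 (587534336 + u * 8 ^ 10) :=
  kill_eq (kill_or (ck6_sound' hs D6.x_679_0)
    (ck6_sound' hs D6.xs_679_0))
    (by decide +kernel : Nat.beq C6_679 (Nat.lor D6.m_679_0 D6.ms_679_0) = true)

theorem c6_680 (hs : Sound6) : ∀ u, C6_680.testBit u = true → Kill 6 (554504256 + u * 8 ^ 10) :=
  kill_eq (kill_or (ck6_sound' hs D6.x_680_0)
    (kill_or (ck6_sound' hs D6.x_680_1)
    (ck6_sound' hs D6.xs_680_0)))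
    (by decide +kernel : Nat.beq C6_680 (Nat.lor D6.m_680_0 (Nat.lor D6.m_680_1 D6.ms_680_0)) = true)

theorem c6_681 (hs : Sound6) : ∀ u, C6_681.testBit u = true → Kill 6 (575475776 + u * 8 ^ 10) :=
  kill_eq (kill_or (ck6_sound' hs D6.x_681_0)
    (kill_or (ck6_sound' hs D6.x_681_1)
    (ck6_sound' hs D6.xs_681_0)))
    (by decide +kernel : Nat.beq C6_681 (Nat.lor D6.m_681_0 (Nat.lor D6.m_681_1 D6.ms_681_0)) = true)

theorem c6_682 (hs : Sound6) : ∀ u, C6_682.testBit u = true → Kill 6 (596447296 + u * 8 ^ 10) :=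
  kill_eq (kill_or (ck6_sound' hs D6.x_682_0)
    (kill_or (ck6_sound' hs D6.x_682_1)
    (ck6_sound' hs D6.xs_682_0)))
    (by decide +kernel : Nat.beq C6_682 (Nat.lor D6.m_682_0 (Nat.lor D6.m_682_1 D6.ms_682_0)) = true)

theorem c6_683 (hs : Sound6) : ∀ u, C6_683.testBit u = true → Kill 6 (205889600 + u * 8 ^ 10) :=
  kill_eq (kill_or (ck6_sound' hs D6.x_683_0)
    (kill_or (ck6_sound' hs D6.x_683_1)
    (ck6_sound' hs D6.xs_683_0)))
    (by decide +kernel : Nat.beq C6_683 (Nat.lor D6.m_683_0 (Nat.lor D6.m_683_1 D6.ms_683_0)) = true)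

theorem c6_684 (hs : Sound6) : ∀ u, C6_684.testBit u = true → Kill 6 (577049152 + u * 8 ^ 10) :=
  kill_eq (kill_or (ck6_sound' hs D6.x_684_0)
    (kill_or (ck6_sound' hs D6.x_684_1)
    (ck6_sound' hs D6.xs_684_0)))
    (by decide +kernel : Nat.beq C6_684 (Nat.lor D6.m_684_0 (Nat.lor D6.m_684_1 D6.ms_684_0)) = true)

theorem c6_685 (hs : Sound6) : ∀ u, C6_685.testBit u = true → Kill 6 (473014848 + u * 8 ^ 10) :=
  kill_eq (kill_or (ck6_sound' hs D6.x_685_0)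
    (kill_or (ck6_sound' hs D6.x_685_1)
    (kill_or (ck6_sound' hs D6.x_685_2)
    (ck6_sound' hs D6.xs_685_0))))
    (by decide +kernel : Nat.beq C6_685 (Nat.lor D6.m_685_0 (Nat.lor D6.m_685_1 (Nat.lor D6.m_685_2 D6.ms_685_0))) = true)

theorem st_15 (hs : Sound6) : ∀ i, 676 ≤ i → i < 686 → St i := by
  intro i h1 h2
  interval_cases i
  · exact s_676 (c6_676 hs)
  · exact s_677 (c6_677 hs)
  · exact s_678 (c6_678 hs)
  · exact s_679 (c6_679 hs)
  · exact s_680 (c6_680 hs)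
  · exact s_681 (c6_681 hs)
  · exact s_682 (c6_682 hs)
  · exact s_683 (c6_683 hs)
  · exact s_684 (c6_684 hs)
  · exact s_685 (c6_685 hs)

end CR.L6
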