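import Pool.Agent.Lib.MP_6f5d36_co.L6.W016
import Pool.Agent.Lib.MP_6f5d36_co.L6.CkS
import Pool.Agent.Lib.MP_6f5d36_co.D6.X046
import Pool.Agent.Lib.MP_6f5d36_co.D6.X047
import Pool.Agent.Lib.MP_6f5d36_co.D6.Y007
import Pool.Agent.Lib.MP_6f5d36_co.D6.X048
import Pool.Agent.Lib.MP_6f5d36_co.D6.X049

set_option autoImplicit false

/-!
# MP_6f5d36_co : level 6 for the types 686 to 695
-/

namespace CR.L6

theorem c6_686 (hs : Sound6) : ∀ u, C6_686.testBit u = true → Kill 6 (575775296 + u * 8 ^ 10) :=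
  kill_eq (kill_or (ck6_sound' hs D6.x_686_0)
    (kill_or (ck6_sound' hs D6.x_686_1)
    (kill_or (ck6_sound' hs D6.x_686_2)
    (ck6_sound' hs D6.xs_686_0))))
    (by decide +kernel : Nat.beq C6_686 (Nat.lor D6.m_686_0 (Nat.lor D6.m_686_1 (Nat.lor D6.m_686_2 D6.ms_686_0))) = true)

theorem c6_687 (hs : Sound6) : ∀ u, C6_687.testBit u = true → Kill 6 (478774336 + u * 8 ^ 10) :=
  kill_eq (kill_or (ck6_sound' hs D6.x_687_0)
    (kill_or (ck6_sound' hs D6.x_687_1)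
    (kill_or (ck6_sound' hs D6.x_687_2)
    (ck6_sound' hs D6.xs_687_0))))
    (by decide +kernel : Nat.beq C6_687 (Nat.lor D6.m_687_0 (Nat.lor D6.m_687_1 (Nat.lor D6.m_687_2 D6.ms_687_0))) = true)

theorem c6_688 (hs : Sound6) : ∀ u, C6_688.testBit u = true → Kill 6 (543719424 + u * 8 ^ 10) :=
  kill_eq (kill_or (ck6_sound' hs D6.x_688_0)
    (ck6_sound' hs D6.xs_688_0))
    (by decide +kernel : Nat.beq C6_688 (Nat.lor D6.m_688_0 D6.ms_688_0) = true)

theorem c6_689 (hs : Sound6) : ∀ u, C6_689.testBit u = true → Kill 6 (560271424 + u * 8 ^ 10) :=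
  kill_eq (kill_or (ck6_sound' hs D6.x_689_0)
    (kill_or (ck6_sound' hs D6.x_689_1)
    (ck6_sound' hs D6.xs_689_0)))
    (by decide +kernel : Nat.beq C6_689 (Nat.lor D6.m_689_0 (Nat.lor D6.m_689_1 D6.ms_689_0)) = true)

theorem c6_690 (hs : Sound6) : ∀ u, C6_690.testBit u = true → Kill 6 (577310784 + u * 8 ^ 10) :=
  kill_eq (kill_or (ck6_sound' hs D6.x_690_0)
    (kill_or (ck6_sound' hs D6.x_690_1)
    (ck6_sound' hs D6.xs_690_0)))
    (by decide +kernel : Nat.beq C6_690 (Nat.lor D6.m_690_0 (Nat.lor D6.m_690_1 D6.ms_690_0)) = true)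

theorem c6_691 (hs : Sound6) : ∀ u, C6_691.testBit u = true → Kill 6 (579670080 + u * 8 ^ 10) :=
  kill_eq (kill_or (ck6_sound' hs D6.x_691_0)
    (kill_or (ck6_sound' hs D6.x_691_1)
    (ck6_sound' hs D6.xs_691_0)))
    (by decide +kernel : Nat.beq C6_691 (Nat.lor D6.m_691_0 (Nat.lor D6.m_691_1 D6.ms_691_0)) = true)

theorem c6_692 (hs : Sound6) : ∀ u, C6_692.testBit u = true → Kill 6 (608542784 + u * 8 ^ 10) :=
  kill_eq (kill_or (ck6_sound' hs D6.x_692_0)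
    (kill_or (ck6_sound' hs D6.x_692_1)
    (ck6_sound' hs D6.xs_692_0)))
    (by decide +kernel : Nat.beq C6_692 (Nat.lor D6.m_692_0 (Nat.lor D6.m_692_1 D6.ms_692_0)) = true)

theorem c6_693 (hs : Sound6) : ∀ u, C6_693.testBit u = true → Kill 6 (610603584 + u * 8 ^ 10) :=
  kill_eq (kill_or (ck6_sound' hs D6.x_693_0)
    (kill_or (ck6_sound' hs D6.x_693_1)
    (ck6_sound' hs D6.xs_693_0)))
    (by decide +kernel : Nat.beq C6_693 (Nat.lor D6.m_693_0 (Nat.lor D6.m_693_1 D6.ms_693_0)) = true)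

theorem c6_694 (hs : Sound6) : ∀ u, C6_694.testBit u = true → Kill 6 (543756864 + u * 8 ^ 10) :=
  kill_eq (kill_or (ck6_sound' hs D6.x_694_0)
    (kill_or (ck6_sound' hs D6.x_694_1)
    (kill_or (ck6_sound' hs D6.x_694_2)
    (kill_or (ck6_sound' hs D6.xs_694_0)
    (ck6_sound' hs D6.xs_694_1)))))
    (by decide +kernel : Nat.beq C6_694 (Nat.lor D6.m_694_0 (Nat.lor D6.m_694_1 (Nat.lor D6.m_694_2 (Nat.lor D6.ms_694_0 D6.ms_694_1)))) = true)

theorem c6_695 (hs : Sound6) : ∀ u, C6_695.testBit u = true → Kill 6 (476648000 + u * 8 ^ 10) :=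
  kill_eq (kill_or (ck6_sound' hs D6.x_695_0)
    (kill_or (ck6_sound' hs D6.x_695_1)
    (kill_or (ck6_sound' hs D6.x_695_2)
    (ck6_sound' hs D6.xs_695_0))))
    (by decide +kernel : Nat.beq C6_695 (Nat.lor D6.m_695_0 (Nat.lor D6.m_695_1 (Nat.lor D6.m_695_2 D6.ms_695_0))) = true)

theorem st_16 (hs : Sound6) : ∀ i, 686 ≤ i → i < 696 → St i := by
  intro i h1 h2
  interval_cases i
  · exact s_686 (c6_686 hs)
  · exact s_687 (c6_687 hs)
  · exact s_688 (c6_688 hs)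
  · exact s_689 (c6_689 hs)
  · exact s_690 (c6_690 hs)
  · exact s_691 (c6_691 hs)
  · exact s_692 (c6_692 hs)
  · exact s_693 (c6_693 hs)
  · exact s_694 (c6_694 hs)
  · exact s_695 (c6_695 hs)

end CR.L6
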