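import Pool.Agent.Lib.MP_6f5d36_co.L6.W017
import Pool.Agent.Lib.MP_6f5d36_co.L6.CkS
import Pool.Agent.Lib.MP_6f5d36_co.D6.X049
import Pool.Agent.Lib.MP_6f5d36_co.D6.Y008
import Pool.Agent.Lib.MP_6f5d36_co.D6.X050
import Pool.Agent.Lib.MP_6f5d36_co.D6.X051
import Pool.Agent.Lib.MP_6f5d36_co.D6.X052

set_option autoImplicit false

/-!
# MP_6f5d36_co : level 6 for the types 696 to 705
-/

namespace CR.L6

theorem c6_696 (hs : Sound6) : ∀ u, C6_696.testBit u = true → Kill 6 (476652096 + u * 8 ^ 10) :=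
  kill_eq (kill_or (ck6_sound' hs D6.x_696_0)
    (kill_or (ck6_sound' hs D6.x_696_1)
    (kill_or (ck6_sound' hs D6.x_696_2)
    (kill_or (ck6_sound' hs D6.xs_696_0)
    (ck6_sound' hs D6.xs_696_1)))))
    (by decide +kernel : Nat.beq C6_696 (Nat.lor D6.m_696_0 (Nat.lor D6.m_696_1 (Nat.lor D6.m_696_2 (Nat.lor D6.ms_696_0 D6.ms_696_1)))) = true)

theorem c6_697 (hs : Sound6) : ∀ u, C6_697.testBit u = true → Kill 6 (322019904 + u * 8 ^ 10) :=
  kill_eq (kill_or (ck6_sound' hs D6.x_697_0)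
    (kill_or (ck6_sound' hs D6.x_697_1)
    (ck6_sound' hs D6.xs_697_0)))
    (by decide +kernel : Nat.beq C6_697 (Nat.lor D6.m_697_0 (Nat.lor D6.m_697_1 D6.ms_697_0)) = true)

theorem c6_698 (hs : Sound6) : ∀ u, C6_698.testBit u = true → Kill 6 (562660416 + u * 8 ^ 10) :=
  kill_eq (kill_or (ck6_sound' hs D6.x_698_0)
    (kill_or (ck6_sound' hs D6.x_698_1)
    (ck6_sound' hs D6.xs_698_0)))
    (by decide +kernel : Nat.beq C6_698 (Nat.lor D6.m_698_0 (Nat.lor D6.m_698_1 D6.ms_698_0)) = true)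

theorem c6_699 (hs : Sound6) : ∀ u, C6_699.testBit u = true → Kill 6 (591696384 + u * 8 ^ 10) :=
  kill_eq (kill_or (ck6_sound' hs D6.x_699_0)
    (ck6_sound' hs D6.xs_699_0))
    (by decide +kernel : Nat.beq C6_699 (Nat.lor D6.m_699_0 D6.ms_699_0) = true)

theorem c6_700 (hs : Sound6) : ∀ u, C6_700.testBit u = true → Kill 6 (539824192 + u * 8 ^ 10) :=
  kill_eq (kill_or (ck6_sound' hs D6.x_700_0)
    (ck6_sound' hs D6.xs_700_0))
    (by decide +kernel : Nat.beq C6_700 (Nat.lor D6.m_700_0 D6.ms_700_0) = true)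

theorem c6_701 (hs : Sound6) : ∀ u, C6_701.testBit u = true → Kill 6 (411897920 + u * 8 ^ 10) :=
  kill_eq (kill_or (ck6_sound' hs D6.x_701_0)
    (kill_or (ck6_sound' hs D6.x_701_1)
    (ck6_sound' hs D6.xs_701_0)))
    (by decide +kernel : Nat.beq C6_701 (Nat.lor D6.m_701_0 (Nat.lor D6.m_701_1 D6.ms_701_0)) = true)

theorem c6_702 (hs : Sound6) : ∀ u, C6_702.testBit u = true → Kill 6 (445452352 + u * 8 ^ 10) :=
  kill_eq (kill_or (ck6_sound' hs D6.x_702_0)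
    (ck6_sound' hs D6.xs_702_0))
    (by decide +kernel : Nat.beq C6_702 (Nat.lor D6.m_702_0 D6.ms_702_0) = true)

theorem c6_703 (hs : Sound6) : ∀ u, C6_703.testBit u = true → Kill 6 (587797056 + u * 8 ^ 10) :=
  kill_eq (kill_or (ck6_sound' hs D6.x_703_0)
    (kill_or (ck6_sound' hs D6.x_703_1)
    (kill_or (ck6_sound' hs D6.x_703_2)
    (ck6_sound' hs D6.xs_703_0))))
    (by decide +kernel : Nat.beq C6_703 (Nat.lor D6.m_703_0 (Nat.lor D6.m_703_1 (Nat.lor D6.m_703_2 D6.ms_703_0))) = true)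

theorem c6_704 (hs : Sound6) : ∀ u, C6_704.testBit u = true → Kill 6 (591991360 + u * 8 ^ 10) :=
  kill_eq (kill_or (ck6_sound' hs D6.x_704_0)
    (kill_or (ck6_sound' hs D6.x_704_1)
    (ck6_sound' hs D6.xs_704_0)))
    (by decide +kernel : Nat.beq C6_704 (Nat.lor D6.m_704_0 (Nat.lor D6.m_704_1 D6.ms_704_0)) = true)

theorem c6_705 (hs : Sound6) : ∀ u, C6_705.testBit u = true → Kill 6 (594088512 + u * 8 ^ 10) :=
  kill_eq (kill_or (ck6_sound' hs D6.x_705_0)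
    (kill_or (ck6_sound' hs D6.x_705_1)
    (ck6_sound' hs D6.xs_705_0)))
    (by decide +kernel : Nat.beq C6_705 (Nat.lor D6.m_705_0 (Nat.lor D6.m_705_1 D6.ms_705_0)) = true)

theorem st_17 (hs : Sound6) : ∀ i, 696 ≤ i → i < 706 → St i := by
  intro i h1 h2
  interval_cases i
  · exact s_696 (c6_696 hs)
  · exact s_697 (c6_697 hs)
  · exact s_698 (c6_698 hs)
  · exact s_699 (c6_699 hs)
  · exact s_700 (c6_700 hs)
  · exact s_701 (c6_701 hs)
  · exact s_702 (c6_702 hs)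
  · exact s_703 (c6_703 hs)
  · exact s_704 (c6_704 hs)
  · exact s_705 (c6_705 hs)

end CR.L6
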