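import Pool.Agent.Lib.MP_6f5d36_co.L6.W018
import Pool.Agent.Lib.MP_6f5d36_co.L6.CkS
import Pool.Agent.Lib.MP_6f5d36_co.D6.X052
import Pool.Agent.Lib.MP_6f5d36_co.D6.Y008
import Pool.Agent.Lib.MP_6f5d36_co.D6.Y009
import Pool.Agent.Lib.MP_6f5d36_co.D6.X053
import Pool.Agent.Lib.MP_6f5d36_co.D6.X054

set_option autoImplicit false

/-!
# MP_6f5d36_co : level 6 for the types 706 to 715
-/

namespace CR.L6

theorem c6_706 (hs : Sound6) : ∀ u, C6_706.testBit u = true → Kill 6 (560796224 + u * 8 ^ 10) :=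
  kill_eq (kill_or (ck6_sound' hs D6.x_706_0)
    (ck6_sound' hs D6.xs_706_0))
    (by decide +kernel : Nat.beq C6_706 (Nat.lor D6.m_706_0 D6.ms_706_0) = true)

theorem c6_707 (hs : Sound6) : ∀ u, C6_707.testBit u = true → Kill 6 (193569344 + u * 8 ^ 10) :=
  kill_eq (kill_or (ck6_sound' hs D6.x_707_0)
    (kill_or (ck6_sound' hs D6.x_707_1)
    (kill_or (ck6_sound' hs D6.x_707_2)
    (kill_or (ck6_sound' hs D6.x_707_3)
    (kill_or (ck6_sound' hs D6.xs_707_0)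
    (ck6_sound' hs D6.xs_707_1))))))
    (by decide +kernel : Nat.beq C6_707 (Nat.lor D6.m_707_0 (Nat.lor D6.m_707_1 (Nat.lor D6.m_707_2 (Nat.lor D6.m_707_3 (Nat.lor D6.ms_707_0 D6.ms_707_1))))) = true)

theorem c6_708 (hs : Sound6) : ∀ u, C6_708.testBit u = true → Kill 6 (344564288 + u * 8 ^ 10) :=
  kill_eq (kill_or (ck6_sound' hs D6.x_708_0)
    (kill_or (ck6_sound' hs D6.x_708_1)
    (kill_or (ck6_sound' hs D6.x_708_2)
    (ck6_sound' hs D6.xs_708_0))))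
    (by decide +kernel : Nat.beq C6_708 (Nat.lor D6.m_708_0 (Nat.lor D6.m_708_1 (Nat.lor D6.m_708_2 D6.ms_708_0))) = true)

theorem c6_709 (hs : Sound6) : ∀ u, C6_709.testBit u = true → Kill 6 (73961984 + u * 8 ^ 10) :=
  kill_eq (kill_or (ck6_sound' hs D6.x_709_0)
    (ck6_sound' hs D6.xs_709_0))
    (by decide +kernel : Nat.beq C6_709 (Nat.lor D6.m_709_0 D6.ms_709_0) = true)

theorem c6_710 (hs : Sound6) : ∀ u, C6_710.testBit u = true → Kill 6 (590155840 + u * 8 ^ 10) :=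
  kill_eq (kill_or (ck6_sound' hs D6.x_710_0)
    (ck6_sound' hs D6.xs_710_0))
    (by decide +kernel : Nat.beq C6_710 (Nat.lor D6.m_710_0 D6.ms_710_0) = true)

theorem c6_711 (hs : Sound6) : ∀ u, C6_711.testBit u = true → Kill 6 (470618688 + u * 8 ^ 10) :=
  kill_eq (kill_or (ck6_sound' hs D6.x_711_0)
    (kill_or (ck6_sound' hs D6.x_711_1)
    (ck6_sound' hs D6.xs_711_0)))
    (by decide +kernel : Nat.beq C6_711 (Nat.lor D6.m_711_0 (Nat.lor D6.m_711_1 D6.ms_711_0)) = true)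

theorem c6_712 (hs : Sound6) : ∀ u, C6_712.testBit u = true → Kill 6 (428675648 + u * 8 ^ 10) :=
  kill_eq (kill_or (ck6_sound' hs D6.x_712_0)
    (kill_or (ck6_sound' hs D6.x_712_1)
    (ck6_sound' hs D6.xs_712_0)))
    (by decide +kernel : Nat.beq C6_712 (Nat.lor D6.m_712_0 (Nat.lor D6.m_712_1 D6.ms_712_0)) = true)

theorem c6_713 (hs : Sound6) : ∀ u, C6_713.testBit u = true → Kill 6 (445452864 + u * 8 ^ 10) :=
  kill_eq (kill_or (ck6_sound' hs D6.x_713_0)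
    (kill_or (ck6_sound' hs D6.x_713_1)
    (ck6_sound' hs D6.xs_713_0)))
    (by decide +kernel : Nat.beq C6_713 (Nat.lor D6.m_713_0 (Nat.lor D6.m_713_1 D6.ms_713_0)) = true)

theorem c6_714 (hs : Sound6) : ∀ u, C6_714.testBit u = true → Kill 6 (59576896 + u * 8 ^ 10) :=
  kill_eq (kill_or (ck6_sound' hs D6.x_714_0)
    (kill_or (ck6_sound' hs D6.x_714_1)
    (ck6_sound' hs D6.xs_714_0)))
    (by decide +kernel : Nat.beq C6_714 (Nat.lor D6.m_714_0 (Nat.lor D6.m_714_1 D6.ms_714_0)) = true)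

theorem c6_715 (hs : Sound6) : ∀ u, C6_715.testBit u = true → Kill 6 (588058688 + u * 8 ^ 10) :=
  kill_eq (kill_or (ck6_sound' hs D6.x_715_0)
    (ck6_sound' hs D6.xs_715_0))
    (by decide +kernel : Nat.beq C6_715 (Nat.lor D6.m_715_0 D6.ms_715_0) = true)

theorem st_18 (hs : Sound6) : ∀ i, 706 ≤ i → i < 716 → St i := by
  intro i h1 h2
  interval_cases i
  · exact s_706 (c6_706 hs)
  · exact s_707 (c6_707 hs)
  · exact s_708 (c6_708 hs)
  · exact s_709 (c6_709 hs)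
  · exact s_710 (c6_710 hs)
  · exact s_711 (c6_711 hs)
  · exact s_712 (c6_712 hs)
  · exact s_713 (c6_713 hs)
  · exact s_714 (c6_714 hs)
  · exact s_715 (c6_715 hs)

end CR.L6
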