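import Pool.Agent.Lib.MP_6f5d36_co.L6.W019
import Pool.Agent.Lib.MP_6f5d36_co.L6.CkS
import Pool.Agent.Lib.MP_6f5d36_co.D6.X054
import Pool.Agent.Lib.MP_6f5d36_co.D6.Y009
import Pool.Agent.Lib.MP_6f5d36_co.D6.X055
import Pool.Agent.Lib.MP_6f5d36_co.D6.Y010
import Pool.Agent.Lib.MP_6f5d36_co.D6.X056

set_option autoImplicit false

/-!
# MP_6f5d36_co : level 6 for the types 716 to 725
-/

namespace CR.L6

theorem c6_716 (hs : Sound6) : ∀ u, C6_716.testBit u = true → Kill 6 (74256960 + u * 8 ^ 10) :=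
  kill_eq (kill_or (ck6_sound' hs D6.x_716_0)
    (kill_or (ck6_sound' hs D6.x_716_1)
    (ck6_sound' hs D6.xs_716_0)))
    (by decide +kernel : Nat.beq C6_716 (Nat.lor D6.m_716_0 (Nat.lor D6.m_716_1 D6.ms_716_0)) = true)

theorem c6_717 (hs : Sound6) : ∀ u, C6_717.testBit u = true → Kill 6 (589898304 + u * 8 ^ 10) :=
  kill_eq (kill_or (ck6_sound' hs D6.x_717_0)
    (kill_or (ck6_sound' hs D6.x_717_1)
    (ck6_sound' hs D6.xs_717_0)))
    (by decide +kernel : Nat.beq C6_717 (Nat.lor D6.m_717_0 (Nat.lor D6.m_717_1 D6.ms_717_0)) = true)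

theorem c6_718 (hs : Sound6) : ∀ u, C6_718.testBit u = true → Kill 6 (143237696 + u * 8 ^ 10) :=
  kill_eq (kill_or (ck6_sound' hs D6.x_718_0)
    (kill_or (ck6_sound' hs D6.x_718_1)
    (kill_or (ck6_sound' hs D6.x_718_2)
    (kill_or (ck6_sound' hs D6.xs_718_0)
    (ck6_sound' hs D6.xs_718_1)))))
    (by decide +kernel : Nat.beq C6_718 (Nat.lor D6.m_718_0 (Nat.lor D6.m_718_1 (Nat.lor D6.m_718_2 (Nat.lor D6.ms_718_0 D6.ms_718_1)))) = true)

theorem c6_719 (hs : Sound6) : ∀ u, C6_719.testBit u = true → Kill 6 (573146176 + u * 8 ^ 10) :=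
  kill_eq (kill_or (ck6_sound' hs D6.x_719_0)
    (kill_or (ck6_sound' hs D6.x_719_1)
    (ck6_sound' hs D6.xs_719_0)))
    (by decide +kernel : Nat.beq C6_719 (Nat.lor D6.m_719_0 (Nat.lor D6.m_719_1 D6.ms_719_0)) = true)

theorem c6_720 (hs : Sound6) : ∀ u, C6_720.testBit u = true → Kill 6 (593826304 + u * 8 ^ 10) :=
  kill_eq (kill_or (ck6_sound' hs D6.x_720_0)
    (kill_or (ck6_sound' hs D6.x_720_1)
    (ck6_sound' hs D6.xs_720_0)))
    (by decide +kernel : Nat.beq C6_720 (Nat.lor D6.m_720_0 (Nat.lor D6.m_720_1 D6.ms_720_0)) = true)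

theorem c6_721 (hs : Sound6) : ∀ u, C6_721.testBit u = true → Kill 6 (591728704 + u * 8 ^ 10) :=
  kill_eq (kill_or (ck6_sound' hs D6.x_721_0)
    (ck6_sound' hs D6.xs_721_0))
    (by decide +kernel : Nat.beq C6_721 (Nat.lor D6.m_721_0 D6.ms_721_0) = true)

theorem c6_722 (hs : Sound6) : ∀ u, C6_722.testBit u = true → Kill 6 (420585536 + u * 8 ^ 10) :=
  kill_eq (kill_or (ck6_sound' hs D6.x_722_0)
    (ck6_sound' hs D6.xs_722_0))
    (by decide +kernel : Nat.beq C6_722 (Nat.lor D6.m_722_0 D6.ms_722_0) = true)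

theorem c6_723 (hs : Sound6) : ∀ u, C6_723.testBit u = true → Kill 6 (171024448 + u * 8 ^ 10) :=
  kill_eq (kill_or (ck6_sound' hs D6.x_723_0)
    (kill_or (ck6_sound' hs D6.x_723_1)
    (ck6_sound' hs D6.xs_723_0)))
    (by decide +kernel : Nat.beq C6_723 (Nat.lor D6.m_723_0 (Nat.lor D6.m_723_1 D6.ms_723_0)) = true)

theorem c6_724 (hs : Sound6) : ∀ u, C6_724.testBit u = true → Kill 6 (476385856 + u * 8 ^ 10) :=
  kill_eq (kill_or (ck6_sound' hs D6.x_724_0)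
    (ck6_sound' hs D6.xs_724_0))
    (by decide +kernel : Nat.beq C6_724 (Nat.lor D6.m_724_0 D6.ms_724_0) = true)

theorem c6_725 (hs : Sound6) : ∀ u, C6_725.testBit u = true → Kill 6 (560271360 + u * 8 ^ 10) :=
  kill_eq (kill_or (ck6_sound' hs D6.x_725_0)
    (kill_or (ck6_sound' hs D6.x_725_1)
    (ck6_sound' hs D6.xs_725_0)))
    (by decide +kernel : Nat.beq C6_725 (Nat.lor D6.m_725_0 (Nat.lor D6.m_725_1 D6.ms_725_0)) = true)

theorem st_19 (hs : Sound6) : ∀ i, 716 ≤ i → i < 726 → St i := by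
  intro i h1 h2
  interval_cases i
  · exact s_716 (c6_716 hs)
  · exact s_717 (c6_717 hs)
  · exact s_718 (c6_718 hs)
  · exact s_719 (c6_719 hs)
  · exact s_720 (c6_720 hs)
  · exact s_721 (c6_721 hs)
  · exact s_722 (c6_722 hs)
  · exact s_723 (c6_723 hs)
  · exact s_724 (c6_724 hs)
  · exact s_725 (c6_725 hs)

end CR.L6
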