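import Pool.Agent.Lib.MP_6f5d36_co.L6.W020
import Pool.Agent.Lib.MP_6f5d36_co.L6.CkS
import Pool.Agent.Lib.MP_6f5d36_co.D6.X056
import Pool.Agent.Lib.MP_6f5d36_co.D6.Y010
import Pool.Agent.Lib.MP_6f5d36_co.D6.X057
import Pool.Agent.Lib.MP_6f5d36_co.D6.Y011
import Pool.Agent.Lib.MP_6f5d36_co.D6.X058

set_option autoImplicit false

/-!
# MP_6f5d36_co : level 6 for the types 726 to 735
-/

namespace CR.L6

theorem c6_726 (hs : Sound6) : ∀ u, C6_726.testBit u = true → Kill 6 (67964928 + u * 8 ^ 10) :=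
  kill_eq (kill_or (ck6_sound' hs D6.x_726_0)
    (ck6_sound' hs D6.xs_726_0))
    (by decide +kernel : Nat.beq C6_726 (Nat.lor D6.m_726_0 D6.ms_726_0) = true)

theorem c6_727 (hs : Sound6) : ∀ u, C6_727.testBit u = true → Kill 6 (340594688 + u * 8 ^ 10) :=
  kill_eq (kill_or (ck6_sound' hs D6.x_727_0)
    (kill_or (ck6_sound' hs D6.x_727_1)
    (ck6_sound' hs D6.xs_727_0)))
    (by decide +kernel : Nat.beq C6_727 (Nat.lor D6.m_727_0 (Nat.lor D6.m_727_1 D6.ms_727_0)) = true)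

theorem c6_728 (hs : Sound6) : ∀ u, C6_728.testBit u = true → Kill 6 (143462464 + u * 8 ^ 10) :=
  kill_eq (kill_or (ck6_sound' hs D6.x_728_0)
    (kill_or (ck6_sound' hs D6.x_728_1)
    (ck6_sound' hs D6.xs_728_0)))
    (by decide +kernel : Nat.beq C6_728 (Nat.lor D6.m_728_0 (Nat.lor D6.m_728_1 D6.ms_728_0)) = true)

theorem c6_729 (hs : Sound6) : ∀ u, C6_729.testBit u = true → Kill 6 (305242176 + u * 8 ^ 10) :=
  kill_eq (kill_or (ck6_sound' hs D6.x_729_0)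
    (ck6_sound' hs D6.xs_729_0))
    (by decide +kernel : Nat.beq C6_729 (Nat.lor D6.m_729_0 D6.ms_729_0) = true)

theorem c6_730 (hs : Sound6) : ∀ u, C6_730.testBit u = true → Kill 6 (609030720 + u * 8 ^ 10) :=
  kill_eq (kill_or (ck6_sound' hs D6.x_730_0)
    (kill_or (ck6_sound' hs D6.x_730_1)
    (ck6_sound' hs D6.xs_730_0)))
    (by decide +kernel : Nat.beq C6_730 (Nat.lor D6.m_730_0 (Nat.lor D6.m_730_1 D6.ms_730_0)) = true)

theorem c6_731 (hs : Sound6) : ∀ u, C6_731.testBit u = true → Kill 6 (42799680 + u * 8 ^ 10) :=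
  kill_eq (kill_or (ck6_sound' hs D6.x_731_0)
    (kill_or (ck6_sound' hs D6.x_731_1)
    (ck6_sound' hs D6.xs_731_0)))
    (by decide +kernel : Nat.beq C6_731 (Nat.lor D6.m_731_0 (Nat.lor D6.m_731_1 D6.ms_731_0)) = true)

theorem c6_732 (hs : Sound6) : ∀ u, C6_732.testBit u = true → Kill 6 (594125376 + u * 8 ^ 10) :=
  kill_eq (kill_or (ck6_sound' hs D6.x_732_0)
    (kill_or (ck6_sound' hs D6.x_732_1)
    (kill_or (ck6_sound' hs D6.x_732_2)
    (kill_or (ck6_sound' hs D6.xs_732_0)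
    (ck6_sound' hs D6.xs_732_1)))))
    (by decide +kernel : Nat.beq C6_732 (Nat.lor D6.m_732_0 (Nat.lor D6.m_732_1 (Nat.lor D6.m_732_2 (Nat.lor D6.ms_732_0 D6.ms_732_1)))) = true)

theorem c6_733 (hs : Sound6) : ∀ u, C6_733.testBit u = true → Kill 6 (277455424 + u * 8 ^ 10) :=
  kill_eq (kill_or (ck6_sound' hs D6.x_733_0)
    (kill_or (ck6_sound' hs D6.x_733_1)
    (kill_or (ck6_sound' hs D6.x_733_2)
    (kill_or (ck6_sound' hs D6.xs_733_0)
    (ck6_sound' hs D6.xs_733_1)))))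
    (by decide +kernel : Nat.beq C6_733 (Nat.lor D6.m_733_0 (Nat.lor D6.m_733_1 (Nat.lor D6.m_733_2 (Nat.lor D6.ms_733_0 D6.ms_733_1)))) = true)

theorem c6_734 (hs : Sound6) : ∀ u, C6_734.testBit u = true → Kill 6 (590455360 + u * 8 ^ 10) :=
  kill_eq (kill_or (ck6_sound' hs D6.x_734_0)
    (kill_or (ck6_sound' hs D6.x_734_1)
    (ck6_sound' hs D6.xs_734_0)))
    (by decide +kernel : Nat.beq C6_734 (Nat.lor D6.m_734_0 (Nat.lor D6.m_734_1 D6.ms_734_0)) = true)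

theorem c6_735 (hs : Sound6) : ∀ u, C6_735.testBit u = true → Kill 6 (596214848 + u * 8 ^ 10) :=
  kill_eq (kill_or (ck6_sound' hs D6.x_735_0)
    (ck6_sound' hs D6.xs_735_0))
    (by decide +kernel : Nat.beq C6_735 (Nat.lor D6.m_735_0 D6.ms_735_0) = true)

theorem st_20 (hs : Sound6) : ∀ i, 726 ≤ i → i < 736 → St i := by
  intro i h1 h2
  interval_cases i
  · exact s_726 (c6_726 hs)
  · exact s_727 (c6_727 hs)
  · exact s_728 (c6_728 hs)
  · exact s_729 (c6_729 hs)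
  · exact s_730 (c6_730 hs)
  · exact s_731 (c6_731 hs)
  · exact s_732 (c6_732 hs)
  · exact s_733 (c6_733 hs)
  · exact s_734 (c6_734 hs)
  · exact s_735 (c6_735 hs)

end CR.L6
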