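import Pool.Agent.Lib.MP_6f5d36_co.L6.W021
import Pool.Agent.Lib.MP_6f5d36_co.L6.CkS
import Pool.Agent.Lib.MP_6f5d36_co.D6.X058
import Pool.Agent.Lib.MP_6f5d36_co.D6.Y011
import Pool.Agent.Lib.MP_6f5d36_co.D6.X059
import Pool.Agent.Lib.MP_6f5d36_co.D6.X060

set_option autoImplicit false

/-!
# MP_6f5d36_co : level 6 for the types 736 to 745
-/

namespace CR.L6

theorem c6_736 (hs : Sound6) : ∀ u, C6_736.testBit u = true → Kill 6 (594350080 + u * 8 ^ 10) :=
  kill_eq (ck6_sound' hs D6.x_736_0)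
    (by decide +kernel : Nat.beq C6_736 D6.m_736_0 = true)

theorem c6_737 (hs : Sound6) : ∀ u, C6_737.testBit u = true → Kill 6 (593825856 + u * 8 ^ 10) :=
  kill_eq (kill_or (ck6_sound' hs D6.x_737_0)
    (ck6_sound' hs D6.xs_737_0))
    (by decide +kernel : Nat.beq C6_737 (Nat.lor D6.m_737_0 D6.ms_737_0) = true)

theorem c6_738 (hs : Sound6) : ∀ u, C6_738.testBit u = true → Kill 6 (541921344 + u * 8 ^ 10) :=
  kill_eq (kill_or (ck6_sound' hs D6.x_738_0)
    (kill_or (ck6_sound' hs D6.x_738_1)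
    (ck6_sound' hs D6.xs_738_0)))
    (by decide +kernel : Nat.beq C6_738 (Nat.lor D6.m_738_0 (Nat.lor D6.m_738_1 D6.ms_738_0)) = true)

theorem c6_739 (hs : Sound6) : ∀ u, C6_739.testBit u = true → Kill 6 (428675136 + u * 8 ^ 10) :=
  kill_eq (kill_or (ck6_sound' hs D6.x_739_0)
    (ck6_sound' hs D6.xs_739_0))
    (by decide +kernel : Nat.beq C6_739 (Nat.lor D6.m_739_0 D6.ms_739_0) = true)

theorem c6_740 (hs : Sound6) : ∀ u, C6_740.testBit u = true → Kill 6 (210083904 + u * 8 ^ 10) :=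
  kill_eq (kill_or (ck6_sound' hs D6.x_740_0)
    (ck6_sound' hs D6.xs_740_0))
    (by decide +kernel : Nat.beq C6_740 (Nat.lor D6.m_740_0 D6.ms_740_0) = true)

theorem c6_741 (hs : Sound6) : ∀ u, C6_741.testBit u = true → Kill 6 (588357696 + u * 8 ^ 10) :=
  kill_eq (kill_or (ck6_sound' hs D6.x_741_0)
    (ck6_sound' hs D6.xs_741_0))
    (by decide +kernel : Nat.beq C6_741 (Nat.lor D6.m_741_0 D6.ms_741_0) = true)

theorem c6_742 (hs : Sound6) : ∀ u, C6_742.testBit u = true → Kill 6 (411898432 + u * 8 ^ 10) :=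
  kill_eq (kill_or (ck6_sound' hs D6.x_742_0)
    (kill_or (ck6_sound' hs D6.x_742_1)
    (ck6_sound' hs D6.xs_742_0)))
    (by decide +kernel : Nat.beq C6_742 (Nat.lor D6.m_742_0 (Nat.lor D6.m_742_1 D6.ms_742_0)) = true)

theorem c6_743 (hs : Sound6) : ∀ u, C6_743.testBit u = true → Kill 6 (344789568 + u * 8 ^ 10) :=
  kill_eq (kill_or (ck6_sound' hs D6.x_743_0)
    (ck6_sound' hs D6.xs_743_0))
    (by decide +kernel : Nat.beq C6_743 (Nat.lor D6.m_743_0 D6.ms_743_0) = true)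

theorem c6_744 (hs : Sound6) : ∀ u, C6_744.testBit u = true → Kill 6 (592252992 + u * 8 ^ 10) :=
  kill_eq (kill_or (ck6_sound' hs D6.x_744_0)
    (kill_or (ck6_sound' hs D6.x_744_1)
    (ck6_sound' hs D6.xs_744_0)))
    (by decide +kernel : Nat.beq C6_744 (Nat.lor D6.m_744_0 (Nat.lor D6.m_744_1 D6.ms_744_0)) = true)

theorem c6_745 (hs : Sound6) : ∀ u, C6_745.testBit u = true → Kill 6 (574988352 + u * 8 ^ 10) :=
  kill_eq (kill_or (ck6_sound' hs D6.x_745_0)
    (kill_or (ck6_sound' hs D6.x_745_1)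
    (ck6_sound' hs D6.xs_745_0)))
    (by decide +kernel : Nat.beq C6_745 (Nat.lor D6.m_745_0 (Nat.lor D6.m_745_1 D6.ms_745_0)) = true)

theorem st_21 (hs : Sound6) : ∀ i, 736 ≤ i → i < 746 → St i := by
  intro i h1 h2
  interval_cases i
  · exact s_736 (c6_736 hs)
  · exact s_737 (c6_737 hs)
  · exact s_738 (c6_738 hs)
  · exact s_739 (c6_739 hs)
  · exact s_740 (c6_740 hs)
  · exact s_741 (c6_741 hs)
  · exact s_742 (c6_742 hs)
  · exact s_743 (c6_743 hs)
  · exact s_744 (c6_744 hs)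
  · exact s_745 (c6_745 hs)

end CR.L6
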