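import Pool.Agent.Lib.MP_6f5d36_co.L6.W022
import Pool.Agent.Lib.MP_6f5d36_co.L6.CkS
import Pool.Agent.Lib.MP_6f5d36_co.D6.X060
import Pool.Agent.Lib.MP_6f5d36_co.D6.Y011
import Pool.Agent.Lib.MP_6f5d36_co.D6.Y012
import Pool.Agent.Lib.MP_6f5d36_co.D6.X061

set_option autoImplicit false

/-!
# MP_6f5d36_co : level 6 for the types 746 to 755
-/

namespace CR.L6

theorem c6_746 (hs : Sound6) : ∀ u, C6_746.testBit u = true → Kill 6 (474325056 + u * 8 ^ 10) :=
  kill_eq (kill_or (ck6_sound' hs D6.x_746_0)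
    (kill_or (ck6_sound' hs D6.x_746_1)
    (ck6_sound' hs D6.xs_746_0)))
    (by decide +kernel : Nat.beq C6_746 (Nat.lor D6.m_746_0 (Nat.lor D6.m_746_1 D6.ms_746_0)) = true)

theorem c6_747 (hs : Sound6) : ∀ u, C6_747.testBit u = true → Kill 6 (344301632 + u * 8 ^ 10) :=
  kill_eq (kill_or (ck6_sound' hs D6.x_747_0)
    (ck6_sound' hs D6.xs_747_0))
    (by decide +kernel : Nat.beq C6_747 (Nat.lor D6.m_747_0 D6.ms_747_0) = true)

theorem c6_748 (hs : Sound6) : ∀ u, C6_748.testBit u = true → Kill 6 (204578880 + u * 8 ^ 10) :=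
  kill_eq (kill_or (ck6_sound' hs D6.x_748_0)
    (ck6_sound' hs D6.xs_748_0))
    (by decide +kernel : Nat.beq C6_748 (Nat.lor D6.m_748_0 D6.ms_748_0) = true)

theorem c6_749 (hs : Sound6) : ∀ u, C6_749.testBit u = true → Kill 6 (76354112 + u * 8 ^ 10) :=
  kill_eq (kill_or (ck6_sound' hs D6.x_749_0)
    (ck6_sound' hs D6.xs_749_0))
    (by decide +kernel : Nat.beq C6_749 (Nat.lor D6.m_749_0 D6.ms_749_0) = true)

theorem c6_750 (hs : Sound6) : ∀ u, C6_750.testBit u = true → Kill 6 (611131968 + u * 8 ^ 10) :=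
  kill_eq (kill_or (ck6_sound' hs D6.x_750_0)
    (ck6_sound' hs D6.xs_750_0))
    (by decide +kernel : Nat.beq C6_750 (Nat.lor D6.m_750_0 D6.ms_750_0) = true)

theorem c6_751 (hs : Sound6) : ∀ u, C6_751.testBit u = true → Kill 6 (472490560 + u * 8 ^ 10) :=
  kill_eq (kill_or (ck6_sound' hs D6.x_751_0)
    (kill_or (ck6_sound' hs D6.x_751_1)
    (ck6_sound' hs D6.xs_751_0)))
    (by decide +kernel : Nat.beq C6_751 (Nat.lor D6.m_751_0 (Nat.lor D6.m_751_1 D6.ms_751_0)) = true)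

theorem c6_752 (hs : Sound6) : ∀ u, C6_752.testBit u = true → Kill 6 (562922560 + u * 8 ^ 10) :=
  kill_eq (kill_or (ck6_sound' hs D6.x_752_0)
    (kill_or (ck6_sound' hs D6.x_752_1)
    (ck6_sound' hs D6.xs_752_0)))
    (by decide +kernel : Nat.beq C6_752 (Nat.lor D6.m_752_0 (Nat.lor D6.m_752_1 D6.ms_752_0)) = true)

theorem c6_753 (hs : Sound6) : ∀ u, C6_753.testBit u = true → Kill 6 (577273856 + u * 8 ^ 10) :=
  kill_eq (kill_or (ck6_sound' hs D6.x_753_0)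
    (ck6_sound' hs D6.xs_753_0))
    (by decide +kernel : Nat.beq C6_753 (Nat.lor D6.m_753_0 D6.ms_753_0) = true)

theorem c6_754 (hs : Sound6) : ∀ u, C6_754.testBit u = true → Kill 6 (610603008 + u * 8 ^ 10) :=
  kill_eq (kill_or (ck6_sound' hs D6.x_754_0)
    (kill_or (ck6_sound' hs D6.x_754_1)
    (ck6_sound' hs D6.xs_754_0)))
    (by decide +kernel : Nat.beq C6_754 (Nat.lor D6.m_754_0 (Nat.lor D6.m_754_1 D6.ms_754_0)) = true)

theorem c6_755 (hs : Sound6) : ∀ u, C6_755.testBit u = true → Kill 6 (476909568 + u * 8 ^ 10) :=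
  kill_eq (kill_or (ck6_sound' hs D6.x_755_0)
    (ck6_sound' hs D6.xs_755_0))
    (by decide +kernel : Nat.beq C6_755 (Nat.lor D6.m_755_0 D6.ms_755_0) = true)

theorem st_22 (hs : Sound6) : ∀ i, 746 ≤ i → i < 756 → St i := by
  intro i h1 h2
  interval_cases i
  · exact s_746 (c6_746 hs)
  · exact s_747 (c6_747 hs)
  · exact s_748 (c6_748 hs)
  · exact s_749 (c6_749 hs)
  · exact s_750 (c6_750 hs)
  · exact s_751 (c6_751 hs)
  · exact s_752 (c6_752 hs)
  · exact s_753 (c6_753 hs)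
  · exact s_754 (c6_754 hs)
  · exact s_755 (c6_755 hs)

end CR.L6
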