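import Pool.Agent.Lib.MP_6f5d36_co.L6.W024
import Pool.Agent.Lib.MP_6f5d36_co.L6.CkS
import Pool.Agent.Lib.MP_6f5d36_co.D6.X063
import Pool.Agent.Lib.MP_6f5d36_co.D6.Y012
import Pool.Agent.Lib.MP_6f5d36_co.D6.Y013
import Pool.Agent.Lib.MP_6f5d36_co.D6.X064

set_option autoImplicit false

/-!
# MP_6f5d36_co : level 6 for the types 766 to 775
-/

namespace CR.L6

theorem c6_766 (hs : Sound6) : ∀ u, C6_766.testBit u = true → Kill 6 (562892864 + u * 8 ^ 10) :=
  kill_eq (kill_or (ck6_sound' hs D6.x_766_0)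
    (ck6_sound' hs D6.xs_766_0))
    (by decide +kernel : Nat.beq C6_766 (Nat.lor D6.m_766_0 D6.ms_766_0) = true)

theorem c6_767 (hs : Sound6) : ∀ u, C6_767.testBit u = true → Kill 6 (286367808 + u * 8 ^ 10) :=
  kill_eq (kill_or (ck6_sound' hs D6.x_767_0)
    (ck6_sound' hs D6.xs_767_0))
    (by decide +kernel : Nat.beq C6_767 (Nat.lor D6.m_767_0 D6.ms_767_0) = true)

theorem c6_768 (hs : Sound6) : ∀ u, C6_768.testBit u = true → Kill 6 (437362752 + u * 8 ^ 10) :=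
  kill_eq (kill_or (ck6_sound' hs D6.x_768_0)
    (kill_or (ck6_sound' hs D6.x_768_1)
    (ck6_sound' hs D6.xs_768_0)))
    (by decide +kernel : Nat.beq C6_768 (Nat.lor D6.m_768_0 (Nat.lor D6.m_768_1 D6.ms_768_0)) = true)

theorem c6_769 (hs : Sound6) : ∀ u, C6_769.testBit u = true → Kill 6 (593826368 + u * 8 ^ 10) :=
  kill_eq (kill_or (ck6_sound' hs D6.x_769_0)
    (ck6_sound' hs D6.xs_769_0))
    (by decide +kernel : Nat.beq C6_769 (Nat.lor D6.m_769_0 D6.ms_769_0) = true)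

theorem c6_770 (hs : Sound6) : ∀ u, C6_770.testBit u = true → Kill 6 (479007296 + u * 8 ^ 10) :=
  kill_eq (kill_or (ck6_sound' hs D6.x_770_0)
    (ck6_sound' hs D6.xs_770_0))
    (by decide +kernel : Nat.beq C6_770 (Nat.lor D6.m_770_0 D6.ms_770_0) = true)

theorem c6_771 (hs : Sound6) : ∀ u, C6_771.testBit u = true → Kill 6 (476389952 + u * 8 ^ 10) :=
  kill_eq (kill_or (ck6_sound' hs D6.x_771_0)
    (ck6_sound' hs D6.xs_771_0))
    (by decide +kernel : Nat.beq C6_771 (Nat.lor D6.m_771_0 D6.ms_771_0) = true)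

theorem c6_772 (hs : Sound6) : ∀ u, C6_772.testBit u = true → Kill 6 (546115648 + u * 8 ^ 10) :=
  kill_eq (kill_or (ck6_sound' hs D6.x_772_0)
    (ck6_sound' hs D6.xs_772_0))
    (by decide +kernel : Nat.beq C6_772 (Nat.lor D6.m_772_0 D6.ms_772_0) = true)

theorem c6_773 (hs : Sound6) : ∀ u, C6_773.testBit u = true → Kill 6 (277680704 + u * 8 ^ 10) :=
  kill_eq (kill_or (ck6_sound' hs D6.x_773_0)
    (ck6_sound' hs D6.xs_773_0))
    (by decide +kernel : Nat.beq C6_773 (Nat.lor D6.m_773_0 D6.ms_773_0) = true)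

theorem c6_774 (hs : Sound6) : ∀ u, C6_774.testBit u = true → Kill 6 (587801152 + u * 8 ^ 10) :=
  kill_eq (kill_or (ck6_sound' hs D6.x_774_0)
    (kill_or (ck6_sound' hs D6.x_774_1)
    (ck6_sound' hs D6.xs_774_0)))
    (by decide +kernel : Nat.beq C6_774 (Nat.lor D6.m_774_0 (Nat.lor D6.m_774_1 D6.ms_774_0)) = true)

theorem c6_775 (hs : Sound6) : ∀ u, C6_775.testBit u = true → Kill 6 (577872448 + u * 8 ^ 10) :=
  kill_eq (kill_or (ck6_sound' hs D6.x_775_0)
    (kill_or (ck6_sound' hs D6.x_775_1)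
    (ck6_sound' hs D6.xs_775_0)))
    (by decide +kernel : Nat.beq C6_775 (Nat.lor D6.m_775_0 (Nat.lor D6.m_775_1 D6.ms_775_0)) = true)

theorem st_24 (hs : Sound6) : ∀ i, 766 ≤ i → i < 776 → St i := by
  intro i h1 h2
  interval_cases i
  · exact s_766 (c6_766 hs)
  · exact s_767 (c6_767 hs)
  · exact s_768 (c6_768 hs)
  · exact s_769 (c6_769 hs)
  · exact s_770 (c6_770 hs)
  · exact s_771 (c6_771 hs)
  · exact s_772 (c6_772 hs)
  · exact s_773 (c6_773 hs)
  · exact s_774 (c6_774 hs)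
  · exact s_775 (c6_775 hs)

end CR.L6
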