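import Pool.Agent.Lib.MP_6f5d36_co.L6.W025
import Pool.Agent.Lib.MP_6f5d36_co.L6.CkS
import Pool.Agent.Lib.MP_6f5d36_co.D6.X064
import Pool.Agent.Lib.MP_6f5d36_co.D6.Y013
import Pool.Agent.Lib.MP_6f5d36_co.D6.Y014
import Pool.Agent.Lib.MP_6f5d36_co.D6.X065

set_option autoImplicit false

/-!
# MP_6f5d36_co : level 6 for the types 776 to 785
-/

namespace CR.L6

theorem c6_776 (hs : Sound6) : ∀ u, C6_776.testBit u = true → Kill 6 (594084416 + u * 8 ^ 10) :=
  kill_eq (kill_or (ck6_sound' hs D6.x_776_0)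
    (kill_or (ck6_sound' hs D6.x_776_1)
    (kill_or (ck6_sound' hs D6.xs_776_0)
    (ck6_sound' hs D6.xs_776_1))))
    (by decide +kernel : Nat.beq C6_776 (Nat.lor D6.m_776_0 (Nat.lor D6.m_776_1 (Nat.lor D6.ms_776_0 D6.ms_776_1))) = true)

theorem c6_777 (hs : Sound6) : ∀ u, C6_777.testBit u = true → Kill 6 (207986752 + u * 8 ^ 10) :=
  kill_eq (kill_or (ck6_sound' hs D6.x_777_0)
    (ck6_sound' hs D6.xs_777_0))
    (by decide +kernel : Nat.beq C6_777 (Nat.lor D6.m_777_0 D6.ms_777_0) = true)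

theorem c6_778 (hs : Sound6) : ∀ u, C6_778.testBit u = true → Kill 6 (591987264 + u * 8 ^ 10) :=
  kill_eq (kill_or (ck6_sound' hs D6.x_778_0)
    (ck6_sound' hs D6.xs_778_0))
    (by decide +kernel : Nat.beq C6_778 (Nat.lor D6.m_778_0 D6.ms_778_0) = true)

theorem c6_779 (hs : Sound6) : ∀ u, C6_779.testBit u = true → Kill 6 (577569344 + u * 8 ^ 10) :=
  kill_eq (kill_or (ck6_sound' hs D6.x_779_0)
    (kill_or (ck6_sound' hs D6.x_779_1)
    (ck6_sound' hs D6.xs_779_0)))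
    (by decide +kernel : Nat.beq C6_779 (Nat.lor D6.m_779_0 (Nat.lor D6.m_779_1 D6.ms_779_0)) = true)

theorem c6_780 (hs : Sound6) : ∀ u, C6_780.testBit u = true → Kill 6 (537727552 + u * 8 ^ 10) :=
  kill_eq (kill_or (ck6_sound' hs D6.x_780_0)
    (ck6_sound' hs D6.xs_780_0))
    (by decide +kernel : Nat.beq C6_780 (Nat.lor D6.m_780_0 D6.ms_780_0) = true)

theorem c6_781 (hs : Sound6) : ∀ u, C6_781.testBit u = true → Kill 6 (208179200 + u * 8 ^ 10) :=
  kill_eq (kill_or (ck6_sound' hs D6.x_781_0)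
    (ck6_sound' hs D6.xs_781_0))
    (by decide +kernel : Nat.beq C6_781 (Nat.lor D6.m_781_0 D6.ms_781_0) = true)

theorem c6_782 (hs : Sound6) : ∀ u, C6_782.testBit u = true → Kill 6 (606932992 + u * 8 ^ 10) :=
  kill_eq (kill_or (ck6_sound' hs D6.x_782_0)
    (ck6_sound' hs D6.xs_782_0))
    (by decide +kernel : Nat.beq C6_782 (Nat.lor D6.m_782_0 D6.ms_782_0) = true)

theorem c6_783 (hs : Sound6) : ∀ u, C6_783.testBit u = true → Kill 6 (560534016 + u * 8 ^ 10) :=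
  kill_eq (kill_or (ck6_sound' hs D6.x_783_0)
    (kill_or (ck6_sound' hs D6.x_783_1)
    (ck6_sound' hs D6.xs_783_0)))
    (by decide +kernel : Nat.beq C6_783 (Nat.lor D6.m_783_0 (Nat.lor D6.m_783_1 D6.ms_783_0)) = true)

theorem c6_784 (hs : Sound6) : ∀ u, C6_784.testBit u = true → Kill 6 (560533568 + u * 8 ^ 10) :=
  kill_eq (kill_or (ck6_sound' hs D6.x_784_0)
    (ck6_sound' hs D6.xs_784_0))
    (by decide +kernel : Nat.beq C6_784 (Nat.lor D6.m_784_0 D6.ms_784_0) = true)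

theorem c6_785 (hs : Sound6) : ∀ u, C6_785.testBit u = true → Kill 6 (342426176 + u * 8 ^ 10) :=
  kill_eq (kill_or (ck6_sound' hs D6.x_785_0)
    (kill_or (ck6_sound' hs D6.x_785_1)
    (ck6_sound' hs D6.xs_785_0)))
    (by decide +kernel : Nat.beq C6_785 (Nat.lor D6.m_785_0 (Nat.lor D6.m_785_1 D6.ms_785_0)) = true)

theorem st_25 (hs : Sound6) : ∀ i, 776 ≤ i → i < 786 → St i := by
  intro i h1 h2
  interval_cases i
  · exact s_776 (c6_776 hs)
  · exact s_777 (c6_777 hs)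
  · exact s_778 (c6_778 hs)
  · exact s_779 (c6_779 hs)
  · exact s_780 (c6_780 hs)
  · exact s_781 (c6_781 hs)
  · exact s_782 (c6_782 hs)
  · exact s_783 (c6_783 hs)
  · exact s_784 (c6_784 hs)
  · exact s_785 (c6_785 hs)

end CR.L6
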