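import Pool.Agent.Lib.MP_6f5d36_co.L6.W026
import Pool.Agent.Lib.MP_6f5d36_co.L6.CkS
import Pool.Agent.Lib.MP_6f5d36_co.D6.X065
import Pool.Agent.Lib.MP_6f5d36_co.D6.Y014
import Pool.Agent.Lib.MP_6f5d36_co.D6.X066
import Pool.Agent.Lib.MP_6f5d36_co.D6.Y015

set_option autoImplicit false

/-!
# MP_6f5d36_co : level 6 for the types 786 to 795
-/

namespace CR.L6

theorem c6_786 (hs : Sound6) : ∀ u, C6_786.testBit u = true → Kill 6 (168927808 + u * 8 ^ 10) :=
  kill_eq (kill_or (ck6_sound' hs D6.x_786_0)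
    (kill_or (ck6_sound' hs D6.x_786_1)
    (ck6_sound' hs D6.xs_786_0)))
    (by decide +kernel : Nat.beq C6_786 (Nat.lor D6.m_786_0 (Nat.lor D6.m_786_1 D6.ms_786_0)) = true)

theorem c6_787 (hs : Sound6) : ∀ u, C6_787.testBit u = true → Kill 6 (475112000 + u * 8 ^ 10) :=
  kill_eq (kill_or (ck6_sound' hs D6.x_787_0)
    (kill_or (ck6_sound' hs D6.x_787_1)
    (ck6_sound' hs D6.xs_787_0)))
    (by decide +kernel : Nat.beq C6_787 (Nat.lor D6.m_787_0 (Nat.lor D6.m_787_1 D6.ms_787_0)) = true)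

theorem c6_788 (hs : Sound6) : ∀ u, C6_788.testBit u = true → Kill 6 (176784448 + u * 8 ^ 10) :=
  kill_eq (kill_or (ck6_sound' hs D6.x_788_0)
    (ck6_sound' hs D6.xs_788_0))
    (by decide +kernel : Nat.beq C6_788 (Nat.lor D6.m_788_0 D6.ms_788_0) = true)

theorem c6_789 (hs : Sound6) : ∀ u, C6_789.testBit u = true → Kill 6 (26051648 + u * 8 ^ 10) :=
  kill_eq (kill_or (ck6_sound' hs D6.x_789_0)
    (ck6_sound' hs D6.xs_789_0))
    (by decide +kernel : Nat.beq C6_789 (Nat.lor D6.m_789_0 D6.ms_789_0) = true)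

theorem c6_790 (hs : Sound6) : ∀ u, C6_790.testBit u = true → Kill 6 (72159232 + u * 8 ^ 10) :=
  kill_eq (kill_or (ck6_sound' hs D6.x_790_0)
    (ck6_sound' hs D6.xs_790_0))
    (by decide +kernel : Nat.beq C6_790 (Nat.lor D6.m_790_0 D6.ms_790_0) = true)

theorem c6_791 (hs : Sound6) : ∀ u, C6_791.testBit u = true → Kill 6 (589893696 + u * 8 ^ 10) :=
  kill_eq (kill_or (ck6_sound' hs D6.x_791_0)
    (ck6_sound' hs D6.xs_791_0))
    (by decide +kernel : Nat.beq C6_791 (Nat.lor D6.m_791_0 D6.ms_791_0) = true)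

theorem c6_792 (hs : Sound6) : ∀ u, C6_792.testBit u = true → Kill 6 (570794048 + u * 8 ^ 10) :=
  kill_eq (kill_or (ck6_sound' hs D6.x_792_0)
    (kill_or (ck6_sound' hs D6.x_792_1)
    (ck6_sound' hs D6.xs_792_0)))
    (by decide +kernel : Nat.beq C6_792 (Nat.lor D6.m_792_0 (Nat.lor D6.m_792_1 D6.ms_792_0)) = true)

theorem c6_793 (hs : Sound6) : ∀ u, C6_793.testBit u = true → Kill 6 (577085504 + u * 8 ^ 10) :=
  kill_eq (kill_or (ck6_sound' hs D6.x_793_0)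
    (ck6_sound' hs D6.xs_793_0))
    (by decide +kernel : Nat.beq C6_793 (Nat.lor D6.m_793_0 D6.ms_793_0) = true)

theorem c6_794 (hs : Sound6) : ∀ u, C6_794.testBit u = true → Kill 6 (168927296 + u * 8 ^ 10) :=
  kill_eq (kill_or (ck6_sound' hs D6.x_794_0)
    (ck6_sound' hs D6.xs_794_0))
    (by decide +kernel : Nat.beq C6_794 (Nat.lor D6.m_794_0 D6.ms_794_0) = true)

theorem c6_795 (hs : Sound6) : ∀ u, C6_795.testBit u = true → Kill 6 (589931072 + u * 8 ^ 10) :=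
  kill_eq (kill_or (ck6_sound' hs D6.x_795_0)
    (kill_or (ck6_sound' hs D6.x_795_1)
    (ck6_sound' hs D6.xs_795_0)))
    (by decide +kernel : Nat.beq C6_795 (Nat.lor D6.m_795_0 (Nat.lor D6.m_795_1 D6.ms_795_0)) = true)

theorem st_26 (hs : Sound6) : ∀ i, 786 ≤ i → i < 796 → St i := by
  intro i h1 h2
  interval_cases i
  · exact s_786 (c6_786 hs)
  · exact s_787 (c6_787 hs)
  · exact s_788 (c6_788 hs)
  · exact s_789 (c6_789 hs)
  · exact s_790 (c6_790 hs)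
  · exact s_791 (c6_791 hs)
  · exact s_792 (c6_792 hs)
  · exact s_793 (c6_793 hs)
  · exact s_794 (c6_794 hs)
  · exact s_795 (c6_795 hs)

end CR.L6
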