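import Pool.Agent.Lib.MP_6f5d36_co.L6.W027
import Pool.Agent.Lib.MP_6f5d36_co.L6.CkS
import Pool.Agent.Lib.MP_6f5d36_co.D6.X066
import Pool.Agent.Lib.MP_6f5d36_co.D6.Y015
import Pool.Agent.Lib.MP_6f5d36_co.D6.X067

set_option autoImplicit false

/-!
# MP_6f5d36_co : level 6 for the types 796 to 805
-/

namespace CR.L6

theorem c6_796 (hs : Sound6) : ∀ u, C6_796.testBit u = true → Kill 6 (73732608 + u * 8 ^ 10) :=
  kill_eq (kill_or (ck6_sound' hs D6.x_796_0)
    (ck6_sound' hs D6.xs_796_0))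
    (by decide +kernel : Nat.beq C6_796 (Nat.lor D6.m_796_0 D6.ms_796_0) = true)

theorem c6_797 (hs : Sound6) : ∀ u, C6_797.testBit u = true → Kill 6 (594088448 + u * 8 ^ 10) :=
  kill_eq (kill_or (ck6_sound' hs D6.x_797_0)
    (ck6_sound' hs D6.xs_797_0))
    (by decide +kernel : Nat.beq C6_797 (Nat.lor D6.m_797_0 D6.ms_797_0) = true)

theorem c6_798 (hs : Sound6) : ∀ u, C6_798.testBit u = true → Kill 6 (589631552 + u * 8 ^ 10) :=
  kill_eq (ck6_sound' hs D6.x_798_0)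
    (by decide +kernel : Nat.beq C6_798 D6.m_798_0 = true)

theorem c6_799 (hs : Sound6) : ∀ u, C6_799.testBit u = true → Kill 6 (577307200 + u * 8 ^ 10) :=
  kill_eq (kill_or (ck6_sound' hs D6.x_799_0)
    (kill_or (ck6_sound' hs D6.x_799_1)
    (kill_or (ck6_sound' hs D6.xs_799_0)
    (ck6_sound' hs D6.xs_799_1))))
    (by decide +kernel : Nat.beq C6_799 (Nat.lor D6.m_799_0 (Nat.lor D6.m_799_1 (Nat.lor D6.ms_799_0 D6.ms_799_1))) = true)

theorem c6_800 (hs : Sound6) : ∀ u, C6_800.testBit u = true → Kill 6 (472719936 + u * 8 ^ 10) :=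
  kill_eq (kill_or (ck6_sound' hs D6.x_800_0)
    (ck6_sound' hs D6.xs_800_0))
    (by decide +kernel : Nat.beq C6_800 (Nat.lor D6.m_800_0 D6.ms_800_0) = true)

theorem c6_801 (hs : Sound6) : ∀ u, C6_801.testBit u = true → Kill 6 (202182656 + u * 8 ^ 10) :=
  kill_eq (kill_or (ck6_sound' hs D6.x_801_0)
    (ck6_sound' hs D6.xs_801_0))
    (by decide +kernel : Nat.beq C6_801 (Nat.lor D6.m_801_0 D6.ms_801_0) = true)

theorem c6_802 (hs : Sound6) : ∀ u, C6_802.testBit u = true → Kill 6 (609030144 + u * 8 ^ 10) :=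
  kill_eq (kill_or (ck6_sound' hs D6.x_802_0)
    (ck6_sound' hs D6.xs_802_0))
    (by decide +kernel : Nat.beq C6_802 (Nat.lor D6.m_802_0 D6.ms_802_0) = true)

theorem c6_803 (hs : Sound6) : ∀ u, C6_803.testBit u = true → Kill 6 (537727040 + u * 8 ^ 10) :=
  kill_eq (kill_or (ck6_sound' hs D6.x_803_0)
    (ck6_sound' hs D6.xs_803_0))
    (by decide +kernel : Nat.beq C6_803 (Nat.lor D6.m_803_0 D6.ms_803_0) = true)

theorem c6_804 (hs : Sound6) : ∀ u, C6_804.testBit u = true → Kill 6 (611127872 + u * 8 ^ 10) :=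
  kill_eq (kill_or (ck6_sound' hs D6.x_804_0)
    (ck6_sound' hs D6.xs_804_0))
    (by decide +kernel : Nat.beq C6_804 (Nat.lor D6.m_804_0 D6.ms_804_0) = true)

theorem c6_805 (hs : Sound6) : ∀ u, C6_805.testBit u = true → Kill 6 (474325568 + u * 8 ^ 10) :=
  kill_eq (kill_or (ck6_sound' hs D6.x_805_0)
    (ck6_sound' hs D6.xs_805_0))
    (by decide +kernel : Nat.beq C6_805 (Nat.lor D6.m_805_0 D6.ms_805_0) = true)

theorem st_27 (hs : Sound6) : ∀ i, 796 ≤ i → i < 806 → St i := by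
  intro i h1 h2
  interval_cases i
  · exact s_796 (c6_796 hs)
  · exact s_797 (c6_797 hs)
  · exact s_798 (c6_798 hs)
  · exact s_799 (c6_799 hs)
  · exact s_800 (c6_800 hs)
  · exact s_801 (c6_801 hs)
  · exact s_802 (c6_802 hs)
  · exact s_803 (c6_803 hs)
  · exact s_804 (c6_804 hs)
  · exact s_805 (c6_805 hs)

end CR.L6
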