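import Pool.Agent.Lib.MP_6f5d36_co.L6.W028
import Pool.Agent.Lib.MP_6f5d36_co.L6.CkS
import Pool.Agent.Lib.MP_6f5d36_co.D6.X067
import Pool.Agent.Lib.MP_6f5d36_co.D6.Y015
import Pool.Agent.Lib.MP_6f5d36_co.D6.X068
import Pool.Agent.Lib.MP_6f5d36_co.D6.Y016

set_option autoImplicit false

/-!
# MP_6f5d36_co : level 6 for the types 806 to 815
-/

namespace CR.L6

theorem c6_806 (hs : Sound6) : ∀ u, C6_806.testBit u = true → Kill 6 (537502272 + u * 8 ^ 10) :=
  kill_eq (kill_or (ck6_sound' hs D6.x_806_0)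
    (ck6_sound' hs D6.xs_806_0))
    (by decide +kernel : Nat.beq C6_806 (Nat.lor D6.m_806_0 D6.ms_806_0) = true)

theorem c6_807 (hs : Sound6) : ∀ u, C6_807.testBit u = true → Kill 6 (208249408 + u * 8 ^ 10) :=
  kill_eq (kill_or (ck6_sound' hs D6.x_807_0)
    (kill_or (ck6_sound' hs D6.x_807_1)
    (kill_or (ck6_sound' hs D6.xs_807_0)
    (ck6_sound' hs D6.xs_807_1))))
    (by decide +kernel : Nat.beq C6_807 (Nat.lor D6.m_807_0 (Nat.lor D6.m_807_1 (Nat.lor D6.ms_807_0 D6.ms_807_1))) = true)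

theorem c6_808 (hs : Sound6) : ∀ u, C6_808.testBit u = true → Kill 6 (41001536 + u * 8 ^ 10) :=
  kill_eq (kill_or (ck6_sound' hs D6.x_808_0)
    (kill_or (ck6_sound' hs D6.x_808_1)
    (ck6_sound' hs D6.xs_808_0)))
    (by decide +kernel : Nat.beq C6_808 (Nat.lor D6.m_808_0 (Nat.lor D6.m_808_1 D6.ms_808_0)) = true)

theorem c6_809 (hs : Sound6) : ∀ u, C6_809.testBit u = true → Kill 6 (591733312 + u * 8 ^ 10) :=
  kill_eq (kill_or (ck6_sound' hs D6.x_809_0)
    (ck6_sound' hs D6.xs_809_0))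
    (by decide +kernel : Nat.beq C6_809 (Nat.lor D6.m_809_0 D6.ms_809_0) = true)

theorem c6_810 (hs : Sound6) : ∀ u, C6_810.testBit u = true → Kill 6 (76128832 + u * 8 ^ 10) :=
  kill_eq (kill_or (ck6_sound' hs D6.x_810_0)
    (kill_or (ck6_sound' hs D6.x_810_1)
    (ck6_sound' hs D6.xs_810_0)))
    (by decide +kernel : Nat.beq C6_810 (Nat.lor D6.m_810_0 (Nat.lor D6.m_810_1 D6.ms_810_0)) = true)

theorem c6_811 (hs : Sound6) : ∀ u, C6_811.testBit u = true → Kill 6 (269591104 + u * 8 ^ 10) :=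
  kill_eq (kill_or (ck6_sound' hs D6.x_811_0)
    (ck6_sound' hs D6.xs_811_0))
    (by decide +kernel : Nat.beq C6_811 (Nat.lor D6.m_811_0 D6.ms_811_0) = true)

theorem c6_812 (hs : Sound6) : ∀ u, C6_812.testBit u = true → Kill 6 (577340480 + u * 8 ^ 10) :=
  kill_eq (kill_or (ck6_sound' hs D6.x_812_0)
    (ck6_sound' hs D6.xs_812_0))
    (by decide +kernel : Nat.beq C6_812 (Nat.lor D6.m_812_0 D6.ms_812_0) = true)

theorem c6_813 (hs : Sound6) : ∀ u, C6_813.testBit u = true → Kill 6 (428704832 + u * 8 ^ 10) :=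
  kill_eq (kill_or (ck6_sound' hs D6.x_813_0)
    (ck6_sound' hs D6.xs_813_0))
    (by decide +kernel : Nat.beq C6_813 (Nat.lor D6.m_813_0 D6.ms_813_0) = true)

theorem c6_814 (hs : Sound6) : ∀ u, C6_814.testBit u = true → Kill 6 (73961472 + u * 8 ^ 10) :=
  kill_eq (kill_or (ck6_sound' hs D6.x_814_0)
    (ck6_sound' hs D6.xs_814_0))
    (by decide +kernel : Nat.beq C6_814 (Nat.lor D6.m_814_0 D6.ms_814_0) = true)

theorem c6_815 (hs : Sound6) : ∀ u, C6_815.testBit u = true → Kill 6 (476614656 + u * 8 ^ 10) :=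
  kill_eq (kill_or (ck6_sound' hs D6.x_815_0)
    (ck6_sound' hs D6.xs_815_0))
    (by decide +kernel : Nat.beq C6_815 (Nat.lor D6.m_815_0 D6.ms_815_0) = true)

theorem st_28 (hs : Sound6) : ∀ i, 806 ≤ i → i < 816 → St i := by
  intro i h1 h2
  interval_cases i
  · exact s_806 (c6_806 hs)
  · exact s_807 (c6_807 hs)
  · exact s_808 (c6_808 hs)
  · exact s_809 (c6_809 hs)
  · exact s_810 (c6_810 hs)
  · exact s_811 (c6_811 hs)
  · exact s_812 (c6_812 hs)
  · exact s_813 (c6_813 hs)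
  · exact s_814 (c6_814 hs)
  · exact s_815 (c6_815 hs)

end CR.L6
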