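import Pool.Agent.Lib.MP_6f5d36_co.L6.W029
import Pool.Agent.Lib.MP_6f5d36_co.L6.CkS
import Pool.Agent.Lib.MP_6f5d36_co.D6.X068
import Pool.Agent.Lib.MP_6f5d36_co.D6.Y016
import Pool.Agent.Lib.MP_6f5d36_co.D6.X069
import Pool.Agent.Lib.MP_6f5d36_co.D6.Y017

set_option autoImplicit false

/-!
# MP_6f5d36_co : level 6 for the types 816 to 825
-/

namespace CR.L6

theorem c6_816 (hs : Sound6) : ∀ u, C6_816.testBit u = true → Kill 6 (73994752 + u * 8 ^ 10) :=
  kill_eq (kill_or (ck6_sound' hs D6.x_816_0)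
    (ck6_sound' hs D6.xs_816_0))
    (by decide +kernel : Nat.beq C6_816 (Nat.lor D6.m_816_0 D6.ms_816_0) = true)

theorem c6_817 (hs : Sound6) : ∀ u, C6_817.testBit u = true → Kill 6 (74031680 + u * 8 ^ 10) :=
  kill_eq (kill_or (ck6_sound' hs D6.x_817_0)
    (kill_or (ck6_sound' hs D6.x_817_1)
    (kill_or (ck6_sound' hs D6.xs_817_0)
    (ck6_sound' hs D6.xs_817_1))))
    (by decide +kernel : Nat.beq C6_817 (Nat.lor D6.m_817_0 (Nat.lor D6.m_817_1 (Nat.lor D6.ms_817_0 D6.ms_817_1))) = true)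

theorem c6_818 (hs : Sound6) : ∀ u, C6_818.testBit u = true → Kill 6 (587763712 + u * 8 ^ 10) :=
  kill_eq (kill_or (ck6_sound' hs D6.x_818_0)
    (ck6_sound' hs D6.xs_818_0))
    (by decide +kernel : Nat.beq C6_818 (Nat.lor D6.m_818_0 D6.ms_818_0) = true)

theorem c6_819 (hs : Sound6) : ∀ u, C6_819.testBit u = true → Kill 6 (558698496 + u * 8 ^ 10) :=
  kill_eq (kill_or (ck6_sound' hs D6.x_819_0)
    (ck6_sound' hs D6.xs_819_0))
    (by decide +kernel : Nat.beq C6_819 (Nat.lor D6.m_819_0 D6.ms_819_0) = true)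

theorem c6_820 (hs : Sound6) : ∀ u, C6_820.testBit u = true → Kill 6 (592252928 + u * 8 ^ 10) :=
  kill_eq (kill_or (ck6_sound' hs D6.x_820_0)
    (ck6_sound' hs D6.xs_820_0))
    (by decide +kernel : Nat.beq C6_820 (Nat.lor D6.m_820_0 D6.ms_820_0) = true)

theorem c6_821 (hs : Sound6) : ∀ u, C6_821.testBit u = true → Kill 6 (571281472 + u * 8 ^ 10) :=
  kill_eq (kill_or (ck6_sound' hs D6.x_821_0)
    (ck6_sound' hs D6.xs_821_0))
    (by decide +kernel : Nat.beq C6_821 (Nat.lor D6.m_821_0 D6.ms_821_0) = true)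

theorem c6_822 (hs : Sound6) : ∀ u, C6_822.testBit u = true → Kill 6 (208208448 + u * 8 ^ 10) :=
  kill_eq (kill_or (ck6_sound' hs D6.x_822_0)
    (kill_or (ck6_sound' hs D6.x_822_1)
    (ck6_sound' hs D6.xs_822_0)))
    (by decide +kernel : Nat.beq C6_822 (Nat.lor D6.m_822_0 (Nat.lor D6.m_822_1 D6.ms_822_0)) = true)

theorem c6_823 (hs : Sound6) : ∀ u, C6_823.testBit u = true → Kill 6 (445448768 + u * 8 ^ 10) :=
  kill_eq (kill_or (ck6_sound' hs D6.x_823_0)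
    (ck6_sound' hs D6.xs_823_0))
    (by decide +kernel : Nat.beq C6_823 (Nat.lor D6.m_823_0 D6.ms_823_0) = true)

theorem c6_824 (hs : Sound6) : ∀ u, C6_824.testBit u = true → Kill 6 (577573440 + u * 8 ^ 10) :=
  kill_eq (kill_or (ck6_sound' hs D6.x_824_0)
    (ck6_sound' hs D6.xs_824_0))
    (by decide +kernel : Nat.beq C6_824 (Nat.lor D6.m_824_0 D6.ms_824_0) = true)

theorem c6_825 (hs : Sound6) : ∀ u, C6_825.testBit u = true → Kill 6 (177046592 + u * 8 ^ 10) :=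
  kill_eq (kill_or (ck6_sound' hs D6.x_825_0)
    (kill_or (ck6_sound' hs D6.x_825_1)
    (kill_or (ck6_sound' hs D6.xs_825_0)
    (ck6_sound' hs D6.xs_825_1))))
    (by decide +kernel : Nat.beq C6_825 (Nat.lor D6.m_825_0 (Nat.lor D6.m_825_1 (Nat.lor D6.ms_825_0 D6.ms_825_1))) = true)

theorem st_29 (hs : Sound6) : ∀ i, 816 ≤ i → i < 826 → St i := by
  intro i h1 h2
  interval_cases i
  · exact s_816 (c6_816 hs)
  · exact s_817 (c6_817 hs)
  · exact s_818 (c6_818 hs)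
  · exact s_819 (c6_819 hs)
  · exact s_820 (c6_820 hs)
  · exact s_821 (c6_821 hs)
  · exact s_822 (c6_822 hs)
  · exact s_823 (c6_823 hs)
  · exact s_824 (c6_824 hs)
  · exact s_825 (c6_825 hs)

end CR.L6
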