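import Pool.Agent.Lib.MP_6f5d36_co.L6.W030
import Pool.Agent.Lib.MP_6f5d36_co.L6.CkS
import Pool.Agent.Lib.MP_6f5d36_co.D6.X069
import Pool.Agent.Lib.MP_6f5d36_co.D6.Y017
import Pool.Agent.Lib.MP_6f5d36_co.D6.X070

set_option autoImplicit false

/-!
# MP_6f5d36_co : level 6 for the types 826 to 835
-/

namespace CR.L6

theorem c6_826 (hs : Sound6) : ∀ u, C6_826.testBit u = true → Kill 6 (591958016 + u * 8 ^ 10) :=
  kill_eq (kill_or (ck6_sound' hs D6.x_826_0)
    (ck6_sound' hs D6.xs_826_0))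
    (by decide +kernel : Nat.beq C6_826 (Nat.lor D6.m_826_0 D6.ms_826_0) = true)

theorem c6_827 (hs : Sound6) : ∀ u, C6_827.testBit u = true → Kill 6 (428675584 + u * 8 ^ 10) :=
  kill_eq (kill_or (ck6_sound' hs D6.x_827_0)
    (ck6_sound' hs D6.xs_827_0))
    (by decide +kernel : Nat.beq C6_827 (Nat.lor D6.m_827_0 D6.ms_827_0) = true)

theorem c6_828 (hs : Sound6) : ∀ u, C6_828.testBit u = true → Kill 6 (59576832 + u * 8 ^ 10) :=
  kill_eq (kill_or (ck6_sound' hs D6.x_828_0)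
    (ck6_sound' hs D6.xs_828_0))
    (by decide +kernel : Nat.beq C6_828 (Nat.lor D6.m_828_0 D6.ms_828_0) = true)

theorem c6_829 (hs : Sound6) : ∀ u, C6_829.testBit u = true → Kill 6 (558698560 + u * 8 ^ 10) :=
  kill_eq (kill_or (ck6_sound' hs D6.x_829_0)
    (ck6_sound' hs D6.xs_829_0))
    (by decide +kernel : Nat.beq C6_829 (Nat.lor D6.m_829_0 D6.ms_829_0) = true)

theorem c6_830 (hs : Sound6) : ∀ u, C6_830.testBit u = true → Kill 6 (470130752 + u * 8 ^ 10) :=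
  kill_eq (kill_or (ck6_sound' hs D6.x_830_0)
    (ck6_sound' hs D6.xs_830_0))
    (by decide +kernel : Nat.beq C6_830 (Nat.lor D6.m_830_0 D6.ms_830_0) = true)

theorem c6_831 (hs : Sound6) : ∀ u, C6_831.testBit u = true → Kill 6 (577871936 + u * 8 ^ 10) :=
  kill_eq (kill_or (ck6_sound' hs D6.x_831_0)
    (ck6_sound' hs D6.xs_831_0))
    (by decide +kernel : Nat.beq C6_831 (Nat.lor D6.m_831_0 D6.ms_831_0) = true)

theorem c6_832 (hs : Sound6) : ∀ u, C6_832.testBit u = true → Kill 6 (160236096 + u * 8 ^ 10) :=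
  kill_eq (kill_or (ck6_sound' hs D6.x_832_0)
    (ck6_sound' hs D6.xs_832_0))
    (by decide +kernel : Nat.beq C6_832 (Nat.lor D6.m_832_0 D6.ms_832_0) = true)

theorem c6_833 (hs : Sound6) : ∀ u, C6_833.testBit u = true → Kill 6 (577348160 + u * 8 ^ 10) :=
  kill_eq (kill_or (ck6_sound' hs D6.x_833_0)
    (ck6_sound' hs D6.xs_833_0))
    (by decide +kernel : Nat.beq C6_833 (Nat.lor D6.m_833_0 D6.ms_833_0) = true)

theorem c6_834 (hs : Sound6) : ∀ u, C6_834.testBit u = true → Kill 6 (589825088 + u * 8 ^ 10) :=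
  kill_eq (ck6_sound' hs D6.x_834_0)
    (by decide +kernel : Nat.beq C6_834 D6.m_834_0 = true)

theorem c6_835 (hs : Sound6) : ∀ u, C6_835.testBit u = true → Kill 6 (594117696 + u * 8 ^ 10) :=
  kill_eq (kill_or (ck6_sound' hs D6.x_835_0)
    (ck6_sound' hs D6.xs_835_0))
    (by decide +kernel : Nat.beq C6_835 (Nat.lor D6.m_835_0 D6.ms_835_0) = true)

theorem st_30 (hs : Sound6) : ∀ i, 826 ≤ i → i < 836 → St i := by
  intro i h1 h2
  interval_cases i
  · exact s_826 (c6_826 hs)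
  · exact s_827 (c6_827 hs)
  · exact s_828 (c6_828 hs)
  · exact s_829 (c6_829 hs)
  · exact s_830 (c6_830 hs)
  · exact s_831 (c6_831 hs)
  · exact s_832 (c6_832 hs)
  · exact s_833 (c6_833 hs)
  · exact s_834 (c6_834 hs)
  · exact s_835 (c6_835 hs)

end CR.L6
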