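import Pool.Agent.Lib.MP_6f5d36_co.L6.W031
import Pool.Agent.Lib.MP_6f5d36_co.L6.CkS
import Pool.Agent.Lib.MP_6f5d36_co.D6.X070
import Pool.Agent.Lib.MP_6f5d36_co.D6.Y017

set_option autoImplicit false

/-!
# MP_6f5d36_co : level 6 for the types 836 to 845
-/

namespace CR.L6

theorem c6_836 (hs : Sound6) : ∀ u, C6_836.testBit u = true → Kill 6 (474812416 + u * 8 ^ 10) :=
  kill_eq (kill_or (ck6_sound' hs D6.x_836_0)
    (ck6_sound' hs D6.xs_836_0))
    (by decide +kernel : Nat.beq C6_836 (Nat.lor D6.m_836_0 D6.ms_836_0) = true)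

theorem c6_837 (hs : Sound6) : ∀ u, C6_837.testBit u = true → Kill 6 (76353536 + u * 8 ^ 10) :=
  kill_eq (kill_or (ck6_sound' hs D6.x_837_0)
    (ck6_sound' hs D6.xs_837_0))
    (by decide +kernel : Nat.beq C6_837 (Nat.lor D6.m_837_0 D6.ms_837_0) = true)

theorem c6_838 (hs : Sound6) : ∀ u, C6_838.testBit u = true → Kill 6 (573378624 + u * 8 ^ 10) :=
  kill_eq (kill_or (ck6_sound' hs D6.x_838_0)
    (ck6_sound' hs D6.xs_838_0))
    (by decide +kernel : Nat.beq C6_838 (Nat.lor D6.m_838_0 D6.ms_838_0) = true)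

theorem c6_839 (hs : Sound6) : ∀ u, C6_839.testBit u = true → Kill 6 (544018496 + u * 8 ^ 10) :=
  kill_eq (kill_or (ck6_sound' hs D6.x_839_0)
    (ck6_sound' hs D6.xs_839_0))
    (by decide +kernel : Nat.beq C6_839 (Nat.lor D6.m_839_0 D6.ms_839_0) = true)

theorem c6_840 (hs : Sound6) : ∀ u, C6_840.testBit u = true → Kill 6 (577572928 + u * 8 ^ 10) :=
  kill_eq (kill_or (ck6_sound' hs D6.x_840_0)
    (ck6_sound' hs D6.xs_840_0))
    (by decide +kernel : Nat.beq C6_840 (Nat.lor D6.m_840_0 D6.ms_840_0) = true)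

theorem c6_841 (hs : Sound6) : ∀ u, C6_841.testBit u = true → Kill 6 (201695296 + u * 8 ^ 10) :=
  kill_eq (kill_or (ck6_sound' hs D6.x_841_0)
    (ck6_sound' hs D6.xs_841_0))
    (by decide +kernel : Nat.beq C6_841 (Nat.lor D6.m_841_0 D6.ms_841_0) = true)

theorem c6_842 (hs : Sound6) : ∀ u, C6_842.testBit u = true → Kill 6 (152150080 + u * 8 ^ 10) :=
  kill_eq (kill_or (ck6_sound' hs D6.x_842_0)
    (ck6_sound' hs D6.xs_842_0))
    (by decide +kernel : Nat.beq C6_842 (Nat.lor D6.m_842_0 D6.ms_842_0) = true)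

theorem c6_843 (hs : Sound6) : ∀ u, C6_843.testBit u = true → Kill 6 (577045056 + u * 8 ^ 10) :=
  kill_eq (kill_or (ck6_sound' hs D6.x_843_0)
    (ck6_sound' hs D6.xs_843_0))
    (by decide +kernel : Nat.beq C6_843 (Nat.lor D6.m_843_0 D6.ms_843_0) = true)

theorem c6_844 (hs : Sound6) : ∀ u, C6_844.testBit u = true → Kill 6 (543494144 + u * 8 ^ 10) :=
  kill_eq (kill_or (ck6_sound' hs D6.x_844_0)
    (ck6_sound' hs D6.xs_844_0))
    (by decide +kernel : Nat.beq C6_844 (Nat.lor D6.m_844_0 D6.ms_844_0) = true)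

theorem c6_845 (hs : Sound6) : ∀ u, C6_845.testBit u = true → Kill 6 (476385280 + u * 8 ^ 10) :=
  kill_eq (kill_or (ck6_sound' hs D6.x_845_0)
    (ck6_sound' hs D6.xs_845_0))
    (by decide +kernel : Nat.beq C6_845 (Nat.lor D6.m_845_0 D6.ms_845_0) = true)

theorem st_31 (hs : Sound6) : ∀ i, 836 ≤ i → i < 846 → St i := by
  intro i h1 h2
  interval_cases i
  · exact s_836 (c6_836 hs)
  · exact s_837 (c6_837 hs)
  · exact s_838 (c6_838 hs)
  · exact s_839 (c6_839 hs)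
  · exact s_840 (c6_840 hs)
  · exact s_841 (c6_841 hs)
  · exact s_842 (c6_842 hs)
  · exact s_843 (c6_843 hs)
  · exact s_844 (c6_844 hs)
  · exact s_845 (c6_845 hs)

end CR.L6
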