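import Pool.Agent.Lib.MP_6f5d36_co.L6.W032
import Pool.Agent.Lib.MP_6f5d36_co.L6.CkS
import Pool.Agent.Lib.MP_6f5d36_co.D6.X070
import Pool.Agent.Lib.MP_6f5d36_co.D6.Y017
import Pool.Agent.Lib.MP_6f5d36_co.D6.X071
import Pool.Agent.Lib.MP_6f5d36_co.D6.Y018

set_option autoImplicit false

/-!
# MP_6f5d36_co : level 6 for the types 846 to 855
-/

namespace CR.L6

theorem c6_846 (hs : Sound6) : ∀ u, C6_846.testBit u = true → Kill 6 (328012288 + u * 8 ^ 10) :=
  kill_eq (kill_or (ck6_sound' hs D6.x_846_0)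
    (ck6_sound' hs D6.xs_846_0))
    (by decide +kernel : Nat.beq C6_846 (Nat.lor D6.m_846_0 D6.ms_846_0) = true)

theorem c6_847 (hs : Sound6) : ∀ u, C6_847.testBit u = true → Kill 6 (204055040 + u * 8 ^ 10) :=
  kill_eq (kill_or (ck6_sound' hs D6.x_847_0)
    (ck6_sound' hs D6.xs_847_0))
    (by decide +kernel : Nat.beq C6_847 (Nat.lor D6.m_847_0 D6.ms_847_0) = true)

theorem c6_848 (hs : Sound6) : ∀ u, C6_848.testBit u = true → Kill 6 (294453824 + u * 8 ^ 10) :=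
  kill_eq (kill_or (ck6_sound' hs D6.x_848_0)
    (ck6_sound' hs D6.xs_848_0))
    (by decide +kernel : Nat.beq C6_848 (Nat.lor D6.m_848_0 D6.ms_848_0) = true)

theorem c6_849 (hs : Sound6) : ∀ u, C6_849.testBit u = true → Kill 6 (476422720 + u * 8 ^ 10) :=
  kill_eq (kill_or (ck6_sound' hs D6.x_849_0)
    (ck6_sound' hs D6.xs_849_0))
    (by decide +kernel : Nat.beq C6_849 (Nat.lor D6.m_849_0 D6.ms_849_0) = true)

theorem c6_850 (hs : Sound6) : ∀ u, C6_850.testBit u = true → Kill 6 (606708288 + u * 8 ^ 10) :=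
  kill_eq (kill_or (ck6_sound' hs D6.x_850_0)
    (ck6_sound' hs D6.xs_850_0))
    (by decide +kernel : Nat.beq C6_850 (Nat.lor D6.m_850_0 D6.ms_850_0) = true)

theorem c6_851 (hs : Sound6) : ∀ u, C6_851.testBit u = true → Kill 6 (342691840 + u * 8 ^ 10) :=
  kill_eq (kill_or (ck6_sound' hs D6.x_851_0)
    (ck6_sound' hs D6.xs_851_0))
    (by decide +kernel : Nat.beq C6_851 (Nat.lor D6.m_851_0 D6.ms_851_0) = true)

theorem c6_852 (hs : Sound6) : ∀ u, C6_852.testBit u = true → Kill 6 (476647936 + u * 8 ^ 10) :=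
  kill_eq (kill_or (ck6_sound' hs D6.x_852_0)
    (ck6_sound' hs D6.xs_852_0))
    (by decide +kernel : Nat.beq C6_852 (Nat.lor D6.m_852_0 D6.ms_852_0) = true)

theorem c6_853 (hs : Sound6) : ∀ u, C6_853.testBit u = true → Kill 6 (208249344 + u * 8 ^ 10) :=
  kill_eq (kill_or (ck6_sound' hs D6.x_853_0)
    (kill_or (ck6_sound' hs D6.x_853_1)
    (ck6_sound' hs D6.xs_853_0)))
    (by decide +kernel : Nat.beq C6_853 (Nat.lor D6.m_853_0 (Nat.lor D6.m_853_1 D6.ms_853_0)) = true)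

theorem c6_854 (hs : Sound6) : ∀ u, C6_854.testBit u = true → Kill 6 (439459904 + u * 8 ^ 10) :=
  kill_eq (kill_or (ck6_sound' hs D6.x_854_0)
    (ck6_sound' hs D6.xs_854_0))
    (by decide +kernel : Nat.beq C6_854 (Nat.lor D6.m_854_0 D6.ms_854_0) = true)

theorem c6_855 (hs : Sound6) : ∀ u, C6_855.testBit u = true → Kill 6 (610599488 + u * 8 ^ 10) :=
  kill_eq (kill_or (ck6_sound' hs D6.x_855_0)
    (ck6_sound' hs D6.xs_855_0))
    (by decide +kernel : Nat.beq C6_855 (Nat.lor D6.m_855_0 D6.ms_855_0) = true)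

theorem st_32 (hs : Sound6) : ∀ i, 846 ≤ i → i < 856 → St i := by
  intro i h1 h2
  interval_cases i
  · exact s_846 (c6_846 hs)
  · exact s_847 (c6_847 hs)
  · exact s_848 (c6_848 hs)
  · exact s_849 (c6_849 hs)
  · exact s_850 (c6_850 hs)
  · exact s_851 (c6_851 hs)
  · exact s_852 (c6_852 hs)
  · exact s_853 (c6_853 hs)
  · exact s_854 (c6_854 hs)
  · exact s_855 (c6_855 hs)

end CR.L6
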