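import Pool.Agent.Lib.MP_6f5d36_co.L6.W033
import Pool.Agent.Lib.MP_6f5d36_co.L6.CkS
import Pool.Agent.Lib.MP_6f5d36_co.D6.X071
import Pool.Agent.Lib.MP_6f5d36_co.D6.Y018
import Pool.Agent.Lib.MP_6f5d36_co.D6.X072
import Pool.Agent.Lib.MP_6f5d36_co.D6.Y019

set_option autoImplicit false

/-!
# MP_6f5d36_co : level 6 for the types 856 to 865
-/

namespace CR.L6

theorem c6_856 (hs : Sound6) : ∀ u, C6_856.testBit u = true → Kill 6 (73736768 + u * 8 ^ 10) :=
  kill_eq (kill_or (ck6_sound' hs D6.x_856_0)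
    (ck6_sound' hs D6.xs_856_0))
    (by decide +kernel : Nat.beq C6_856 (Nat.lor D6.m_856_0 D6.ms_856_0) = true)

theorem c6_857 (hs : Sound6) : ∀ u, C6_857.testBit u = true → Kill 6 (592028224 + u * 8 ^ 10) :=
  kill_eq (kill_or (ck6_sound' hs D6.x_857_0)
    (ck6_sound' hs D6.xs_857_0))
    (by decide +kernel : Nat.beq C6_857 (Nat.lor D6.m_857_0 D6.ms_857_0) = true)

theorem c6_858 (hs : Sound6) : ∀ u, C6_858.testBit u = true → Kill 6 (177017344 + u * 8 ^ 10) :=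
  kill_eq (kill_or (ck6_sound' hs D6.x_858_0)
    (ck6_sound' hs D6.xs_858_0))
    (by decide +kernel : Nat.beq C6_858 (Nat.lor D6.m_858_0 D6.ms_858_0) = true)

theorem c6_859 (hs : Sound6) : ∀ u, C6_859.testBit u = true → Kill 6 (593822272 + u * 8 ^ 10) :=
  kill_eq (kill_or (ck6_sound' hs D6.x_859_0)
    (ck6_sound' hs D6.xs_859_0))
    (by decide +kernel : Nat.beq C6_859 (Nat.lor D6.m_859_0 D6.ms_859_0) = true)

theorem c6_860 (hs : Sound6) : ∀ u, C6_860.testBit u = true → Kill 6 (342164032 + u * 8 ^ 10) :=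
  kill_eq (kill_or (ck6_sound' hs D6.x_860_0)
    (ck6_sound' hs D6.xs_860_0))
    (by decide +kernel : Nat.beq C6_860 (Nat.lor D6.m_860_0 D6.ms_860_0) = true)

theorem c6_861 (hs : Sound6) : ∀ u, C6_861.testBit u = true → Kill 6 (277676608 + u * 8 ^ 10) :=
  kill_eq (kill_or (ck6_sound' hs D6.x_861_0)
    (ck6_sound' hs D6.xs_861_0))
    (by decide +kernel : Nat.beq C6_861 (Nat.lor D6.m_861_0 D6.ms_861_0) = true)

theorem c6_862 (hs : Sound6) : ∀ u, C6_862.testBit u = true → Kill 6 (587833920 + u * 8 ^ 10) :=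
  kill_eq (kill_or (ck6_sound' hs D6.x_862_0)
    (kill_or (ck6_sound' hs D6.xs_862_0)
    (ck6_sound' hs D6.xs_862_1)))
    (by decide +kernel : Nat.beq C6_862 (Nat.lor D6.m_862_0 (Nat.lor D6.ms_862_0 D6.ms_862_1)) = true)

theorem c6_863 (hs : Sound6) : ∀ u, C6_863.testBit u = true → Kill 6 (610902592 + u * 8 ^ 10) :=
  kill_eq (kill_or (ck6_sound' hs D6.x_863_0)
    (ck6_sound' hs D6.xs_863_0))
    (by decide +kernel : Nat.beq C6_863 (Nat.lor D6.m_863_0 D6.ms_863_0) = true)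

theorem c6_864 (hs : Sound6) : ∀ u, C6_864.testBit u = true → Kill 6 (70062080 + u * 8 ^ 10) :=
  kill_eq (kill_or (ck6_sound' hs D6.x_864_0)
    (ck6_sound' hs D6.xs_864_0))
    (by decide +kernel : Nat.beq C6_864 (Nat.lor D6.m_864_0 D6.ms_864_0) = true)

theorem c6_865 (hs : Sound6) : ∀ u, C6_865.testBit u = true → Kill 6 (74256384 + u * 8 ^ 10) :=
  kill_eq (ck6_sound' hs D6.x_865_0)
    (by decide +kernel : Nat.beq C6_865 D6.m_865_0 = true)

theorem st_33 (hs : Sound6) : ∀ i, 856 ≤ i → i < 866 → St i := by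
  intro i h1 h2
  interval_cases i
  · exact s_856 (c6_856 hs)
  · exact s_857 (c6_857 hs)
  · exact s_858 (c6_858 hs)
  · exact s_859 (c6_859 hs)
  · exact s_860 (c6_860 hs)
  · exact s_861 (c6_861 hs)
  · exact s_862 (c6_862 hs)
  · exact s_863 (c6_863 hs)
  · exact s_864 (c6_864 hs)
  · exact s_865 (c6_865 hs)

end CR.L6
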