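import Pool.Agent.Lib.MP_6f5d36_co.L6.W034
import Pool.Agent.Lib.MP_6f5d36_co.L6.CkS
import Pool.Agent.Lib.MP_6f5d36_co.D6.X072
import Pool.Agent.Lib.MP_6f5d36_co.D6.Y019

set_option autoImplicit false

/-!
# MP_6f5d36_co : level 6 for the types 866 to 875
-/

namespace CR.L6

theorem c6_866 (hs : Sound6) : ∀ u, C6_866.testBit u = true → Kill 6 (342168064 + u * 8 ^ 10) :=
  kill_eq (kill_or (ck6_sound' hs D6.x_866_0)
    (ck6_sound' hs D6.xs_866_0))
    (by decide +kernel : Nat.beq C6_866 (Nat.lor D6.m_866_0 D6.ms_866_0) = true)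

theorem c6_867 (hs : Sound6) : ∀ u, C6_867.testBit u = true → Kill 6 (472227904 + u * 8 ^ 10) :=
  kill_eq (kill_or (ck6_sound' hs D6.x_867_0)
    (ck6_sound' hs D6.xs_867_0))
    (by decide +kernel : Nat.beq C6_867 (Nat.lor D6.m_867_0 D6.ms_867_0) = true)

theorem c6_868 (hs : Sound6) : ∀ u, C6_868.testBit u = true → Kill 6 (476643904 + u * 8 ^ 10) :=
  kill_eq (kill_or (ck6_sound' hs D6.x_868_0)
    (ck6_sound' hs D6.xs_868_0))
    (by decide +kernel : Nat.beq C6_868 (Nat.lor D6.m_868_0 D6.ms_868_0) = true)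

theorem c6_869 (hs : Sound6) : ∀ u, C6_869.testBit u = true → Kill 6 (606700608 + u * 8 ^ 10) :=
  kill_eq (kill_or (ck6_sound' hs D6.x_869_0)
    (ck6_sound' hs D6.xs_869_0))
    (by decide +kernel : Nat.beq C6_869 (Nat.lor D6.m_869_0 D6.ms_869_0) = true)

theorem c6_870 (hs : Sound6) : ∀ u, C6_870.testBit u = true → Kill 6 (143537288 + u * 8 ^ 10) :=
  kill_eq (kill_or (ck6_sound' hs D6.x_870_0)
    (ck6_sound' hs D6.xs_870_0))
    (by decide +kernel : Nat.beq C6_870 (Nat.lor D6.m_870_0 D6.ms_870_0) = true)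

theorem c6_871 (hs : Sound6) : ∀ u, C6_871.testBit u = true → Kill 6 (560496640 + u * 8 ^ 10) :=
  kill_eq (kill_or (ck6_sound' hs D6.x_871_0)
    (ck6_sound' hs D6.xs_871_0))
    (by decide +kernel : Nat.beq C6_871 (Nat.lor D6.m_871_0 D6.ms_871_0) = true)

theorem c6_872 (hs : Sound6) : ∀ u, C6_872.testBit u = true → Kill 6 (611127296 + u * 8 ^ 10) :=
  kill_eq (kill_or (ck6_sound' hs D6.x_872_0)
    (ck6_sound' hs D6.xs_872_0))
    (by decide +kernel : Nat.beq C6_872 (Nat.lor D6.m_872_0 D6.ms_872_0) = true)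

theorem c6_873 (hs : Sound6) : ∀ u, C6_873.testBit u = true → Kill 6 (135372864 + u * 8 ^ 10) :=
  kill_eq (kill_or (ck6_sound' hs D6.x_873_0)
    (ck6_sound' hs D6.xs_873_0))
    (by decide +kernel : Nat.beq C6_873 (Nat.lor D6.m_873_0 D6.ms_873_0) = true)

theorem c6_874 (hs : Sound6) : ∀ u, C6_874.testBit u = true → Kill 6 (342204992 + u * 8 ^ 10) :=
  kill_eq (kill_or (ck6_sound' hs D6.x_874_0)
    (ck6_sound' hs D6.xs_874_0))
    (by decide +kernel : Nat.beq C6_874 (Nat.lor D6.m_874_0 D6.ms_874_0) = true)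

theorem c6_875 (hs : Sound6) : ∀ u, C6_875.testBit u = true → Kill 6 (476677184 + u * 8 ^ 10) :=
  kill_eq (kill_or (ck6_sound' hs D6.x_875_0)
    (ck6_sound' hs D6.xs_875_0))
    (by decide +kernel : Nat.beq C6_875 (Nat.lor D6.m_875_0 D6.ms_875_0) = true)

theorem st_34 (hs : Sound6) : ∀ i, 866 ≤ i → i < 876 → St i := by
  intro i h1 h2
  interval_cases i
  · exact s_866 (c6_866 hs)
  · exact s_867 (c6_867 hs)
  · exact s_868 (c6_868 hs)
  · exact s_869 (c6_869 hs)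
  · exact s_870 (c6_870 hs)
  · exact s_871 (c6_871 hs)
  · exact s_872 (c6_872 hs)
  · exact s_873 (c6_873 hs)
  · exact s_874 (c6_874 hs)
  · exact s_875 (c6_875 hs)

end CR.L6
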