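import Pool.Agent.Lib.MP_6f5d36_co.L6.W036
import Pool.Agent.Lib.MP_6f5d36_co.L6.CkS
import Pool.Agent.Lib.MP_6f5d36_co.D6.X072
import Pool.Agent.Lib.MP_6f5d36_co.D6.Y019
import Pool.Agent.Lib.MP_6f5d36_co.D6.X073
import Pool.Agent.Lib.MP_6f5d36_co.D6.Y020

set_option autoImplicit false

/-!
# MP_6f5d36_co : level 6 for the types 886 to 895
-/

namespace CR.L6

theorem c6_886 (hs : Sound6) : ∀ u, C6_886.testBit u = true → Kill 6 (608805440 + u * 8 ^ 10) :=
  kill_eq (kill_or (ck6_sound' hs D6.x_886_0)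
    (ck6_sound' hs D6.xs_886_0))
    (by decide +kernel : Nat.beq C6_886 (Nat.lor D6.m_886_0 D6.ms_886_0) = true)

theorem c6_887 (hs : Sound6) : ∀ u, C6_887.testBit u = true → Kill 6 (470622784 + u * 8 ^ 10) :=
  kill_eq (kill_or (ck6_sound' hs D6.x_887_0)
    (ck6_sound' hs D6.xs_887_0))
    (by decide +kernel : Nat.beq C6_887 (Nat.lor D6.m_887_0 D6.ms_887_0) = true)

theorem c6_888 (hs : Sound6) : ∀ u, C6_888.testBit u = true → Kill 6 (294232640 + u * 8 ^ 10) :=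
  kill_eq (kill_or (ck6_sound' hs D6.x_888_0)
    (ck6_sound' hs D6.xs_888_0))
    (by decide +kernel : Nat.beq C6_888 (Nat.lor D6.m_888_0 D6.ms_888_0) = true)

theorem c6_889 (hs : Sound6) : ∀ u, C6_889.testBit u = true → Kill 6 (42574400 + u * 8 ^ 10) :=
  kill_eq (kill_or (ck6_sound' hs D6.x_889_0)
    (ck6_sound' hs D6.xs_889_0))
    (by decide +kernel : Nat.beq C6_889 (Nat.lor D6.m_889_0 D6.ms_889_0) = true)

theorem c6_890 (hs : Sound6) : ∀ u, C6_890.testBit u = true → Kill 6 (593825792 + u * 8 ^ 10) :=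
  kill_eq (kill_or (ck6_sound' hs D6.x_890_0)
    (ck6_sound' hs D6.xs_890_0))
    (by decide +kernel : Nat.beq C6_890 (Nat.lor D6.m_890_0 D6.ms_890_0) = true)

theorem c6_891 (hs : Sound6) : ∀ u, C6_891.testBit u = true → Kill 6 (73732096 + u * 8 ^ 10) :=
  kill_eq (kill_or (ck6_sound' hs D6.x_891_0)
    (ck6_sound' hs D6.xs_891_0))
    (by decide +kernel : Nat.beq C6_891 (Nat.lor D6.m_891_0 D6.ms_891_0) = true)

theorem c6_892 (hs : Sound6) : ∀ u, C6_892.testBit u = true → Kill 6 (591990848 + u * 8 ^ 10) :=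
  kill_eq (kill_or (ck6_sound' hs D6.x_892_0)
    (ck6_sound' hs D6.xs_892_0))
    (by decide +kernel : Nat.beq C6_892 (Nat.lor D6.m_892_0 D6.ms_892_0) = true)

theorem c6_893 (hs : Sound6) : ∀ u, C6_893.testBit u = true → Kill 6 (543752768 + u * 8 ^ 10) :=
  kill_eq (kill_or (ck6_sound' hs D6.x_893_0)
    (ck6_sound' hs D6.xs_893_0))
    (by decide +kernel : Nat.beq C6_893 (Nat.lor D6.m_893_0 D6.ms_893_0) = true)

theorem c6_894 (hs : Sound6) : ∀ u, C6_894.testBit u = true → Kill 6 (473014336 + u * 8 ^ 10) :=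
  kill_eq (kill_or (ck6_sound' hs D6.x_894_0)
    (ck6_sound' hs D6.xs_894_0))
    (by decide +kernel : Nat.beq C6_894 (Nat.lor D6.m_894_0 D6.ms_894_0) = true)

theorem c6_895 (hs : Sound6) : ∀ u, C6_895.testBit u = true → Kill 6 (591729216 + u * 8 ^ 10) :=
  kill_eq (kill_or (ck6_sound' hs D6.x_895_0)
    (ck6_sound' hs D6.xs_895_0))
    (by decide +kernel : Nat.beq C6_895 (Nat.lor D6.m_895_0 D6.ms_895_0) = true)

theorem st_36 (hs : Sound6) : ∀ i, 886 ≤ i → i < 896 → St i := by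
  intro i h1 h2
  interval_cases i
  · exact s_886 (c6_886 hs)
  · exact s_887 (c6_887 hs)
  · exact s_888 (c6_888 hs)
  · exact s_889 (c6_889 hs)
  · exact s_890 (c6_890 hs)
  · exact s_891 (c6_891 hs)
  · exact s_892 (c6_892 hs)
  · exact s_893 (c6_893 hs)
  · exact s_894 (c6_894 hs)
  · exact s_895 (c6_895 hs)

end CR.L6
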