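import Pool.Agent.Lib.MP_6f5d36_co.L6.W037
import Pool.Agent.Lib.MP_6f5d36_co.L6.CkS
import Pool.Agent.Lib.MP_6f5d36_co.D6.X073
import Pool.Agent.Lib.MP_6f5d36_co.D6.Y020

set_option autoImplicit false

/-!
# MP_6f5d36_co : level 6 for the types 896 to 905
-/

namespace CR.L6

theorem c6_896 (hs : Sound6) : ∀ u, C6_896.testBit u = true → Kill 6 (34710080 + u * 8 ^ 10) :=
  kill_eq (kill_or (ck6_sound' hs D6.x_896_0)
    (ck6_sound' hs D6.xs_896_0))
    (by decide +kernel : Nat.beq C6_896 (Nat.lor D6.m_896_0 D6.ms_896_0) = true)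

theorem c6_897 (hs : Sound6) : ∀ u, C6_897.testBit u = true → Kill 6 (579699776 + u * 8 ^ 10) :=
  kill_eq (kill_or (ck6_sound' hs D6.x_897_0)
    (ck6_sound' hs D6.xs_897_0))
    (by decide +kernel : Nat.beq C6_897 (Nat.lor D6.m_897_0 D6.ms_897_0) = true)

theorem c6_898 (hs : Sound6) : ∀ u, C6_898.testBit u = true → Kill 6 (342167552 + u * 8 ^ 10) :=
  kill_eq (kill_or (ck6_sound' hs D6.x_898_0)
    (ck6_sound' hs D6.xs_898_0))
    (by decide +kernel : Nat.beq C6_898 (Nat.lor D6.m_898_0 D6.ms_898_0) = true)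

theorem c6_899 (hs : Sound6) : ∀ u, C6_899.testBit u = true → Kill 6 (590155776 + u * 8 ^ 10) :=
  kill_eq (kill_or (ck6_sound' hs D6.x_899_0)
    (ck6_sound' hs D6.xs_899_0))
    (by decide +kernel : Nat.beq C6_899 (Nat.lor D6.m_899_0 D6.ms_899_0) = true)

theorem c6_900 (hs : Sound6) : ∀ u, C6_900.testBit u = true → Kill 6 (543756352 + u * 8 ^ 10) :=
  kill_eq (kill_or (ck6_sound' hs D6.x_900_0)
    (ck6_sound' hs D6.xs_900_0))
    (by decide +kernel : Nat.beq C6_900 (Nat.lor D6.m_900_0 D6.ms_900_0) = true)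

theorem c6_901 (hs : Sound6) : ∀ u, C6_901.testBit u = true → Kill 6 (73769024 + u * 8 ^ 10) :=
  kill_eq (kill_or (ck6_sound' hs D6.x_901_0)
    (ck6_sound' hs D6.xs_901_0))
    (by decide +kernel : Nat.beq C6_901 (Nat.lor D6.m_901_0 D6.ms_901_0) = true)

theorem c6_902 (hs : Sound6) : ∀ u, C6_902.testBit u = true → Kill 6 (591725120 + u * 8 ^ 10) :=
  kill_eq (kill_or (ck6_sound' hs D6.x_902_0)
    (ck6_sound' hs D6.xs_902_0))
    (by decide +kernel : Nat.beq C6_902 (Nat.lor D6.m_902_0 D6.ms_902_0) = true)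

theorem c6_903 (hs : Sound6) : ∀ u, C6_903.testBit u = true → Kill 6 (592552512 + u * 8 ^ 10) :=
  kill_eq (kill_or (ck6_sound' hs D6.x_903_0)
    (ck6_sound' hs D6.xs_903_0))
    (by decide +kernel : Nat.beq C6_903 (Nat.lor D6.m_903_0 D6.ms_903_0) = true)

theorem c6_904 (hs : Sound6) : ∀ u, C6_904.testBit u = true → Kill 6 (587571264 + u * 8 ^ 10) :=
  kill_eq (kill_or (ck6_sound' hs D6.x_904_0)
    (ck6_sound' hs D6.xs_904_0))
    (by decide +kernel : Nat.beq C6_904 (Nat.lor D6.m_904_0 D6.ms_904_0) = true)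

theorem c6_905 (hs : Sound6) : ∀ u, C6_905.testBit u = true → Kill 6 (591728640 + u * 8 ^ 10) :=
  kill_eq (kill_or (ck6_sound' hs D6.x_905_0)
    (ck6_sound' hs D6.xs_905_0))
    (by decide +kernel : Nat.beq C6_905 (Nat.lor D6.m_905_0 D6.ms_905_0) = true)

theorem st_37 (hs : Sound6) : ∀ i, 896 ≤ i → i < 906 → St i := by
  intro i h1 h2
  interval_cases i
  · exact s_896 (c6_896 hs)
  · exact s_897 (c6_897 hs)
  · exact s_898 (c6_898 hs)
  · exact s_899 (c6_899 hs)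
  · exact s_900 (c6_900 hs)
  · exact s_901 (c6_901 hs)
  · exact s_902 (c6_902 hs)
  · exact s_903 (c6_903 hs)
  · exact s_904 (c6_904 hs)
  · exact s_905 (c6_905 hs)

end CR.L6
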