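import Pool.Agent.Lib.MP_6f5d36_co.L6.W038
import Pool.Agent.Lib.MP_6f5d36_co.L6.CkS
import Pool.Agent.Lib.MP_6f5d36_co.D6.X073
import Pool.Agent.Lib.MP_6f5d36_co.D6.Y020

set_option autoImplicit false

/-!
# MP_6f5d36_co : level 6 for the types 906 to 915
-/

namespace CR.L6

theorem c6_906 (hs : Sound6) : ∀ u, C6_906.testBit u = true → Kill 6 (577602624 + u * 8 ^ 10) :=
  kill_eq (kill_or (ck6_sound' hs D6.x_906_0)
    (ck6_sound' hs D6.xs_906_0))
    (by decide +kernel : Nat.beq C6_906 (Nat.lor D6.m_906_0 D6.ms_906_0) = true)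

theorem c6_907 (hs : Sound6) : ∀ u, C6_907.testBit u = true → Kill 6 (573378560 + u * 8 ^ 10) :=
  kill_eq (kill_or (ck6_sound' hs D6.x_907_0)
    (ck6_sound' hs D6.xs_907_0))
    (by decide +kernel : Nat.beq C6_907 (Nat.lor D6.m_907_0 D6.ms_907_0) = true)

theorem c6_908 (hs : Sound6) : ∀ u, C6_908.testBit u = true → Kill 6 (543494208 + u * 8 ^ 10) :=
  kill_eq (kill_or (ck6_sound' hs D6.x_908_0)
    (ck6_sound' hs D6.xs_908_0))
    (by decide +kernel : Nat.beq C6_908 (Nat.lor D6.m_908_0 D6.ms_908_0) = true)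

theorem c6_909 (hs : Sound6) : ∀ u, C6_909.testBit u = true → Kill 6 (9241152 + u * 8 ^ 10) :=
  kill_eq (kill_or (ck6_sound' hs D6.x_909_0)
    (ck6_sound' hs D6.xs_909_0))
    (by decide +kernel : Nat.beq C6_909 (Nat.lor D6.m_909_0 D6.ms_909_0) = true)

theorem c6_910 (hs : Sound6) : ∀ u, C6_910.testBit u = true → Kill 6 (411894336 + u * 8 ^ 10) :=
  kill_eq (kill_or (ck6_sound' hs D6.x_910_0)
    (ck6_sound' hs D6.xs_910_0))
    (by decide +kernel : Nat.beq C6_910 (Nat.lor D6.m_910_0 D6.ms_910_0) = true)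

theorem c6_911 (hs : Sound6) : ∀ u, C6_911.testBit u = true → Kill 6 (342396928 + u * 8 ^ 10) :=
  kill_eq (kill_or (ck6_sound' hs D6.x_911_0)
    (ck6_sound' hs D6.xs_911_0))
    (by decide +kernel : Nat.beq C6_911 (Nat.lor D6.m_911_0 D6.ms_911_0) = true)

theorem c6_912 (hs : Sound6) : ∀ u, C6_912.testBit u = true → Kill 6 (474325504 + u * 8 ^ 10) :=
  kill_eq (kill_or (ck6_sound' hs D6.x_912_0)
    (ck6_sound' hs D6.xs_912_0))
    (by decide +kernel : Nat.beq C6_912 (Nat.lor D6.m_912_0 D6.ms_912_0) = true)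

theorem c6_913 (hs : Sound6) : ∀ u, C6_913.testBit u = true → Kill 6 (589627968 + u * 8 ^ 10) :=
  kill_eq (kill_or (ck6_sound' hs D6.x_913_0)
    (ck6_sound' hs D6.xs_913_0))
    (by decide +kernel : Nat.beq C6_913 (Nat.lor D6.m_913_0 D6.ms_913_0) = true)

theorem c6_914 (hs : Sound6) : ∀ u, C6_914.testBit u = true → Kill 6 (560792128 + u * 8 ^ 10) :=
  kill_eq (kill_or (ck6_sound' hs D6.x_914_0)
    (ck6_sound' hs D6.xs_914_0))
    (by decide +kernel : Nat.beq C6_914 (Nat.lor D6.m_914_0 D6.ms_914_0) = true)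

theorem c6_915 (hs : Sound6) : ∀ u, C6_915.testBit u = true → Kill 6 (591691776 + u * 8 ^ 10) :=
  kill_eq (kill_or (ck6_sound' hs D6.x_915_0)
    (ck6_sound' hs D6.xs_915_0))
    (by decide +kernel : Nat.beq C6_915 (Nat.lor D6.m_915_0 D6.ms_915_0) = true)

theorem st_38 (hs : Sound6) : ∀ i, 906 ≤ i → i < 916 → St i := by
  intro i h1 h2
  interval_cases i
  · exact s_906 (c6_906 hs)
  · exact s_907 (c6_907 hs)
  · exact s_908 (c6_908 hs)
  · exact s_909 (c6_909 hs)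
  · exact s_910 (c6_910 hs)
  · exact s_911 (c6_911 hs)
  · exact s_912 (c6_912 hs)
  · exact s_913 (c6_913 hs)
  · exact s_914 (c6_914 hs)
  · exact s_915 (c6_915 hs)

end CR.L6
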