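import Pool.Agent.Lib.MP_6f5d36_co.L6.W039
import Pool.Agent.Lib.MP_6f5d36_co.L6.CkS
import Pool.Agent.Lib.MP_6f5d36_co.D6.X073
import Pool.Agent.Lib.MP_6f5d36_co.D6.Y020
import Pool.Agent.Lib.MP_6f5d36_co.D6.X074
import Pool.Agent.Lib.MP_6f5d36_co.D6.Y021

set_option autoImplicit false

/-!
# MP_6f5d36_co : level 6 for the types 916 to 925
-/

namespace CR.L6

theorem c6_916 (hs : Sound6) : ∀ u, C6_916.testBit u = true → Kill 6 (596447808 + u * 8 ^ 10) :=
  kill_eq (kill_or (ck6_sound' hs D6.x_916_0)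
    (ck6_sound' hs D6.xs_916_0))
    (by decide +kernel : Nat.beq C6_916 (Nat.lor D6.m_916_0 D6.ms_916_0) = true)

theorem c6_917 (hs : Sound6) : ∀ u, C6_917.testBit u = true → Kill 6 (470393408 + u * 8 ^ 10) :=
  kill_eq (kill_or (ck6_sound' hs D6.x_917_0)
    (ck6_sound' hs D6.xs_917_0))
    (by decide +kernel : Nat.beq C6_917 (Nat.lor D6.m_917_0 D6.ms_917_0) = true)

theorem c6_918 (hs : Sound6) : ∀ u, C6_918.testBit u = true → Kill 6 (9019968 + u * 8 ^ 10) :=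
  kill_eq (kill_or (ck6_sound' hs D6.x_918_0)
    (ck6_sound' hs D6.xs_918_0))
    (by decide +kernel : Nat.beq C6_918 (Nat.lor D6.m_918_0 D6.ms_918_0) = true)

theorem c6_919 (hs : Sound6) : ∀ u, C6_919.testBit u = true → Kill 6 (294749248 + u * 8 ^ 10) :=
  kill_eq (kill_or (ck6_sound' hs D6.x_919_0)
    (ck6_sound' hs D6.xs_919_0))
    (by decide +kernel : Nat.beq C6_919 (Nat.lor D6.m_919_0 D6.ms_919_0) = true)

theorem c6_920 (hs : Sound6) : ∀ u, C6_920.testBit u = true → Kill 6 (335913024 + u * 8 ^ 10) :=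
  kill_eq (kill_or (ck6_sound' hs D6.x_920_0)
    (ck6_sound' hs D6.xs_920_0))
    (by decide +kernel : Nat.beq C6_920 (Nat.lor D6.m_920_0 D6.ms_920_0) = true)

theorem c6_921 (hs : Sound6) : ∀ u, C6_921.testBit u = true → Kill 6 (73728576 + u * 8 ^ 10) :=
  kill_eq (kill_or (ck6_sound' hs D6.x_921_0)
    (ck6_sound' hs D6.xs_921_0))
    (by decide +kernel : Nat.beq C6_921 (Nat.lor D6.m_921_0 D6.ms_921_0) = true)

theorem c6_922 (hs : Sound6) : ∀ u, C6_922.testBit u = true → Kill 6 (546112064 + u * 8 ^ 10) :=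
  kill_eq (kill_or (ck6_sound' hs D6.x_922_0)
    (ck6_sound' hs D6.xs_922_0))
    (by decide +kernel : Nat.beq C6_922 (Nat.lor D6.m_922_0 D6.ms_922_0) = true)

theorem c6_923 (hs : Sound6) : ∀ u, C6_923.testBit u = true → Kill 6 (73994816 + u * 8 ^ 10) :=
  kill_eq (kill_or (ck6_sound' hs D6.x_923_0)
    (ck6_sound' hs D6.xs_923_0))
    (by decide +kernel : Nat.beq C6_923 (Nat.lor D6.m_923_0 D6.ms_923_0) = true)

theorem c6_924 (hs : Sound6) : ∀ u, C6_924.testBit u = true → Kill 6 (560570944 + u * 8 ^ 10) :=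
  kill_eq (kill_or (ck6_sound' hs D6.x_924_0)
    (ck6_sound' hs D6.xs_924_0))
    (by decide +kernel : Nat.beq C6_924 (Nat.lor D6.m_924_0 D6.ms_924_0) = true)

theorem c6_925 (hs : Sound6) : ∀ u, C6_925.testBit u = true → Kill 6 (210346560 + u * 8 ^ 10) :=
  kill_eq (kill_or (ck6_sound' hs D6.x_925_0)
    (ck6_sound' hs D6.xs_925_0))
    (by decide +kernel : Nat.beq C6_925 (Nat.lor D6.m_925_0 D6.ms_925_0) = true)

theorem st_39 (hs : Sound6) : ∀ i, 916 ≤ i → i < 926 → St i := by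
  intro i h1 h2
  interval_cases i
  · exact s_916 (c6_916 hs)
  · exact s_917 (c6_917 hs)
  · exact s_918 (c6_918 hs)
  · exact s_919 (c6_919 hs)
  · exact s_920 (c6_920 hs)
  · exact s_921 (c6_921 hs)
  · exact s_922 (c6_922 hs)
  · exact s_923 (c6_923 hs)
  · exact s_924 (c6_924 hs)
  · exact s_925 (c6_925 hs)

end CR.L6
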