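import Pool.Agent.Lib.MP_6f5d36_co.L6.W040
import Pool.Agent.Lib.MP_6f5d36_co.L6.CkS
import Pool.Agent.Lib.MP_6f5d36_co.D6.X074
import Pool.Agent.Lib.MP_6f5d36_co.D6.Y021

set_option autoImplicit false

/-!
# MP_6f5d36_co : level 6 for the types 926 to 935
-/

namespace CR.L6

theorem c6_926 (hs : Sound6) : ∀ u, C6_926.testBit u = true → Kill 6 (476578880 + u * 8 ^ 10) :=
  kill_eq (kill_or (ck6_sound' hs D6.x_926_0)
    (ck6_sound' hs D6.xs_926_0))
    (by decide +kernel : Nat.beq C6_926 (Nat.lor D6.m_926_0 D6.ms_926_0) = true)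

theorem c6_927 (hs : Sound6) : ∀ u, C6_927.testBit u = true → Kill 6 (206376960 + u * 8 ^ 10) :=
  kill_eq (kill_or (ck6_sound' hs D6.x_927_0)
    (ck6_sound' hs D6.xs_927_0))
    (by decide +kernel : Nat.beq C6_927 (Nat.lor D6.m_927_0 D6.ms_927_0) = true)

theorem c6_928 (hs : Sound6) : ∀ u, C6_928.testBit u = true → Kill 6 (26022464 + u * 8 ^ 10) :=
  kill_eq (kill_or (ck6_sound' hs D6.x_928_0)
    (ck6_sound' hs D6.xs_928_0))
    (by decide +kernel : Nat.beq C6_928 (Nat.lor D6.m_928_0 D6.ms_928_0) = true)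

theorem c6_929 (hs : Sound6) : ∀ u, C6_929.testBit u = true → Kill 6 (591695872 + u * 8 ^ 10) :=
  kill_eq (kill_or (ck6_sound' hs D6.x_929_0)
    (ck6_sound' hs D6.xs_929_0))
    (by decide +kernel : Nat.beq C6_929 (Nat.lor D6.m_929_0 D6.ms_929_0) = true)

theorem c6_930 (hs : Sound6) : ∀ u, C6_930.testBit u = true → Kill 6 (42799616 + u * 8 ^ 10) :=
  kill_eq (kill_or (ck6_sound' hs D6.x_930_0)
    (ck6_sound' hs D6.xs_930_0))
    (by decide +kernel : Nat.beq C6_930 (Nat.lor D6.m_930_0 D6.ms_930_0) = true)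

theorem c6_931 (hs : Sound6) : ∀ u, C6_931.testBit u = true → Kill 6 (207949824 + u * 8 ^ 10) :=
  kill_eq (kill_or (ck6_sound' hs D6.x_931_0)
    (ck6_sound' hs D6.xs_931_0))
    (by decide +kernel : Nat.beq C6_931 (Nat.lor D6.m_931_0 D6.ms_931_0) = true)

theorem c6_932 (hs : Sound6) : ∀ u, C6_932.testBit u = true → Kill 6 (579666496 + u * 8 ^ 10) :=
  kill_eq (kill_or (ck6_sound' hs D6.x_932_0)
    (ck6_sound' hs D6.xs_932_0))
    (by decide +kernel : Nat.beq C6_932 (Nat.lor D6.m_932_0 D6.ms_932_0) = true)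

theorem c6_933 (hs : Sound6) : ∀ u, C6_933.testBit u = true → Kill 6 (543793728 + u * 8 ^ 10) :=
  kill_eq (kill_or (ck6_sound' hs D6.x_933_0)
    (kill_or (ck6_sound' hs D6.xs_933_0)
    (ck6_sound' hs D6.xs_933_1)))
    (by decide +kernel : Nat.beq C6_933 (Nat.lor D6.m_933_0 (Nat.lor D6.ms_933_0 D6.ms_933_1)) = true)

theorem c6_934 (hs : Sound6) : ∀ u, C6_934.testBit u = true → Kill 6 (210571264 + u * 8 ^ 10) :=
  kill_eq (kill_or (ck6_sound' hs D6.x_934_0)
    (ck6_sound' hs D6.xs_934_0))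
    (by decide +kernel : Nat.beq C6_934 (Nat.lor D6.m_934_0 D6.ms_934_0) = true)

theorem c6_935 (hs : Sound6) : ∀ u, C6_935.testBit u = true → Kill 6 (479006720 + u * 8 ^ 10) :=
  kill_eq (kill_or (ck6_sound' hs D6.x_935_0)
    (ck6_sound' hs D6.xs_935_0))
    (by decide +kernel : Nat.beq C6_935 (Nat.lor D6.m_935_0 D6.ms_935_0) = true)

theorem st_40 (hs : Sound6) : ∀ i, 926 ≤ i → i < 936 → St i := by
  intro i h1 h2
  interval_cases i
  · exact s_926 (c6_926 hs)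
  · exact s_927 (c6_927 hs)
  · exact s_928 (c6_928 hs)
  · exact s_929 (c6_929 hs)
  · exact s_930 (c6_930 hs)
  · exact s_931 (c6_931 hs)
  · exact s_932 (c6_932 hs)
  · exact s_933 (c6_933 hs)
  · exact s_934 (c6_934 hs)
  · exact s_935 (c6_935 hs)

end CR.L6
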