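import Pool.Agent.Lib.MP_6f5d36_co.L6.W041
import Pool.Agent.Lib.MP_6f5d36_co.L6.CkS
import Pool.Agent.Lib.MP_6f5d36_co.D6.X074
import Pool.Agent.Lib.MP_6f5d36_co.D6.Y021

set_option autoImplicit false

/-!
# MP_6f5d36_co : level 6 for the types 936 to 945
-/

namespace CR.L6

theorem c6_936 (hs : Sound6) : ∀ u, C6_936.testBit u = true → Kill 6 (342430208 + u * 8 ^ 10) :=
  kill_eq (kill_or (ck6_sound' hs D6.x_936_0)
    (ck6_sound' hs D6.xs_936_0))
    (by decide +kernel : Nat.beq C6_936 (Nat.lor D6.m_936_0 D6.ms_936_0) = true)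

theorem c6_937 (hs : Sound6) : ∀ u, C6_937.testBit u = true → Kill 6 (560534080 + u * 8 ^ 10) :=
  kill_eq (kill_or (ck6_sound' hs D6.x_937_0)
    (ck6_sound' hs D6.xs_937_0))
    (by decide +kernel : Nat.beq C6_937 (Nat.lor D6.m_937_0 D6.ms_937_0) = true)

theorem c6_938 (hs : Sound6) : ∀ u, C6_938.testBit u = true → Kill 6 (477209152 + u * 8 ^ 10) :=
  kill_eq (kill_or (ck6_sound' hs D6.x_938_0)
    (ck6_sound' hs D6.xs_938_0))
    (by decide +kernel : Nat.beq C6_938 (Nat.lor D6.m_938_0 D6.ms_938_0) = true)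

theorem c6_939 (hs : Sound6) : ∀ u, C6_939.testBit u = true → Kill 6 (177308736 + u * 8 ^ 10) :=
  kill_eq (kill_or (ck6_sound' hs D6.x_939_0)
    (ck6_sound' hs D6.xs_939_0))
    (by decide +kernel : Nat.beq C6_939 (Nat.lor D6.m_939_0 D6.ms_939_0) = true)

theorem c6_940 (hs : Sound6) : ∀ u, C6_940.testBit u = true → Kill 6 (208474112 + u * 8 ^ 10) :=
  kill_eq (kill_or (ck6_sound' hs D6.x_940_0)
    (ck6_sound' hs D6.xs_940_0))
    (by decide +kernel : Nat.beq C6_940 (Nat.lor D6.m_940_0 D6.ms_940_0) = true)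

theorem c6_941 (hs : Sound6) : ∀ u, C6_941.testBit u = true → Kill 6 (476385792 + u * 8 ^ 10) :=
  kill_eq (kill_or (ck6_sound' hs D6.x_941_0)
    (ck6_sound' hs D6.xs_941_0))
    (by decide +kernel : Nat.beq C6_941 (Nat.lor D6.m_941_0 D6.ms_941_0) = true)

theorem c6_942 (hs : Sound6) : ∀ u, C6_942.testBit u = true → Kill 6 (476381760 + u * 8 ^ 10) :=
  kill_eq (kill_or (ck6_sound' hs D6.x_942_0)
    (ck6_sound' hs D6.xs_942_0))
    (by decide +kernel : Nat.beq C6_942 (Nat.lor D6.m_942_0 D6.ms_942_0) = true)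

theorem c6_943 (hs : Sound6) : ∀ u, C6_943.testBit u = true → Kill 6 (336400960 + u * 8 ^ 10) :=
  kill_eq (kill_or (ck6_sound' hs D6.x_943_0)
    (ck6_sound' hs D6.xs_943_0))
    (by decide +kernel : Nat.beq C6_943 (Nat.lor D6.m_943_0 D6.ms_943_0) = true)

theorem c6_944 (hs : Sound6) : ∀ u, C6_944.testBit u = true → Kill 6 (71672320 + u * 8 ^ 10) :=
  kill_eq (kill_or (ck6_sound' hs D6.x_944_0)
    (ck6_sound' hs D6.xs_944_0))
    (by decide +kernel : Nat.beq C6_944 (Nat.lor D6.m_944_0 D6.ms_944_0) = true)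

theorem c6_945 (hs : Sound6) : ∀ u, C6_945.testBit u = true → Kill 6 (472715264 + u * 8 ^ 10) :=
  kill_eq (kill_or (ck6_sound' hs D6.x_945_0)
    (ck6_sound' hs D6.xs_945_0))
    (by decide +kernel : Nat.beq C6_945 (Nat.lor D6.m_945_0 D6.ms_945_0) = true)

theorem st_41 (hs : Sound6) : ∀ i, 936 ≤ i → i < 946 → St i := by
  intro i h1 h2
  interval_cases i
  · exact s_936 (c6_936 hs)
  · exact s_937 (c6_937 hs)
  · exact s_938 (c6_938 hs)
  · exact s_939 (c6_939 hs)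
  · exact s_940 (c6_940 hs)
  · exact s_941 (c6_941 hs)
  · exact s_942 (c6_942 hs)
  · exact s_943 (c6_943 hs)
  · exact s_944 (c6_944 hs)
  · exact s_945 (c6_945 hs)

end CR.L6
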