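import Pool.Agent.Lib.MP_6f5d36_co.L6.W042
import Pool.Agent.Lib.MP_6f5d36_co.L6.CkS
import Pool.Agent.Lib.MP_6f5d36_co.D6.X074
import Pool.Agent.Lib.MP_6f5d36_co.D6.Y021

set_option autoImplicit false

/-!
# MP_6f5d36_co : level 6 for the types 946 to 955
-/

namespace CR.L6

theorem c6_946 (hs : Sound6) : ∀ u, C6_946.testBit u = true → Kill 6 (176792128 + u * 8 ^ 10) :=
  kill_eq (kill_or (ck6_sound' hs D6.x_946_0)
    (ck6_sound' hs D6.xs_946_0))
    (by decide +kernel : Nat.beq C6_946 (Nat.lor D6.m_946_0 D6.ms_946_0) = true)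

theorem c6_947 (hs : Sound6) : ∀ u, C6_947.testBit u = true → Kill 6 (204579392 + u * 8 ^ 10) :=
  kill_eq (kill_or (ck6_sound' hs D6.x_947_0)
    (ck6_sound' hs D6.xs_947_0))
    (by decide +kernel : Nat.beq C6_947 (Nat.lor D6.m_947_0 D6.ms_947_0) = true)

theorem c6_948 (hs : Sound6) : ∀ u, C6_948.testBit u = true → Kill 6 (571286080 + u * 8 ^ 10) :=
  kill_eq (kill_or (ck6_sound' hs D6.x_948_0)
    (ck6_sound' hs D6.xs_948_0))
    (by decide +kernel : Nat.beq C6_948 (Nat.lor D6.m_948_0 D6.ms_948_0) = true)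

theorem c6_949 (hs : Sound6) : ∀ u, C6_949.testBit u = true → Kill 6 (610865664 + u * 8 ^ 10) :=
  kill_eq (kill_or (ck6_sound' hs D6.x_949_0)
    (ck6_sound' hs D6.xs_949_0))
    (by decide +kernel : Nat.beq C6_949 (Nat.lor D6.m_949_0 D6.ms_949_0) = true)

theorem c6_950 (hs : Sound6) : ∀ u, C6_950.testBit u = true → Kill 6 (338497536 + u * 8 ^ 10) :=
  kill_eq (kill_or (ck6_sound' hs D6.x_950_0)
    (ck6_sound' hs D6.xs_950_0))
    (by decide +kernel : Nat.beq C6_950 (Nat.lor D6.m_950_0 D6.ms_950_0) = true)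

theorem c6_951 (hs : Sound6) : ∀ u, C6_951.testBit u = true → Kill 6 (478782016 + u * 8 ^ 10) :=
  kill_eq (kill_or (ck6_sound' hs D6.x_951_0)
    (ck6_sound' hs D6.xs_951_0))
    (by decide +kernel : Nat.beq C6_951 (Nat.lor D6.m_951_0 D6.ms_951_0) = true)

theorem c6_952 (hs : Sound6) : ∀ u, C6_952.testBit u = true → Kill 6 (303145536 + u * 8 ^ 10) :=
  kill_eq (kill_or (ck6_sound' hs D6.x_952_0)
    (ck6_sound' hs D6.xs_952_0))
    (by decide +kernel : Nat.beq C6_952 (Nat.lor D6.m_952_0 D6.ms_952_0) = true)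

theorem c6_953 (hs : Sound6) : ∀ u, C6_953.testBit u = true → Kill 6 (541921856 + u * 8 ^ 10) :=
  kill_eq (kill_or (ck6_sound' hs D6.x_953_0)
    (ck6_sound' hs D6.xs_953_0))
    (by decide +kernel : Nat.beq C6_953 (Nat.lor D6.m_953_0 D6.ms_953_0) = true)

theorem c6_954 (hs : Sound6) : ∀ u, C6_954.testBit u = true → Kill 6 (474587712 + u * 8 ^ 10) :=
  kill_eq (kill_or (ck6_sound' hs D6.x_954_0)
    (ck6_sound' hs D6.xs_954_0))
    (by decide +kernel : Nat.beq C6_954 (Nat.lor D6.m_954_0 D6.ms_954_0) = true)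

theorem c6_955 (hs : Sound6) : ∀ u, C6_955.testBit u = true → Kill 6 (571580480 + u * 8 ^ 10) :=
  kill_eq (kill_or (ck6_sound' hs D6.x_955_0)
    (ck6_sound' hs D6.xs_955_0))
    (by decide +kernel : Nat.beq C6_955 (Nat.lor D6.m_955_0 D6.ms_955_0) = true)

theorem st_42 (hs : Sound6) : ∀ i, 946 ≤ i → i < 956 → St i := by
  intro i h1 h2
  interval_cases i
  · exact s_946 (c6_946 hs)
  · exact s_947 (c6_947 hs)
  · exact s_948 (c6_948 hs)
  · exact s_949 (c6_949 hs)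
  · exact s_950 (c6_950 hs)
  · exact s_951 (c6_951 hs)
  · exact s_952 (c6_952 hs)
  · exact s_953 (c6_953 hs)
  · exact s_954 (c6_954 hs)
  · exact s_955 (c6_955 hs)

end CR.L6
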