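import Pool.Agent.Lib.MP_6f5d36_co.L6.W043
import Pool.Agent.Lib.MP_6f5d36_co.L6.CkS
import Pool.Agent.Lib.MP_6f5d36_co.D6.X074
import Pool.Agent.Lib.MP_6f5d36_co.D6.Y021
import Pool.Agent.Lib.MP_6f5d36_co.D6.Y022

set_option autoImplicit false

/-!
# MP_6f5d36_co : level 6 for the types 956 to 965
-/

namespace CR.L6

theorem c6_956 (hs : Sound6) : ∀ u, C6_956.testBit u = true → Kill 6 (554504768 + u * 8 ^ 10) :=
  kill_eq (kill_or (ck6_sound' hs D6.x_956_0)
    (ck6_sound' hs D6.xs_956_0))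
    (by decide +kernel : Nat.beq C6_956 (Nat.lor D6.m_956_0 D6.ms_956_0) = true)

theorem c6_957 (hs : Sound6) : ∀ u, C6_957.testBit u = true → Kill 6 (160014912 + u * 8 ^ 10) :=
  kill_eq (kill_or (ck6_sound' hs D6.x_957_0)
    (ck6_sound' hs D6.xs_957_0))
    (by decide +kernel : Nat.beq C6_957 (Nat.lor D6.m_957_0 D6.ms_957_0) = true)

theorem c6_958 (hs : Sound6) : ∀ u, C6_958.testBit u = true → Kill 6 (445452800 + u * 8 ^ 10) :=
  kill_eq (kill_or (ck6_sound' hs D6.x_958_0)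
    (ck6_sound' hs D6.xs_958_0))
    (by decide +kernel : Nat.beq C6_958 (Nat.lor D6.m_958_0 D6.ms_958_0) = true)

theorem c6_959 (hs : Sound6) : ∀ u, C6_959.testBit u = true → Kill 6 (476684864 + u * 8 ^ 10) :=
  kill_eq (kill_or (ck6_sound' hs D6.x_959_0)
    (ck6_sound' hs D6.xs_959_0))
    (by decide +kernel : Nat.beq C6_959 (Nat.lor D6.m_959_0 D6.ms_959_0) = true)

theorem c6_960 (hs : Sound6) : ∀ u, C6_960.testBit u = true → Kill 6 (571580992 + u * 8 ^ 10) :=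
  kill_eq (kill_or (ck6_sound' hs D6.x_960_0)
    (ck6_sound' hs D6.xs_960_0))
    (by decide +kernel : Nat.beq C6_960 (Nat.lor D6.m_960_0 D6.ms_960_0) = true)

theorem c6_961 (hs : Sound6) : ∀ u, C6_961.testBit u = true → Kill 6 (319922752 + u * 8 ^ 10) :=
  kill_eq (kill_or (ck6_sound' hs D6.x_961_0)
    (ck6_sound' hs D6.xs_961_0))
    (by decide +kernel : Nat.beq C6_961 (Nat.lor D6.m_961_0 D6.ms_961_0) = true)

theorem c6_962 (hs : Sound6) : ∀ u, C6_962.testBit u = true → Kill 6 (560271936 + u * 8 ^ 10) :=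
  kill_eq (ck6_sound' hs D6.x_962_0)
    (by decide +kernel : Nat.beq C6_962 D6.m_962_0 = true)

theorem c6_963 (hs : Sound6) : ∀ u, C6_963.testBit u = true → Kill 6 (342168128 + u * 8 ^ 10) :=
  kill_eq (kill_or (ck6_sound' hs D6.x_963_0)
    (ck6_sound' hs D6.xs_963_0))
    (by decide +kernel : Nat.beq C6_963 (Nat.lor D6.m_963_0 D6.ms_963_0) = true)

theorem c6_964 (hs : Sound6) : ∀ u, C6_964.testBit u = true → Kill 6 (75866176 + u * 8 ^ 10) :=
  kill_eq (kill_or (ck6_sound' hs D6.x_964_0)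
    (ck6_sound' hs D6.xs_964_0))
    (by decide +kernel : Nat.beq C6_964 (Nat.lor D6.m_964_0 D6.ms_964_0) = true)

theorem c6_965 (hs : Sound6) : ∀ u, C6_965.testBit u = true → Kill 6 (411673152 + u * 8 ^ 10) :=
  kill_eq (kill_or (ck6_sound' hs D6.x_965_0)
    (ck6_sound' hs D6.xs_965_0))
    (by decide +kernel : Nat.beq C6_965 (Nat.lor D6.m_965_0 D6.ms_965_0) = true)

theorem st_43 (hs : Sound6) : ∀ i, 956 ≤ i → i < 966 → St i := by
  intro i h1 h2
  interval_cases i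
  · exact s_956 (c6_956 hs)
  · exact s_957 (c6_957 hs)
  · exact s_958 (c6_958 hs)
  · exact s_959 (c6_959 hs)
  · exact s_960 (c6_960 hs)
  · exact s_961 (c6_961 hs)
  · exact s_962 (c6_962 hs)
  · exact s_963 (c6_963 hs)
  · exact s_964 (c6_964 hs)
  · exact s_965 (c6_965 hs)

end CR.L6
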