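import Pool.Agent.Lib.MP_6f5d36_co.L6.W044
import Pool.Agent.Lib.MP_6f5d36_co.L6.CkS
import Pool.Agent.Lib.MP_6f5d36_co.D6.X074
import Pool.Agent.Lib.MP_6f5d36_co.D6.Y022

set_option autoImplicit false

/-!
# MP_6f5d36_co : level 6 for the types 966 to 975
-/

namespace CR.L6

theorem c6_966 (hs : Sound6) : ∀ u, C6_966.testBit u = true → Kill 6 (588358208 + u * 8 ^ 10) :=
  kill_eq (kill_or (ck6_sound' hs D6.x_966_0)
    (ck6_sound' hs D6.xs_966_0))
    (by decide +kernel : Nat.beq C6_966 (Nat.lor D6.m_966_0 D6.ms_966_0) = true)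

theorem c6_967 (hs : Sound6) : ∀ u, C6_967.testBit u = true → Kill 6 (71671872 + u * 8 ^ 10) :=
  kill_eq (kill_or (ck6_sound' hs D6.x_967_0)
    (ck6_sound' hs D6.xs_967_0))
    (by decide +kernel : Nat.beq C6_967 (Nat.lor D6.m_967_0 D6.ms_967_0) = true)

theorem c6_968 (hs : Sound6) : ∀ u, C6_968.testBit u = true → Kill 6 (571281984 + u * 8 ^ 10) :=
  kill_eq (kill_or (ck6_sound' hs D6.x_968_0)
    (ck6_sound' hs D6.xs_968_0))
    (by decide +kernel : Nat.beq C6_968 (Nat.lor D6.m_968_0 D6.ms_968_0) = true)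

theorem c6_969 (hs : Sound6) : ∀ u, C6_969.testBit u = true → Kill 6 (72159808 + u * 8 ^ 10) :=
  kill_eq (kill_or (ck6_sound' hs D6.x_969_0)
    (ck6_sound' hs D6.xs_969_0))
    (by decide +kernel : Nat.beq C6_969 (Nat.lor D6.m_969_0 D6.ms_969_0) = true)

theorem c6_970 (hs : Sound6) : ∀ u, C6_970.testBit u = true → Kill 6 (558473792 + u * 8 ^ 10) :=
  kill_eq (kill_or (ck6_sound' hs D6.x_970_0)
    (ck6_sound' hs D6.xs_970_0))
    (by decide +kernel : Nat.beq C6_970 (Nat.lor D6.m_970_0 D6.ms_970_0) = true)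

theorem c6_971 (hs : Sound6) : ∀ u, C6_971.testBit u = true → Kill 6 (587796544 + u * 8 ^ 10) :=
  kill_eq (kill_or (ck6_sound' hs D6.x_971_0)
    (ck6_sound' hs D6.xs_971_0))
    (by decide +kernel : Nat.beq C6_971 (Nat.lor D6.m_971_0 D6.ms_971_0) = true)

theorem c6_972 (hs : Sound6) : ∀ u, C6_972.testBit u = true → Kill 6 (69574720 + u * 8 ^ 10) :=
  kill_eq (kill_or (ck6_sound' hs D6.x_972_0)
    (ck6_sound' hs D6.xs_972_0))
    (by decide +kernel : Nat.beq C6_972 (Nat.lor D6.m_972_0 D6.ms_972_0) = true)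

theorem c6_973 (hs : Sound6) : ∀ u, C6_973.testBit u = true → Kill 6 (562668096 + u * 8 ^ 10) :=
  kill_eq (kill_or (ck6_sound' hs D6.x_973_0)
    (ck6_sound' hs D6.xs_973_0))
    (by decide +kernel : Nat.beq C6_973 (Nat.lor D6.m_973_0 D6.ms_973_0) = true)

theorem c6_974 (hs : Sound6) : ∀ u, C6_974.testBit u = true → Kill 6 (560570880 + u * 8 ^ 10) :=
  kill_eq (kill_or (ck6_sound' hs D6.x_974_0)
    (ck6_sound' hs D6.xs_974_0))
    (by decide +kernel : Nat.beq C6_974 (Nat.lor D6.m_974_0 D6.ms_974_0) = true)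

theorem c6_975 (hs : Sound6) : ∀ u, C6_975.testBit u = true → Kill 6 (207987200 + u * 8 ^ 10) :=
  kill_eq (kill_or (ck6_sound' hs D6.x_975_0)
    (ck6_sound' hs D6.xs_975_0))
    (by decide +kernel : Nat.beq C6_975 (Nat.lor D6.m_975_0 D6.ms_975_0) = true)

theorem st_44 (hs : Sound6) : ∀ i, 966 ≤ i → i < 976 → St i := by
  intro i h1 h2
  interval_cases i
  · exact s_966 (c6_966 hs)
  · exact s_967 (c6_967 hs)
  · exact s_968 (c6_968 hs)
  · exact s_969 (c6_969 hs)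
  · exact s_970 (c6_970 hs)
  · exact s_971 (c6_971 hs)
  · exact s_972 (c6_972 hs)
  · exact s_973 (c6_973 hs)
  · exact s_974 (c6_974 hs)
  · exact s_975 (c6_975 hs)

end CR.L6
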