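import Pool.Agent.Lib.MP_6f5d36_co.L6.W045
import Pool.Agent.Lib.MP_6f5d36_co.L6.CkS
import Pool.Agent.Lib.MP_6f5d36_co.D6.X074
import Pool.Agent.Lib.MP_6f5d36_co.D6.Y022

set_option autoImplicit false

/-!
# MP_6f5d36_co : level 6 for the types 976 to 985
-/

namespace CR.L6

theorem c6_976 (hs : Sound6) : ∀ u, C6_976.testBit u = true → Kill 6 (495555648 + u * 8 ^ 10) :=
  kill_zero (by decide +kernel)

theorem c6_977 (hs : Sound6) : ∀ u, C6_977.testBit u = true → Kill 6 (760321088 + u * 8 ^ 10) :=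
  kill_eq (kill_or (ck6_sound' hs D6.x_977_0)
    (ck6_sound' hs D6.xs_977_0))
    (by decide +kernel : Nat.beq C6_977 (Nat.lor D6.m_977_0 D6.ms_977_0) = true)

theorem c6_978 (hs : Sound6) : ∀ u, C6_978.testBit u = true → Kill 6 (724672576 + u * 8 ^ 10) :=
  kill_zero (by decide +kernel)

theorem c6_979 (hs : Sound6) : ∀ u, C6_979.testBit u = true → Kill 6 (747476032 + u * 8 ^ 10) :=
  kill_eq (kill_or (ck6_sound' hs D6.x_979_0)
    (ck6_sound' hs D6.xs_979_0))
    (by decide +kernel : Nat.beq C6_979 (Nat.lor D6.m_979_0 D6.ms_979_0) = true)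

theorem c6_980 (hs : Sound6) : ∀ u, C6_980.testBit u = true → Kill 6 (629514304 + u * 8 ^ 10) :=
  kill_eq (kill_or (ck6_sound' hs D6.x_980_0)
    (ck6_sound' hs D6.xs_980_0))
    (by decide +kernel : Nat.beq C6_980 (Nat.lor D6.m_980_0 D6.ms_980_0) = true)

theorem c6_981 (hs : Sound6) : ∀ u, C6_981.testBit u = true → Kill 6 (740663360 + u * 8 ^ 10) :=
  kill_eq (kill_or (ck6_sound' hs D6.x_981_0)
    (ck6_sound' hs D6.xs_981_0))
    (by decide +kernel : Nat.beq C6_981 (Nat.lor D6.m_981_0 D6.ms_981_0) = true)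

theorem c6_982 (hs : Sound6) : ∀ u, C6_982.testBit u = true → Kill 6 (739352640 + u * 8 ^ 10) :=
  kill_eq (kill_or (ck6_sound' hs D6.x_982_0)
    (ck6_sound' hs D6.xs_982_0))
    (by decide +kernel : Nat.beq C6_982 (Nat.lor D6.m_982_0 D6.ms_982_0) = true)

theorem c6_983 (hs : Sound6) : ∀ u, C6_983.testBit u = true → Kill 6 (226861120 + u * 8 ^ 10) :=
  kill_eq (kill_or (ck6_sound' hs D6.x_983_0)
    (ck6_sound' hs D6.xs_983_0))
    (by decide +kernel : Nat.beq C6_983 (Nat.lor D6.m_983_0 D6.ms_983_0) = true)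

theorem c6_984 (hs : Sound6) : ∀ u, C6_984.testBit u = true → Kill 6 (361078848 + u * 8 ^ 10) :=
  kill_eq (kill_or (ck6_sound' hs D6.x_984_0)
    (ck6_sound' hs D6.xs_984_0))
    (by decide +kernel : Nat.beq C6_984 (Nat.lor D6.m_984_0 D6.ms_984_0) = true)

theorem c6_985 (hs : Sound6) : ∀ u, C6_985.testBit u = true → Kill 6 (361566784 + u * 8 ^ 10) :=
  kill_eq (kill_or (ck6_sound' hs D6.x_985_0)
    (ck6_sound' hs D6.xs_985_0))
    (by decide +kernel : Nat.beq C6_985 (Nat.lor D6.m_985_0 D6.ms_985_0) = true)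

theorem st_45 (hs : Sound6) : ∀ i, 976 ≤ i → i < 986 → St i := by
  intro i h1 h2
  interval_cases i
  · exact s_976 (c6_976 hs)
  · exact s_977 (c6_977 hs)
  · exact s_978 (c6_978 hs)
  · exact s_979 (c6_979 hs)
  · exact s_980 (c6_980 hs)
  · exact s_981 (c6_981 hs)
  · exact s_982 (c6_982 hs)
  · exact s_983 (c6_983 hs)
  · exact s_984 (c6_984 hs)
  · exact s_985 (c6_985 hs)

end CR.L6
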