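import Pool.Agent.Lib.MP_6f5d36_co.L6.W046
import Pool.Agent.Lib.MP_6f5d36_co.L6.CkS
import Pool.Agent.Lib.MP_6f5d36_co.D6.X074
import Pool.Agent.Lib.MP_6f5d36_co.D6.Y022

set_option autoImplicit false

/-!
# MP_6f5d36_co : level 6 for the types 986 to 995
-/

namespace CR.L6

theorem c6_986 (hs : Sound6) : ∀ u, C6_986.testBit u = true → Kill 6 (740918336 + u * 8 ^ 10) :=
  kill_eq (kill_or (ck6_sound' hs D6.x_986_0)
    (ck6_sound' hs D6.xs_986_0))
    (by decide +kernel : Nat.beq C6_986 (Nat.lor D6.m_986_0 D6.ms_986_0) = true)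

theorem c6_987 (hs : Sound6) : ∀ u, C6_987.testBit u = true → Kill 6 (763991104 + u * 8 ^ 10) :=
  kill_zero (by decide +kernel)

theorem c6_988 (hs : Sound6) : ∀ u, C6_988.testBit u = true → Kill 6 (481399872 + u * 8 ^ 10) :=
  kill_zero (by decide +kernel)

theorem c6_989 (hs : Sound6) : ∀ u, C6_989.testBit u = true → Kill 6 (624009280 + u * 8 ^ 10) :=
  kill_zero (by decide +kernel)

theorem c6_990 (hs : Sound6) : ∀ u, C6_990.testBit u = true → Kill 6 (11633728 + u * 8 ^ 10) :=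
  kill_eq (kill_or (ck6_sound' hs D6.x_990_0)
    (ck6_sound' hs D6.xs_990_0))
    (by decide +kernel : Nat.beq C6_990 (Nat.lor D6.m_990_0 D6.ms_990_0) = true)

theorem c6_991 (hs : Sound6) : ∀ u, C6_991.testBit u = true → Kill 6 (689020992 + u * 8 ^ 10) :=
  kill_eq (kill_or (ck6_sound' hs D6.x_991_0)
    (ck6_sound' hs D6.xs_991_0))
    (by decide +kernel : Nat.beq C6_991 (Nat.lor D6.m_991_0 D6.ms_991_0) = true)

theorem c6_992 (hs : Sound6) : ∀ u, C6_992.testBit u = true → Kill 6 (764219968 + u * 8 ^ 10) :=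
  kill_eq (kill_or (ck6_sound' hs D6.x_992_0)
    (ck6_sound' hs D6.xs_992_0))
    (by decide +kernel : Nat.beq C6_992 (Nat.lor D6.m_992_0 D6.ms_992_0) = true)

theorem c6_993 (hs : Sound6) : ∀ u, C6_993.testBit u = true → Kill 6 (489792064 + u * 8 ^ 10) :=
  kill_eq (kill_or (ck6_sound' hs D6.x_993_0)
    (ck6_sound' hs D6.xs_993_0))
    (by decide +kernel : Nat.beq C6_993 (Nat.lor D6.m_993_0 D6.ms_993_0) = true)

theorem c6_994 (hs : Sound6) : ∀ u, C6_994.testBit u = true → Kill 6 (495813696 + u * 8 ^ 10) :=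
  kill_eq (kill_or (ck6_sound' hs D6.x_994_0)
    (ck6_sound' hs D6.xs_994_0))
    (by decide +kernel : Nat.beq C6_994 (Nat.lor D6.m_994_0 D6.ms_994_0) = true)

theorem c6_995 (hs : Sound6) : ∀ u, C6_995.testBit u = true → Kill 6 (745014336 + u * 8 ^ 10) :=
  kill_eq (ck6_sound' hs D6.x_995_0)
    (by decide +kernel : Nat.beq C6_995 D6.m_995_0 = true)

theorem st_46 (hs : Sound6) : ∀ i, 986 ≤ i → i < 996 → St i := by
  intro i h1 h2
  interval_cases i
  · exact s_986 (c6_986 hs)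
  · exact s_987 (c6_987 hs)
  · exact s_988 (c6_988 hs)
  · exact s_989 (c6_989 hs)
  · exact s_990 (c6_990 hs)
  · exact s_991 (c6_991 hs)
  · exact s_992 (c6_992 hs)
  · exact s_993 (c6_993 hs)
  · exact s_994 (c6_994 hs)
  · exact s_995 (c6_995 hs)

end CR.L6
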