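import Pool.Agent.Lib.MP_6f5d36_co.L6.W048
import Pool.Agent.Lib.MP_6f5d36_co.L6.CkS
import Pool.Agent.Lib.MP_6f5d36_co.D6.X074
import Pool.Agent.Lib.MP_6f5d36_co.D6.Y022

set_option autoImplicit false

/-!
# MP_6f5d36_co : level 6 for the types 1006 to 1015
-/

namespace CR.L6

theorem c6_1006 (hs : Sound6) : ∀ u, C6_1006.testBit u = true → Kill 6 (355574336 + u * 8 ^ 10) :=
  kill_eq (kill_or (ck6_sound' hs D6.x_1006_0)
    (ck6_sound' hs D6.xs_1006_0))
    (by decide +kernel : Nat.beq C6_1006 (Nat.lor D6.m_1006_0 D6.ms_1006_0) = true)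

theorem c6_1007 (hs : Sound6) : ∀ u, C6_1007.testBit u = true → Kill 6 (709993024 + u * 8 ^ 10) :=
  kill_eq (kill_or (ck6_sound' hs D6.x_1007_0)
    (ck6_sound' hs D6.xs_1007_0))
    (by decide +kernel : Nat.beq C6_1007 (Nat.lor D6.m_1007_0 D6.ms_1007_0) = true)

theorem c6_1008 (hs : Sound6) : ∀ u, C6_1008.testBit u = true → Kill 6 (762421312 + u * 8 ^ 10) :=
  kill_eq (kill_or (ck6_sound' hs D6.x_1008_0)
    (ck6_sound' hs D6.xs_1008_0))
    (by decide +kernel : Nat.beq C6_1008 (Nat.lor D6.m_1008_0 D6.ms_1008_0) = true)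

theorem c6_1009 (hs : Sound6) : ∀ u, C6_1009.testBit u = true → Kill 6 (598836288 + u * 8 ^ 10) :=
  kill_eq (kill_or (ck6_sound' hs D6.x_1009_0)
    (ck6_sound' hs D6.xs_1009_0))
    (by decide +kernel : Nat.beq C6_1009 (Nat.lor D6.m_1009_0 D6.ms_1009_0) = true)

theorem c6_1010 (hs : Sound6) : ∀ u, C6_1010.testBit u = true → Kill 6 (747213888 + u * 8 ^ 10) :=
  kill_zero (by decide +kernel)

theorem c6_1011 (hs : Sound6) : ∀ u, C6_1011.testBit u = true → Kill 6 (219259456 + u * 8 ^ 10) :=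
  kill_eq (kill_or (ck6_sound' hs D6.x_1011_0)
    (ck6_sound' hs D6.xs_1011_0))
    (by decide +kernel : Nat.beq C6_1011 (Nat.lor D6.m_1011_0 D6.ms_1011_0) = true)

theorem c6_1012 (hs : Sound6) : ∀ u, C6_1012.testBit u = true → Kill 6 (764518464 + u * 8 ^ 10) :=
  kill_zero (by decide +kernel)

theorem c6_1013 (hs : Sound6) : ∀ u, C6_1013.testBit u = true → Kill 6 (361341504 + u * 8 ^ 10) :=
  kill_eq (kill_or (ck6_sound' hs D6.x_1013_0)
    (ck6_sound' hs D6.xs_1013_0))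
    (by decide +kernel : Nat.beq C6_1013 (Nat.lor D6.m_1013_0 D6.ms_1013_0) = true)

theorem c6_1014 (hs : Sound6) : ∀ u, C6_1014.testBit u = true → Kill 6 (763994688 + u * 8 ^ 10) :=
  kill_eq (kill_or (ck6_sound' hs D6.x_1014_0)
    (ck6_sound' hs D6.xs_1014_0))
    (by decide +kernel : Nat.beq C6_1014 (Nat.lor D6.m_1014_0 D6.ms_1014_0) = true)

theorem c6_1015 (hs : Sound6) : ∀ u, C6_1015.testBit u = true → Kill 6 (730432576 + u * 8 ^ 10) :=
  kill_eq (kill_or (ck6_sound' hs D6.x_1015_0)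
    (ck6_sound' hs D6.xs_1015_0))
    (by decide +kernel : Nat.beq C6_1015 (Nat.lor D6.m_1015_0 D6.ms_1015_0) = true)

theorem st_48 (hs : Sound6) : ∀ i, 1006 ≤ i → i < 1016 → St i := by
  intro i h1 h2
  interval_cases i
  · exact s_1006 (c6_1006 hs)
  · exact s_1007 (c6_1007 hs)
  · exact s_1008 (c6_1008 hs)
  · exact s_1009 (c6_1009 hs)
  · exact s_1010 (c6_1010 hs)
  · exact s_1011 (c6_1011 hs)
  · exact s_1012 (c6_1012 hs)
  · exact s_1013 (c6_1013 hs)
  · exact s_1014 (c6_1014 hs)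
  · exact s_1015 (c6_1015 hs)

end CR.L6
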