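import Pool.Agent.Lib.MP_6f5d36_co.L6.W049
import Pool.Agent.Lib.MP_6f5d36_co.L6.CkS
import Pool.Agent.Lib.MP_6f5d36_co.D6.X074
import Pool.Agent.Lib.MP_6f5d36_co.D6.Y022

set_option autoImplicit false

/-!
# MP_6f5d36_co : level 6 for the types 1016 to 1025
-/

namespace CR.L6

theorem c6_1016 (hs : Sound6) : ∀ u, C6_1016.testBit u = true → Kill 6 (747209792 + u * 8 ^ 10) :=
  kill_eq (kill_or (ck6_sound' hs D6.x_1016_0)
    (ck6_sound' hs D6.xs_1016_0))
    (by decide +kernel : Nat.beq C6_1016 (Nat.lor D6.m_1016_0 D6.ms_1016_0) = true)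

theorem c6_1017 (hs : Sound6) : ∀ u, C6_1017.testBit u = true → Kill 6 (296846400 + u * 8 ^ 10) :=
  kill_eq (kill_or (ck6_sound' hs D6.x_1017_0)
    (ck6_sound' hs D6.xs_1017_0))
    (by decide +kernel : Nat.beq C6_1017 (Nat.lor D6.m_1017_0 D6.ms_1017_0) = true)

theorem c6_1018 (hs : Sound6) : ∀ u, C6_1018.testBit u = true → Kill 6 (743543872 + u * 8 ^ 10) :=
  kill_eq (kill_or (ck6_sound' hs D6.x_1018_0)
    (ck6_sound' hs D6.xs_1018_0))
    (by decide +kernel : Nat.beq C6_1018 (Nat.lor D6.m_1018_0 D6.ms_1018_0) = true)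

theorem c6_1019 (hs : Sound6) : ∀ u, C6_1019.testBit u = true → Kill 6 (745345600 + u * 8 ^ 10) :=
  kill_eq (kill_or (ck6_sound' hs D6.x_1019_0)
    (ck6_sound' hs D6.xs_1019_0))
    (by decide +kernel : Nat.beq C6_1019 (Nat.lor D6.m_1019_0 D6.ms_1019_0) = true)

theorem c6_1020 (hs : Sound6) : ∀ u, C6_1020.testBit u = true → Kill 6 (762421824 + u * 8 ^ 10) :=
  kill_eq (kill_or (ck6_sound' hs D6.x_1020_0)
    (ck6_sound' hs D6.xs_1020_0))
    (by decide +kernel : Nat.beq C6_1020 (Nat.lor D6.m_1020_0 D6.ms_1020_0) = true)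

theorem c6_1021 (hs : Sound6) : ∀ u, C6_1021.testBit u = true → Kill 6 (713655360 + u * 8 ^ 10) :=
  kill_eq (kill_or (ck6_sound' hs D6.x_1021_0)
    (ck6_sound' hs D6.xs_1021_0))
    (by decide +kernel : Nat.beq C6_1021 (Nat.lor D6.m_1021_0 D6.ms_1021_0) = true)

theorem c6_1022 (hs : Sound6) : ∀ u, C6_1022.testBit u = true → Kill 6 (747471936 + u * 8 ^ 10) :=
  kill_eq (kill_or (ck6_sound' hs D6.x_1022_0)
    (ck6_sound' hs D6.xs_1022_0))
    (by decide +kernel : Nat.beq C6_1022 (Nat.lor D6.m_1022_0 D6.ms_1022_0) = true)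

theorem c6_1023 (hs : Sound6) : ∀ u, C6_1023.testBit u = true → Kill 6 (714179648 + u * 8 ^ 10) :=
  kill_eq (kill_or (ck6_sound' hs D6.x_1023_0)
    (ck6_sound' hs D6.xs_1023_0))
    (by decide +kernel : Nat.beq C6_1023 (Nat.lor D6.m_1023_0 D6.ms_1023_0) = true)

theorem c6_1024 (hs : Sound6) : ∀ u, C6_1024.testBit u = true → Kill 6 (363959360 + u * 8 ^ 10) :=
  kill_zero (by decide +kernel)

theorem c6_1025 (hs : Sound6) : ∀ u, C6_1025.testBit u = true → Kill 6 (680333888 + u * 8 ^ 10) :=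
  kill_eq (kill_or (ck6_sound' hs D6.x_1025_0)
    (ck6_sound' hs D6.xs_1025_0))
    (by decide +kernel : Nat.beq C6_1025 (Nat.lor D6.m_1025_0 D6.ms_1025_0) = true)

theorem st_49 (hs : Sound6) : ∀ i, 1016 ≤ i → i < 1026 → St i := by
  intro i h1 h2
  interval_cases i
  · exact s_1016 (c6_1016 hs)
  · exact s_1017 (c6_1017 hs)
  · exact s_1018 (c6_1018 hs)
  · exact s_1019 (c6_1019 hs)
  · exact s_1020 (c6_1020 hs)
  · exact s_1021 (c6_1021 hs)
  · exact s_1022 (c6_1022 hs)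
  · exact s_1023 (c6_1023 hs)
  · exact s_1024 (c6_1024 hs)
  · exact s_1025 (c6_1025 hs)

end CR.L6
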