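import Pool.Agent.Lib.MP_6f5d36_co.L6.W050
import Pool.Agent.Lib.MP_6f5d36_co.L6.CkS
import Pool.Agent.Lib.MP_6f5d36_co.D6.X074
import Pool.Agent.Lib.MP_6f5d36_co.D6.Y022

set_option autoImplicit false

/-!
# MP_6f5d36_co : level 6 for the types 1026 to 1035
-/

namespace CR.L6

theorem c6_1026 (hs : Sound6) : ∀ u, C6_1026.testBit u = true → Kill 6 (713888320 + u * 8 ^ 10) :=
  kill_eq (kill_or (ck6_sound' hs D6.x_1026_0)
    (ck6_sound' hs D6.xs_1026_0))
    (by decide +kernel : Nat.beq C6_1026 (Nat.lor D6.m_1026_0 D6.ms_1026_0) = true)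

theorem c6_1027 (hs : Sound6) : ∀ u, C6_1027.testBit u = true → Kill 6 (730665536 + u * 8 ^ 10) :=
  kill_eq (kill_or (ck6_sound' hs D6.x_1027_0)
    (ck6_sound' hs D6.xs_1027_0))
    (by decide +kernel : Nat.beq C6_1027 (Nat.lor D6.m_1027_0 D6.ms_1027_0) = true)

theorem c6_1028 (hs : Sound6) : ∀ u, C6_1028.testBit u = true → Kill 6 (747442752 + u * 8 ^ 10) :=
  kill_zero (by decide +kernel)

theorem c6_1029 (hs : Sound6) : ∀ u, C6_1029.testBit u = true → Kill 6 (730436672 + u * 8 ^ 10) :=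
  kill_zero (by decide +kernel)

theorem c6_1030 (hs : Sound6) : ∀ u, C6_1030.testBit u = true → Kill 6 (747442240 + u * 8 ^ 10) :=
  kill_zero (by decide +kernel)

theorem c6_1031 (hs : Sound6) : ∀ u, C6_1031.testBit u = true → Kill 6 (722575424 + u * 8 ^ 10) :=
  kill_eq (kill_or (ck6_sound' hs D6.x_1031_0)
    (ck6_sound' hs D6.xs_1031_0))
    (by decide +kernel : Nat.beq C6_1031 (Nat.lor D6.m_1031_0 D6.ms_1031_0) = true)

theorem c6_1032 (hs : Sound6) : ∀ u, C6_1032.testBit u = true → Kill 6 (758227008 + u * 8 ^ 10) :=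
  kill_zero (by decide +kernel)

theorem c6_1033 (hs : Sound6) : ∀ u, C6_1033.testBit u = true → Kill 6 (733054016 + u * 8 ^ 10) :=
  kill_eq (kill_or (ck6_sound' hs D6.x_1033_0)
    (ck6_sound' hs D6.xs_1033_0))
    (by decide +kernel : Nat.beq C6_1033 (Nat.lor D6.m_1033_0 D6.ms_1033_0) = true)

theorem c6_1034 (hs : Sound6) : ∀ u, C6_1034.testBit u = true → Kill 6 (630035520 + u * 8 ^ 10) :=
  kill_eq (kill_or (ck6_sound' hs D6.x_1034_0)
    (ck6_sound' hs D6.xs_1034_0))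
    (by decide +kernel : Nat.beq C6_1034 (Nat.lor D6.m_1034_0 D6.ms_1034_0) = true)

theorem c6_1035 (hs : Sound6) : ∀ u, C6_1035.testBit u = true → Kill 6 (744821312 + u * 8 ^ 10) :=
  kill_eq (kill_or (ck6_sound' hs D6.x_1035_0)
    (ck6_sound' hs D6.xs_1035_0))
    (by decide +kernel : Nat.beq C6_1035 (Nat.lor D6.m_1035_0 D6.ms_1035_0) = true)

theorem st_50 (hs : Sound6) : ∀ i, 1026 ≤ i → i < 1036 → St i := by
  intro i h1 h2
  interval_cases i
  · exact s_1026 (c6_1026 hs)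
  · exact s_1027 (c6_1027 hs)
  · exact s_1028 (c6_1028 hs)
  · exact s_1029 (c6_1029 hs)
  · exact s_1030 (c6_1030 hs)
  · exact s_1031 (c6_1031 hs)
  · exact s_1032 (c6_1032 hs)
  · exact s_1033 (c6_1033 hs)
  · exact s_1034 (c6_1034 hs)
  · exact s_1035 (c6_1035 hs)

end CR.L6
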