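import Pool.Agent.Lib.MP_6f5d36_co.L6.W051
import Pool.Agent.Lib.MP_6f5d36_co.L6.CkS
import Pool.Agent.Lib.MP_6f5d36_co.D6.X074
import Pool.Agent.Lib.MP_6f5d36_co.D6.Y022
import Pool.Agent.Lib.MP_6f5d36_co.D6.X075

set_option autoImplicit false

/-!
# MP_6f5d36_co : level 6 for the types 1036 to 1045
-/

namespace CR.L6

theorem c6_1036 (hs : Sound6) : ∀ u, C6_1036.testBit u = true → Kill 6 (93131328 + u * 8 ^ 10) :=
  kill_eq (kill_or (ck6_sound' hs D6.x_1036_0)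
    (ck6_sound' hs D6.xs_1036_0))
    (by decide +kernel : Nat.beq C6_1036 (Nat.lor D6.m_1036_0 D6.ms_1036_0) = true)

theorem c6_1037 (hs : Sound6) : ∀ u, C6_1037.testBit u = true → Kill 6 (739058240 + u * 8 ^ 10) :=
  kill_eq (kill_or (ck6_sound' hs D6.x_1037_0)
    (ck6_sound' hs D6.xs_1037_0))
    (by decide +kernel : Nat.beq C6_1037 (Nat.lor D6.m_1037_0 D6.ms_1037_0) = true)

theorem c6_1038 (hs : Sound6) : ∀ u, C6_1038.testBit u = true → Kill 6 (487694912 + u * 8 ^ 10) :=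
  kill_eq (kill_or (ck6_sound' hs D6.x_1038_0)
    (ck6_sound' hs D6.xs_1038_0))
    (by decide +kernel : Nat.beq C6_1038 (Nat.lor D6.m_1038_0 D6.ms_1038_0) = true)

theorem c6_1039 (hs : Sound6) : ∀ u, C6_1039.testBit u = true → Kill 6 (496083520 + u * 8 ^ 10) :=
  kill_eq (kill_or (ck6_sound' hs D6.x_1039_0)
    (ck6_sound' hs D6.xs_1039_0))
    (by decide +kernel : Nat.beq C6_1039 (Nat.lor D6.m_1039_0 D6.ms_1039_0) = true)

theorem c6_1040 (hs : Sound6) : ∀ u, C6_1040.testBit u = true → Kill 6 (495551552 + u * 8 ^ 10) :=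
  kill_eq (kill_or (ck6_sound' hs D6.x_1040_0)
    (ck6_sound' hs D6.xs_1040_0))
    (by decide +kernel : Nat.beq C6_1040 (Nat.lor D6.m_1040_0 D6.ms_1040_0) = true)

theorem c6_1041 (hs : Sound6) : ∀ u, C6_1041.testBit u = true → Kill 6 (730694720 + u * 8 ^ 10) :=
  kill_eq (kill_or (ck6_sound' hs D6.x_1041_0)
    (ck6_sound' hs D6.xs_1041_0))
    (by decide +kernel : Nat.beq C6_1041 (Nat.lor D6.m_1041_0 D6.ms_1041_0) = true)

theorem c6_1042 (hs : Sound6) : ∀ u, C6_1042.testBit u = true → Kill 6 (742760512 + u * 8 ^ 10) :=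
  kill_eq (kill_or (ck6_sound' hs D6.x_1042_0)
    (ck6_sound' hs D6.xs_1042_0))
    (by decide +kernel : Nat.beq C6_1042 (Nat.lor D6.m_1042_0 D6.ms_1042_0) = true)

theorem c6_1043 (hs : Sound6) : ∀ u, C6_1043.testBit u = true → Kill 6 (221356096 + u * 8 ^ 10) :=
  kill_eq (kill_or (ck6_sound' hs D6.x_1043_0)
    (ck6_sound' hs D6.xs_1043_0))
    (by decide +kernel : Nat.beq C6_1043 (Nat.lor D6.m_1043_0 D6.ms_1043_0) = true)

theorem c6_1044 (hs : Sound6) : ∀ u, C6_1044.testBit u = true → Kill 6 (745644096 + u * 8 ^ 10) :=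
  kill_eq (kill_or (ck6_sound' hs D6.x_1044_0)
    (ck6_sound' hs D6.xs_1044_0))
    (by decide +kernel : Nat.beq C6_1044 (Nat.lor D6.m_1044_0 D6.ms_1044_0) = true)

theorem c6_1045 (hs : Sound6) : ∀ u, C6_1045.testBit u = true → Kill 6 (743248448 + u * 8 ^ 10) :=
  kill_eq (kill_or (ck6_sound' hs D6.x_1045_0)
    (ck6_sound' hs D6.xs_1045_0))
    (by decide +kernel : Nat.beq C6_1045 (Nat.lor D6.m_1045_0 D6.ms_1045_0) = true)

theorem st_51 (hs : Sound6) : ∀ i, 1036 ≤ i → i < 1046 → St i := by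
  intro i h1 h2
  interval_cases i
  · exact s_1036 (c6_1036 hs)
  · exact s_1037 (c6_1037 hs)
  · exact s_1038 (c6_1038 hs)
  · exact s_1039 (c6_1039 hs)
  · exact s_1040 (c6_1040 hs)
  · exact s_1041 (c6_1041 hs)
  · exact s_1042 (c6_1042 hs)
  · exact s_1043 (c6_1043 hs)
  · exact s_1044 (c6_1044 hs)
  · exact s_1045 (c6_1045 hs)

end CR.L6
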