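import Pool.Agent.Lib.MP_6f5d36_co.L6.W052
import Pool.Agent.Lib.MP_6f5d36_co.L6.CkS
import Pool.Agent.Lib.MP_6f5d36_co.D6.X075
import Pool.Agent.Lib.MP_6f5d36_co.D6.Y022

set_option autoImplicit false

/-!
# MP_6f5d36_co : level 6 for the types 1046 to 1055
-/

namespace CR.L6

theorem c6_1046 (hs : Sound6) : ∀ u, C6_1046.testBit u = true → Kill 6 (745120320 + u * 8 ^ 10) :=
  kill_eq (kill_or (ck6_sound' hs D6.x_1046_0)
    (ck6_sound' hs D6.xs_1046_0))
    (by decide +kernel : Nat.beq C6_1046 (Nat.lor D6.m_1046_0 D6.ms_1046_0) = true)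

theorem c6_1047 (hs : Sound6) : ∀ u, C6_1047.testBit u = true → Kill 6 (730956864 + u * 8 ^ 10) :=
  kill_eq (kill_or (ck6_sound' hs D6.x_1047_0)
    (ck6_sound' hs D6.xs_1047_0))
    (by decide +kernel : Nat.beq C6_1047 (Nat.lor D6.m_1047_0 D6.ms_1047_0) = true)

theorem c6_1048 (hs : Sound6) : ∀ u, C6_1048.testBit u = true → Kill 6 (60175424 + u * 8 ^ 10) :=
  kill_eq (kill_or (ck6_sound' hs D6.x_1048_0)
    (ck6_sound' hs D6.xs_1048_0))
    (by decide +kernel : Nat.beq C6_1048 (Nat.lor D6.m_1048_0 D6.ms_1048_0) = true)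

theorem c6_1049 (hs : Sound6) : ∀ u, C6_1049.testBit u = true → Kill 6 (739053568 + u * 8 ^ 10) :=
  kill_eq (kill_or (ck6_sound' hs D6.x_1049_0)
    (ck6_sound' hs D6.xs_1049_0))
    (by decide +kernel : Nat.beq C6_1049 (Nat.lor D6.m_1049_0 D6.ms_1049_0) = true)

theorem c6_1050 (hs : Sound6) : ∀ u, C6_1050.testBit u = true → Kill 6 (744857664 + u * 8 ^ 10) :=
  kill_eq (kill_or (ck6_sound' hs D6.x_1050_0)
    (ck6_sound' hs D6.xs_1050_0))
    (by decide +kernel : Nat.beq C6_1050 (Nat.lor D6.m_1050_0 D6.ms_1050_0) = true)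

theorem c6_1051 (hs : Sound6) : ∀ u, C6_1051.testBit u = true → Kill 6 (705798208 + u * 8 ^ 10) :=
  kill_eq (kill_or (ck6_sound' hs D6.x_1051_0)
    (ck6_sound' hs D6.xs_1051_0))
    (by decide +kernel : Nat.beq C6_1051 (Nat.lor D6.m_1051_0 D6.ms_1051_0) = true)

theorem c6_1052 (hs : Sound6) : ∀ u, C6_1052.testBit u = true → Kill 6 (741449792 + u * 8 ^ 10) :=
  kill_zero (by decide +kernel)

theorem c6_1053 (hs : Sound6) : ∀ u, C6_1053.testBit u = true → Kill 6 (763987008 + u * 8 ^ 10) :=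
  kill_eq (kill_or (ck6_sound' hs D6.x_1053_0)
    (ck6_sound' hs D6.xs_1053_0))
    (by decide +kernel : Nat.beq C6_1053 (Nat.lor D6.m_1053_0 D6.ms_1053_0) = true)

theorem c6_1054 (hs : Sound6) : ∀ u, C6_1054.testBit u = true → Kill 6 (630031424 + u * 8 ^ 10) :=
  kill_eq (kill_or (ck6_sound' hs D6.x_1054_0)
    (ck6_sound' hs D6.xs_1054_0))
    (by decide +kernel : Nat.beq C6_1054 (Nat.lor D6.m_1054_0 D6.ms_1054_0) = true)

theorem c6_1055 (hs : Sound6) : ∀ u, C6_1055.testBit u = true → Kill 6 (726766656 + u * 8 ^ 10) :=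
  kill_eq (kill_or (ck6_sound' hs D6.x_1055_0)
    (ck6_sound' hs D6.xs_1055_0))
    (by decide +kernel : Nat.beq C6_1055 (Nat.lor D6.m_1055_0 D6.ms_1055_0) = true)

theorem st_52 (hs : Sound6) : ∀ i, 1046 ≤ i → i < 1056 → St i := by
  intro i h1 h2
  interval_cases i
  · exact s_1046 (c6_1046 hs)
  · exact s_1047 (c6_1047 hs)
  · exact s_1048 (c6_1048 hs)
  · exact s_1049 (c6_1049 hs)
  · exact s_1050 (c6_1050 hs)
  · exact s_1051 (c6_1051 hs)
  · exact s_1052 (c6_1052 hs)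
  · exact s_1053 (c6_1053 hs)
  · exact s_1054 (c6_1054 hs)
  · exact s_1055 (c6_1055 hs)

end CR.L6
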