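import Pool.Agent.Lib.MP_6f5d36_co.L6.W053
import Pool.Agent.Lib.MP_6f5d36_co.L6.CkS
import Pool.Agent.Lib.MP_6f5d36_co.D6.X075
import Pool.Agent.Lib.MP_6f5d36_co.D6.Y023

set_option autoImplicit false

/-!
# MP_6f5d36_co : level 6 for the types 1056 to 1065
-/

namespace CR.L6

theorem c6_1056 (hs : Sound6) : ∀ u, C6_1056.testBit u = true → Kill 6 (730665024 + u * 8 ^ 10) :=
  kill_zero (by decide +kernel)

theorem c6_1057 (hs : Sound6) : ∀ u, C6_1057.testBit u = true → Kill 6 (227378240 + u * 8 ^ 10) :=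
  kill_eq (kill_or (ck6_sound' hs D6.x_1057_0)
    (ck6_sound' hs D6.xs_1057_0))
    (by decide +kernel : Nat.beq C6_1057 (Nat.lor D6.m_1057_0 D6.ms_1057_0) = true)

theorem c6_1058 (hs : Sound6) : ∀ u, C6_1058.testBit u = true → Kill 6 (746954816 + u * 8 ^ 10) :=
  kill_zero (by decide +kernel)

theorem c6_1059 (hs : Sound6) : ∀ u, C6_1059.testBit u = true → Kill 6 (680108608 + u * 8 ^ 10) :=
  kill_eq (kill_or (ck6_sound' hs D6.x_1059_0)
    (ck6_sound' hs D6.xs_1059_0))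
    (by decide +kernel : Nat.beq C6_1059 (Nat.lor D6.m_1059_0 D6.ms_1059_0) = true)

theorem c6_1060 (hs : Sound6) : ∀ u, C6_1060.testBit u = true → Kill 6 (756130368 + u * 8 ^ 10) :=
  kill_eq (kill_or (ck6_sound' hs D6.x_1060_0)
    (ck6_sound' hs D6.xs_1060_0))
    (by decide +kernel : Nat.beq C6_1060 (Nat.lor D6.m_1060_0 D6.ms_1060_0) = true)

theorem c6_1061 (hs : Sound6) : ∀ u, C6_1061.testBit u = true → Kill 6 (361865792 + u * 8 ^ 10) :=
  kill_eq (kill_or (ck6_sound' hs D6.x_1061_0)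
    (ck6_sound' hs D6.xs_1061_0))
    (by decide +kernel : Nat.beq C6_1061 (Nat.lor D6.m_1061_0 D6.ms_1061_0) = true)

theorem c6_1062 (hs : Sound6) : ∀ u, C6_1062.testBit u = true → Kill 6 (630001664 + u * 8 ^ 10) :=
  kill_eq (ck6_sound' hs D6.x_1062_0)
    (by decide +kernel : Nat.beq C6_1062 D6.m_1062_0 = true)

theorem c6_1063 (hs : Sound6) : ∀ u, C6_1063.testBit u = true → Kill 6 (745050624 + u * 8 ^ 10) :=
  kill_zero (by decide +kernel)

theorem c6_1064 (hs : Sound6) : ∀ u, C6_1064.testBit u = true → Kill 6 (697110592 + u * 8 ^ 10) :=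
  kill_eq (kill_or (ck6_sound' hs D6.x_1064_0)
    (ck6_sound' hs D6.xs_1064_0))
    (by decide +kernel : Nat.beq C6_1064 (Nat.lor D6.m_1064_0 D6.ms_1064_0) = true)

theorem c6_1065 (hs : Sound6) : ∀ u, C6_1065.testBit u = true → Kill 6 (741155392 + u * 8 ^ 10) :=
  kill_eq (ck6_sound' hs D6.xs_1065_0)
    (by decide +kernel : Nat.beq C6_1065 D6.ms_1065_0 = true)

theorem st_53 (hs : Sound6) : ∀ i, 1056 ≤ i → i < 1066 → St i := by
  intro i h1 h2
  interval_cases i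
  · exact s_1056 (c6_1056 hs)
  · exact s_1057 (c6_1057 hs)
  · exact s_1058 (c6_1058 hs)
  · exact s_1059 (c6_1059 hs)
  · exact s_1060 (c6_1060 hs)
  · exact s_1061 (c6_1061 hs)
  · exact s_1062 (c6_1062 hs)
  · exact s_1063 (c6_1063 hs)
  · exact s_1064 (c6_1064 hs)
  · exact s_1065 (c6_1065 hs)

end CR.L6
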