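import Pool.Agent.Lib.MP_6f5d36_co.L6.W054
import Pool.Agent.Lib.MP_6f5d36_co.L6.CkS
import Pool.Agent.Lib.MP_6f5d36_co.D6.X075
import Pool.Agent.Lib.MP_6f5d36_co.D6.Y023

set_option autoImplicit false

/-!
# MP_6f5d36_co : level 6 for the types 1066 to 1075
-/

namespace CR.L6

theorem c6_1066 (hs : Sound6) : ∀ u, C6_1066.testBit u = true → Kill 6 (491889216 + u * 8 ^ 10) :=
  kill_eq (kill_or (ck6_sound' hs D6.x_1066_0)
    (ck6_sound' hs D6.xs_1066_0))
    (by decide +kernel : Nat.beq C6_1066 (Nat.lor D6.m_1066_0 D6.ms_1066_0) = true)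

theorem c6_1067 (hs : Sound6) : ∀ u, C6_1067.testBit u = true → Kill 6 (745374784 + u * 8 ^ 10) :=
  kill_eq (kill_or (ck6_sound' hs D6.x_1067_0)
    (ck6_sound' hs D6.xs_1067_0))
    (by decide +kernel : Nat.beq C6_1067 (Nat.lor D6.m_1067_0 D6.ms_1067_0) = true)

theorem c6_1068 (hs : Sound6) : ∀ u, C6_1068.testBit u = true → Kill 6 (697402432 + u * 8 ^ 10) :=
  kill_eq (ck6_sound' hs D6.x_1068_0)
    (by decide +kernel : Nat.beq C6_1068 D6.m_1068_0 = true)

theorem c6_1069 (hs : Sound6) : ∀ u, C6_1069.testBit u = true → Kill 6 (680408200 + u * 8 ^ 10) :=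
  kill_eq (kill_or (ck6_sound' hs D6.x_1069_0)
    (ck6_sound' hs D6.xs_1069_0))
    (by decide +kernel : Nat.beq C6_1069 (Nat.lor D6.m_1069_0 D6.ms_1069_0) = true)

theorem c6_1070 (hs : Sound6) : ∀ u, C6_1070.testBit u = true → Kill 6 (495784512 + u * 8 ^ 10) :=
  kill_eq (ck6_sound' hs D6.xs_1070_0)
    (by decide +kernel : Nat.beq C6_1070 D6.ms_1070_0 = true)

theorem c6_1071 (hs : Sound6) : ∀ u, C6_1071.testBit u = true → Kill 6 (743023168 + u * 8 ^ 10) :=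
  kill_eq (kill_or (ck6_sound' hs D6.x_1071_0)
    (ck6_sound' hs D6.xs_1071_0))
    (by decide +kernel : Nat.beq C6_1071 (Nat.lor D6.m_1071_0 D6.ms_1071_0) = true)

theorem c6_1072 (hs : Sound6) : ∀ u, C6_1072.testBit u = true → Kill 6 (85041728 + u * 8 ^ 10) :=
  kill_eq (kill_or (ck6_sound' hs D6.x_1072_0)
    (ck6_sound' hs D6.xs_1072_0))
    (by decide +kernel : Nat.beq C6_1072 (Nat.lor D6.m_1072_0 D6.ms_1072_0) = true)

theorem c6_1073 (hs : Sound6) : ∀ u, C6_1073.testBit u = true → Kill 6 (724673088 + u * 8 ^ 10) :=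
  kill_eq (ck6_sound' hs D6.x_1073_0)
    (by decide +kernel : Nat.beq C6_1073 D6.m_1073_0 = true)

theorem c6_1074 (hs : Sound6) : ∀ u, C6_1074.testBit u = true → Kill 6 (363962944 + u * 8 ^ 10) :=
  kill_zero (by decide +kernel)

theorem c6_1075 (hs : Sound6) : ∀ u, C6_1075.testBit u = true → Kill 6 (709989440 + u * 8 ^ 10) :=
  kill_eq (kill_or (ck6_sound' hs D6.x_1075_0)
    (ck6_sound' hs D6.xs_1075_0))
    (by decide +kernel : Nat.beq C6_1075 (Nat.lor D6.m_1075_0 D6.ms_1075_0) = true)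

theorem st_54 (hs : Sound6) : ∀ i, 1066 ≤ i → i < 1076 → St i := by
  intro i h1 h2
  interval_cases i
  · exact s_1066 (c6_1066 hs)
  · exact s_1067 (c6_1067 hs)
  · exact s_1068 (c6_1068 hs)
  · exact s_1069 (c6_1069 hs)
  · exact s_1070 (c6_1070 hs)
  · exact s_1071 (c6_1071 hs)
  · exact s_1072 (c6_1072 hs)
  · exact s_1073 (c6_1073 hs)
  · exact s_1074 (c6_1074 hs)
  · exact s_1075 (c6_1075 hs)

end CR.L6
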