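import Pool.Agent.Lib.MP_6f5d36_co.L6.W055
import Pool.Agent.Lib.MP_6f5d36_co.L6.CkS
import Pool.Agent.Lib.MP_6f5d36_co.D6.Y023
import Pool.Agent.Lib.MP_6f5d36_co.D6.X075

set_option autoImplicit false

/-!
# MP_6f5d36_co : level 6 for the types 1076 to 1085
-/

namespace CR.L6

theorem c6_1076 (hs : Sound6) : ∀ u, C6_1076.testBit u = true → Kill 6 (716280896 + u * 8 ^ 10) :=
  kill_eq (ck6_sound' hs D6.xs_1076_0)
    (by decide +kernel : Nat.beq C6_1076 D6.ms_1076_0 = true)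

theorem c6_1077 (hs : Sound6) : ∀ u, C6_1077.testBit u = true → Kill 6 (756129856 + u * 8 ^ 10) :=
  kill_eq (ck6_sound' hs D6.x_1077_0)
    (by decide +kernel : Nat.beq C6_1077 D6.m_1077_0 = true)

theorem c6_1078 (hs : Sound6) : ∀ u, C6_1078.testBit u = true → Kill 6 (95527488 + u * 8 ^ 10) :=
  kill_eq (ck6_sound' hs D6.x_1078_0)
    (by decide +kernel : Nat.beq C6_1078 D6.m_1078_0 = true)

theorem c6_1079 (hs : Sound6) : ∀ u, C6_1079.testBit u = true → Kill 6 (680333376 + u * 8 ^ 10) :=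
  kill_eq (kill_or (ck6_sound' hs D6.x_1079_0)
    (ck6_sound' hs D6.xs_1079_0))
    (by decide +kernel : Nat.beq C6_1079 (Nat.lor D6.m_1079_0 D6.ms_1079_0) = true)

theorem c6_1080 (hs : Sound6) : ∀ u, C6_1080.testBit u = true → Kill 6 (712089664 + u * 8 ^ 10) :=
  kill_eq (ck6_sound' hs D6.x_1080_0)
    (by decide +kernel : Nat.beq C6_1080 D6.m_1080_0 = true)

theorem c6_1081 (hs : Sound6) : ∀ u, C6_1081.testBit u = true → Kill 6 (764215872 + u * 8 ^ 10) :=
  kill_eq (kill_or (ck6_sound' hs D6.x_1081_0)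
    (ck6_sound' hs D6.xs_1081_0))
    (by decide +kernel : Nat.beq C6_1081 (Nat.lor D6.m_1081_0 D6.ms_1081_0) = true)

theorem c6_1082 (hs : Sound6) : ∀ u, C6_1082.testBit u = true → Kill 6 (738828864 + u * 8 ^ 10) :=
  kill_eq (kill_or (ck6_sound' hs D6.x_1082_0)
    (ck6_sound' hs D6.xs_1082_0))
    (by decide +kernel : Nat.beq C6_1082 (Nat.lor D6.m_1082_0 D6.ms_1082_0) = true)

theorem c6_1083 (hs : Sound6) : ∀ u, C6_1083.testBit u = true → Kill 6 (353477184 + u * 8 ^ 10) :=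
  kill_eq (kill_or (ck6_sound' hs D6.x_1083_0)
    (ck6_sound' hs D6.xs_1083_0))
    (by decide +kernel : Nat.beq C6_1083 (Nat.lor D6.m_1083_0 D6.ms_1083_0) = true)

theorem c6_1084 (hs : Sound6) : ∀ u, C6_1084.testBit u = true → Kill 6 (280069184 + u * 8 ^ 10) :=
  kill_eq (ck6_sound' hs D6.x_1084_0)
    (by decide +kernel : Nat.beq C6_1084 D6.m_1084_0 = true)

theorem c6_1085 (hs : Sound6) : ∀ u, C6_1085.testBit u = true → Kill 6 (672243776 + u * 8 ^ 10) :=
  kill_zero (by decide +kernel)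

theorem st_55 (hs : Sound6) : ∀ i, 1076 ≤ i → i < 1086 → St i := by
  intro i h1 h2
  interval_cases i
  · exact s_1076 (c6_1076 hs)
  · exact s_1077 (c6_1077 hs)
  · exact s_1078 (c6_1078 hs)
  · exact s_1079 (c6_1079 hs)
  · exact s_1080 (c6_1080 hs)
  · exact s_1081 (c6_1081 hs)
  · exact s_1082 (c6_1082 hs)
  · exact s_1083 (c6_1083 hs)
  · exact s_1084 (c6_1084 hs)
  · exact s_1085 (c6_1085 hs)

end CR.L6
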