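import Pool.Agent.Lib.MP_6f5d36_co.L6.W056
import Pool.Agent.Lib.MP_6f5d36_co.L6.CkS
import Pool.Agent.Lib.MP_6f5d36_co.D6.X075
import Pool.Agent.Lib.MP_6f5d36_co.D6.Y023

set_option autoImplicit false

/-!
# MP_6f5d36_co : level 6 for the types 1086 to 1095
-/

namespace CR.L6

theorem c6_1086 (hs : Sound6) : ∀ u, C6_1086.testBit u = true → Kill 6 (745083456 + u * 8 ^ 10) :=
  kill_eq (ck6_sound' hs D6.x_1086_0)
    (by decide +kernel : Nat.beq C6_1086 D6.m_1086_0 = true)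

theorem c6_1087 (hs : Sound6) : ∀ u, C6_1087.testBit u = true → Kill 6 (92643904 + u * 8 ^ 10) :=
  kill_eq (ck6_sound' hs D6.xs_1087_0)
    (by decide +kernel : Nat.beq C6_1087 D6.ms_1087_0 = true)

theorem c6_1088 (hs : Sound6) : ∀ u, C6_1088.testBit u = true → Kill 6 (699499584 + u * 8 ^ 10) :=
  kill_eq (kill_or (ck6_sound' hs D6.x_1088_0)
    (ck6_sound' hs D6.xs_1088_0))
    (by decide +kernel : Nat.beq C6_1088 (Nat.lor D6.m_1088_0 D6.ms_1088_0) = true)

theorem c6_1089 (hs : Sound6) : ∀ u, C6_1089.testBit u = true → Kill 6 (749831232 + u * 8 ^ 10) :=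
  kill_eq (ck6_sound' hs D6.x_1089_0)
    (by decide +kernel : Nat.beq C6_1089 D6.m_1089_0 = true)

theorem c6_1090 (hs : Sound6) : ∀ u, C6_1090.testBit u = true → Kill 6 (744820800 + u * 8 ^ 10) :=
  kill_eq (ck6_sound' hs D6.x_1090_0)
    (by decide +kernel : Nat.beq C6_1090 D6.m_1090_0 = true)

theorem c6_1091 (hs : Sound6) : ∀ u, C6_1091.testBit u = true → Kill 6 (739053632 + u * 8 ^ 10) :=
  kill_zero (by decide +kernel)

theorem c6_1092 (hs : Sound6) : ∀ u, C6_1092.testBit u = true → Kill 6 (745349696 + u * 8 ^ 10) :=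
  kill_eq (ck6_sound' hs D6.xs_1092_0)
    (by decide +kernel : Nat.beq C6_1092 D6.ms_1092_0 = true)

theorem c6_1093 (hs : Sound6) : ∀ u, C6_1093.testBit u = true → Kill 6 (629769280 + u * 8 ^ 10) :=
  kill_eq (ck6_sound' hs D6.x_1093_0)
    (by decide +kernel : Nat.beq C6_1093 D6.m_1093_0 = true)

theorem c6_1094 (hs : Sound6) : ∀ u, C6_1094.testBit u = true → Kill 6 (672244288 + u * 8 ^ 10) :=
  kill_eq (kill_or (ck6_sound' hs D6.x_1094_0)
    (ck6_sound' hs D6.xs_1094_0))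
    (by decide +kernel : Nat.beq C6_1094 (Nat.lor D6.m_1094_0 D6.ms_1094_0) = true)

theorem c6_1095 (hs : Sound6) : ∀ u, C6_1095.testBit u = true → Kill 6 (758227520 + u * 8 ^ 10) :=
  kill_eq (ck6_sound' hs D6.xs_1095_0)
    (by decide +kernel : Nat.beq C6_1095 D6.ms_1095_0 = true)

theorem st_56 (hs : Sound6) : ∀ i, 1086 ≤ i → i < 1096 → St i := by
  intro i h1 h2
  interval_cases i
  · exact s_1086 (c6_1086 hs)
  · exact s_1087 (c6_1087 hs)
  · exact s_1088 (c6_1088 hs)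
  · exact s_1089 (c6_1089 hs)
  · exact s_1090 (c6_1090 hs)
  · exact s_1091 (c6_1091 hs)
  · exact s_1092 (c6_1092 hs)
  · exact s_1093 (c6_1093 hs)
  · exact s_1094 (c6_1094 hs)
  · exact s_1095 (c6_1095 hs)

end CR.L6
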