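import Pool.Agent.Lib.MP_6f5d36_co.L6.W057
import Pool.Agent.Lib.MP_6f5d36_co.L6.CkS
import Pool.Agent.Lib.MP_6f5d36_co.D6.X075
import Pool.Agent.Lib.MP_6f5d36_co.D6.Y023

set_option autoImplicit false

/-!
# MP_6f5d36_co : level 6 for the types 1096 to 1105
-/

namespace CR.L6

theorem c6_1096 (hs : Sound6) : ∀ u, C6_1096.testBit u = true → Kill 6 (223228992 + u * 8 ^ 10) :=
  kill_eq (kill_or (ck6_sound' hs D6.x_1096_0)
    (ck6_sound' hs D6.xs_1096_0))
    (by decide +kernel : Nat.beq C6_1096 (Nat.lor D6.m_1096_0 D6.ms_1096_0) = true)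

theorem c6_1097 (hs : Sound6) : ∀ u, C6_1097.testBit u = true → Kill 6 (707895360 + u * 8 ^ 10) :=
  kill_eq (ck6_sound' hs D6.xs_1097_0)
    (by decide +kernel : Nat.beq C6_1097 D6.ms_1097_0 = true)

theorem c6_1098 (hs : Sound6) : ∀ u, C6_1098.testBit u = true → Kill 6 (697111104 + u * 8 ^ 10) :=
  kill_zero (by decide +kernel)

theorem c6_1099 (hs : Sound6) : ∀ u, C6_1099.testBit u = true → Kill 6 (361079360 + u * 8 ^ 10) :=
  kill_zero (by decide +kernel)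

theorem c6_1100 (hs : Sound6) : ∀ u, C6_1100.testBit u = true → Kill 6 (93205568 + u * 8 ^ 10) :=
  kill_eq (kill_or (ck6_sound' hs D6.x_1100_0)
    (ck6_sound' hs D6.xs_1100_0))
    (by decide +kernel : Nat.beq C6_1100 (Nat.lor D6.m_1100_0 D6.ms_1100_0) = true)

theorem c6_1101 (hs : Sound6) : ∀ u, C6_1101.testBit u = true → Kill 6 (740925952 + u * 8 ^ 10) :=
  kill_eq (kill_or (ck6_sound' hs D6.x_1101_0)
    (ck6_sound' hs D6.xs_1101_0))
    (by decide +kernel : Nat.beq C6_1101 (Nat.lor D6.m_1101_0 D6.ms_1101_0) = true)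

theorem c6_1102 (hs : Sound6) : ∀ u, C6_1102.testBit u = true → Kill 6 (628204096 + u * 8 ^ 10) :=
  kill_eq (kill_or (ck6_sound' hs D6.x_1102_0)
    (ck6_sound' hs D6.xs_1102_0))
    (by decide +kernel : Nat.beq C6_1102 (Nat.lor D6.m_1102_0 D6.ms_1102_0) = true)

theorem c6_1103 (hs : Sound6) : ∀ u, C6_1103.testBit u = true → Kill 6 (713663040 + u * 8 ^ 10) :=
  kill_eq (kill_or (ck6_sound' hs D6.x_1103_0)
    (ck6_sound' hs D6.xs_1103_0))
    (by decide +kernel : Nat.beq C6_1103 (Nat.lor D6.m_1103_0 D6.ms_1103_0) = true)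

theorem c6_1104 (hs : Sound6) : ∀ u, C6_1104.testBit u = true → Kill 6 (221356608 + u * 8 ^ 10) :=
  kill_eq (kill_or (ck6_sound' hs D6.x_1104_0)
    (ck6_sound' hs D6.xs_1104_0))
    (by decide +kernel : Nat.beq C6_1104 (Nat.lor D6.m_1104_0 D6.ms_1104_0) = true)

theorem c6_1105 (hs : Sound6) : ∀ u, C6_1105.testBit u = true → Kill 6 (493986368 + u * 8 ^ 10) :=
  kill_eq (kill_or (ck6_sound' hs D6.x_1105_0)
    (ck6_sound' hs D6.xs_1105_0))
    (by decide +kernel : Nat.beq C6_1105 (Nat.lor D6.m_1105_0 D6.ms_1105_0) = true)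

theorem st_57 (hs : Sound6) : ∀ i, 1096 ≤ i → i < 1106 → St i := by
  intro i h1 h2
  interval_cases i
  · exact s_1096 (c6_1096 hs)
  · exact s_1097 (c6_1097 hs)
  · exact s_1098 (c6_1098 hs)
  · exact s_1099 (c6_1099 hs)
  · exact s_1100 (c6_1100 hs)
  · exact s_1101 (c6_1101 hs)
  · exact s_1102 (c6_1102 hs)
  · exact s_1103 (c6_1103 hs)
  · exact s_1104 (c6_1104 hs)
  · exact s_1105 (c6_1105 hs)

end CR.L6
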