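import Pool.Agent.Lib.MP_6f5d36_co.L6.W058
import Pool.Agent.Lib.MP_6f5d36_co.L6.CkS
import Pool.Agent.Lib.MP_6f5d36_co.D6.X075
import Pool.Agent.Lib.MP_6f5d36_co.D6.Y023

set_option autoImplicit false

/-!
# MP_6f5d36_co : level 6 for the types 1106 to 1115
-/

namespace CR.L6

theorem c6_1106 (hs : Sound6) : ∀ u, C6_1106.testBit u = true → Kill 6 (730665472 + u * 8 ^ 10) :=
  kill_eq (ck6_sound' hs D6.x_1106_0)
    (by decide +kernel : Nat.beq C6_1106 D6.m_1106_0 = true)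

theorem c6_1107 (hs : Sound6) : ∀ u, C6_1107.testBit u = true → Kill 6 (747438656 + u * 8 ^ 10) :=
  kill_eq (kill_or (ck6_sound' hs D6.x_1107_0)
    (ck6_sound' hs D6.xs_1107_0))
    (by decide +kernel : Nat.beq C6_1107 (Nat.lor D6.m_1107_0 D6.ms_1107_0) = true)

theorem c6_1108 (hs : Sound6) : ∀ u, C6_1108.testBit u = true → Kill 6 (730440256 + u * 8 ^ 10) :=
  kill_eq (kill_or (ck6_sound' hs D6.x_1108_0)
    (ck6_sound' hs D6.xs_1108_0))
    (by decide +kernel : Nat.beq C6_1108 (Nat.lor D6.m_1108_0 D6.ms_1108_0) = true)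

theorem c6_1109 (hs : Sound6) : ∀ u, C6_1109.testBit u = true → Kill 6 (747217472 + u * 8 ^ 10) :=
  kill_zero (by decide +kernel)

theorem c6_1110 (hs : Sound6) : ∀ u, C6_1110.testBit u = true → Kill 6 (743547456 + u * 8 ^ 10) :=
  kill_zero (by decide +kernel)

theorem c6_1111 (hs : Sound6) : ∀ u, C6_1111.testBit u = true → Kill 6 (712090176 + u * 8 ^ 10) :=
  kill_eq (kill_or (ck6_sound' hs D6.x_1111_0)
    (ck6_sound' hs D6.xs_1111_0))
    (by decide +kernel : Nat.beq C6_1111 (Nat.lor D6.m_1111_0 D6.ms_1111_0) = true)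

theorem c6_1112 (hs : Sound6) : ∀ u, C6_1112.testBit u = true → Kill 6 (713887808 + u * 8 ^ 10) :=
  kill_zero (by decide +kernel)

theorem c6_1113 (hs : Sound6) : ∀ u, C6_1113.testBit u = true → Kill 6 (697107008 + u * 8 ^ 10) :=
  kill_eq (kill_or (ck6_sound' hs D6.x_1113_0)
    (ck6_sound' hs D6.xs_1113_0))
    (by decide +kernel : Nat.beq C6_1113 (Nat.lor D6.m_1113_0 D6.ms_1113_0) = true)

theorem c6_1114 (hs : Sound6) : ∀ u, C6_1114.testBit u = true → Kill 6 (89232448 + u * 8 ^ 10) :=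
  kill_eq (kill_or (ck6_sound' hs D6.x_1114_0)
    (ck6_sound' hs D6.xs_1114_0))
    (by decide +kernel : Nat.beq C6_1114 (Nat.lor D6.m_1114_0 D6.ms_1114_0) = true)

theorem c6_1115 (hs : Sound6) : ∀ u, C6_1115.testBit u = true → Kill 6 (741150784 + u * 8 ^ 10) :=
  kill_zero (by decide +kernel)

theorem st_58 (hs : Sound6) : ∀ i, 1106 ≤ i → i < 1116 → St i := by
  intro i h1 h2
  interval_cases i
  · exact s_1106 (c6_1106 hs)
  · exact s_1107 (c6_1107 hs)
  · exact s_1108 (c6_1108 hs)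
  · exact s_1109 (c6_1109 hs)
  · exact s_1110 (c6_1110 hs)
  · exact s_1111 (c6_1111 hs)
  · exact s_1112 (c6_1112 hs)
  · exact s_1113 (c6_1113 hs)
  · exact s_1114 (c6_1114 hs)
  · exact s_1115 (c6_1115 hs)

end CR.L6
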