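import Pool.Agent.Lib.MP_6f5d36_co.L6.W060
import Pool.Agent.Lib.MP_6f5d36_co.L6.CkS
import Pool.Agent.Lib.MP_6f5d36_co.D6.Y023
import Pool.Agent.Lib.MP_6f5d36_co.D6.X075

set_option autoImplicit false

/-!
# MP_6f5d36_co : level 6 for the types 1126 to 1135
-/

namespace CR.L6

theorem c6_1126 (hs : Sound6) : ∀ u, C6_1126.testBit u = true → Kill 6 (227648064 + u * 8 ^ 10) :=
  kill_eq (ck6_sound' hs D6.xs_1126_0)
    (by decide +kernel : Nat.beq C6_1126 D6.ms_1126_0 = true)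

theorem c6_1127 (hs : Sound6) : ∀ u, C6_1127.testBit u = true → Kill 6 (745276480 + u * 8 ^ 10) :=
  kill_zero (by decide +kernel)

theorem c6_1128 (hs : Sound6) : ∀ u, C6_1128.testBit u = true → Kill 6 (489791552 + u * 8 ^ 10) :=
  kill_zero (by decide +kernel)

theorem c6_1129 (hs : Sound6) : ∀ u, C6_1129.testBit u = true → Kill 6 (621912640 + u * 8 ^ 10) :=
  kill_eq (kill_or (ck6_sound' hs D6.x_1129_0)
    (ck6_sound' hs D6.xs_1129_0))
    (by decide +kernel : Nat.beq C6_1129 (Nat.lor D6.m_1129_0 D6.ms_1129_0) = true)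

theorem c6_1130 (hs : Sound6) : ∀ u, C6_1130.testBit u = true → Kill 6 (707895872 + u * 8 ^ 10) :=
  kill_zero (by decide +kernel)

theorem c6_1131 (hs : Sound6) : ∀ u, C6_1131.testBit u = true → Kill 6 (726770240 + u * 8 ^ 10) :=
  kill_zero (by decide +kernel)

theorem c6_1132 (hs : Sound6) : ∀ u, C6_1132.testBit u = true → Kill 6 (91333184 + u * 8 ^ 10) :=
  kill_eq (kill_or (ck6_sound' hs D6.x_1132_0)
    (ck6_sound' hs D6.xs_1132_0))
    (by decide +kernel : Nat.beq C6_1132 (Nat.lor D6.m_1132_0 D6.ms_1132_0) = true)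

theorem c6_1133 (hs : Sound6) : ∀ u, C6_1133.testBit u = true → Kill 6 (745341504 + u * 8 ^ 10) :=
  kill_eq (ck6_sound' hs D6.xs_1133_0)
    (by decide +kernel : Nat.beq C6_1133 D6.ms_1133_0 = true)

theorem c6_1134 (hs : Sound6) : ∀ u, C6_1134.testBit u = true → Kill 6 (227423296 + u * 8 ^ 10) :=
  kill_eq (ck6_sound' hs D6.x_1134_0)
    (by decide +kernel : Nat.beq C6_1134 D6.m_1134_0 = true)

theorem c6_1135 (hs : Sound6) : ∀ u, C6_1135.testBit u = true → Kill 6 (745046016 + u * 8 ^ 10) :=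
  kill_eq (ck6_sound' hs D6.x_1135_0)
    (by decide +kernel : Nat.beq C6_1135 D6.m_1135_0 = true)

theorem st_60 (hs : Sound6) : ∀ i, 1126 ≤ i → i < 1136 → St i := by
  intro i h1 h2
  interval_cases i
  · exact s_1126 (c6_1126 hs)
  · exact s_1127 (c6_1127 hs)
  · exact s_1128 (c6_1128 hs)
  · exact s_1129 (c6_1129 hs)
  · exact s_1130 (c6_1130 hs)
  · exact s_1131 (c6_1131 hs)
  · exact s_1132 (c6_1132 hs)
  · exact s_1133 (c6_1133 hs)
  · exact s_1134 (c6_1134 hs)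
  · exact s_1135 (c6_1135 hs)

end CR.L6
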