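import Pool.Agent.Lib.MP_6f5d36_co.L6.W061
import Pool.Agent.Lib.MP_6f5d36_co.L6.CkS
import Pool.Agent.Lib.MP_6f5d36_co.D6.X075
import Pool.Agent.Lib.MP_6f5d36_co.D6.Y023

set_option autoImplicit false

/-!
# MP_6f5d36_co : level 6 for the types 1136 to 1145
-/

namespace CR.L6

theorem c6_1136 (hs : Sound6) : ∀ u, C6_1136.testBit u = true → Kill 6 (227348992 + u * 8 ^ 10) :=
  kill_zero (by decide +kernel)

theorem c6_1137 (hs : Sound6) : ∀ u, C6_1137.testBit u = true → Kill 6 (745087552 + u * 8 ^ 10) :=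
  kill_zero (by decide +kernel)

theorem c6_1138 (hs : Sound6) : ∀ u, C6_1138.testBit u = true → Kill 6 (565281856 + u * 8 ^ 10) :=
  kill_zero (by decide +kernel)

theorem c6_1139 (hs : Sound6) : ∀ u, C6_1139.testBit u = true → Kill 6 (713884224 + u * 8 ^ 10) :=
  kill_eq (kill_or (ck6_sound' hs D6.x_1139_0)
    (ck6_sound' hs D6.xs_1139_0))
    (by decide +kernel : Nat.beq C6_1139 (Nat.lor D6.m_1139_0 D6.ms_1139_0) = true)

theorem c6_1140 (hs : Sound6) : ∀ u, C6_1140.testBit u = true → Kill 6 (741450304 + u * 8 ^ 10) :=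
  kill_zero (by decide +kernel)

theorem c6_1141 (hs : Sound6) : ∀ u, C6_1141.testBit u = true → Kill 6 (179405888 + u * 8 ^ 10) :=
  kill_eq (kill_or (ck6_sound' hs D6.x_1141_0)
    (ck6_sound' hs D6.xs_1141_0))
    (by decide +kernel : Nat.beq C6_1141 (Nat.lor D6.m_1141_0 D6.ms_1141_0) = true)

theorem c6_1142 (hs : Sound6) : ∀ u, C6_1142.testBit u = true → Kill 6 (740926016 + u * 8 ^ 10) :=
  kill_zero (by decide +kernel)

theorem c6_1143 (hs : Sound6) : ∀ u, C6_1143.testBit u = true → Kill 6 (680367240 + u * 8 ^ 10) :=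
  kill_eq (kill_or (ck6_sound' hs D6.x_1143_0)
    (ck6_sound' hs D6.xs_1143_0))
    (by decide +kernel : Nat.beq C6_1143 (Nat.lor D6.m_1143_0 D6.ms_1143_0) = true)

theorem c6_1144 (hs : Sound6) : ∀ u, C6_1144.testBit u = true → Kill 6 (742761024 + u * 8 ^ 10) :=
  kill_zero (by decide +kernel)

theorem c6_1145 (hs : Sound6) : ∀ u, C6_1145.testBit u = true → Kill 6 (632398400 + u * 8 ^ 10) :=
  kill_zero (by decide +kernel)

theorem st_61 (hs : Sound6) : ∀ i, 1136 ≤ i → i < 1146 → St i := by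
  intro i h1 h2
  interval_cases i
  · exact s_1136 (c6_1136 hs)
  · exact s_1137 (c6_1137 hs)
  · exact s_1138 (c6_1138 hs)
  · exact s_1139 (c6_1139 hs)
  · exact s_1140 (c6_1140 hs)
  · exact s_1141 (c6_1141 hs)
  · exact s_1142 (c6_1142 hs)
  · exact s_1143 (c6_1143 hs)
  · exact s_1144 (c6_1144 hs)
  · exact s_1145 (c6_1145 hs)

end CR.L6
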