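import Pool.Agent.Lib.MP_6f5d36_co.L6.W062
import Pool.Agent.Lib.MP_6f5d36_co.L6.CkS
import Pool.Agent.Lib.MP_6f5d36_co.D6.Y023
import Pool.Agent.Lib.MP_6f5d36_co.D6.X075

set_option autoImplicit false

/-!
# MP_6f5d36_co : level 6 for the types 1146 to 1155
-/

namespace CR.L6

theorem c6_1146 (hs : Sound6) : ∀ u, C6_1146.testBit u = true → Kill 6 (743247936 + u * 8 ^ 10) :=
  kill_zero (by decide +kernel)

theorem c6_1147 (hs : Sound6) : ∀ u, C6_1147.testBit u = true → Kill 6 (227123776 + u * 8 ^ 10) :=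
  kill_eq (ck6_sound' hs D6.xs_1147_0)
    (by decide +kernel : Nat.beq C6_1147 D6.ms_1147_0 = true)

theorem c6_1148 (hs : Sound6) : ∀ u, C6_1148.testBit u = true → Kill 6 (93130752 + u * 8 ^ 10) :=
  kill_zero (by decide +kernel)

theorem c6_1149 (hs : Sound6) : ∀ u, C6_1149.testBit u = true → Kill 6 (738566208 + u * 8 ^ 10) :=
  kill_zero (by decide +kernel)

theorem c6_1150 (hs : Sound6) : ∀ u, C6_1150.testBit u = true → Kill 6 (713917504 + u * 8 ^ 10) :=
  kill_eq (ck6_sound' hs D6.x_1150_0)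
    (by decide +kernel : Nat.beq C6_1150 D6.m_1150_0 = true)

theorem c6_1151 (hs : Sound6) : ∀ u, C6_1151.testBit u = true → Kill 6 (745345088 + u * 8 ^ 10) :=
  kill_zero (by decide +kernel)

theorem c6_1152 (hs : Sound6) : ∀ u, C6_1152.testBit u = true → Kill 6 (87138880 + u * 8 ^ 10) :=
  kill_zero (by decide +kernel)

theorem c6_1153 (hs : Sound6) : ∀ u, C6_1153.testBit u = true → Kill 6 (45192256 + u * 8 ^ 10) :=
  kill_zero (by decide +kernel)

theorem c6_1154 (hs : Sound6) : ∀ u, C6_1154.testBit u = true → Kill 6 (495559168 + u * 8 ^ 10) :=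
  kill_eq (kill_or (ck6_sound' hs D6.x_1154_0)
    (ck6_sound' hs D6.xs_1154_0))
    (by decide +kernel : Nat.beq C6_1154 (Nat.lor D6.m_1154_0 D6.ms_1154_0) = true)

theorem c6_1155 (hs : Sound6) : ∀ u, C6_1155.testBit u = true → Kill 6 (744817216 + u * 8 ^ 10) :=
  kill_zero (by decide +kernel)

theorem st_62 (hs : Sound6) : ∀ i, 1146 ≤ i → i < 1156 → St i := by
  intro i h1 h2
  interval_cases i
  · exact s_1146 (c6_1146 hs)
  · exact s_1147 (c6_1147 hs)
  · exact s_1148 (c6_1148 hs)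
  · exact s_1149 (c6_1149 hs)
  · exact s_1150 (c6_1150 hs)
  · exact s_1151 (c6_1151 hs)
  · exact s_1152 (c6_1152 hs)
  · exact s_1153 (c6_1153 hs)
  · exact s_1154 (c6_1154 hs)
  · exact s_1155 (c6_1155 hs)

end CR.L6
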