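import Pool.Agent.Lib.MP_6f5d36_co.L6.W063
import Pool.Agent.Lib.MP_6f5d36_co.L6.CkS
import Pool.Agent.Lib.MP_6f5d36_co.D6.Y023

set_option autoImplicit false

/-!
# MP_6f5d36_co : level 6 for the types 1156 to 1165
-/

namespace CR.L6

theorem c6_1156 (hs : Sound6) : ∀ u, C6_1156.testBit u = true → Kill 6 (745079360 + u * 8 ^ 10) :=
  kill_eq (ck6_sound' hs D6.xs_1156_0)
    (by decide +kernel : Nat.beq C6_1156 D6.ms_1156_0 = true)

theorem c6_1157 (hs : Sound6) : ∀ u, C6_1157.testBit u = true → Kill 6 (730661440 + u * 8 ^ 10) :=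
  kill_zero (by decide +kernel)

theorem c6_1158 (hs : Sound6) : ∀ u, C6_1158.testBit u = true → Kill 6 (227116096 + u * 8 ^ 10) :=
  kill_zero (by decide +kernel)

theorem c6_1159 (hs : Sound6) : ∀ u, C6_1159.testBit u = true → Kill 6 (145851456 + u * 8 ^ 10) :=
  kill_zero (by decide +kernel)

theorem c6_1160 (hs : Sound6) : ∀ u, C6_1160.testBit u = true → Kill 6 (93160512 + u * 8 ^ 10) :=
  kill_zero (by decide +kernel)

theorem c6_1161 (hs : Sound6) : ∀ u, C6_1161.testBit u = true → Kill 6 (680329792 + u * 8 ^ 10) :=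
  kill_eq (ck6_sound' hs D6.xs_1161_0)
    (by decide +kernel : Nat.beq C6_1161 D6.ms_1161_0 = true)

theorem c6_1162 (hs : Sound6) : ∀ u, C6_1162.testBit u = true → Kill 6 (93131264 + u * 8 ^ 10) :=
  kill_zero (by decide +kernel)

theorem c6_1163 (hs : Sound6) : ∀ u, C6_1163.testBit u = true → Kill 6 (744825408 + u * 8 ^ 10) :=
  kill_zero (by decide +kernel)

theorem c6_1164 (hs : Sound6) : ∀ u, C6_1164.testBit u = true → Kill 6 (92906048 + u * 8 ^ 10) :=
  kill_zero (by decide +kernel)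

theorem c6_1165 (hs : Sound6) : ∀ u, C6_1165.testBit u = true → Kill 6 (93164608 + u * 8 ^ 10) :=
  kill_zero (by decide +kernel)

theorem st_63 (hs : Sound6) : ∀ i, 1156 ≤ i → i < 1166 → St i := by
  intro i h1 h2
  interval_cases i
  · exact s_1156 (c6_1156 hs)
  · exact s_1157 (c6_1157 hs)
  · exact s_1158 (c6_1158 hs)
  · exact s_1159 (c6_1159 hs)
  · exact s_1160 (c6_1160 hs)
  · exact s_1161 (c6_1161 hs)
  · exact s_1162 (c6_1162 hs)
  · exact s_1163 (c6_1163 hs)
  · exact s_1164 (c6_1164 hs)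
  · exact s_1165 (c6_1165 hs)

end CR.L6
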