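import Pool.Agent.Lib.MP_6f5d36_co.L6.W064
import Pool.Agent.Lib.MP_6f5d36_co.L6.CkS
import Pool.Agent.Lib.MP_6f5d36_co.D6.X075

set_option autoImplicit false

/-!
# MP_6f5d36_co : level 6 for the types 1166 to 1175
-/

namespace CR.L6

theorem c6_1166 (hs : Sound6) : ∀ u, C6_1166.testBit u = true → Kill 6 (764511296 + u * 8 ^ 10) :=
  kill_zero (by decide +kernel)

theorem c6_1167 (hs : Sound6) : ∀ u, C6_1167.testBit u = true → Kill 6 (744821248 + u * 8 ^ 10) :=
  kill_eq (ck6_sound' hs D6.x_1167_0)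
    (by decide +kernel : Nat.beq C6_1167 D6.m_1167_0 = true)

theorem c6_1168 (hs : Sound6) : ∀ u, C6_1168.testBit u = true → Kill 6 (225550912 + u * 8 ^ 10) :=
  kill_zero (by decide +kernel)

theorem c6_1169 (hs : Sound6) : ∀ u, C6_1169.testBit u = true → Kill 6 (745345024 + u * 8 ^ 10) :=
  kill_zero (by decide +kernel)

theorem c6_1170 (hs : Sound6) : ∀ u, C6_1170.testBit u = true → Kill 6 (697111040 + u * 8 ^ 10) :=
  kill_eq (ck6_sound' hs D6.x_1170_0)
    (by decide +kernel : Nat.beq C6_1170 D6.m_1170_0 = true)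

theorem c6_1171 (hs : Sound6) : ∀ u, C6_1171.testBit u = true → Kill 6 (713962560 + u * 8 ^ 10) :=
  kill_zero (by decide +kernel)

theorem c6_1172 (hs : Sound6) : ∀ u, C6_1172.testBit u = true → Kill 6 (92905984 + u * 8 ^ 10) :=
  kill_zero (by decide +kernel)

theorem c6_1173 (hs : Sound6) : ∀ u, C6_1173.testBit u = true → Kill 6 (742760960 + u * 8 ^ 10) :=
  kill_zero (by decide +kernel)

theorem c6_1174 (hs : Sound6) : ∀ u, C6_1174.testBit u = true → Kill 6 (229745216 + u * 8 ^ 10) :=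
  kill_zero (by decide +kernel)

theorem c6_1175 (hs : Sound6) : ∀ u, C6_1175.testBit u = true → Kill 6 (713921600 + u * 8 ^ 10) :=
  kill_zero (by decide +kernel)

theorem st_64 (hs : Sound6) : ∀ i, 1166 ≤ i → i < 1176 → St i := by
  intro i h1 h2
  interval_cases i
  · exact s_1166 (c6_1166 hs)
  · exact s_1167 (c6_1167 hs)
  · exact s_1168 (c6_1168 hs)
  · exact s_1169 (c6_1169 hs)
  · exact s_1170 (c6_1170 hs)
  · exact s_1171 (c6_1171 hs)
  · exact s_1172 (c6_1172 hs)
  · exact s_1173 (c6_1173 hs)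
  · exact s_1174 (c6_1174 hs)
  · exact s_1175 (c6_1175 hs)

end CR.L6
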