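import Pool.Agent.Lib.MP_6f5d36_co.L6.W065
import Pool.Agent.Lib.MP_6f5d36_co.L6.CkS

set_option autoImplicit false

/-!
# MP_6f5d36_co : level 6 for the types 1176 to 1185
-/

namespace CR.L6

theorem c6_1176 (hs : Sound6) : ∀ u, C6_1176.testBit u = true → Kill 6 (764518976 + u * 8 ^ 10) :=
  kill_zero (by decide +kernel)

theorem c6_1177 (hs : Sound6) : ∀ u, C6_1177.testBit u = true → Kill 6 (745083392 + u * 8 ^ 10) :=
  kill_zero (by decide +kernel)

theorem c6_1178 (hs : Sound6) : ∀ u, C6_1178.testBit u = true → Kill 6 (745112640 + u * 8 ^ 10) :=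
  kill_zero (by decide +kernel)

theorem c6_1179 (hs : Sound6) : ∀ u, C6_1179.testBit u = true → Kill 6 (745120256 + u * 8 ^ 10) :=
  kill_zero (by decide +kernel)

theorem c6_1180 (hs : Sound6) : ∀ u, C6_1180.testBit u = true → Kill 6 (743247872 + u * 8 ^ 10) :=
  kill_zero (by decide +kernel)

theorem c6_1181 (hs : Sound6) : ∀ u, C6_1181.testBit u = true → Kill 6 (764219904 + u * 8 ^ 10) :=
  kill_zero (by decide +kernel)

theorem c6_1182 (hs : Sound6) : ∀ u, C6_1182.testBit u = true → Kill 6 (747442176 + u * 8 ^ 10) :=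
  kill_zero (by decide +kernel)

theorem c6_1183 (hs : Sound6) : ∀ u, C6_1183.testBit u = true → Kill 6 (744858176 + u * 8 ^ 10) :=
  kill_zero (by decide +kernel)

theorem c6_1184 (hs : Sound6) : ∀ u, C6_1184.testBit u = true → Kill 6 (495783936 + u * 8 ^ 10) :=
  kill_zero (by decide +kernel)

theorem c6_1185 (hs : Sound6) : ∀ u, C6_1185.testBit u = true → Kill 6 (227348480 + u * 8 ^ 10) :=
  kill_zero (by decide +kernel)

theorem st_65 (hs : Sound6) : ∀ i, 1176 ≤ i → i < 1186 → St i := by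
  intro i h1 h2
  interval_cases i
  · exact s_1176 (c6_1176 hs)
  · exact s_1177 (c6_1177 hs)
  · exact s_1178 (c6_1178 hs)
  · exact s_1179 (c6_1179 hs)
  · exact s_1180 (c6_1180 hs)
  · exact s_1181 (c6_1181 hs)
  · exact s_1182 (c6_1182 hs)
  · exact s_1183 (c6_1183 hs)
  · exact s_1184 (c6_1184 hs)
  · exact s_1185 (c6_1185 hs)

end CR.L6
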