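import Pool.Agent.Lib.MP_6f5d36_co.L6.W066
import Pool.Agent.Lib.MP_6f5d36_co.L6.CkS

set_option autoImplicit false

/-!
# MP_6f5d36_co : level 6 for the types 1186 to 1195
-/

namespace CR.L6

theorem c6_1186 (hs : Sound6) : ∀ u, C6_1186.testBit u = true → Kill 6 (744820736 + u * 8 ^ 10) :=
  kill_zero (by decide +kernel)

theorem c6_1187 (hs : Sound6) : ∀ u, C6_1187.testBit u = true → Kill 6 (705798720 + u * 8 ^ 10) :=
  kill_zero (by decide +kernel)

theorem c6_1188 (hs : Sound6) : ∀ u, C6_1188.testBit u = true → Kill 6 (741150720 + u * 8 ^ 10) :=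
  kill_zero (by decide +kernel)

theorem c6_1189 (hs : Sound6) : ∀ u, C6_1189.testBit u = true → Kill 6 (361341440 + u * 8 ^ 10) :=
  kill_zero (by decide +kernel)

theorem c6_1190 (hs : Sound6) : ∀ u, C6_1190.testBit u = true → Kill 6 (680100928 + u * 8 ^ 10) :=
  kill_zero (by decide +kernel)

theorem c6_1191 (hs : Sound6) : ∀ u, C6_1191.testBit u = true → Kill 6 (713888256 + u * 8 ^ 10) :=
  kill_zero (by decide +kernel)

theorem c6_1192 (hs : Sound6) : ∀ u, C6_1192.testBit u = true → Kill 6 (495784448 + u * 8 ^ 10) :=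
  kill_zero (by decide +kernel)

theorem c6_1193 (hs : Sound6) : ∀ u, C6_1193.testBit u = true → Kill 6 (722575936 + u * 8 ^ 10) :=
  kill_zero (by decide +kernel)

theorem c6_1194 (hs : Sound6) : ∀ u, C6_1194.testBit u = true → Kill 6 (92643840 + u * 8 ^ 10) :=
  kill_zero (by decide +kernel)

theorem c6_1195 (hs : Sound6) : ∀ u, C6_1195.testBit u = true → Kill 6 (227123712 + u * 8 ^ 10) :=
  kill_zero (by decide +kernel)

theorem st_66 (hs : Sound6) : ∀ i, 1186 ≤ i → i < 1196 → St i := by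
  intro i h1 h2
  interval_cases i
  · exact s_1186 (c6_1186 hs)
  · exact s_1187 (c6_1187 hs)
  · exact s_1188 (c6_1188 hs)
  · exact s_1189 (c6_1189 hs)
  · exact s_1190 (c6_1190 hs)
  · exact s_1191 (c6_1191 hs)
  · exact s_1192 (c6_1192 hs)
  · exact s_1193 (c6_1193 hs)
  · exact s_1194 (c6_1194 hs)
  · exact s_1195 (c6_1195 hs)

end CR.L6
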