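import Pool.Agent.Lib.MP_6f5d36_co.L6.W067
import Pool.Agent.Lib.MP_6f5d36_co.L6.CkS

set_option autoImplicit false

/-!
# MP_6f5d36_co : level 6 for the types 1196 to 1204
-/

namespace CR.L6

theorem c6_1196 (hs : Sound6) : ∀ u, C6_1196.testBit u = true → Kill 6 (495559232 + u * 8 ^ 10) :=
  kill_zero (by decide +kernel)

theorem c6_1197 (hs : Sound6) : ∀ u, C6_1197.testBit u = true → Kill 6 (361566720 + u * 8 ^ 10) :=
  kill_zero (by decide +kernel)

theorem c6_1198 (hs : Sound6) : ∀ u, C6_1198.testBit u = true → Kill 6 (179188800 + u * 8 ^ 10) :=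
  kill_zero (by decide +kernel)

theorem c6_1199 (hs : Sound6) : ∀ u, C6_1199.testBit u = true → Kill 6 (745050112 + u * 8 ^ 10) :=
  kill_zero (by decide +kernel)

theorem c6_1200 (hs : Sound6) : ∀ u, C6_1200.testBit u = true → Kill 6 (92643392 + u * 8 ^ 10) :=
  kill_zero (by decide +kernel)

theorem c6_1201 (hs : Sound6) : ∀ u, C6_1201.testBit u = true → Kill 6 (361079296 + u * 8 ^ 10) :=
  kill_zero (by decide +kernel)

theorem c6_1202 (hs : Sound6) : ∀ u, C6_1202.testBit u = true → Kill 6 (697140288 + u * 8 ^ 10) :=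
  kill_zero (by decide +kernel)

theorem c6_1203 (hs : Sound6) : ∀ u, C6_1203.testBit u = true → Kill 6 (743281728 + u * 8 ^ 10) :=
  kill_zero (by decide +kernel)

theorem c6_1204 (hs : Sound6) : ∀ u, C6_1204.testBit u = true → Kill 6 (696885824 + u * 8 ^ 10) :=
  kill_zero (by decide +kernel)

theorem st_67 (hs : Sound6) : ∀ i, 1196 ≤ i → i < 1205 → St i := by
  intro i h1 h2
  interval_cases i
  · exact s_1196 (c6_1196 hs)
  · exact s_1197 (c6_1197 hs)
  · exact s_1198 (c6_1198 hs)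
  · exact s_1199 (c6_1199 hs)
  · exact s_1200 (c6_1200 hs)
  · exact s_1201 (c6_1201 hs)
  · exact s_1202 (c6_1202 hs)
  · exact s_1203 (c6_1203 hs)
  · exact s_1204 (c6_1204 hs)

end CR.L6
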