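import Pool.Agent.Lib.MP_6f5d36_co.L6.Z000
import Pool.Agent.Lib.MP_6f5d36_co.L6.Z001
import Pool.Agent.Lib.MP_6f5d36_co.L6.Z002
import Pool.Agent.Lib.MP_6f5d36_co.L6.Z003
import Pool.Agent.Lib.MP_6f5d36_co.L6.Z004
import Pool.Agent.Lib.MP_6f5d36_co.L6.Z005
import Pool.Agent.Lib.MP_6f5d36_co.L6.Z006
import Pool.Agent.Lib.MP_6f5d36_co.L6.Z007
import Pool.Agent.Lib.MP_6f5d36_co.L6.Z008
import Pool.Agent.Lib.MP_6f5d36_co.L6.Z009
import Pool.Agent.Lib.MP_6f5d36_co.L6.Z010
import Pool.Agent.Lib.MP_6f5d36_co.L6.Z011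
import Pool.Agent.Lib.MP_6f5d36_co.L6.Z012
import Pool.Agent.Lib.MP_6f5d36_co.L6.Z013
import Pool.Agent.Lib.MP_6f5d36_co.L6.Z014
import Pool.Agent.Lib.MP_6f5d36_co.L6.Z015
import Pool.Agent.Lib.MP_6f5d36_co.L6.Z016
import Pool.Agent.Lib.MP_6f5d36_co.L6.Z017
import Pool.Agent.Lib.MP_6f5d36_co.L6.Z018
import Pool.Agent.Lib.MP_6f5d36_co.L6.Z019
import Pool.Agent.Lib.MP_6f5d36_co.L6.Z020
import Pool.Agent.Lib.MP_6f5d36_co.L6.Z021
import Pool.Agent.Lib.MP_6f5d36_co.L6.Z022
import Pool.Agent.Lib.MP_6f5d36_co.L6.Z023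
import Pool.Agent.Lib.MP_6f5d36_co.L6.Z024
import Pool.Agent.Lib.MP_6f5d36_co.L6.Z025
import Pool.Agent.Lib.MP_6f5d36_co.L6.Z026
import Pool.Agent.Lib.MP_6f5d36_co.L6.Z027
import Pool.Agent.Lib.MP_6f5d36_co.L6.Z028
import Pool.Agent.Lib.MP_6f5d36_co.L6.Z029
import Pool.Agent.Lib.MP_6f5d36_co.L6.Z030
import Pool.Agent.Lib.MP_6f5d36_co.L6.Z031
import Pool.Agent.Lib.MP_6f5d36_co.L6.Z032
import Pool.Agent.Lib.MP_6f5d36_co.L6.Z033
import Pool.Agent.Lib.MP_6f5d36_co.L6.Z034
import Pool.Agent.Lib.MP_6f5d36_co.L6.Z035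
import Pool.Agent.Lib.MP_6f5d36_co.L6.Z036
import Pool.Agent.Lib.MP_6f5d36_co.L6.Z037
import Pool.Agent.Lib.MP_6f5d36_co.L6.Z038
import Pool.Agent.Lib.MP_6f5d36_co.L6.Z039
import Pool.Agent.Lib.MP_6f5d36_co.L6.Z040
import Pool.Agent.Lib.MP_6f5d36_co.L6.Z041
import Pool.Agent.Lib.MP_6f5d36_co.L6.Z042
import Pool.Agent.Lib.MP_6f5d36_co.L6.Z043
import Pool.Agent.Lib.MP_6f5d36_co.L6.Z044
import Pool.Agent.Lib.MP_6f5d36_co.L6.Z045
import Pool.Agent.Lib.MP_6f5d36_co.L6.Z046
import Pool.Agent.Lib.MP_6f5d36_co.L6.Z047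
import Pool.Agent.Lib.MP_6f5d36_co.L6.Z048
import Pool.Agent.Lib.MP_6f5d36_co.L6.Z049
import Pool.Agent.Lib.MP_6f5d36_co.L6.Z050
import Pool.Agent.Lib.MP_6f5d36_co.L6.Z051
import Pool.Agent.Lib.MP_6f5d36_co.L6.Z052
import Pool.Agent.Lib.MP_6f5d36_co.L6.Z053
import Pool.Agent.Lib.MP_6f5d36_co.L6.Z054
import Pool.Agent.Lib.MP_6f5d36_co.L6.Z055
import Pool.Agent.Lib.MP_6f5d36_co.L6.Z056
import Pool.Agent.Lib.MP_6f5d36_co.L6.Z057
import Pool.Agent.Lib.MP_6f5d36_co.L6.Z058
import Pool.Agent.Lib.MP_6f5d36_co.L6.Z059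
import Pool.Agent.Lib.MP_6f5d36_co.L6.Z060
import Pool.Agent.Lib.MP_6f5d36_co.L6.Z061
import Pool.Agent.Lib.MP_6f5d36_co.L6.Z062
import Pool.Agent.Lib.MP_6f5d36_co.L6.Z063
import Pool.Agent.Lib.MP_6f5d36_co.L6.Z064
import Pool.Agent.Lib.MP_6f5d36_co.L6.Z065
import Pool.Agent.Lib.MP_6f5d36_co.L6.Z066
import Pool.Agent.Lib.MP_6f5d36_co.L6.Z067
import Pool.Agent.Lib.MP_6f5d36_co.L6.Main0
import Pool.Agent.Lib.MP_6f5d36_co.Cert

set_option autoImplicit false

/-!
# MP_6f5d36_co : the theorems of levels five and six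
-/

namespace CR.L6

theorem sound6 : Sound6 := fun _ _ h _ _ _ ho => cert6_sound h (ho.real.mono (by norm_num))

theorem st_all : ∀ i, 526 ≤ i → i < 1205 → St i := by
  intro i h1 h2
  rcases Nat.lt_or_ge i 536 with h | h
  · exact st_0 sound6 i (by omega) h
  rcases Nat.lt_or_ge i 546 with h | h
  · exact st_1 sound6 i (by omega) h
  rcases Nat.lt_or_ge i 556 with h | h
  · exact st_2 sound6 i (by omega) h
  rcases Nat.lt_or_ge i 566 with h | h
  · exact st_3 sound6 i (by omega) h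
  rcases Nat.lt_or_ge i 576 with h | h
  · exact st_4 sound6 i (by omega) h
  rcases Nat.lt_or_ge i 586 with h | h
  · exact st_5 sound6 i (by omega) h
  rcases Nat.lt_or_ge i 596 with h | h
  · exact st_6 sound6 i (by omega) h
  rcases Nat.lt_or_ge i 606 with h | h
  · exact st_7 sound6 i (by omega) h
  rcases Nat.lt_or_ge i 616 with h | h
  · exact st_8 sound6 i (by omega) h
  rcases Nat.lt_or_ge i 626 with h | h
  · exact st_9 sound6 i (by omega) h
  rcases Nat.lt_or_ge i 636 with h | h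
  · exact st_10 sound6 i (by omega) h
  rcases Nat.lt_or_ge i 646 with h | h
  · exact st_11 sound6 i (by omega) h
  rcases Nat.lt_or_ge i 656 with h | h
  · exact st_12 sound6 i (by omega) h
  rcases Nat.lt_or_ge i 666 with h | h
  · exact st_13 sound6 i (by omega) h
  rcases Nat.lt_or_ge i 676 with h | h
  · exact st_14 sound6 i (by omega) h
  rcases Nat.lt_or_ge i 686 with h | h
  · exact st_15 sound6 i (by omega) h
  rcases Nat.lt_or_ge i 696 with h | h
  · exact st_16 sound6 i (by omega) h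
  rcases Nat.lt_or_ge i 706 with h | h
  · exact st_17 sound6 i (by omega) h
  rcases Nat.lt_or_ge i 716 with h | h
  · exact st_18 sound6 i (by omega) h
  rcases Nat.lt_or_ge i 726 with h | h
  · exact st_19 sound6 i (by omega) h
  rcases Nat.lt_or_ge i 736 with h | h
  · exact st_20 sound6 i (by omega) h
  rcases Nat.lt_or_ge i 746 with h | h
  · exact st_21 sound6 i (by omega) h
  rcases Nat.lt_or_ge i 756 with h | h
  · exact st_22 sound6 i (by omega) h
  rcases Nat.lt_or_ge i 766 with h | h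
  · exact st_23 sound6 i (by omega) h
  rcases Nat.lt_or_ge i 776 with h | h
  · exact st_24 sound6 i (by omega) h
  rcases Nat.lt_or_ge i 786 with h | h
  · exact st_25 sound6 i (by omega) h
  rcases Nat.lt_or_ge i 796 with h | h
  · exact st_26 sound6 i (by omega) h
  rcases Nat.lt_or_ge i 806 with h | h
  · exact st_27 sound6 i (by omega) h
  rcases Nat.lt_or_ge i 816 with h | h
  · exact st_28 sound6 i (by omega) h
  rcases Nat.lt_or_ge i 826 with h | h
  · exact st_29 sound6 i (by omega) h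
  rcases Nat.lt_or_ge i 836 with h | h
  · exact st_30 sound6 i (by omega) h
  rcases Nat.lt_or_ge i 846 with h | h
  · exact st_31 sound6 i (by omega) h
  rcases Nat.lt_or_ge i 856 with h | h
  · exact st_32 sound6 i (by omega) h
  rcases Nat.lt_or_ge i 866 with h | h
  · exact st_33 sound6 i (by omega) h
  rcases Nat.lt_or_ge i 876 with h | h
  · exact st_34 sound6 i (by omega) h
  rcases Nat.lt_or_ge i 886 with h | h
  · exact st_35 sound6 i (by omega) h
  rcases Nat.lt_or_ge i 896 with h | h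
  · exact st_36 sound6 i (by omega) h
  rcases Nat.lt_or_ge i 906 with h | h
  · exact st_37 sound6 i (by omega) h
  rcases Nat.lt_or_ge i 916 with h | h
  · exact st_38 sound6 i (by omega) h
  rcases Nat.lt_or_ge i 926 with h | h
  · exact st_39 sound6 i (by omega) h
  rcases Nat.lt_or_ge i 936 with h | h
  · exact st_40 sound6 i (by omega) h
  rcases Nat.lt_or_ge i 946 with h | h
  · exact st_41 sound6 i (by omega) h
  rcases Nat.lt_or_ge i 956 with h | h
  · exact st_42 sound6 i (by omega) h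
  rcases Nat.lt_or_ge i 966 with h | h
  · exact st_43 sound6 i (by omega) h
  rcases Nat.lt_or_ge i 976 with h | h
  · exact st_44 sound6 i (by omega) h
  rcases Nat.lt_or_ge i 986 with h | h
  · exact st_45 sound6 i (by omega) h
  rcases Nat.lt_or_ge i 996 with h | h
  · exact st_46 sound6 i (by omega) h
  rcases Nat.lt_or_ge i 1006 with h | h
  · exact st_47 sound6 i (by omega) h
  rcases Nat.lt_or_ge i 1016 with h | h
  · exact st_48 sound6 i (by omega) h
  rcases Nat.lt_or_ge i 1026 with h | h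
  · exact st_49 sound6 i (by omega) h
  rcases Nat.lt_or_ge i 1036 with h | h
  · exact st_50 sound6 i (by omega) h
  rcases Nat.lt_or_ge i 1046 with h | h
  · exact st_51 sound6 i (by omega) h
  rcases Nat.lt_or_ge i 1056 with h | h
  · exact st_52 sound6 i (by omega) h
  rcases Nat.lt_or_ge i 1066 with h | h
  · exact st_53 sound6 i (by omega) h
  rcases Nat.lt_or_ge i 1076 with h | h
  · exact st_54 sound6 i (by omega) h
  rcases Nat.lt_or_ge i 1086 with h | h
  · exact st_55 sound6 i (by omega) h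
  rcases Nat.lt_or_ge i 1096 with h | h
  · exact st_56 sound6 i (by omega) h
  rcases Nat.lt_or_ge i 1106 with h | h
  · exact st_57 sound6 i (by omega) h
  rcases Nat.lt_or_ge i 1116 with h | h
  · exact st_58 sound6 i (by omega) h
  rcases Nat.lt_or_ge i 1126 with h | h
  · exact st_59 sound6 i (by omega) h
  rcases Nat.lt_or_ge i 1136 with h | h
  · exact st_60 sound6 i (by omega) h
  rcases Nat.lt_or_ge i 1146 with h | h
  · exact st_61 sound6 i (by omega) h
  rcases Nat.lt_or_ge i 1156 with h | h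
  · exact st_62 sound6 i (by omega) h
  rcases Nat.lt_or_ge i 1166 with h | h
  · exact st_63 sound6 i (by omega) h
  rcases Nat.lt_or_ge i 1176 with h | h
  · exact st_64 sound6 i (by omega) h
  rcases Nat.lt_or_ge i 1186 with h | h
  · exact st_65 sound6 i (by omega) h
  rcases Nat.lt_or_ge i 1196 with h | h
  · exact st_66 sound6 i (by omega) h
  rcases Nat.lt_or_ge i 1205 with h | h
  · exact st_67 sound6 i (by omega) h
  exact absurd h2 (by omega)

theorem q_all : ∀ i, 526 ≤ i → i < 1205 → Q i := Q_all st_all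

/-- **the table of six points** -/
theorem e6 (F : Conf 9) : ∀ f g P j, j < 1205 →
    gro 15 1 P → Occ F 6 f g P → P % 8 ^ 10 = T5 j → (E6 j).testBit (P / 8 ^ 10) = true :=
  e6_of q_all F

/-- the same for the type and the vector -/
theorem e6' {F : Conf 9} {f : ℕ → Fin 9} {g : ℕ → Fin 8} {j u : ℕ} (hj : j < 1205)
    (hu : 526 ≤ j → gro 5 (KK j) u) (ho : Occ F 6 f g (T5 j + u * 8 ^ 10)) :
    (E6 j).testBit u = true := e6_of' q_all hj hu ho

/-- **level six** -/
theorem L6 {F : Conf 9} {f : ℕ → Fin 9} (hf : Big6 F f) :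
    ∃ (j u : ℕ) (p : ℕ → ℕ) (g : ℕ → Fin 8), 526 ≤ j ∧ j < 1205 ∧ (∀ i, i < 6 → p i < 6) ∧
      (∀ i k, i < 6 → k < 6 → p i = p k → i = k) ∧ GoodG g ∧ gro 5 (KK j) u ∧
      (E6 j).testBit u = true ∧ Occ F 6 (fun i => f (p i)) g (T5 j + u * 8 ^ 10) := L6_of q_all hf

end CR.L6
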