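import Pool.Agent.Lib.MP_6f5d36_co.L6.Def
import Pool.Agent.Lib.MP_6f5d36_co.Occ

set_option autoImplicit false

/-!
# MP_6f5d36_co : digits of the kernel functions of `L6.Def`
-/

namespace CR.L6

theorem frc_eq {α : Type} (n : ℕ) (f : ℕ → α) : frc n f = f n := rfl

theorem band_eq (a b : Bool) : band a b = (a && b) := by cases a <;> rfl

theorem band_true {a b : Bool} : band a b = true ↔ a = true ∧ b = true := by
  rw [band_eq]; simp

/-! ### octal digits -/

theorem land7 (P e : ℕ) : Nat.land (Nat.shiftRight P (3 * e)) 7 = od P e := by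
  unfold od
  show (P >>> (3 * e)) &&& 7 = _
  rw [Nat.shiftRight_eq_div_pow, pow_mul]
  exact Nat.and_two_pow_sub_one_eq_mod _ 3

theorem land7' (P x e : ℕ) (h : x = 3 * e) : Nat.land (Nat.shiftRight P x) 7 = od P e := by
  rw [h, land7]

theorem testBit_iff (X c : ℕ) :
    Nat.beq (Nat.land (Nat.shiftRight X c) 1) 1 = true ↔ X.testBit c = true := by
  rw [Nat.testBit_eq_decide_div_mod_eq, decide_eq_true_iff]
  have h : Nat.land (Nat.shiftRight X c) 1 = X / 2 ^ c % 2 := by
    show (X >>> c) &&& 1 = _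
    rw [Nat.shiftRight_eq_div_pow, Nat.and_one_is_mod]
  rw [h, Nat.beq_eq]

theorem od_add_mul (a b n e : ℕ) (h : a < 8 ^ n) :
    od (a + b * 8 ^ n) e = if e < n then od a e else od b (e - n) := by
  unfold od
  split_ifs with he
  · obtain ⟨k, hk⟩ : ∃ k, n = e + (k + 1) := ⟨n - e - 1, by omega⟩
    have h1 : a + b * 8 ^ n = a + 8 ^ e * (8 * (b * 8 ^ k)) := by
      rw [hk, pow_add, pow_succ]; ring
    rw [h1, Nat.add_mul_div_left _ _ (by positivity), Nat.add_mul_mod_self_left]
  · have h1 : 8 ^ e = 8 ^ n * 8 ^ (e - n) := by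
      rw [← pow_add]; congr 1; omega
    rw [h1, ← Nat.div_div_eq_div_mul, Nat.add_mul_div_right _ _ (by positivity),
      Nat.div_eq_of_lt h, Nat.zero_add]

theorem od_zero_of_lt (a n e : ℕ) (h : a < 8 ^ n) (he : n ≤ e) : od a e = 0 := by
  have h1 := od_add_mul a 0 n e h
  rw [Nat.zero_mul, Nat.add_zero, if_neg (by omega)] at h1
  rw [h1]
  simp [od]

theorem od_top (a n : ℕ) (h : a < 8 ^ (n + 1)) : a / 8 ^ n = od a n := by
  unfold od
  rw [Nat.mod_eq_of_lt]
  rw [Nat.div_lt_iff_lt_mul (by positivity)]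
  rw [pow_succ] at h
  omega

theorem sum_lt (n : ℕ) (x : ℕ → ℕ) (hx : ∀ e, e < n → x e < 8) :
    ∑ e ∈ Finset.range n, x e * 8 ^ e < 8 ^ n := by
  induction n with
  | zero => simp
  | succ n ih =>
    rw [Finset.sum_range_succ, pow_succ]
    have h1 := ih (fun e he => hx e (by omega))
    have h2 : x n * 8 ^ n ≤ 7 * 8 ^ n := Nat.mul_le_mul_right _ (by have := hx n (by omega); omega)
    omega

theorem od_sum (n : ℕ) (x : ℕ → ℕ) (hx : ∀ e, e < n → x e < 8) (e : ℕ) (he : e < n) :
    od (∑ e ∈ Finset.range n, x e * 8 ^ e) e = x e := by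
  induction n with
  | zero => omega
  | succ n ih =>
    have hx' : ∀ e, e < n → x e < 8 := fun e he => hx e (by omega)
    rw [Finset.sum_range_succ, od_add_mul _ _ _ _ (sum_lt n x hx')]
    split_ifs with h1
    · exact ih hx' h1
    · have : e = n := by omega
      subst this
      rw [Nat.sub_self]
      have := hx e he
      simp only [od, pow_zero, Nat.div_one]
      omega

/-- two numbers with the same digits -/
theorem od_ext (n a b : ℕ) (ha : a < 8 ^ n) (hb : b < 8 ^ n) (h : ∀ e, e < n → od a e = od b e) :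
    a = b := by
  induction n generalizing a b with
  | zero => simp at ha hb; omega
  | succ n ih =>
    have h0 := h 0 (by omega)
    simp only [od, pow_zero, Nat.div_one] at h0
    have h1 : a / 8 = b / 8 := by
      apply ih
      · rw [pow_succ] at ha; omega
      · rw [pow_succ] at hb; omega
      · intro e he
        have h2 := h (e + 1) (by omega)
        simp only [od, pow_succ'] at h2
        simp only [od]
        rw [Nat.div_div_eq_div_mul, Nat.div_div_eq_div_mul]
        exact h2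
    omega

/-- six-bit field -/
def fe (E e : ℕ) : ℕ := E / 64 ^ e % 64

theorem fe_eq (E e : ℕ) : Nat.land (Nat.shiftRight E (6 * e)) 63 = fe E e := by
  unfold fe
  show (E >>> (6 * e)) &&& 63 = _
  rw [Nat.shiftRight_eq_div_pow, pow_mul]
  exact Nat.and_two_pow_sub_one_eq_mod _ 6

theorem G15_eq (P E : ℕ) (q : ℕ → ℕ) (h : ∀ e, e < 15 → fe E e = 3 * q e) :
    G15 P E = ∑ e ∈ Finset.range 15, od P (q e) * 8 ^ e := by
  have h' : ∀ e, e < 15 → Nat.land (Nat.shiftRight P (Nat.land (Nat.shiftRight E (6 * e)) 63)) 7 =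
      od P (q e) := fun e he => land7' _ _ _ (by rw [fe_eq, h e he])
  have h0 := h' 0 (by norm_num)
  have h1 := h' 1 (by norm_num)
  have h2 := h' 2 (by norm_num)
  have h3 := h' 3 (by norm_num)
  have h4 := h' 4 (by norm_num)
  have h5 := h' 5 (by norm_num)
  have h6 := h' 6 (by norm_num)
  have h7 := h' 7 (by norm_num)
  have h8 := h' 8 (by norm_num)
  have h9 := h' 9 (by norm_num)
  have h10 := h' 10 (by norm_num)
  have h11 := h' 11 (by norm_num)
  have h12 := h' 12 (by norm_num)
  have h13 := h' 13 (by norm_num)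
  have h14 := h' 14 (by norm_num)
  norm_num only at h0 h1 h2 h3 h4 h5 h6 h7 h8 h9 h10 h11 h12 h13 h14
  unfold G15
  rw [h0, h1, h2, h3, h4, h5, h6, h7, h8, h9, h10, h11, h12, h13, h14]
  simp only [Nat.add_eq, Nat.mul_eq, Finset.sum_range_succ, Finset.sum_range_zero]
  ring

theorem R10_eq (F T : ℕ) : R10 F T = ∑ e ∈ Finset.range 10, od F (od T e) * 8 ^ e := by
  have h' : ∀ e, Nat.land (Nat.shiftRight F (Nat.mul 3 (Nat.land (Nat.shiftRight T (3 * e)) 7))) 7 =
      od F (od T e) := fun e => by rw [land7]; exact land7 _ _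
  have h0 := h' 0
  have h1 := h' 1
  have h2 := h' 2
  have h3 := h' 3
  have h4 := h' 4
  have h5 := h' 5
  have h6 := h' 6
  have h7 := h' 7
  have h8 := h' 8
  have h9 := h' 9
  norm_num only at h0 h1 h2 h3 h4 h5 h6 h7 h8 h9
  unfold R10
  rw [h0, h1, h2, h3, h4, h5, h6, h7, h8, h9]
  simp only [Nat.add_eq, Nat.mul_eq, Finset.sum_range_succ, Finset.sum_range_zero]
  ring

theorem U5_eq (F T : ℕ) : U5 F T = ∑ e ∈ Finset.range 5, od F (od T e) * 8 ^ e := by
  have h' : ∀ e, Nat.land (Nat.shiftRight F (Nat.mul 3 (Nat.land (Nat.shiftRight T (3 * e)) 7))) 7 =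
      od F (od T e) := fun e => by rw [land7]; exact land7 _ _
  have h0 := h' 0
  have h1 := h' 1
  have h2 := h' 2
  have h3 := h' 3
  have h4 := h' 4
  norm_num only at h0 h1 h2 h3 h4
  unfold U5
  rw [h0, h1, h2, h3, h4]
  simp only [Nat.add_eq, Nat.mul_eq, Finset.sum_range_succ, Finset.sum_range_zero]
  ring

end CR.L6
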