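import Pool.Agent.Lib.MP_6f5d36_co.L6.Types
import Pool.Agent.Lib.MP_6f5d36_co.Level7
import Pool.Agent.Lib.MP_6f5d36_co.Tab

set_option autoImplicit false

/-!
# MP_6f5d36_co : the checker for the table `E5` of five points with at most seven labels
-/

namespace CR.L6

/-! ### growth with `B` labels -/

/-- number of admissible labels after `n` digits -/
def grK (B : ℕ) : ℕ → ℕ → ℕ → ℕ
  | 0, K, _ => K
  | n + 1, K, u => grK B n (if u % 8 + 1 = K ∧ K < B then K + 1 else K) (u / 8)

theorem grn_split (B : ℕ) : ∀ (a b K P : ℕ), L7.grn B (a + b) K P →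
    L7.grn B b (grK B a K P) (P / 8 ^ a)
  | 0, b, K, P, h => by
    rw [pow_zero, Nat.div_one]
    rw [Nat.zero_add] at h
    exact h
  | a + 1, b, K, P, h => by
    have e : a + 1 + b = (a + b) + 1 := by omega
    rw [e] at h
    have h1 := grn_split B a b _ _ h.2
    rw [pow_succ', ← Nat.div_div_eq_div_mul]
    exact h1

/-- the mask of all growth vectors -/
def gmB (B : ℕ) : ℕ → ℕ → ℕ → ℕ → ℕ
  | 0, _, c, _ => 2 ^ c
  | n + 1, K, c, s => orx (fun x => gmB B n (if x + 1 = K ∧ K < B then K + 1 else K) (c + x * s) (8 * s)) K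

theorem orx_mem (f : ℕ → ℕ) (n x v : ℕ) (hx : x < n) (h : (f x).testBit v = true) :
    (orx f n).testBit v = true := by
  induction n with
  | zero => omega
  | succ n ih =>
    show (f n ||| orx f n).testBit v = true
    rw [Nat.testBit_or, Bool.or_eq_true]
    rcases Nat.lt_or_ge x n with h1 | h1
    · exact Or.inr (ih h1)
    · have : x = n := by omega
      rw [← this]
      exact Or.inl h

theorem gmB_mem (B : ℕ) : ∀ (n K c s w : ℕ), L7.grn B n K w →
    (gmB B n K c s).testBit (c + w * s) = true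
  | 0, K, c, s, w, h => by
    have h1 : w = 0 := h
    rw [h1, Nat.zero_mul, Nat.add_zero]
    show (2 ^ c).testBit c = true
    rw [Nat.testBit_two_pow_self]
  | n + 1, K, c, s, w, h => by
    have h1 := gmB_mem B n (if w % 8 + 1 = K ∧ K < B then K + 1 else K) (c + w % 8 * s) (8 * s)
      (w / 8) h.2
    have e : c + w % 8 * s + w / 8 * (8 * s) = c + w * s := by
      have : w = w % 8 + w / 8 * 8 := by omega
      conv_rhs => rw [this]
      ring
    rw [e] at h1
    exact orx_mem _ _ (w % 8) _ h.1 h1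

/-! ### dead types of five points -/

/-- the dead types with six labels and three more with seven labels -/
def dt (j : ℕ) : ℕ :=
  bif Nat.ble 526 j then Nat.land (Nat.shiftRight
    (897687616 + 900838464 * 1073741824 + 898372744 * 1152921504606846976) (30 * (j - 526))) 1073741823
  else T5 j

theorem kill5_of_N45 {P : ℕ} (h : P ∈ N45) : Kill 5 P := fun _ _ _ ho =>
  no_N45 P h (ho.real.mono (Nat.zero_le 8))

theorem dt_kill (j : ℕ) (hj : j < 529) : Kill 5 (dt j) := by
  rcases Nat.lt_or_ge j 526 with h | h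
  · have h1 : dt j = T5 j := by
      have h2 : Nat.ble 526 j = false := by
        rw [Bool.eq_false_iff]; intro h3; have := ble_iff.1 h3; omega
      unfold dt
      rw [h2]
      rfl
    rw [h1]
    exact T5_dead j h
  · have h2 : ∀ j, j < 529 → 526 ≤ j → N45.contains (dt j) = true := by decide +kernel
    exact kill5_of_N45 (List.contains_iff_mem.1 (h2 j hj h))

/-- the pattern `P` on the points given by `h` is the dead type `j` -/
noncomputable def dead1 (P h j : ℕ) : Bool :=
  (Nat.beq (L7.bits h 5) 31 && Nat.ble j 528) && Nat.beq (CR.nrm P h EL5 0 0 0) (dt j)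

theorem dead1_sound {P h j : ℕ} (hd : dead1 P h j = true) : Kill 5 P := by
  unfold dead1 at hd
  rw [Bool.and_eq_true, Bool.and_eq_true, beq_iff, ble_iff, beq_iff] at hd
  obtain ⟨⟨h1, h2⟩, h3⟩ := hd
  intro F f g ho
  have hp : L7.Pm 5 h := L7.Pm.of h1
  obtain ⟨⟨g', h4⟩, -⟩ := ho.nrm (by norm_num) edgeList5 h hp.lt hp.inj
  rw [h3] at h4
  exact dt_kill j (by omega) _ _ _ h4

/-- list check -/
def ckl (p : ℕ → Bool) (L : List ℕ) : ℕ → Bool :=
  List.rec (motive := fun _ => ℕ → Bool) (fun D => Nat.beq D 0)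
    (fun x _ ih D => band (p x) (ih (Nat.xor D (Nat.shiftLeft 1 (Nat.land x 4095))))) L

theorem ckl_sound (p : ℕ → Bool) : ∀ (L : List ℕ) (D : ℕ), ckl p L D = true →
    ∀ u, D.testBit u = true → ∃ x, p x = true ∧ Nat.land x 4095 = u
  | [], D, h, u, hu => by
    have h1 : Nat.beq D 0 = true := h
    rw [beq_iff] at h1
    rw [h1, Nat.zero_testBit] at hu
    exact absurd hu (by decide)
  | x :: L, D, h, u, hu => by
    have h1 : band (p x) (ckl p L (Nat.xor D (Nat.shiftLeft 1 (Nat.land x 4095)))) = true := h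
    rw [band_true] at h1
    by_cases hx : Nat.land x 4095 = u
    · exact ⟨x, h1.1, hx⟩
    · refine ckl_sound p L _ h1.2 u ?_
      generalize Nat.land x 4095 = y at hx
      show (D ^^^ (1 <<< y)).testBit u = true
      rw [Nat.testBit_xor, hu, Nat.one_shiftLeft, Nat.testBit_two_pow, decide_eq_false hx]
      rfl

/-- the entry `x` of the list of the K4 type `T` -/
noncomputable def ent5 (T x : ℕ) : Bool :=
  dead1 (T + Nat.land x 4095 * 8 ^ 6) (Nat.land (Nat.shiftRight x 12) 32767) (Nat.shiftRight x 27)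

/-- what we want for the type `i` -/
def E5ok (i : ℕ) : Prop := ∀ (F : Conf 9) (f : ℕ → Fin 9) (g : ℕ → Fin 8) (P : ℕ), L7.grn 7 10 1 P →
  Occ F 5 f g P → P % 8 ^ 6 = Tab.T4 i → (Tab.E5 i).testBit (P / 8 ^ 6) = true

/-- the check for the type `i` -/
noncomputable def e5ck (i K D : ℕ) (L : List ℕ) : Bool :=
  (Nat.beq (grK 7 6 1 (Tab.T4 i)) K &&
    Nat.beq (Nat.land (gmB 7 4 K 0 1) (Nat.lor (Tab.E5 i) D)) (gmB 7 4 K 0 1)) &&
  ckl (ent5 (Tab.T4 i)) L D

theorem grK_mod (B : ℕ) : ∀ (n K P : ℕ), grK B n K (P % 8 ^ n) = grK B n K P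
  | 0, _, _ => rfl
  | n + 1, K, P => by
    have e1 : P % 8 ^ (n + 1) % 8 = P % 8 := by
      rw [pow_succ', Nat.mod_mul_right_mod]
    have e2 : P % 8 ^ (n + 1) / 8 = P / 8 % 8 ^ n := by
      rw [pow_succ', Nat.mod_mul_right_div_self]
    show grK B n (if P % 8 ^ (n + 1) % 8 + 1 = K ∧ K < B then K + 1 else K) (P % 8 ^ (n + 1) / 8) = _
    rw [e1, e2, grK_mod B n]
    rfl

theorem e5ck_sound {i K D : ℕ} {L : List ℕ} (h : e5ck i K D L = true) : E5ok i := by
  unfold e5ck at h
  rw [Bool.and_eq_true, Bool.and_eq_true, beq_iff, beq_iff] at h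
  obtain ⟨⟨h1, h2⟩, h3⟩ := h
  intro F f g P hP ho hPi
  have h4 := grn_split 7 6 4 1 P hP
  rw [← grK_mod 7 6 1 P, hPi, h1] at h4
  have h5 := gmB_mem 7 4 K 0 1 _ h4
  rw [Nat.zero_add, Nat.mul_one, ← h2] at h5
  have h6 : ((gmB 7 4 K 0 1) &&& (Tab.E5 i ||| D)).testBit (P / 8 ^ 6) = true := h5
  rw [Nat.testBit_and, Nat.testBit_or, Bool.and_eq_true, Bool.or_eq_true] at h6
  rcases h6.2 with h7 | h7
  · exact h7
  · obtain ⟨x, h8, h9⟩ := ckl_sound _ L D h3 _ h7
    unfold ent5 at h8
    rw [h9] at h8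
    have h10 := dead1_sound h8
    have e : Tab.T4 i + P / 8 ^ 6 * 8 ^ 6 = P := by
      rw [← hPi]
      omega
    rw [e] at h10
    exact absurd ho (h10 _ _ _)

end CR.L6
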