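import Pool.Agent.Lib.MP_6f5d36_co.L6.Walk

set_option autoImplicit false

/-!
# MP_6f5d36_co : existence of growth labellings
-/

namespace CR.L6

/-- the labels `< fx K` are in use -/
def fx (K : ℕ) : ℕ := if K < 6 then K - 1 else 6

/-- injective on the eight labels -/
def Inj8 (g : ℕ → Fin 8) : Prop := ∀ a b, a < 8 → b < 8 → g a = g b → a = b

theorem good_surj (g : ℕ → Fin 8) (hg : GoodG g) (hi : Inj8 g) (c : Fin 8) (hc : 2 ≤ c.val) :
    ∃ a, a < 6 ∧ g a = c := by
  classical
  have h1 : (Finset.univ.filter fun c : Fin 8 => 2 ≤ c.val) ⊆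
      (Finset.range 6).image g := by
    have h2 : ((Finset.range 6).image g) ⊆ (Finset.univ.filter fun c : Fin 8 => 2 ≤ c.val) := by
      intro x hx
      obtain ⟨a, ha, rfl⟩ := Finset.mem_image.1 hx
      exact Finset.mem_filter.2 ⟨Finset.mem_univ _, hg a (Finset.mem_range.1 ha)⟩
    rw [Finset.eq_of_subset_of_card_le h2]
    rw [Finset.card_image_of_injOn]
    · decide
    · intro a ha b hb hab
      exact hi a b (by have := Finset.mem_range.1 (Finset.mem_coe.1 ha); omega)
        (by have := Finset.mem_range.1 (Finset.mem_coe.1 hb); omega) hab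
  have h3 : c ∈ (Finset.range 6).image g := h1 (Finset.mem_filter.2 ⟨Finset.mem_univ _, hc⟩)
  obtain ⟨a, ha, h4⟩ := Finset.mem_image.1 h3
  exact ⟨a, Finset.mem_range.1 ha, h4⟩

theorem norm_ex : ∀ (n K : ℕ) (c : ℕ → Fin 8) (g : ℕ → Fin 8), 1 ≤ K → K ≤ 6 →
    (∀ k, k < n → 2 ≤ (c k).val) → GoodG g → Inj8 g →
    ∃ (g' : ℕ → Fin 8) (u : ℕ), gro n K u ∧ GoodG g' ∧ Inj8 g' ∧ (∀ a, a < fx K → g' a = g a) ∧
      ∀ k, k < n → c k = g' (od u k)
  | 0, K, c, g, _, _, _, hg, hi => ⟨g, 0, rfl, hg, hi, fun _ _ => rfl, fun k hk => absurd hk (by omega)⟩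
  | n + 1, K, c, g, hK1, hK, hc, hg, hi => by
    obtain ⟨a, ha, hga⟩ := good_surj g hg hi (c 0) (hc 0 (by omega))
    have hdig : ∀ (x u k : ℕ), x < 8 → od (x + 8 * u) k = if k = 0 then x else od u (k - 1) := by
      intro x u k hx
      have h1 := od_add_mul x u 1 k (by norm_num; exact hx)
      rw [pow_one, Nat.mul_comm u 8] at h1
      rw [h1]
      by_cases hk : k = 0
      · subst hk
        simp only [od, pow_zero, Nat.div_one]
        rw [if_pos (by norm_num), if_pos trivial]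
        omega
      · rw [if_neg (by omega), if_neg hk]
    rcases Nat.lt_or_ge a (fx K) with h1 | h1
    · -- an old label
      have hKx : nxt K a = K := by
        unfold nxt
        unfold fx at h1
        split_ifs at h1 with h2
        · rw [if_neg (by omega)]
        · rw [if_neg (by omega)]
      obtain ⟨g', u, h2, h3, h4, h5, h6⟩ := norm_ex n K (fun k => c (k + 1)) g hK1 hK
        (fun k hk => hc (k + 1) (by omega)) hg hi
      refine ⟨g', a + 8 * u, ⟨?_, ?_⟩, h3, h4, h5, ?_⟩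
      · unfold fx at h1
        split_ifs at h1 <;> omega
      · have e1 : (a + 8 * u) % 8 = a := by omega
        have e2 : (a + 8 * u) / 8 = u := by omega
        rw [e1, e2]
        show gro n (nxt K a) u
        rw [hKx]
        exact h2
      · intro k hk
        rw [hdig a u k (by omega)]
        by_cases hk0 : k = 0
        · subst hk0
          rw [if_pos rfl, h5 a h1, hga]
        · rw [if_neg hk0, ← h6 (k - 1) (by omega)]
          show c k = c (k - 1 + 1)
          congr 1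
          omega
    · -- a new label
      have hK6 : K < 6 := by
        unfold fx at h1
        split_ifs at h1 with h2
        · exact h2
        · omega
      have hfx : fx K = K - 1 := by unfold fx; rw [if_pos hK6]
      rw [hfx] at h1
      obtain ⟨y, rfl⟩ : ∃ y, K = y + 1 := ⟨K - 1, by omega⟩
      have hy : y + 1 - 1 = y := rfl
      rw [hy] at h1
      set g1 : ℕ → Fin 8 := fun b => g (Equiv.swap y a b) with hg1
      have hswap : ∀ b, b < 6 → Equiv.swap y a b < 6 := by
        intro b hb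
        rw [Equiv.swap_apply_def]
        split_ifs <;> omega
      have hswap8 : ∀ b, b < 8 → Equiv.swap y a b < 8 := by
        intro b hb
        rw [Equiv.swap_apply_def]
        split_ifs <;> omega
      have hgood1 : GoodG g1 := fun b hb => hg _ (hswap b hb)
      have hinj1 : Inj8 g1 := fun b d hb hd h => (Equiv.swap y a).injective
        (hi _ _ (hswap8 b hb) (hswap8 d hd) h)
      have hKx : nxt (y + 1) y = y + 1 + 1 := by
        unfold nxt
        rw [if_pos ⟨rfl, hK6⟩]
      obtain ⟨g', u, h2, h3, h4, h5, h6⟩ := norm_ex n (y + 1 + 1) (fun k => c (k + 1)) g1 (by omega)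
        (by omega) (fun k hk => hc (k + 1) (by omega)) hgood1 hinj1
      have hfx2 : ∀ b, b ≤ y → b < fx (y + 1 + 1) := by
        intro b hb
        unfold fx
        split_ifs <;> omega
      refine ⟨g', y + 8 * u, ⟨?_, ?_⟩, h3, h4, ?_, ?_⟩
      · omega
      · have e1 : (y + 8 * u) % 8 = y := by omega
        have e2 : (y + 8 * u) / 8 = u := by omega
        rw [e1, e2]
        show gro n (nxt (y + 1) y) u
        rw [hKx]
        exact h2
      · intro b hb
        rw [hfx, hy] at hb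
        rw [h5 b (hfx2 b (by omega))]
        show g (Equiv.swap y a b) = g b
        rw [Equiv.swap_apply_of_ne_of_ne (by omega) (by omega)]
      · intro k hk
        rw [hdig y u k (by omega)]
        by_cases hk0 : k = 0
        · subst hk0
          rw [if_pos rfl, h5 y (hfx2 y le_rfl), ← hga]
          show g a = g (Equiv.swap y a y)
          rw [Equiv.swap_apply_left]
        · rw [if_neg hk0, ← h6 (k - 1) (by omega)]
          show c k = c (k - 1 + 1)
          congr 1
          omega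

/-! ### edges -/

/-- smaller end of the edge number `k` -/
def ei (k : ℕ) : ℕ := [0, 0, 1, 0, 1, 2, 0, 1, 2, 3, 0, 1, 2, 3, 4].getD k 0

/-- larger end of the edge number `k` -/
def ej (k : ℕ) : ℕ := [1, 2, 2, 3, 3, 3, 4, 4, 4, 4, 5, 5, 5, 5, 5].getD k 0

theorem eij : ∀ b, b < 6 → ∀ a, a < b → ei (eo a b) = a ∧ ej (eo a b) = b := by decide

theorem eij_lt : ∀ k, k < 15 → ei k < ej k ∧ ej k < 6 := by decide

theorem eij_lt5 : ∀ k, k < 10 → ei k < ej k ∧ ej k < 5 := by decide

theorem exists_good : ∃ g : ℕ → Fin 8, GoodG g ∧ Inj8 g := by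
  refine ⟨fun a => if a < 6 then Fin.ofNat 8 (a + 2) else Fin.ofNat 8 (a - 6), ?_, ?_⟩
  · unfold GoodG
    decide
  · unfold Inj8
    have h : ∀ b, b < 8 → ∀ a, a < 8 → (if a < 6 then Fin.ofNat 8 (a + 2) else Fin.ofNat 8 (a - 6)) =
      (if b < 6 then Fin.ofNat 8 (b + 2) else Fin.ofNat 8 (b - 6)) → a = b := by decide
    exact fun a b ha hb => h b hb a ha

/-- five points with big colours have a growth string -/
theorem occ5 {F : Conf 9} {f : ℕ → Fin 9} (hf : ∀ i j, i < 5 → j < 5 → f i = f j → i = j)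
    (hb : ∀ i j, i < j → j < 5 → 2 ≤ (F.c (f i) (f j)).val) :
    ∃ g P, gro 10 1 P ∧ GoodG g ∧ Occ F 5 f g P := by
  obtain ⟨g0, h1, h2⟩ := exists_good
  obtain ⟨g, P, a1, a2, a3, -, a5⟩ := norm_ex 10 1 (fun k => F.c (f (ei k)) (f (ej k))) g0 le_rfl
    (by norm_num) (fun k hk => hb _ _ (eij_lt5 k hk).1 (eij_lt5 k hk).2) h1 h2
  refine ⟨g, P, a1, a2, ⟨hf, a3, ?_⟩⟩
  intro i j hij hj
  have h3 : eo i j < 10 := by
    have key : ∀ b, b < 5 → ∀ a, a < b → eo a b < 10 := by decide
    exact key j hj i hij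
  have h4 := a5 (eo i j) h3
  obtain ⟨e1, e2⟩ := eij j (by omega) i hij
  rw [lab_eq_od]
  simp only [e1, e2] at h4
  exact h4

/-- the sixth point -/
theorem occ6 {F : Conf 9} {f : ℕ → Fin 9} {g : ℕ → Fin 8} {T K : ℕ}
    (hf : ∀ i j, i < 6 → j < 6 → f i = f j → i = j)
    (hb : ∀ i, i < 5 → 2 ≤ (F.c (f i) (f 5)).val) (ho : Occ F 5 f g T) (hg : GoodG g)
    (hT : T < 8 ^ 10) (hK1 : 1 ≤ K) (hK : K ≤ 6) (hTK : ∀ e, e < 10 → od T e < fx K) :
    ∃ g' u, gro 5 K u ∧ GoodG g' ∧ Occ F 6 f g' (T + u * 8 ^ 10) := by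
  obtain ⟨g', u, a1, a2, a3, a4, a5⟩ := norm_ex 5 K (fun k => F.c (f k) (f 5)) g hK1 hK hb hg ho.ginj
  refine ⟨g', u, a1, a2, ⟨hf, a3, ?_⟩⟩
  intro i j hij hj
  rw [lab_eq_od, od_add_mul _ _ _ _ hT]
  have key : ∀ b, b < 6 → ∀ a, a < b → (b < 5 ∧ eo a b < 10) ∨ (b = 5 ∧ eo a b = 10 + a) := by decide
  rcases key j hj i hij with ⟨h1, h2⟩ | ⟨h1, h2⟩
  · rw [if_pos h2, a4 _ (hTK _ h2), ← lab_eq_od]
    exact ho.col i j hij h1
  · rw [if_neg (by omega), h2, Nat.add_sub_cancel_left, h1]
    exact a5 i (by omega)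

end CR.L6
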