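import Pool.Agent.Lib.MP_6f5d36_co.L6.Main
import Pool.Agent.Lib.MP_6f5d36_co.L6.E5
import Pool.Agent.Lib.MP_6f5d36_co.Link7

set_option autoImplicit false

/-!
# MP_6f5d36_co : levels five and six in the forms of level seven; the rank of six points
-/

namespace CR.L6

theorem e6H : L7.E6H := fun _ _ _ _ _ _ h2 h3 ho => e6' h2 (fun _ => h3) ho

theorem e5H : L7.E5H := fun F f g P i => e5 F f g P i

theorem l6H : L7.L6H := fun _ _ hf => by
  obtain ⟨j, u, p, g, h1, h2, h3, h4, -, h6, -, h8⟩ := L6 hf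
  exact ⟨j, u, p, g, h1, h2, h3, h4, h6, h8⟩

/-- **six points without bad edges have a rank** -/
theorem rank6 : Rank6 Tab.nr Tab.reps := L7.rank6 e6H e5H l6H

end CR.L6
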