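import Pool.Agent.Lib.MP_6f5d36_co.L6.Types
import Pool.Agent.Lib.MP_6f5d36_co.L6.Exi

set_option autoImplicit false

/-!
# MP_6f5d36_co : every growth string of five points is a type (checker)
-/

namespace CR.L6

noncomputable section

/-- the pattern `P` of five points, permuted, is the type `j` -/
def ptr5 (TT P h : ℕ) : Bool :=
  frc (Nat.land h 2047) fun j =>
  frc (Nat.land (Nat.shiftRight h 11) 1023) fun v =>
  frc (Nat.land (Nat.shiftRight h 21) 1023) fun w =>
  band (Nat.beq (Nat.shiftRight (pc v) 15) 5)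
    (band (Nat.ble j 1204)
      (Nat.beq (Nat.land (G15 P (ep v)) 1073741823) (R10 (pc w) (tj TT j))))

/-- the leaf: `B` = the first five labels, `c` = the other five -/
def leaf5 (TT B H c p : ℕ) : Bool :=
  frc (Nat.add B (Nat.mul c 32768)) fun P =>
  frc (Nat.land (Nat.shiftRight H (Nat.mul 31 p)) 2147483647) fun h => ptr5 TT P h

end

/-- the pattern `P` has a type -/
def X5 (P : ℕ) : Prop := ∃ j v w, j < 1205 ∧ v < 1024 ∧ w < 1024 ∧ od (pc v) 5 = 5 ∧
  G15 P (ep v) % 8 ^ 10 = R10 (pc w) (T5 j)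

theorem ptr5_sound {P h : ℕ} (hp : ptr5 TT P h = true) : X5 P := by
  have hj : Nat.land h 2047 < 2048 := land_lt h 11 _ rfl
  have hv : Nat.land (Nat.shiftRight h 11) 1023 < 1024 := land_lt _ 10 _ rfl
  have hw : Nat.land (Nat.shiftRight h 21) 1023 < 1024 := land_lt _ 10 _ rfl
  unfold ptr5 at hp
  simp only [frc_eq] at hp
  generalize Nat.land h 2047 = j at hp hj
  generalize Nat.land (Nat.shiftRight h 11) 1023 = v at hp hv
  generalize Nat.land (Nat.shiftRight h 21) 1023 = w at hp hw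
  rw [band_true, band_true, beq_iff, ble_iff, beq_iff, land30] at hp
  refine ⟨j, v, w, by omega, hv, hw, ?_, hp.2.2⟩
  have h1 : pc v < 8 ^ 6 := by
    have := land_lt (ent v) 18 262143 rfl
    exact this
  have h2 := od_top (pc v) 5 h1
  have h3 : Nat.shiftRight (pc v) 15 = pc v / 8 ^ 5 := by
    show pc v >>> 15 = _
    rw [Nat.shiftRight_eq_div_pow]
    norm_num
  rw [← h2, ← h3]
  exact hp.1

/-- the prefix `B` -/
def W5 (B : ℕ) : Prop := ∀ b, gro 5 (groK 5 1 B) b → X5 (B + b * 8 ^ 5)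

theorem W5_of {B K : ℕ} {Hs : List ℕ} (h : wl (leaf5 TT B) Hs K 0 = true)
    (hc : Nat.beq (groK 5 1 B) K = true ∧ Nat.ble K 6 = true) : W5 B := by
  obtain ⟨h1, h2⟩ := hc
  rw [beq_iff] at h1
  rw [ble_iff] at h2
  intro b hb
  rw [h1] at hb
  obtain ⟨H, p, hp⟩ := wl_all _ _ _ h2 h b hb
  unfold leaf5 at hp
  simp only [frc_eq] at hp
  have h3 := ptr5_sound hp
  have e : Nat.add B (Nat.mul b 32768) = B + b * 8 ^ 5 := by
    simp only [Nat.add_eq, Nat.mul_eq]
    norm_num
  rw [e] at h3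
  exact h3

theorem G15_lab (P v : ℕ) (hv : v < 1024) (a b : ℕ) (hab : a < b) (hb : b < 6) :
    od (G15 P (ep v)) (eo a b) = labs P (od (pc v) a) (od (pc v) b) := by
  have hq : ∀ e, e < 15 → fe (ep v) e = 3 * qe v e := by
    intro e he
    obtain ⟨b, hb, a, hab, rfl⟩ := edge_ex e he
    have h1 := (tok v hv).2.1 b hb a hab
    unfold qe
    omega
  have he : eo a b < 15 := by
    have key : ∀ b, b < 6 → ∀ a, a < b → eo a b < 15 := by decide
    exact key b hb a hab
  rw [G15_eq _ _ (qe v) hq, od_sum 15 _ (fun e _ => od_lt _ _) _ he]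
  have h1 := (tok v hv).2.1 b hb a hab
  have h2 : qe v (eo a b) = es (od (pc v) a) (od (pc v) b) := by
    unfold qe; rw [h1, Nat.mul_div_cancel_left _ (by norm_num)]
  rw [h2]
  unfold es labs
  split_ifs
  · rw [lab_eq_od]
  · rw [lab_eq_od]

/-- a pattern with a type -/
theorem X5.occ {F : Conf 9} {f : ℕ → Fin 9} {g : ℕ → Fin 8} {P : ℕ} (hX : X5 P)
    (ho : Occ F 5 f g P) : ∃ j v w, j < 1205 ∧ v < 1024 ∧ w < 1024 ∧ od (pc v) 5 = 5 ∧
      Occ F 5 (fun i => f (od (pc v) i)) (fun a => g (qm w a)) (T5 j) := by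
  obtain ⟨j, v, w, hj, hv, hw, h5, h⟩ := hX
  refine ⟨j, v, w, hj, hv, hw, h5, ?_⟩
  have hlt : ∀ i, i < 5 → od (pc v) i < 5 := by
    intro i hi
    have h1 := ((tok v hv).1 i (by omega)).1
    have h2 : od (pc v) i ≠ 5 := by
      intro h3
      have := pc_inj v hv i 5 (by omega) (by norm_num) (by rw [h3, h5])
      omega
    omega
  apply ho.emb (m' := 5) (fun i => od (pc v) i) (qm w) hlt
  · intro i j hi hj hij
    exact pc_inj v hv i j (by omega) (by omega) hij
  · exact qm_lt w hw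
  · exact qm_inj w hw
  · intro a b hab hb
    have he : eo a b < 10 := by
      have key : ∀ b, b < 5 → ∀ a, a < b → eo a b < 10 := by decide
      exact key b hb a hab
    rw [← G15_lab P v hv a b hab (by omega), ← od_mod _ 10 _ he, h, R10_eq,
      od_sum 10 _ (fun e _ => od_lt _ _) _ he, lab_eq_od]
    unfold qm
    have hd : od (T5 j) (eo a b) < 6 := T5_dig j _ (by omega) he
    rw [if_pos hd]

end CR.L6
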