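import Pool.Agent.Lib.MP_6f5d36_co.L6.Tbl

set_option autoImplicit false

/-!
# MP_6f5d36_co : soundness of the pointers of level 6
-/

namespace CR.L6

theorem tp_eq (n t : ℕ) (h : tp n (6 * t) % 3 = 0) (x : ℕ) :
    Nat.shiftLeft x (tp n (6 * t)) = x * 8 ^ (tp n (6 * t) / 3) := by
  show x <<< (tp n (6 * t)) = _
  rw [Nat.shiftLeft_eq]
  congr 1
  have h1 : tp n (6 * t) = 3 * (tp n (6 * t) / 3) := by omega
  conv_lhs => rw [h1]
  rw [pow_mul]
  norm_num

theorem rec_sum (f : ℕ → ℕ) (n : ℕ) :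
    (Nat.rec 0 (fun e s => s + f e) n : ℕ) = ∑ e ∈ Finset.range n, f e := by
  induction n with
  | zero => rfl
  | succ n ih => rw [Finset.sum_range_succ, ← ih]

theorem scat_eq (c n : ℕ) (hc : c < 8 ^ 5) (hn : n < 1024) :
    scat c n = ∑ t ∈ Finset.range 5, od c t * 8 ^ (tp n (6 * t) / 3) := by
  have h := fun t ht => (((tok n hn).2.2) t ht).1
  have h' : ∀ t, t < 5 → Nat.shiftLeft (Nat.land (Nat.shiftRight c (3 * t)) 7) (tp n (6 * t)) =
      od c t * 8 ^ (tp n (6 * t) / 3) := fun t ht => by rw [land7, tp_eq n t (h t ht)]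
  have h4 : Nat.shiftRight c 12 = Nat.land (Nat.shiftRight c (3 * 4)) 7 := by
    rw [land7, ← od_top c 4 hc]
    show c >>> 12 = _
    rw [Nat.shiftRight_eq_div_pow]
    norm_num
  have e0 := h' 0 (by norm_num)
  have e1 := h' 1 (by norm_num)
  have e2 := h' 2 (by norm_num)
  have e3 := h' 3 (by norm_num)
  have e4 := h' 4 (by norm_num)
  have hz : Nat.land c 7 = Nat.land (Nat.shiftRight c (3 * 0)) 7 := rfl
  unfold scat
  rw [h4, hz]
  norm_num only at e0 e1 e2 e3 e4 ⊢
  rw [e0, e1, e2, e3, e4]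
  simp only [Nat.add_eq, Finset.sum_range_succ, Finset.sum_range_zero]
  ring

/-- **digits of the pattern on the permuted points** -/
theorem R_eq (B c n : ℕ) (hB : B < 8 ^ 10) (hc : c < 8 ^ 5) (hn : n < 1024) :
    Nat.add (G15 B (ep n)) (scat c n) =
      ∑ e ∈ Finset.range 15, od (B + c * 8 ^ 10) (qe n e) * 8 ^ e := by
  have hq : ∀ e, e < 15 → fe (ep n) e = 3 * qe n e ∧ qe n e < 15 := by
    intro e he
    obtain ⟨b, hb, a, hab, rfl⟩ := edge_ex e he
    have h1 := (tok n hn).2.1 b hb a hab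
    have h2 : qe n (eo a b) = es (od (pc n) a) (od (pc n) b) := by
      unfold qe; rw [h1, Nat.mul_div_cancel_left _ (by norm_num)]
    refine ⟨by rw [h1, h2], ?_⟩
    rw [h2]
    obtain ⟨pa, -, ia, -⟩ := (tok n hn).1 a (by omega)
    obtain ⟨pb, -, ib, -⟩ := (tok n hn).1 b hb
    have hne : od (pc n) a ≠ od (pc n) b := by
      intro h3
      rw [h3, ib] at ia
      omega
    generalize od (pc n) a = x at pa hne
    generalize od (pc n) b = y at pb hne
    have key : ∀ x, x < 6 → ∀ y, y < 6 → x ≠ y → es x y < 15 := by decide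
    exact key x pa y pb hne
  rw [Nat.add_eq, G15_eq _ _ (qe n) (fun e he => (hq e he).1), scat_eq c n hc hn]
  have h1 : ∀ t, t < 5 → 8 ^ (tp n (6 * t) / 3) =
      ∑ e ∈ Finset.range 15, (if fe (ep n) e = 3 * (10 + t) then 8 ^ e else 0) := by
    intro t ht
    rw [← rec_sum]
    exact (((tok n hn).2.2 t ht).2).symm
  have h2 : ∑ t ∈ Finset.range 5, od c t * 8 ^ (tp n (6 * t) / 3) =
      ∑ e ∈ Finset.range 15, ∑ t ∈ Finset.range 5,
        od c t * (if fe (ep n) e = 3 * (10 + t) then 8 ^ e else 0) := by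
    rw [Finset.sum_comm]
    apply Finset.sum_congr rfl
    intro t ht
    rw [h1 t (Finset.mem_range.1 ht), Finset.mul_sum]
  rw [h2, ← Finset.sum_add_distrib]
  apply Finset.sum_congr rfl
  intro e he
  obtain ⟨h3, h4⟩ := hq e (Finset.mem_range.1 he)
  rw [od_add_mul _ _ _ _ hB, h3]
  by_cases h5 : qe n e < 10
  · rw [if_pos h5]
    have h6 : ∑ t ∈ Finset.range 5, od c t * (if 3 * qe n e = 3 * (10 + t) then 8 ^ e else 0) = 0 := by
      apply Finset.sum_eq_zero
      intro t _
      rw [if_neg (by omega), Nat.mul_zero]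
    rw [h6, Nat.add_zero]
  · rw [if_neg h5, od_zero_of_lt B 10 _ hB (by omega), Nat.zero_mul, Nat.zero_add]
    rw [Finset.sum_eq_single (qe n e - 10)]
    · rw [if_pos (by omega)]
    · intro t _ ht
      rw [if_neg (by omega), Nat.mul_zero]
    · intro h7
      exact absurd (Finset.mem_range.2 (by omega)) h7

theorem R_lab (B c n : ℕ) (hB : B < 8 ^ 10) (hc : c < 8 ^ 5) (hn : n < 1024) (a b : ℕ) (hab : a < b)
    (hb : b < 6) : od (Nat.add (G15 B (ep n)) (scat c n)) (eo a b) =
      labs (B + c * 8 ^ 10) (od (pc n) a) (od (pc n) b) := by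
  have he : eo a b < 15 := by
    have key : ∀ b, b < 6 → ∀ a, a < b → eo a b < 15 := by decide
    exact key b hb a hab
  rw [R_eq B c n hB hc hn, od_sum 15 _ (fun e _ => od_lt _ _) _ he]
  have h1 := (tok n hn).2.1 b hb a hab
  have h2 : qe n (eo a b) = es (od (pc n) a) (od (pc n) b) := by
    unfold qe; rw [h1, Nat.mul_div_cancel_left _ (by norm_num)]
  rw [h2]
  unfold es labs
  split_ifs
  · rw [lab_eq_od]
  · rw [lab_eq_od]

theorem R_lt (B c n : ℕ) (hB : B < 8 ^ 10) (hc : c < 8 ^ 5) (hn : n < 1024) :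
    Nat.add (G15 B (ep n)) (scat c n) < 8 ^ 15 := by
  rw [R_eq B c n hB hc hn]
  exact sum_lt 15 _ (fun e _ => od_lt _ _)

/-- the label map: a permutation of `0..5`, identity on the other labels -/
def qm (w a : ℕ) : ℕ := if a < 6 then od (pc w) a else a

theorem qm_lt (w : ℕ) (hw : w < 1024) (a : ℕ) (ha : a < 8) : qm w a < 8 := by
  unfold qm
  split_ifs with h
  · have := ((tok w hw).1 a h).1
    omega
  · exact ha

theorem qm_inj (w : ℕ) (hw : w < 1024) (a b : ℕ) (_ : a < 8) (_ : b < 8) (h : qm w a = qm w b) :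
    a = b := by
  unfold qm at h
  split_ifs at h with h1 h2 h2
  · rw [← ((tok w hw).1 a h1).2.2.1, ← ((tok w hw).1 b h2).2.2.1, h]
  · have := ((tok w hw).1 a h1).1
    omega
  · have := ((tok w hw).1 b h2).1
    omega
  · exact h

theorem pc_inj (n : ℕ) (hn : n < 1024) (a b : ℕ) (ha : a < 6) (hb : b < 6)
    (h : od (pc n) a = od (pc n) b) : a = b := by
  rw [← ((tok n hn).1 a ha).2.2.1, ← ((tok n hn).1 b hb).2.2.1, h]

/-- no occurrence -/
def Kill (m N : ℕ) : Prop := ∀ (F : Conf 9) (f : ℕ → Fin 9) (g : ℕ → Fin 8), ¬ Occ F m f g N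

theorem land30 (R : ℕ) : Nat.land R 1073741823 = R % 8 ^ 10 := by
  have := Nat.and_two_pow_sub_one_eq_mod R 30
  norm_num at this ⊢
  exact this

theorem od_mod (R n e : ℕ) (he : e < n) : od (R % 8 ^ n) e = od R e := by
  have h1 := od_add_mul (R % 8 ^ n) (R / 8 ^ n) n e (Nat.mod_lt _ (by positivity))
  rw [if_pos he, Nat.mod_add_div'] at h1
  exact h1.symm

theorem od_div (R n e : ℕ) : od (R / 8 ^ n) e = od R (n + e) := by
  unfold od
  rw [Nat.div_div_eq_div_mul, ← pow_add]

/-- the pattern of five points with a smaller type -/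
theorem Occ.five {F : Conf 9} {f : ℕ → Fin 9} {g : ℕ → Fin 8} {B c v w T : ℕ}
    (ho : Occ F 6 f g (B + c * 8 ^ 10)) (hB : B < 8 ^ 10) (hc : c < 8 ^ 5) (hv : v < 1024)
    (hw : w < 1024) (hT : ∀ e, e < 10 → od T e < 6)
    (h : Nat.add (G15 B (ep v)) (scat c v) % 8 ^ 10 = R10 (pc w) T) :
    Occ F 5 (fun i => f (od (pc v) i)) (fun a => g (qm w a)) T := by
  apply ho.emb (m' := 5) (fun i => od (pc v) i) (qm w)
  · intro i hi
    exact ((tok v hv).1 i (by omega)).1
  · intro i j hi hj hij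
    exact pc_inj v hv i j (by omega) (by omega) hij
  · exact qm_lt w hw
  · exact qm_inj w hw
  · intro i j hij hj
    have he : eo i j < 10 := by
      have key : ∀ b, b < 5 → ∀ a, a < b → eo a b < 10 := by decide
      exact key j hj i hij
    rw [← R_lab B c v hB hc hv i j hij (by omega), ← od_mod _ 10 _ he, h, R10_eq,
      od_sum 10 _ (fun e _ => od_lt _ _) _ he, lab_eq_od]
    unfold qm
    rw [if_pos (hT _ he)]

/-- the pattern of six points in the frame of a type -/
theorem Occ.six {F : Conf 9} {f : ℕ → Fin 9} {g : ℕ → Fin 8} {B c v w T : ℕ}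
    (ho : Occ F 6 f g (B + c * 8 ^ 10)) (hB : B < 8 ^ 10) (hc : c < 8 ^ 5) (hv : v < 1024)
    (hw : w < 1024) (hT : ∀ e, e < 10 → od T e < 6) (hTl : T < 8 ^ 10)
    (hB6 : ∀ e, e < 10 → od B e < 6) (hc6 : ∀ e, e < 5 → od c e < 6)
    (h : Nat.add (G15 B (ep v)) (scat c v) % 8 ^ 10 = R10 (pc w) T) :
    Occ F 6 (fun i => f (od (pc v) i)) (fun a => g (qm w a))
      (T + U5 (ic w) (Nat.add (G15 B (ep v)) (scat c v) / 8 ^ 10) * 8 ^ 10) := by
  apply ho.emb (m' := 6) (fun i => od (pc v) i) (qm w)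
  · intro i hi
    exact ((tok v hv).1 i hi).1
  · intro i j hi hj hij
    exact pc_inj v hv i j hi hj hij
  · exact qm_lt w hw
  · exact qm_inj w hw
  · intro i j hij hj
    have he : eo i j < 15 := by
      have key : ∀ b, b < 6 → ∀ a, a < b → eo a b < 15 := by decide
      exact key j hj i hij
    rw [← R_lab B c v hB hc hv i j hij hj, lab_eq_od, od_add_mul _ _ _ _ hTl]
    by_cases h1 : eo i j < 10
    · rw [if_pos h1, ← od_mod _ 10 _ h1, h, R10_eq, od_sum 10 _ (fun e _ => od_lt _ _) _ h1]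
      unfold qm
      rw [if_pos (hT _ h1)]
    · rw [if_neg h1, U5_eq, od_sum 5 _ (fun e _ => od_lt _ _) _ (by omega), od_div]
      have h2 : 10 + (eo i j - 10) = eo i j := by omega
      rw [h2]
      have h3 : od (Nat.add (G15 B (ep v)) (scat c v)) (eo i j) < 6 := by
        rw [R_eq B c v hB hc hv, od_sum 15 _ (fun e _ => od_lt _ _) _ he, od_add_mul _ _ _ _ hB]
        have h4 : qe v (eo i j) < 15 := by
          have h5 := (tok v hv).2.1 j hj i hij
          have h6 : qe v (eo i j) = es (od (pc v) i) (od (pc v) j) := by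
            unfold qe; rw [h5, Nat.mul_div_cancel_left _ (by norm_num)]
          rw [h6]
          have hne : od (pc v) i ≠ od (pc v) j := fun h7 => by
            have := pc_inj v hv i j (by omega) hj h7
            omega
          have key : ∀ x, x < 6 → ∀ y, y < 6 → x ≠ y → es x y < 15 := by decide
          exact key _ ((tok v hv).1 i (by omega)).1 _ ((tok v hv).1 j hj).1 hne
        split_ifs with h5
        · exact hB6 _ h5
        · exact hc6 _ (by omega)
      generalize od (Nat.add (G15 B (ep v)) (scat c v)) (eo i j) = x at h3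
      obtain ⟨-, i6, -, pi⟩ := (tok w hw).1 x h3
      unfold qm
      rw [if_pos i6, pi]

end CR.L6
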