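import Pool.Agent.Lib.MP_6f5d36_co.L6.Dig

set_option autoImplicit false

/-!
# MP_6f5d36_co : the table of permutations is right
-/

namespace CR.L6

/-- the number of the edge with the ends `a ≠ b` -/
def es (a b : ℕ) : ℕ := if a < b then eo a b else eo b a

/-- the field `e` of the edge positions, divided by three -/
def qe (n e : ℕ) : ℕ := fe (ep n) e / 3

/-- the entry `n` is a permutation with its inverse and edge positions -/
def TOk (n : ℕ) : Prop :=
  (∀ a, a < 6 → od (pc n) a < 6 ∧ od (ic n) a < 6 ∧ od (ic n) (od (pc n) a) = a ∧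
    od (pc n) (od (ic n) a) = a) ∧
  (∀ b, b < 6 → ∀ a, a < b → fe (ep n) (eo a b) = 3 * es (od (pc n) a) (od (pc n) b)) ∧
  (∀ t, t < 5 → tp n (6 * t) % 3 = 0 ∧
    (Nat.rec 0 (fun e s => s + (if fe (ep n) e = 3 * (10 + t) then 8 ^ e else 0)) 15 : ℕ) =
      8 ^ (tp n (6 * t) / 3))

instance (n : ℕ) : Decidable (TOk n) := by unfold TOk; infer_instance

set_option maxRecDepth 20000 in
theorem tok0 : ∀ n, n < 256 → TOk n := by decide +kernel

set_option maxRecDepth 20000 in
theorem tok1 : ∀ n, n < 256 → TOk (256 + n) := by decide +kernel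

set_option maxRecDepth 20000 in
theorem tok2 : ∀ n, n < 256 → TOk (512 + n) := by decide +kernel

set_option maxRecDepth 20000 in
theorem tok3 : ∀ n, n < 256 → TOk (768 + n) := by decide +kernel

theorem tok (n : ℕ) (h : n < 1024) : TOk n := by
  rcases Nat.lt_or_ge n 256 with h0 | h0
  · exact tok0 n h0
  rcases Nat.lt_or_ge n 512 with h1 | h1
  · obtain ⟨k, rfl⟩ := Nat.exists_eq_add_of_le h0
    exact tok1 k (by omega)
  rcases Nat.lt_or_ge n 768 with h2 | h2
  · obtain ⟨k, rfl⟩ := Nat.exists_eq_add_of_le h1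
    exact tok2 k (by omega)
  · obtain ⟨k, rfl⟩ := Nat.exists_eq_add_of_le h2
    exact tok3 k (by omega)

theorem edge_ex : ∀ e, e < 15 → ∃ b, b < 6 ∧ ∃ a, a < b ∧ eo a b = e := by decide

end CR.L6
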