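import Pool.Agent.Lib.MP_6f5d36_co.L6.V0
import Pool.Agent.Lib.MP_6f5d36_co.L6.V1

set_option autoImplicit false

/-!
# MP_6f5d36_co : every growth string of five points is a type
-/

namespace CR.L6

/-- the growth strings of length five -/
def PL : List ℕ := [0, 4096, 512, 4608, 8704, 64, 4160, 8256, 576, 4672, 8768, 1088, 5184, 9280, 13376, 8, 4104, 8200, 520, 4616, 8712, 1032, 5128, 9224, 13320, 72, 4168, 8264, 584, 4680, 8776, 1096, 5192, 9288, 13384, 136, 4232, 8328, 12424, 648, 4744, 8840, 12936, 1160, 5256, 9352, 13448, 1672, 5768, 9864, 13960, 18056]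

theorem PL_wl : wl (fun _ u _ => PL.contains u) [0] 1 0 = true := by decide +kernel

theorem PL_all (a : ℕ) (h : gro 5 1 a) : PL.contains a = true := by
  obtain ⟨_, _, h1⟩ := wl_all _ _ _ (by norm_num) PL_wl a h
  exact h1

theorem PL_W5 : ∀ a ∈ PL, W5 a := by
  intro a ha
  simp only [PL, List.mem_cons, List.not_mem_nil, or_false] at ha
  rcases ha with rfl | rfl | rfl | rfl | rfl | rfl | rfl | rfl | rfl | rfl | rfl | rfl | rfl | rfl | rfl | rfl | rfl | rfl | rfl | rfl | rfl | rfl | rfl | rfl | rfl | rfl | rfl | rfl | rfl | rfl | rfl | rfl | rfl | rfl | rfl | rfl | rfl | rfl | rfl | rfl | rfl | rfl | rfl | rfl | rfl | rfl | rfl | rfl | rfl | rfl | rfl | rfl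
  · exact p5_0
  · exact p5_4096
  · exact p5_512
  · exact p5_4608
  · exact p5_8704
  · exact p5_64
  · exact p5_4160
  · exact p5_8256
  · exact p5_576
  · exact p5_4672
  · exact p5_8768
  · exact p5_1088
  · exact p5_5184
  · exact p5_9280
  · exact p5_13376
  · exact p5_8
  · exact p5_4104
  · exact p5_8200
  · exact p5_520
  · exact p5_4616
  · exact p5_8712
  · exact p5_1032
  · exact p5_5128
  · exact p5_9224
  · exact p5_13320
  · exact p5_72
  · exact p5_4168
  · exact p5_8264
  · exact p5_584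
  · exact p5_4680
  · exact p5_8776
  · exact p5_1096
  · exact p5_5192
  · exact p5_9288
  · exact p5_13384
  · exact p5_136
  · exact p5_4232
  · exact p5_8328
  · exact p5_12424
  · exact p5_648
  · exact p5_4744
  · exact p5_8840
  · exact p5_12936
  · exact p5_1160
  · exact p5_5256
  · exact p5_9352
  · exact p5_13448
  · exact p5_1672
  · exact p5_5768
  · exact p5_9864
  · exact p5_13960
  · exact p5_18056

theorem all5 (P : ℕ) (h : gro 10 1 P) : X5 P := by
  have h1 : P % 8 ^ 5 < 8 ^ 5 := Nat.mod_lt _ (by norm_num)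
  have h2 := (gro_split 5 5 1 (P % 8 ^ 5) (P / 8 ^ 5) h1).1 (by rw [Nat.mod_add_div']; exact h)
  have h3 := PL_W5 _ (List.contains_iff_mem.1 (PL_all _ h2.1)) _ h2.2
  rw [Nat.mod_add_div'] at h3
  exact h3

end CR.L6
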