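import Pool.Agent.Lib.MP_6f5d36_co.L6.Ptr

set_option autoImplicit false

/-!
# MP_6f5d36_co : soundness of the walk over the growth vectors
-/

namespace CR.L6

theorem beq_iff {a b : ℕ} : Nat.beq a b = true ↔ a = b := by rw [Nat.beq_eq]

theorem ble_iff {a b : ℕ} : Nat.ble a b = true ↔ a ≤ b := by rw [Nat.ble_eq]

/-- next number of admissible labels -/
def nxt (K x : ℕ) : ℕ := if x + 1 = K ∧ K < 6 then K + 1 else K

theorem nxt_le (K x : ℕ) (h : K ≤ 6) : nxt K x ≤ 6 := by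
  unfold nxt
  split_ifs with h1
  · omega
  · exact h

theorem nx_eq (y : ℕ) (h : y < 6) : nx y = nxt (y + 1) y := by
  unfold nx nxt
  have h1 : ∀ y, y < 6 → Nat.sub 6 (Nat.sub 4 y) = if y + 1 = y + 1 ∧ y + 1 < 6 then y + 1 + 1 else y + 1 := by
    decide
  exact h1 y h

theorem lpi_spec (n : ℕ) (f : ℕ → Bool) (h : lpi n f = true) (x : ℕ) (hx : x < n) : f x = true := by
  induction n with
  | zero => omega
  | succ n ih =>
    have h1 : band (f n) (lpi n f) = true := h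
    rw [band_true] at h1
    rcases Nat.lt_or_ge x n with h2 | h2
    · exact ih h1.2 h2
    · have : x = n := by omega
      rw [this]
      exact h1.1

theorem lp_spec (K : ℕ) (hK : K ≤ 6) (f : ℕ → ℕ → Bool) (h : lp K f = true) (x : ℕ) (hx : x < K) :
    f x (nxt K x) = true := by
  cases K with
  | zero => omega
  | succ y =>
    have h1 : band (f y (nx y)) (lpi y fun x => f x (Nat.add y 1)) = true := h
    rw [band_true] at h1
    rcases Nat.lt_or_ge x y with h2 | h2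
    · have h3 := lpi_spec _ _ h1.2 x h2
      have h4 : nxt (y + 1) x = y + 1 := by
        unfold nxt
        rw [if_neg (by omega)]
      rw [h4]
      exact h3
    · have : x = y := by omega
      subst this
      rw [← nx_eq x (by omega)]
      exact h1.1

theorem walk4_spec (L : ℕ → ℕ → Bool) (K c : ℕ) (hK : K ≤ 6) (h : walk4 L K c = true) (u : ℕ)
    (hu : gro 4 K u) : ∃ p, L (c + 8 * u) p = true := by
  simp only [gro] at hu
  obtain ⟨h1, h2, h3, h4, h5⟩ := hu
  have a1 := lp_spec K hK _ h (u % 8) h1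
  have a2 := lp_spec _ (nxt_le _ _ hK) _ a1 (u / 8 % 8) h2
  have a3 := lp_spec _ (nxt_le _ _ (nxt_le _ _ hK)) _ a2 (u / 8 / 8 % 8) h3
  have a4 := lp_spec _ (nxt_le _ _ (nxt_le _ _ (nxt_le _ _ hK))) _ a3 (u / 8 / 8 / 8 % 8) h4
  have e : c + 8 * u = Nat.add c (Nat.add (Nat.mul (u % 8) 8) (Nat.add (Nat.mul (u / 8 % 8) 64)
        (Nat.add (Nat.mul (u / 8 / 8 % 8) 512) (Nat.mul (u / 8 / 8 / 8 % 8) 4096)))) := by
    simp only [Nat.add_eq, Nat.mul_eq]
    omega
  rw [e]
  exact ⟨_, a4⟩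

theorem wl_spec (Lf : ℕ → ℕ → ℕ → Bool) (Hs : List ℕ) : ∀ (K x : ℕ), K ≤ 6 →
    wl Lf Hs K x = true → ∀ y, x ≤ y → y < K → ∃ H, walk4 (Lf H) (nxt K y) y = true := by
  induction Hs with
  | nil =>
    intro K x _ h y h1 h2
    have h3 : Nat.beq x K = true := h
    rw [Nat.beq_eq] at h3
    omega
  | cons H Hs ih =>
    intro K x hK h y h1 h2
    have h3 : band (walk4 (Lf H) (Bool.rec K (nx x) (Nat.beq (Nat.add x 1) K)) x)
      (wl Lf Hs K (Nat.add x 1)) = true := h
    rw [band_true] at h3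
    rcases Nat.lt_or_ge x y with h4 | h4
    · exact ih K (Nat.add x 1) hK h3.2 y h4 h2
    · have : y = x := by omega
      subst this
      refine ⟨H, ?_⟩
      have h5 : (Bool.rec K (nx y) (Nat.beq (Nat.add y 1) K) : ℕ) = nxt K y := by
        by_cases h6 : y + 1 = K
        · have h7 : Nat.beq (Nat.add y 1) K = true := beq_iff.2 h6
          rw [h7]
          show nx y = _
          rw [nx_eq y (by omega), h6]
        · have h7 : Nat.beq (Nat.add y 1) K = false := by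
            rw [Bool.eq_false_iff]
            intro h8
            exact h6 (beq_iff.1 h8)
          rw [h7]
          show K = _
          unfold nxt
          rw [if_neg (by omega)]
      rw [h5] at h3
      exact h3.1

/-- every growth vector passes the leaf check -/
theorem wl_all (Lf : ℕ → ℕ → ℕ → Bool) (Hs : List ℕ) (K : ℕ) (hK : K ≤ 6) (h : wl Lf Hs K 0 = true)
    (u : ℕ) (hu : gro 5 K u) : ∃ H p, Lf H u p = true := by
  obtain ⟨h1, h2⟩ := hu
  obtain ⟨H, hH⟩ := wl_spec Lf Hs K 0 hK h (u % 8) (Nat.zero_le _) h1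
  obtain ⟨p, hp⟩ := walk4_spec (Lf H) _ _ (nxt_le _ _ hK) hH (u / 8) h2
  refine ⟨H, p, ?_⟩
  have e : u = u % 8 + 8 * (u / 8) := by omega
  rw [e]
  exact hp

theorem gro_dig : ∀ (n K u : ℕ), K ≤ 6 → gro n K u → ∀ e, od u e < 6
  | 0, K, u, _, h, e => by
    have h1 : u = 0 := h
    rw [h1]
    simp [od]
  | n + 1, K, u, hK, h, e => by
    obtain ⟨h1, h2⟩ := h
    cases e with
    | zero =>
      simp only [od, pow_zero, Nat.div_one]
      omega
    | succ e =>
      have h3 := gro_dig n _ _ (nxt_le K (u % 8) hK) h2 e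
      simp only [od] at h3 ⊢
      rw [pow_succ', ← Nat.div_div_eq_div_mul]
      exact h3

/-! ### soundness of one leaf -/

theorem bool_rec_true {a b c : Bool} (h : (Bool.rec a b c : Bool) = true) :
    (c = false ∧ a = true) ∨ (c = true ∧ b = true) := by
  cases c
  · exact Or.inl ⟨rfl, h⟩
  · exact Or.inr ⟨rfl, h⟩

theorem land_lt (h k n : ℕ) (hn : n = 2 ^ k - 1) : Nat.land h n < 2 ^ k := by
  have h1 : Nat.land h n ≤ n := Nat.and_le_right
  have h2 : 0 < 2 ^ k := by positivity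
  omega

theorem ptr_sound {TT : ℕ} {NN : ℕ → ℕ} {i B C c h : ℕ} (hp : ptr TT NN i B C c h = true)
    (hB : B < 8 ^ 10) (hc : c < 8 ^ 5) (hB6 : ∀ e, e < 10 → od B e < 6)
    (hc6 : ∀ e, e < 5 → od c e < 6) (hi : tj TT i = B)
    (hT : ∀ j e, j < 2048 → e < 10 → od (tj TT j) e < 6)
    (h5 : ∀ j, j < 526 → Kill 5 (tj TT j))
    (hN : ∀ j, 526 ≤ j → j < i → ∀ u, (NN j).testBit u = true → Kill 6 (tj TT j + u * 8 ^ 10))
    (hC : ∀ u, C.testBit u = true → Kill 6 (B + u * 8 ^ 10)) : Kill 6 (B + c * 8 ^ 10) := by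
  intro F f g ho
  have hj : Nat.land h 2047 < 2048 := land_lt h 11 _ rfl
  have hv : Nat.land (Nat.shiftRight h 11) 1023 < 1024 := land_lt _ 10 _ rfl
  have hw : Nat.land (Nat.shiftRight h 21) 1023 < 1024 := land_lt _ 10 _ rfl
  unfold ptr at hp
  simp only [frc_eq] at hp
  generalize Nat.land h 2047 = j at hp hj
  generalize Nat.land (Nat.shiftRight h 11) 1023 = v at hp hv
  generalize Nat.land (Nat.shiftRight h 21) 1023 = w at hp hw
  rw [band_true, beq_iff, land30] at hp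
  obtain ⟨hp1, hp2⟩ := hp
  have hTj : ∀ e, e < 10 → od (tj TT j) e < 6 := fun e he => hT j e hj he
  have hTl : tj TT j < 8 ^ 10 := land_lt _ 30 _ rfl
  have hRd : Nat.shiftRight (Nat.add (G15 B (ep v)) (scat c v)) 30 =
      Nat.add (G15 B (ep v)) (scat c v) / 8 ^ 10 := by
    show (Nat.add (G15 B (ep v)) (scat c v)) >>> 30 = _
    rw [Nat.shiftRight_eq_div_pow]
    norm_num
  rcases bool_rec_true hp2 with ⟨h1, h2⟩ | ⟨h1, -⟩
  · have h526 : 526 ≤ j := by
      by_contra hlt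
      have : Nat.ble j 525 = true := ble_iff.2 (by omega)
      rw [this] at h1
      exact absurd h1 (by decide)
    have h6 := Occ.six ho hB hc hv hw hTj hTl hB6 hc6 hp1
    rw [hRd] at h2
    rcases bool_rec_true h2 with ⟨h3, h4⟩ | ⟨h3, h4⟩
    · rw [band_true, beq_iff, testBit_iff] at h4
      obtain ⟨rfl, h4⟩ := h4
      rw [hi] at h6
      exact hC _ h4 _ _ _ h6
    · rw [testBit_iff] at h4
      exact hN j h526 (ble_iff.1 h3) _ h4 _ _ _ h6
  · exact h5 j (by have := ble_iff.1 h1; omega) _ _ _ (Occ.five ho hB hc hv hw hTj hp1)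

theorem leaf_sound {TT : ℕ} {NN : ℕ → ℕ} {i B E C H c p : ℕ} (hl : leaf TT NN i B E C H c p = true)
    (hE : E.testBit c = false)
    (hB : B < 8 ^ 10) (hc : c < 8 ^ 5) (hB6 : ∀ e, e < 10 → od B e < 6)
    (hc6 : ∀ e, e < 5 → od c e < 6) (hi : tj TT i = B)
    (hT : ∀ j e, j < 2048 → e < 10 → od (tj TT j) e < 6)
    (h5 : ∀ j, j < 526 → Kill 5 (tj TT j))
    (hN : ∀ j, 526 ≤ j → j < i → ∀ u, (NN j).testBit u = true → Kill 6 (tj TT j + u * 8 ^ 10))
    (hC : ∀ u, C.testBit u = true → Kill 6 (B + u * 8 ^ 10)) : Kill 6 (B + c * 8 ^ 10) := by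
  unfold leaf at hl
  rcases bool_rec_true hl with ⟨-, h1⟩ | ⟨h1, -⟩
  · simp only [frc_eq] at h1
    exact ptr_sound h1 hB hc hB6 hc6 hi hT h5 hN hC
  · rw [testBit_iff] at h1
    have h2 : (E ||| C).testBit c = true := h1
    rw [Nat.testBit_or, hE, Bool.false_or] at h2
    exact hC c h2

/-- **one type** -/
theorem step {TT : ℕ} {NN : ℕ → ℕ} {i B E C K : ℕ} {Hs : List ℕ}
    (hw : wl (leaf TT NN i B E C) Hs K 0 = true) (hK : K ≤ 6)
    (hB : B < 8 ^ 10) (hB6 : ∀ e, e < 10 → od B e < 6) (hi : tj TT i = B)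
    (hT : ∀ j e, j < 2048 → e < 10 → od (tj TT j) e < 6)
    (h5 : ∀ j, j < 526 → Kill 5 (tj TT j))
    (hN : ∀ j, 526 ≤ j → j < i → ∀ u, (NN j).testBit u = true → Kill 6 (tj TT j + u * 8 ^ 10))
    (hC : ∀ u, C.testBit u = true → Kill 6 (B + u * 8 ^ 10)) :
    ∀ u, gro 5 K u → E.testBit u = false → Kill 6 (B + u * 8 ^ 10) := by
  intro u hu hE
  obtain ⟨H, p, hp⟩ := wl_all _ _ _ hK hw u hu
  exact leaf_sound hp hE hB (gro_lt 5 K u hu) hB6 (fun e _ => gro_dig 5 K u hK hu e) hi hT h5 hN hC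

end CR.L6
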