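import Pool.Agent.Lib.MP_6f5d36_co.L6.W000
import Pool.Agent.Lib.MP_6f5d36_co.L6.CkS
import Pool.Agent.Lib.MP_6f5d36_co.D6.X000
import Pool.Agent.Lib.MP_6f5d36_co.D6.Y000
import Pool.Agent.Lib.MP_6f5d36_co.D6.X001
import Pool.Agent.Lib.MP_6f5d36_co.D6.X002
import Pool.Agent.Lib.MP_6f5d36_co.D6.X003

set_option autoImplicit false

/-!
# MP_6f5d36_co : level 6 for the types 526 to 535
-/

namespace CR.L6

theorem c6_526 (hs : Sound6) : ∀ u, C6_526.testBit u = true → Kill 6 (170168320 + u * 8 ^ 10) :=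
  kill_eq (kill_or (ck6_sound' hs D6.x_526_0)
    (ck6_sound' hs D6.xs_526_0))
    (by decide +kernel : Nat.beq C6_526 (Nat.lor D6.m_526_0 D6.ms_526_0) = true)

theorem c6_527 (hs : Sound6) : ∀ u, C6_527.testBit u = true → Kill 6 (442831424 + u * 8 ^ 10) :=
  kill_eq (kill_or (ck6_sound' hs D6.x_527_0)
    (kill_or (ck6_sound' hs D6.x_527_1)
    (ck6_sound' hs D6.x_527_2)))
    (by decide +kernel : Nat.beq C6_527 (Nat.lor D6.m_527_0 (Nat.lor D6.m_527_1 D6.m_527_2)) = true)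

theorem c6_528 (hs : Sound6) : ∀ u, C6_528.testBit u = true → Kill 6 (453579328 + u * 8 ^ 10) :=
  kill_eq (kill_or (ck6_sound' hs D6.x_528_0)
    (kill_or (ck6_sound' hs D6.x_528_1)
    (kill_or (ck6_sound' hs D6.x_528_2)
    (kill_or (ck6_sound' hs D6.x_528_3)
    (ck6_sound' hs D6.xs_528_0)))))
    (by decide +kernel : Nat.beq C6_528 (Nat.lor D6.m_528_0 (Nat.lor D6.m_528_1 (Nat.lor D6.m_528_2 (Nat.lor D6.m_528_3 D6.ms_528_0)))) = true)

theorem c6_529 (hs : Sound6) : ∀ u, C6_529.testBit u = true → Kill 6 (441258560 + u * 8 ^ 10) :=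
  kill_eq (kill_or (ck6_sound' hs D6.x_529_0)
    (kill_or (ck6_sound' hs D6.x_529_1)
    (kill_or (ck6_sound' hs D6.x_529_2)
    (ck6_sound' hs D6.xs_529_0))))
    (by decide +kernel : Nat.beq C6_529 (Nat.lor D6.m_529_0 (Nat.lor D6.m_529_1 (Nat.lor D6.m_529_2 D6.ms_529_0))) = true)

theorem c6_530 (hs : Sound6) : ∀ u, C6_530.testBit u = true → Kill 6 (443093056 + u * 8 ^ 10) :=
  kill_eq (kill_or (ck6_sound' hs D6.x_530_0)
    (kill_or (ck6_sound' hs D6.x_530_1)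
    (kill_or (ck6_sound' hs D6.x_530_2)
    (ck6_sound' hs D6.xs_530_0))))
    (by decide +kernel : Nat.beq C6_530 (Nat.lor D6.m_530_0 (Nat.lor D6.m_530_1 (Nat.lor D6.m_530_2 D6.ms_530_0))) = true)

theorem c6_531 (hs : Sound6) : ∀ u, C6_531.testBit u = true → Kill 6 (441258048 + u * 8 ^ 10) :=
  kill_eq (kill_or (ck6_sound' hs D6.x_531_0)
    (kill_or (ck6_sound' hs D6.x_531_1)
    (kill_or (ck6_sound' hs D6.x_531_2)
    (ck6_sound' hs D6.xs_531_0))))
    (by decide +kernel : Nat.beq C6_531 (Nat.lor D6.m_531_0 (Nat.lor D6.m_531_1 (Nat.lor D6.m_531_2 D6.ms_531_0))) = true)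

theorem c6_532 (hs : Sound6) : ∀ u, C6_532.testBit u = true → Kill 6 (275321408 + u * 8 ^ 10) :=
  kill_eq (kill_or (ck6_sound' hs D6.x_532_0)
    (kill_or (ck6_sound' hs D6.x_532_1)
    (ck6_sound' hs D6.xs_532_0)))
    (by decide +kernel : Nat.beq C6_532 (Nat.lor D6.m_532_0 (Nat.lor D6.m_532_1 D6.ms_532_0)) = true)

theorem c6_533 (hs : Sound6) : ∀ u, C6_533.testBit u = true → Kill 6 (325653056 + u * 8 ^ 10) :=
  kill_eq (kill_or (ck6_sound' hs D6.x_533_0)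
    (kill_or (ck6_sound' hs D6.x_533_1)
    (kill_or (ck6_sound' hs D6.x_533_2)
    (ck6_sound' hs D6.xs_533_0))))
    (by decide +kernel : Nat.beq C6_533 (Nat.lor D6.m_533_0 (Nat.lor D6.m_533_1 (Nat.lor D6.m_533_2 D6.ms_533_0))) = true)

theorem c6_534 (hs : Sound6) : ∀ u, C6_534.testBit u = true → Kill 6 (440696832 + u * 8 ^ 10) :=
  kill_eq (kill_or (ck6_sound' hs D6.x_534_0)
    (ck6_sound' hs D6.xs_534_0))
    (by decide +kernel : Nat.beq C6_534 (Nat.lor D6.m_534_0 D6.ms_534_0) = true)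

theorem c6_535 (hs : Sound6) : ∀ u, C6_535.testBit u = true → Kill 6 (426053696 + u * 8 ^ 10) :=
  kill_eq (kill_or (ck6_sound' hs D6.x_535_0)
    (kill_or (ck6_sound' hs D6.x_535_1)
    (ck6_sound' hs D6.x_535_2)))
    (by decide +kernel : Nat.beq C6_535 (Nat.lor D6.m_535_0 (Nat.lor D6.m_535_1 D6.m_535_2)) = true)

theorem st_0 (hs : Sound6) : ∀ i, 526 ≤ i → i < 536 → St i := by
  intro i h1 h2
  interval_cases i
  · exact s_526 (c6_526 hs)
  · exact s_527 (c6_527 hs)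
  · exact s_528 (c6_528 hs)
  · exact s_529 (c6_529 hs)
  · exact s_530 (c6_530 hs)
  · exact s_531 (c6_531 hs)
  · exact s_532 (c6_532 hs)
  · exact s_533 (c6_533 hs)
  · exact s_534 (c6_534 hs)
  · exact s_535 (c6_535 hs)

end CR.L6
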