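import Pool.Agent.Lib.MP_6f5d36_co.L6.W011
import Pool.Agent.Lib.MP_6f5d36_co.L6.CkS
import Pool.Agent.Lib.MP_6f5d36_co.D6.X027
import Pool.Agent.Lib.MP_6f5d36_co.D6.X028
import Pool.Agent.Lib.MP_6f5d36_co.D6.Y002
import Pool.Agent.Lib.MP_6f5d36_co.D6.X029

set_option autoImplicit false

/-!
# MP_6f5d36_co : level 6 for the types 636 to 645
-/

namespace CR.L6

theorem c6_636 (hs : Sound6) : ∀ u, C6_636.testBit u = true → Kill 6 (436802112 + u * 8 ^ 10) :=
  kill_eq (kill_or (ck6_sound' hs D6.x_636_0)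
    (kill_or (ck6_sound' hs D6.x_636_1)
    (kill_or (ck6_sound' hs D6.x_636_2)
    (ck6_sound' hs D6.xs_636_0))))
    (by decide +kernel : Nat.beq C6_636 (Nat.lor D6.m_636_0 (Nat.lor D6.m_636_1 (Nat.lor D6.m_636_2 D6.ms_636_0))) = true)

theorem c6_637 (hs : Sound6) : ∀ u, C6_637.testBit u = true → Kill 6 (407704128 + u * 8 ^ 10) :=
  kill_eq (kill_or (ck6_sound' hs D6.x_637_0)
    (kill_or (ck6_sound' hs D6.x_637_1)
    (kill_or (ck6_sound' hs D6.x_637_2)
    (ck6_sound' hs D6.xs_637_0))))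
    (by decide +kernel : Nat.beq C6_637 (Nat.lor D6.m_637_0 (Nat.lor D6.m_637_1 (Nat.lor D6.m_637_2 D6.ms_637_0))) = true)

theorem c6_638 (hs : Sound6) : ∀ u, C6_638.testBit u = true → Kill 6 (308613632 + u * 8 ^ 10) :=
  kill_eq (kill_or (ck6_sound' hs D6.x_638_0)
    (ck6_sound' hs D6.xs_638_0))
    (by decide +kernel : Nat.beq C6_638 (Nat.lor D6.m_638_0 D6.ms_638_0) = true)

theorem c6_639 (hs : Sound6) : ∀ u, C6_639.testBit u = true → Kill 6 (308613120 + u * 8 ^ 10) :=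
  kill_eq (kill_or (ck6_sound' hs D6.x_639_0)
    (kill_or (ck6_sound' hs D6.xs_639_0)
    (ck6_sound' hs D6.xs_639_1)))
    (by decide +kernel : Nat.beq C6_639 (Nat.lor D6.m_639_0 (Nat.lor D6.ms_639_0 D6.ms_639_1)) = true)

theorem c6_640 (hs : Sound6) : ∀ u, C6_640.testBit u = true → Kill 6 (407179264 + u * 8 ^ 10) :=
  kill_eq (kill_or (ck6_sound' hs D6.x_640_0)
    (ck6_sound' hs D6.xs_640_0))
    (by decide +kernel : Nat.beq C6_640 (Nat.lor D6.m_640_0 D6.ms_640_0) = true)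

theorem c6_641 (hs : Sound6) : ∀ u, C6_641.testBit u = true → Kill 6 (302845952 + u * 8 ^ 10) :=
  kill_eq (kill_or (ck6_sound' hs D6.x_641_0)
    (ck6_sound' hs D6.xs_641_0))
    (by decide +kernel : Nat.beq C6_641 (Nat.lor D6.m_641_0 D6.ms_641_0) = true)

theorem c6_642 (hs : Sound6) : ∀ u, C6_642.testBit u = true → Kill 6 (157917696 + u * 8 ^ 10) :=
  kill_eq (kill_or (ck6_sound' hs D6.x_642_0)
    (ck6_sound' hs D6.xs_642_0))
    (by decide +kernel : Nat.beq C6_642 (Nat.lor D6.m_642_0 D6.ms_642_0) = true)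

theorem c6_643 (hs : Sound6) : ∀ u, C6_643.testBit u = true → Kill 6 (328307776 + u * 8 ^ 10) :=
  kill_eq (kill_or (ck6_sound' hs D6.x_643_0)
    (ck6_sound' hs D6.xs_643_0))
    (by decide +kernel : Nat.beq C6_643 (Nat.lor D6.m_643_0 D6.ms_643_0) = true)

theorem c6_644 (hs : Sound6) : ∀ u, C6_644.testBit u = true → Kill 6 (322019392 + u * 8 ^ 10) :=
  kill_eq (kill_or (ck6_sound' hs D6.x_644_0)
    (ck6_sound' hs D6.xs_644_0))
    (by decide +kernel : Nat.beq C6_644 (Nat.lor D6.m_644_0 D6.ms_644_0) = true)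

theorem c6_645 (hs : Sound6) : ∀ u, C6_645.testBit u = true → Kill 6 (338010176 + u * 8 ^ 10) :=
  kill_eq (kill_or (ck6_sound' hs D6.x_645_0)
    (kill_or (ck6_sound' hs D6.x_645_1)
    (kill_or (ck6_sound' hs D6.x_645_2)
    (ck6_sound' hs D6.xs_645_0))))
    (by decide +kernel : Nat.beq C6_645 (Nat.lor D6.m_645_0 (Nat.lor D6.m_645_1 (Nat.lor D6.m_645_2 D6.ms_645_0))) = true)

theorem st_11 (hs : Sound6) : ∀ i, 636 ≤ i → i < 646 → St i := by
  intro i h1 h2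
  interval_cases i
  · exact s_636 (c6_636 hs)
  · exact s_637 (c6_637 hs)
  · exact s_638 (c6_638 hs)
  · exact s_639 (c6_639 hs)
  · exact s_640 (c6_640 hs)
  · exact s_641 (c6_641 hs)
  · exact s_642 (c6_642 hs)
  · exact s_643 (c6_643 hs)
  · exact s_644 (c6_644 hs)
  · exact s_645 (c6_645 hs)

end CR.L6
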