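import Pool.Agent.Lib.MP_6f5d36_co.L6.W023
import Pool.Agent.Lib.MP_6f5d36_co.L6.CkS
import Pool.Agent.Lib.MP_6f5d36_co.D6.X061
import Pool.Agent.Lib.MP_6f5d36_co.D6.Y012
import Pool.Agent.Lib.MP_6f5d36_co.D6.X062

set_option autoImplicit false

/-!
# MP_6f5d36_co : level 6 for the types 756 to 765
-/

namespace CR.L6

theorem c6_756 (hs : Sound6) : ∀ u, C6_756.testBit u = true → Kill 6 (577048640 + u * 8 ^ 10) :=
  kill_eq (kill_or (ck6_sound' hs D6.x_756_0)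
    (ck6_sound' hs D6.xs_756_0))
    (by decide +kernel : Nat.beq C6_756 (Nat.lor D6.m_756_0 D6.ms_756_0) = true)

theorem c6_757 (hs : Sound6) : ∀ u, C6_757.testBit u = true → Kill 6 (538026048 + u * 8 ^ 10) :=
  kill_eq (kill_or (ck6_sound' hs D6.x_757_0)
    (ck6_sound' hs D6.xs_757_0))
    (by decide +kernel : Nat.beq C6_757 (Nat.lor D6.m_757_0 D6.ms_757_0) = true)

theorem c6_758 (hs : Sound6) : ∀ u, C6_758.testBit u = true → Kill 6 (610861632 + u * 8 ^ 10) :=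
  kill_eq (kill_or (ck6_sound' hs D6.x_758_0)
    (kill_or (ck6_sound' hs D6.x_758_1)
    (kill_or (ck6_sound' hs D6.x_758_2)
    (kill_or (ck6_sound' hs D6.xs_758_0)
    (ck6_sound' hs D6.xs_758_1)))))
    (by decide +kernel : Nat.beq C6_758 (Nat.lor D6.m_758_0 (Nat.lor D6.m_758_1 (Nat.lor D6.m_758_2 (Nat.lor D6.ms_758_0 D6.ms_758_1)))) = true)

theorem c6_759 (hs : Sound6) : ∀ u, C6_759.testBit u = true → Kill 6 (604840512 + u * 8 ^ 10) :=
  kill_eq (kill_or (ck6_sound' hs D6.x_759_0)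
    (kill_or (ck6_sound' hs D6.x_759_1)
    (ck6_sound' hs D6.xs_759_0)))
    (by decide +kernel : Nat.beq C6_759 (Nat.lor D6.m_759_0 (Nat.lor D6.m_759_1 D6.ms_759_0)) = true)

theorem c6_760 (hs : Sound6) : ∀ u, C6_760.testBit u = true → Kill 6 (538026560 + u * 8 ^ 10) :=
  kill_eq (kill_or (ck6_sound' hs D6.x_760_0)
    (ck6_sound' hs D6.xs_760_0))
    (by decide +kernel : Nat.beq C6_760 (Nat.lor D6.m_760_0 D6.ms_760_0) = true)

theorem c6_761 (hs : Sound6) : ∀ u, C6_761.testBit u = true → Kill 6 (160007232 + u * 8 ^ 10) :=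
  kill_eq (kill_or (ck6_sound' hs D6.x_761_0)
    (kill_or (ck6_sound' hs D6.x_761_1)
    (ck6_sound' hs D6.xs_761_0)))
    (by decide +kernel : Nat.beq C6_761 (Nat.lor D6.m_761_0 (Nat.lor D6.m_761_1 D6.ms_761_0)) = true)

theorem c6_762 (hs : Sound6) : ∀ u, C6_762.testBit u = true → Kill 6 (556601344 + u * 8 ^ 10) :=
  kill_eq (kill_or (ck6_sound' hs D6.x_762_0)
    (kill_or (ck6_sound' hs D6.x_762_1)
    (ck6_sound' hs D6.xs_762_0)))
    (by decide +kernel : Nat.beq C6_762 (Nat.lor D6.m_762_0 (Nat.lor D6.m_762_1 D6.ms_762_0)) = true)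

theorem c6_763 (hs : Sound6) : ∀ u, C6_763.testBit u = true → Kill 6 (208212480 + u * 8 ^ 10) :=
  kill_eq (kill_or (ck6_sound' hs D6.x_763_0)
    (ck6_sound' hs D6.xs_763_0))
    (by decide +kernel : Nat.beq C6_763 (Nat.lor D6.m_763_0 D6.ms_763_0) = true)

theorem c6_764 (hs : Sound6) : ∀ u, C6_764.testBit u = true → Kill 6 (277680192 + u * 8 ^ 10) :=
  kill_eq (kill_or (ck6_sound' hs D6.x_764_0)
    (ck6_sound' hs D6.xs_764_0))
    (by decide +kernel : Nat.beq C6_764 (Nat.lor D6.m_764_0 D6.ms_764_0) = true)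

theorem c6_765 (hs : Sound6) : ∀ u, C6_765.testBit u = true → Kill 6 (294457408 + u * 8 ^ 10) :=
  kill_eq (kill_or (ck6_sound' hs D6.x_765_0)
    (ck6_sound' hs D6.xs_765_0))
    (by decide +kernel : Nat.beq C6_765 (Nat.lor D6.m_765_0 D6.ms_765_0) = true)

theorem st_23 (hs : Sound6) : ∀ i, 756 ≤ i → i < 766 → St i := by
  intro i h1 h2
  interval_cases i
  · exact s_756 (c6_756 hs)
  · exact s_757 (c6_757 hs)
  · exact s_758 (c6_758 hs)
  · exact s_759 (c6_759 hs)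
  · exact s_760 (c6_760 hs)
  · exact s_761 (c6_761 hs)
  · exact s_762 (c6_762 hs)
  · exact s_763 (c6_763 hs)
  · exact s_764 (c6_764 hs)
  · exact s_765 (c6_765 hs)

end CR.L6
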