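import Pool.Agent.Lib.MP_6f5d36_co.L6.W035
import Pool.Agent.Lib.MP_6f5d36_co.L6.CkS
import Pool.Agent.Lib.MP_6f5d36_co.D6.X072
import Pool.Agent.Lib.MP_6f5d36_co.D6.Y019

set_option autoImplicit false

/-!
# MP_6f5d36_co : level 6 for the types 876 to 885
-/

namespace CR.L6

theorem c6_876 (hs : Sound6) : ∀ u, C6_876.testBit u = true → Kill 6 (560795712 + u * 8 ^ 10) :=
  kill_eq (kill_or (ck6_sound' hs D6.x_876_0)
    (ck6_sound' hs D6.xs_876_0))
    (by decide +kernel : Nat.beq C6_876 (Nat.lor D6.m_876_0 D6.ms_876_0) = true)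

theorem c6_877 (hs : Sound6) : ∀ u, C6_877.testBit u = true → Kill 6 (591765568 + u * 8 ^ 10) :=
  kill_eq (kill_or (ck6_sound' hs D6.x_877_0)
    (ck6_sound' hs D6.xs_877_0))
    (by decide +kernel : Nat.beq C6_877 (Nat.lor D6.m_877_0 D6.ms_877_0) = true)

theorem c6_878 (hs : Sound6) : ∀ u, C6_878.testBit u = true → Kill 6 (269590592 + u * 8 ^ 10) :=
  kill_eq (kill_or (ck6_sound' hs D6.x_878_0)
    (ck6_sound' hs D6.xs_878_0))
    (by decide +kernel : Nat.beq C6_878 (Nat.lor D6.m_878_0 D6.ms_878_0) = true)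

theorem c6_879 (hs : Sound6) : ∀ u, C6_879.testBit u = true → Kill 6 (592253504 + u * 8 ^ 10) :=
  kill_eq (kill_or (ck6_sound' hs D6.x_879_0)
    (ck6_sound' hs D6.xs_879_0))
    (by decide +kernel : Nat.beq C6_879 (Nat.lor D6.m_879_0 D6.ms_879_0) = true)

theorem c6_880 (hs : Sound6) : ∀ u, C6_880.testBit u = true → Kill 6 (573153856 + u * 8 ^ 10) :=
  kill_eq (kill_or (ck6_sound' hs D6.x_880_0)
    (ck6_sound' hs D6.xs_880_0))
    (by decide +kernel : Nat.beq C6_880 (Nat.lor D6.m_880_0 D6.ms_880_0) = true)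

theorem c6_881 (hs : Sound6) : ∀ u, C6_881.testBit u = true → Kill 6 (589631488 + u * 8 ^ 10) :=
  kill_eq (kill_or (ck6_sound' hs D6.x_881_0)
    (ck6_sound' hs D6.xs_881_0))
    (by decide +kernel : Nat.beq C6_881 (Nat.lor D6.m_881_0 D6.ms_881_0) = true)

theorem c6_882 (hs : Sound6) : ∀ u, C6_882.testBit u = true → Kill 6 (560267840 + u * 8 ^ 10) :=
  kill_eq (kill_or (ck6_sound' hs D6.x_882_0)
    (ck6_sound' hs D6.xs_882_0))
    (by decide +kernel : Nat.beq C6_882 (Nat.lor D6.m_882_0 D6.ms_882_0) = true)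

theorem c6_883 (hs : Sound6) : ∀ u, C6_883.testBit u = true → Kill 6 (544014912 + u * 8 ^ 10) :=
  kill_eq (kill_or (ck6_sound' hs D6.x_883_0)
    (ck6_sound' hs D6.xs_883_0))
    (by decide +kernel : Nat.beq C6_883 (Nat.lor D6.m_883_0 D6.ms_883_0) = true)

theorem c6_884 (hs : Sound6) : ∀ u, C6_884.testBit u = true → Kill 6 (589860864 + u * 8 ^ 10) :=
  kill_eq (kill_or (ck6_sound' hs D6.x_884_0)
    (ck6_sound' hs D6.xs_884_0))
    (by decide +kernel : Nat.beq C6_884 (Nat.lor D6.m_884_0 D6.ms_884_0) = true)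

theorem c6_885 (hs : Sound6) : ∀ u, C6_885.testBit u = true → Kill 6 (294457856 + u * 8 ^ 10) :=
  kill_eq (kill_or (ck6_sound' hs D6.x_885_0)
    (ck6_sound' hs D6.xs_885_0))
    (by decide +kernel : Nat.beq C6_885 (Nat.lor D6.m_885_0 D6.ms_885_0) = true)

theorem st_35 (hs : Sound6) : ∀ i, 876 ≤ i → i < 886 → St i := by
  intro i h1 h2
  interval_cases i
  · exact s_876 (c6_876 hs)
  · exact s_877 (c6_877 hs)
  · exact s_878 (c6_878 hs)
  · exact s_879 (c6_879 hs)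
  · exact s_880 (c6_880 hs)
  · exact s_881 (c6_881 hs)
  · exact s_882 (c6_882 hs)
  · exact s_883 (c6_883 hs)
  · exact s_884 (c6_884 hs)
  · exact s_885 (c6_885 hs)

end CR.L6
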