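import Pool.Agent.Lib.MP_6f5d36_co.L6.W047
import Pool.Agent.Lib.MP_6f5d36_co.L6.CkS
import Pool.Agent.Lib.MP_6f5d36_co.D6.X074
import Pool.Agent.Lib.MP_6f5d36_co.D6.Y022

set_option autoImplicit false

/-!
# MP_6f5d36_co : level 6 for the types 996 to 1005
-/

namespace CR.L6

theorem c6_996 (hs : Sound6) : ∀ u, C6_996.testBit u = true → Kill 6 (745346112 + u * 8 ^ 10) :=
  kill_zero (by decide +kernel)

theorem c6_997 (hs : Sound6) : ∀ u, C6_997.testBit u = true → Kill 6 (743289920 + u * 8 ^ 10) :=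
  kill_eq (kill_or (ck6_sound' hs D6.x_997_0)
    (ck6_sound' hs D6.xs_997_0))
    (by decide +kernel : Nat.beq C6_997 (Nat.lor D6.m_997_0 D6.ms_997_0) = true)

theorem c6_998 (hs : Sound6) : ∀ u, C6_998.testBit u = true → Kill 6 (743322688 + u * 8 ^ 10) :=
  kill_eq (kill_or (ck6_sound' hs D6.x_998_0)
    (ck6_sound' hs D6.xs_998_0))
    (by decide +kernel : Nat.beq C6_998 (Nat.lor D6.m_998_0 D6.ms_998_0) = true)

theorem c6_999 (hs : Sound6) : ∀ u, C6_999.testBit u = true → Kill 6 (739054144 + u * 8 ^ 10) :=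
  kill_eq (kill_or (ck6_sound' hs D6.x_999_0)
    (ck6_sound' hs D6.xs_999_0))
    (by decide +kernel : Nat.beq C6_999 (Nat.lor D6.m_999_0 D6.ms_999_0) = true)

theorem c6_1000 (hs : Sound6) : ∀ u, C6_1000.testBit u = true → Kill 6 (696878144 + u * 8 ^ 10) :=
  kill_eq (kill_or (ck6_sound' hs D6.x_1000_0)
    (ck6_sound' hs D6.xs_1000_0))
    (by decide +kernel : Nat.beq C6_1000 (Nat.lor D6.m_1000_0 D6.ms_1000_0) = true)

theorem c6_1001 (hs : Sound6) : ∀ u, C6_1001.testBit u = true → Kill 6 (431064128 + u * 8 ^ 10) :=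
  kill_eq (kill_or (ck6_sound' hs D6.x_1001_0)
    (ck6_sound' hs D6.xs_1001_0))
    (by decide +kernel : Nat.beq C6_1001 (Nat.lor D6.m_1001_0 D6.ms_1001_0) = true)

theorem c6_1002 (hs : Sound6) : ∀ u, C6_1002.testBit u = true → Kill 6 (730666048 + u * 8 ^ 10) :=
  kill_zero (by decide +kernel)

theorem c6_1003 (hs : Sound6) : ∀ u, C6_1003.testBit u = true → Kill 6 (730960960 + u * 8 ^ 10) :=
  kill_zero (by decide +kernel)

theorem c6_1004 (hs : Sound6) : ∀ u, C6_1004.testBit u = true → Kill 6 (496079936 + u * 8 ^ 10) :=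
  kill_zero (by decide +kernel)

theorem c6_1005 (hs : Sound6) : ∀ u, C6_1005.testBit u = true → Kill 6 (630002240 + u * 8 ^ 10) :=
  kill_eq (kill_or (ck6_sound' hs D6.x_1005_0)
    (ck6_sound' hs D6.xs_1005_0))
    (by decide +kernel : Nat.beq C6_1005 (Nat.lor D6.m_1005_0 D6.ms_1005_0) = true)

theorem st_47 (hs : Sound6) : ∀ i, 996 ≤ i → i < 1006 → St i := by
  intro i h1 h2
  interval_cases i
  · exact s_996 (c6_996 hs)
  · exact s_997 (c6_997 hs)
  · exact s_998 (c6_998 hs)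
  · exact s_999 (c6_999 hs)
  · exact s_1000 (c6_1000 hs)
  · exact s_1001 (c6_1001 hs)
  · exact s_1002 (c6_1002 hs)
  · exact s_1003 (c6_1003 hs)
  · exact s_1004 (c6_1004 hs)
  · exact s_1005 (c6_1005 hs)

end CR.L6
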