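import Pool.Agent.Lib.MP_6f5d36_co.L6.W059
import Pool.Agent.Lib.MP_6f5d36_co.L6.CkS
import Pool.Agent.Lib.MP_6f5d36_co.D6.X075
import Pool.Agent.Lib.MP_6f5d36_co.D6.Y023

set_option autoImplicit false

/-!
# MP_6f5d36_co : level 6 for the types 1116 to 1125
-/

namespace CR.L6

theorem c6_1116 (hs : Sound6) : ∀ u, C6_1116.testBit u = true → Kill 6 (495788608 + u * 8 ^ 10) :=
  kill_zero (by decide +kernel)

theorem c6_1117 (hs : Sound6) : ∀ u, C6_1117.testBit u = true → Kill 6 (629776960 + u * 8 ^ 10) :=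
  kill_eq (kill_or (ck6_sound' hs D6.x_1117_0)
    (ck6_sound' hs D6.xs_1117_0))
    (by decide +kernel : Nat.beq C6_1117 (Nat.lor D6.m_1117_0 D6.ms_1117_0) = true)

theorem c6_1118 (hs : Sound6) : ∀ u, C6_1118.testBit u = true → Kill 6 (626106944 + u * 8 ^ 10) :=
  kill_eq (ck6_sound' hs D6.xs_1118_0)
    (by decide +kernel : Nat.beq C6_1118 D6.ms_1118_0 = true)

theorem c6_1119 (hs : Sound6) : ∀ u, C6_1119.testBit u = true → Kill 6 (745644608 + u * 8 ^ 10) :=
  kill_eq (kill_or (ck6_sound' hs D6.x_1119_0)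
    (ck6_sound' hs D6.xs_1119_0))
    (by decide +kernel : Nat.beq C6_1119 (Nat.lor D6.m_1119_0 D6.ms_1119_0) = true)

theorem c6_1120 (hs : Sound6) : ∀ u, C6_1120.testBit u = true → Kill 6 (625882176 + u * 8 ^ 10) :=
  kill_eq (kill_or (ck6_sound' hs D6.x_1120_0)
    (ck6_sound' hs D6.xs_1120_0))
    (by decide +kernel : Nat.beq C6_1120 (Nat.lor D6.m_1120_0 D6.ms_1120_0) = true)

theorem c6_1121 (hs : Sound6) : ∀ u, C6_1121.testBit u = true → Kill 6 (624009792 + u * 8 ^ 10) :=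
  kill_eq (ck6_sound' hs D6.xs_1121_0)
    (by decide +kernel : Nat.beq C6_1121 D6.ms_1121_0 = true)

theorem c6_1122 (hs : Sound6) : ∀ u, C6_1122.testBit u = true → Kill 6 (760324672 + u * 8 ^ 10) :=
  kill_zero (by decide +kernel)

theorem c6_1123 (hs : Sound6) : ∀ u, C6_1123.testBit u = true → Kill 6 (716276800 + u * 8 ^ 10) :=
  kill_eq (kill_or (ck6_sound' hs D6.x_1123_0)
    (ck6_sound' hs D6.xs_1123_0))
    (by decide +kernel : Nat.beq C6_1123 (Nat.lor D6.m_1123_0 D6.ms_1123_0) = true)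

theorem c6_1124 (hs : Sound6) : ∀ u, C6_1124.testBit u = true → Kill 6 (632390720 + u * 8 ^ 10) :=
  kill_eq (ck6_sound' hs D6.xs_1124_0)
    (by decide +kernel : Nat.beq C6_1124 D6.ms_1124_0 = true)

theorem c6_1125 (hs : Sound6) : ∀ u, C6_1125.testBit u = true → Kill 6 (745082944 + u * 8 ^ 10) :=
  kill_zero (by decide +kernel)

theorem st_59 (hs : Sound6) : ∀ i, 1116 ≤ i → i < 1126 → St i := by
  intro i h1 h2
  interval_cases i
  · exact s_1116 (c6_1116 hs)
  · exact s_1117 (c6_1117 hs)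
  · exact s_1118 (c6_1118 hs)
  · exact s_1119 (c6_1119 hs)
  · exact s_1120 (c6_1120 hs)
  · exact s_1121 (c6_1121 hs)
  · exact s_1122 (c6_1122 hs)
  · exact s_1123 (c6_1123 hs)
  · exact s_1124 (c6_1124 hs)
  · exact s_1125 (c6_1125 hs)

end CR.L6
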